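import Pool.Agent.T2h80.CL.Stm

/-!
CNT: the number of `x` in an interval with `EE`.
-/

set_option autoImplicit false
set_option linter.all false

namespace Pool.Agent.T2h80.CL

open Finset

namespace CNTh

/-- integers of a class in an interval, integral end points -/
lemma class_card (u w m r : ℕ) (hm : 1 ≤ m) (huw : u ≤ w) :
    |(((Ico u w).filter (fun x => x ≡ r [MOD m])).card : ℝ) - ((w : ℝ) - u) / m| ≤ 1 := by
  have h1 := Nat.Ico_filter_modEq_card u w hm r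
  have hmQ : (0 : ℚ) < m := by exact_mod_cast hm
  have h2 : (⌈((u : ℚ) - r) / m⌉ : ℤ) ≤ ⌈((w : ℚ) - r) / m⌉ := by
    apply Int.ceil_le_ceil
    have : (u : ℚ) ≤ w := by exact_mod_cast huw
    gcongr
  rw [max_eq_left (by linarith)] at h1
  have h3 := Int.le_ceil (((w : ℚ) - r) / m)
  have h4 := Int.ceil_lt_add_one (((w : ℚ) - r) / m)
  have h5 := Int.le_ceil (((u : ℚ) - r) / m)
  have h6 := Int.ceil_lt_add_one (((u : ℚ) - r) / m)
  have h7 : ((((Ico u w).filter (fun x => x ≡ r [MOD m])).card : ℤ) : ℚ) =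
      (⌈((w : ℚ) - r) / m⌉ : ℚ) - (⌈((u : ℚ) - r) / m⌉ : ℚ) := by
    rw [h1]
    push_cast
    rfl
  have h8 : |((((Ico u w).filter (fun x => x ≡ r [MOD m])).card : ℤ) : ℚ) - ((w : ℚ) - u) / m| ≤ 1 := by
    have h9 : ((w : ℚ) - u) / m = ((w : ℚ) - r) / m - ((u : ℚ) - r) / m := by
      rw [← sub_div]
      congr 1
      ring
    rw [h7, h9, abs_le]
    constructor <;> linarith
  have h10 : ((|((((Ico u w).filter (fun x => x ≡ r [MOD m])).card : ℤ) : ℚ) - ((w : ℚ) - u) / m| : ℚ) : ℝ)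
      ≤ ((1 : ℚ) : ℝ) := by exact_mod_cast h8
  push_cast at h10
  exact h10

/-- the integers strictly between two reals -/
lemma mem_between (α β : ℝ) (hβ : 0 ≤ β) (x : ℕ) :
    x ∈ Ico (⌊β⌋₊ + 1) (max ⌈α⌉₊ (⌊β⌋₊ + 1)) ↔ β < x ∧ (x : ℝ) < α := by
  rw [Finset.mem_Ico, lt_max_iff, Nat.lt_ceil, ← Nat.floor_lt hβ]
  constructor
  · rintro ⟨h1, h2 | h2⟩
    · exact ⟨by omega, h2⟩
    · omega
  · rintro ⟨h1, h2⟩
    exact ⟨by omega, Or.inl h2⟩

lemma len_between (α β : ℝ) (hβ : 0 ≤ β) (hαβ : β ≤ α) :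
    |(((max ⌈α⌉₊ (⌊β⌋₊ + 1) : ℕ) : ℝ) - ((⌊β⌋₊ + 1 : ℕ) : ℝ)) - (α - β)| ≤ 1 := by
  have h1 := Nat.floor_le hβ
  have h2 := Nat.lt_floor_add_one β
  have h3 := Nat.le_ceil α
  have h4 := Nat.ceil_lt_add_one (hβ.trans hαβ)
  push_cast
  rcases le_total (⌈α⌉₊ : ℝ) ((⌊β⌋₊ : ℝ) + 1) with h | h
  · rw [max_eq_right h, abs_le]
    constructor <;> linarith
  · rw [max_eq_left h, abs_le]
    constructor <;> linarith

lemma class_real (α β : ℝ) (hβ : 0 ≤ β) (hαβ : β ≤ α) (m r : ℕ) (hm : 1 ≤ m) :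
    |(((Ico (⌊β⌋₊ + 1) (max ⌈α⌉₊ (⌊β⌋₊ + 1))).filter (fun x => x ≡ r [MOD m])).card : ℝ) -
      (α - β) / m| ≤ 2 := by
  have h1 := class_card (⌊β⌋₊ + 1) (max ⌈α⌉₊ (⌊β⌋₊ + 1)) m r hm (le_max_right _ _)
  have h2 := len_between α β hβ hαβ
  have hm1 : (1 : ℝ) ≤ m := by exact_mod_cast hm
  have h3 : |(((max ⌈α⌉₊ (⌊β⌋₊ + 1) : ℕ) : ℝ) - ((⌊β⌋₊ + 1 : ℕ) : ℝ)) / m - (α - β) / m| ≤ 1 := by
    rw [← sub_div, abs_div, abs_of_pos (by linarith : (0 : ℝ) < m), div_le_one (by linarith)]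
    linarith
  calc _ ≤ _ := abs_sub_le _ ((((max ⌈α⌉₊ (⌊β⌋₊ + 1) : ℕ) : ℝ) - ((⌊β⌋₊ + 1 : ℕ) : ℝ)) / m) _
    _ ≤ 1 + 1 := add_le_add h1 h3
    _ = 2 := by norm_num

lemma EE_mod {l p f : ℕ} (h : ∀ x : ℕ, EE l p f (x + f ^ 2) ↔ EE l p f x) (x : ℕ) :
    EE l p f x ↔ EE l p f (x % f ^ 2) := by
  have h1 : ∀ k x : ℕ, EE l p f (x + f ^ 2 * k) ↔ EE l p f x := by
    intro k
    induction k with
    | zero => intro x; simp
    | succ k ih =>
      intro x
      rw [show x + f ^ 2 * (k + 1) = (x + f ^ 2 * k) + f ^ 2 by ring, h, ih]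
  conv_lhs => rw [← Nat.mod_add_div x (f ^ 2)]
  exact h1 _ _

end CNTh

open CNTh in
theorem t_CNT (hLOC : S_LOC) : S_CNT := by
  classical
  intro l p f v X hl hp hp2 hf hv hX
  have hl1 : l ≠ 0 := by
    rintro rfl
    exact absurd hl (by decide)
  refine ⟨fun hpf => ?_, fun hpf => ?_⟩
  · unfold BB
    rw [Finset.card_eq_zero, Finset.filter_eq_empty_iff]
    rintro x - ⟨-, -, h1, ⟨z, hz, -⟩, -⟩
    apply h1
    obtain ⟨f', hf'⟩ := hpf
    have h2 : (p : ℤ) ∣ (x : ℤ) ^ 2 := by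
      have h3 : (x : ℤ) ^ 2 = (p : ℤ) * (4 * (p : ℤ) ^ (l - 1) + p * f' ^ 2 * z) := by
        have h4 : (p : ℤ) ^ l = p * (p : ℤ) ^ (l - 1) := by
          rw [← pow_succ']
          congr 1
          omega
        rw [hf'] at hz
        push_cast at hz
        rw [h4] at hz
        linear_combination hz
      exact ⟨_, h3⟩
    have h5 : p ∣ x ^ 2 := by exact_mod_cast h2
    exact hp.dvd_of_dvd_pow h5
  · obtain ⟨hper, hcard⟩ := hLOC l p f hl hp hp2 hf hpf
    obtain ⟨a, ha⟩ : ∃ a : ℝ, a = 4 * (p : ℝ) ^ l := ⟨_, rfl⟩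
    have hp0 : (0 : ℝ) < p := by exact_mod_cast hp.pos
    have ha0 : 0 < a := by rw [ha]; positivity
    rw [← ha]
    obtain ⟨β, hβ⟩ : ∃ β, β = √(a - X * (v : ℝ) ^ 2) := ⟨_, rfl⟩
    have hβ0 : 0 ≤ β := by rw [hβ]; exact Real.sqrt_nonneg _
    have hβα : β ≤ √a := by
      rw [hβ]
      apply Real.sqrt_le_sqrt
      have : 0 ≤ X * (v : ℝ) ^ 2 := by positivity
      linarith
    have hLL : LL a X v = √a - β := by rw [hβ]; rfl
    obtain ⟨I, hI⟩ : ∃ I, I = Ico (⌊β⌋₊ + 1) (max ⌈√a⌉₊ (⌊β⌋₊ + 1)) := ⟨_, rfl⟩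
    obtain ⟨R, hR⟩ : ∃ R, R = (range (f ^ 2)).filter (fun x => EE l p f x) := ⟨_, rfl⟩
    have hRc : R.card = nsq p f := by rw [hR]; exact hcard
    have hf2 : 0 < f ^ 2 := by positivity
    -- the set
    have hset : BB l p f v X = ∑ r ∈ R, ((I.filter (fun x => x ≡ r [MOD f ^ 2])).filter
        (fun x => ¬ p ∣ x)).card := by
      unfold BB
      have h1 : (range (4 * p ^ l + 1)).filter (fun x => 1 ≤ x ∧ x ^ 2 < 4 * p ^ l ∧ ¬ p ∣ x ∧
          EE l p f x ∧ 4 * (p : ℝ) ^ l - (x : ℝ) ^ 2 < X * (v : ℝ) ^ 2) =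
          R.biUnion (fun r => (I.filter (fun x => x ≡ r [MOD f ^ 2])).filter (fun x => ¬ p ∣ x)) := by
        ext x
        rw [Finset.mem_filter, Finset.mem_biUnion, Finset.mem_range]
        have hx1 : (x : ℝ) < √a ↔ x ^ 2 < 4 * p ^ l := by
          rw [Real.lt_sqrt (Nat.cast_nonneg x), ha]
          constructor
          · intro h; exact_mod_cast h
          · intro h; exact_mod_cast h
        have hx2 : 1 ≤ x → (β < x ↔ 4 * (p : ℝ) ^ l - (x : ℝ) ^ 2 < X * (v : ℝ) ^ 2) := by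
          intro hx
          have hx0 : (0 : ℝ) < x := by exact_mod_cast hx
          rw [hβ, Real.sqrt_lt' hx0, ← ha]
          constructor <;> intro h <;> linarith
        constructor
        · rintro ⟨h1, h2, h3, h4, h5, h6⟩
          refine ⟨x % f ^ 2, ?_, ?_⟩
          · rw [hR, Finset.mem_filter, Finset.mem_range]
            exact ⟨Nat.mod_lt _ hf2, (EE_mod hper x).1 h5⟩
          · rw [Finset.mem_filter, Finset.mem_filter, hI, mem_between _ _ hβ0]
            exact ⟨⟨⟨(hx2 h2).2 h6, hx1.2 h3⟩, (Nat.mod_modEq x (f ^ 2)).symm⟩, h4⟩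
        · rintro ⟨r, h1, h2⟩
          rw [hR, Finset.mem_filter, Finset.mem_range] at h1
          rw [Finset.mem_filter, Finset.mem_filter, hI, mem_between _ _ hβ0] at h2
          obtain ⟨⟨⟨h3, h4⟩, h5⟩, h6⟩ := h2
          have h7 : 1 ≤ x := by
            have : (0 : ℝ) < x := lt_of_le_of_lt hβ0 h3
            exact_mod_cast this
          have h8 := hx1.1 h4
          have h9 : x % f ^ 2 = r := by
            have := h5
            unfold Nat.ModEq at this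
            rw [this, Nat.mod_eq_of_lt h1.1]
          refine ⟨?_, h7, h8, h6, ?_, (hx2 h7).1 h3⟩
          · nlinarith
          · rw [EE_mod hper x, h9]
            exact h1.2
      rw [h1, Finset.card_biUnion]
      intro r hr r' hr' hne
      rw [Finset.mem_coe] at hr hr'
      show Disjoint _ _
      rw [Finset.disjoint_left]
      intro x hx hx'
      rw [Finset.mem_filter, Finset.mem_filter] at hx hx'
      rw [hR, Finset.mem_filter, Finset.mem_range] at hr hr'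
      have h2 := hx.1.2
      have h3 := hx'.1.2
      unfold Nat.ModEq at h2 h3
      rw [Nat.mod_eq_of_lt hr.1] at h2
      rw [Nat.mod_eq_of_lt hr'.1] at h3
      exact hne (h2.symm.trans h3)
    have hcop : Nat.Coprime (f ^ 2) p := by
      rw [Nat.coprime_comm]
      exact Nat.Coprime.pow_right 2 ((Nat.Prime.coprime_iff_not_dvd hp).2 hpf)
    have hf1 : (1 : ℝ) ≤ f := by exact_mod_cast hf
    -- each class
    have hcl : ∀ r ∈ R, |(((I.filter (fun x => x ≡ r [MOD f ^ 2])).filter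
        (fun x => ¬ p ∣ x)).card : ℝ) - LL a X v / (f : ℝ) ^ 2| ≤
        4 + 2 * LL a X v / (p * (f : ℝ) ^ 2) := by
      intro r _
      have h1 := class_real (√a) β hβ0 hβα (f ^ 2) r hf2
      rw [← hI, ← hLL] at h1
      have h2 : (I.filter (fun x => x ≡ r [MOD f ^ 2])).card =
          ((I.filter (fun x => x ≡ r [MOD f ^ 2])).filter (fun x => p ∣ x)).card +
          ((I.filter (fun x => x ≡ r [MOD f ^ 2])).filter (fun x => ¬ p ∣ x)).card :=
        (Finset.card_filter_add_card_filter_not _).symm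
      obtain ⟨c, hc1, hc2⟩ := Nat.chineseRemainder hcop r 0
      have h3 : (I.filter (fun x => x ≡ r [MOD f ^ 2])).filter (fun x => p ∣ x) =
          I.filter (fun x => x ≡ c [MOD f ^ 2 * p]) := by
        ext x
        rw [Finset.mem_filter, Finset.mem_filter, Finset.mem_filter]
        constructor
        · rintro ⟨⟨h4, h5⟩, h6⟩
          refine ⟨h4, ?_⟩
          rw [← Nat.modEq_and_modEq_iff_modEq_mul hcop]
          exact ⟨h5.trans hc1.symm, ((Nat.modEq_zero_iff_dvd.2 h6)).trans hc2.symm⟩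
        · rintro ⟨h4, h5⟩
          rw [← Nat.modEq_and_modEq_iff_modEq_mul hcop] at h5
          exact ⟨⟨h4, h5.1.trans hc1⟩, Nat.modEq_zero_iff_dvd.1 (h5.2.trans hc2)⟩
      have h4 := class_real (√a) β hβ0 hβα (f ^ 2 * p) c (Nat.mul_pos hf2 hp.pos)
      rw [← hI, ← hLL, ← h3] at h4
      have h2R : ((I.filter (fun x => x ≡ r [MOD f ^ 2])).card : ℝ) =
          (((I.filter (fun x => x ≡ r [MOD f ^ 2])).filter (fun x => p ∣ x)).card : ℝ) +
          (((I.filter (fun x => x ≡ r [MOD f ^ 2])).filter (fun x => ¬ p ∣ x)).card : ℝ) := by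
        exact_mod_cast h2
      have hLL0 : 0 ≤ LL a X v := by rw [hLL]; linarith
      have h5 : LL a X v / ((f ^ 2 * p : ℕ) : ℝ) = LL a X v / (p * (f : ℝ) ^ 2) := by
        push_cast
        rw [mul_comm]
      have h6 : LL a X v / ((f ^ 2 : ℕ) : ℝ) = LL a X v / (f : ℝ) ^ 2 := by push_cast; rfl
      rw [h5] at h4
      rw [h6] at h1
      have h7 : 2 * LL a X v / (p * (f : ℝ) ^ 2) = 2 * (LL a X v / (p * (f : ℝ) ^ 2)) := by ring
      have h8 : 0 ≤ LL a X v / (p * (f : ℝ) ^ 2) := by positivity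
      rw [abs_le] at h1 h4 ⊢
      rw [h7]
      constructor <;> linarith [h1.1, h1.2, h4.1, h4.2]
    rw [hset]
    push_cast
    have h9 : (nsq p f : ℝ) * LL a X v / (f : ℝ) ^ 2 = ∑ r ∈ R, LL a X v / (f : ℝ) ^ 2 := by
      rw [Finset.sum_const, hRc, nsmul_eq_mul]
      ring
    rw [h9, ← Finset.sum_sub_distrib]
    refine (Finset.abs_sum_le_sum_abs _ _).trans ((Finset.sum_le_sum hcl).trans (le_of_eq ?_))
    rw [Finset.sum_const, hRc, nsmul_eq_mul]

end Pool.Agent.T2h80.CL
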