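import Pool.Agent.T2h80.CL.Stm

/-!
FD: the fundamental discriminant of `x² - 4 p ^ l`.
-/

set_option autoImplicit false
set_option linter.all false

namespace Pool.Agent.T2h80.CL

open Finset

lemma ex_fund (Δ : ℤ) (h : Δ < 0) (h4 : Δ % 4 = 0 ∨ Δ % 4 = 1) :
    ∃ (D : ℤ) (y : ℕ), D < 0 ∧ FDp D ∧ 1 ≤ y ∧ Δ = D * (y : ℤ) ^ 2 := by
  obtain ⟨d, hd⟩ : ∃ d : ℕ, (d : ℤ) = -Δ := ⟨(-Δ).toNat, by omega⟩
  have hd0 : 0 < d := by omega
  obtain ⟨a, b, ha, hb, hab, hs⟩ := Nat.sq_mul_squarefree_of_pos hd0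
  have hΔ : Δ = -((b : ℤ) ^ 2 * a) := by
    have : (d : ℤ) = (b : ℤ) ^ 2 * a := by exact_mod_cast hab.symm
    omega
  have hsq : Squarefree (-(a : ℤ)) := by
    rw [← Int.squarefree_natAbs]
    simpa using hs
  have h4a : ¬ 4 ∣ a := by
    intro h
    have := hs 2 (by simpa using h)
    simp at this
  by_cases h3 : a % 4 = 3
  · refine ⟨-(a : ℤ), b, by omega, Or.inl ⟨by omega, by omega, hsq⟩, hb, ?_⟩
    rw [hΔ]
    ring
  · rcases Nat.even_or_odd' b with ⟨c, hc | hc⟩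
    · refine ⟨4 * (-(a : ℤ)), c, by omega, Or.inr ⟨-(a : ℤ), rfl, by omega, hsq⟩, by omega, ?_⟩
      rw [hΔ, hc]
      push_cast
      ring
    · exfalso
      have h5 : Δ = -(4 * (((c : ℤ) ^ 2 + c) * a)) - a := by
        rw [hΔ, hc]
        push_cast
        ring
      omega

lemma uniq_sq {s s' w w' : ℕ} (hs : Squarefree s) (hs' : Squarefree s') (hw : 1 ≤ w)
    (hw' : 1 ≤ w') (h : s * w ^ 2 = s' * w' ^ 2) : s = s' := by
  have hs0 : s ≠ 0 := hs.ne_zero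
  have hs0' : s' ≠ 0 := hs'.ne_zero
  refine Nat.eq_of_factorization_eq hs0 hs0' fun p => ?_
  have h1 := congrArg (fun n : ℕ => n.factorization p) h
  rw [Nat.factorization_mul hs0 (by positivity), Nat.factorization_mul hs0' (by positivity),
    Nat.factorization_pow, Nat.factorization_pow] at h1
  simp only [Finsupp.add_apply, Finsupp.smul_apply, smul_eq_mul] at h1
  have h2 := hs.natFactorization_le_one p
  have h3 := hs'.natFactorization_le_one p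
  omega

lemma FDp_form {D : ℤ} (h : FDp D) (h0 : D < 0) : ∃ s c : ℕ, Squarefree s ∧ 1 ≤ s ∧
    D = -(s : ℤ) * (c : ℤ) ^ 2 ∧ ((c = 1 ∧ s % 4 = 3) ∨ (c = 2 ∧ (s % 4 = 1 ∨ s % 4 = 2))) := by
  rcases h with ⟨h1, h2, h3⟩ | ⟨m, h1, h2, h3⟩
  · refine ⟨D.natAbs, 1, Int.squarefree_natAbs.2 h3, by omega, ?_, Or.inl ⟨rfl, by omega⟩⟩
    push_cast
    rw [abs_of_neg h0]
    ring
  · refine ⟨m.natAbs, 2, Int.squarefree_natAbs.2 h3, by omega, ?_, Or.inr ⟨rfl, by omega⟩⟩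
    have hm : m < 0 := by omega
    push_cast
    rw [abs_of_neg hm]
    omega

lemma FDp_uniq {D D' : ℤ} {y y' : ℕ} (h : FDp D) (h' : FDp D') (h0 : D < 0) (hy : 1 ≤ y)
    (hy' : 1 ≤ y') (he : D * (y : ℤ) ^ 2 = D' * (y' : ℤ) ^ 2) : D' = D ∧ y' = y := by
  have hyp : (0 : ℤ) < (y : ℤ) ^ 2 := by positivity
  have hyp' : (0 : ℤ) < (y' : ℤ) ^ 2 := by positivity
  have h0' : D' < 0 := by
    by_contra hc
    push Not at hc
    have := mul_nonneg hc hyp'.le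
    nlinarith
  obtain ⟨s, c, hs, hs1, hD, hc⟩ := FDp_form h h0
  obtain ⟨s', c', hs', hs1', hD', hc'⟩ := FDp_form h' h0'
  have hc1 : 1 ≤ c := by omega
  have hc1' : 1 ≤ c' := by omega
  have h1 : s * (c * y) ^ 2 = s' * (c' * y') ^ 2 := by
    have : (s : ℤ) * (c * y) ^ 2 = s' * (c' * y') ^ 2 := by
      rw [hD, hD'] at he
      linear_combination -he
    exact_mod_cast this
  have h2 := uniq_sq hs hs' (Nat.mul_pos hc1 hy) (Nat.mul_pos hc1' hy') h1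
  have h3 : c = c' := by omega
  have h4 : D' = D := by rw [hD, hD', h2, h3]
  refine ⟨h4, ?_⟩
  rw [h4] at he
  have h5 : (y : ℤ) ^ 2 = (y' : ℤ) ^ 2 := mul_left_cancel₀ h0.ne he
  have h6 : y ^ 2 = y' ^ 2 := by exact_mod_cast h5
  exact (Nat.pow_left_injective (by norm_num : (2 : ℕ) ≠ 0) h6).symm

lemma sq_mod4 (m : ℤ) : m ^ 2 % 4 = 0 ∨ m ^ 2 % 4 = 1 := by
  rcases Int.even_or_odd' m with ⟨c, hc | hc⟩
  · left
    have : m ^ 2 = 4 * c ^ 2 := by rw [hc]; ring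
    omega
  · right
    have : m ^ 2 = 4 * (c ^ 2 + c) + 1 := by rw [hc]; ring
    omega

lemma FDp_mod {D : ℤ} (h : FDp D) : D % 4 = 0 ∨ D % 4 = 1 := by
  rcases h with ⟨h1, _⟩ | ⟨m, h1, _⟩ <;> omega

lemma mul_mod4 {a b : ℤ} (ha : a % 4 = 0 ∨ a % 4 = 1) (hb : b % 4 = 0 ∨ b % 4 = 1) :
    a * b % 4 = 0 ∨ a * b % 4 = 1 := by
  rcases ha with ha | ha <;> rcases hb with hb | hb <;> simp [Int.mul_emod, ha, hb]

theorem t_FD : S_FD := by
  intro l p x hx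
  have hΔ0 : (x : ℤ) ^ 2 - 4 * (p : ℤ) ^ l < 0 := by
    have : (x : ℤ) ^ 2 < 4 * (p : ℤ) ^ l := by exact_mod_cast hx
    linarith
  have hΔ4 : ((x : ℤ) ^ 2 - 4 * (p : ℤ) ^ l) % 4 = 0 ∨ ((x : ℤ) ^ 2 - 4 * (p : ℤ) ^ l) % 4 = 1 := by
    have := sq_mod4 x
    omega
  obtain ⟨D, y, hD, hF, hy, he⟩ := ex_fund _ hΔ0 hΔ4
  refine ⟨D, y, hD, hF, hy, he, fun e h1 => ⟨?_, ?_⟩, fun D' y' hF' hy' he' =>
    FDp_uniq hF hF' hD hy hy' (he.symm.trans he')⟩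
  · rintro ⟨z, hz, hz4⟩
    have he0 : (0 : ℤ) < (e : ℤ) ^ 2 := by positivity
    have hz0 : z < 0 := by
      by_contra hc
      push Not at hc
      have := mul_nonneg he0.le hc
      omega
    obtain ⟨D1, w, hD1, hF1, hw, he1⟩ := ex_fund z hz0 hz4
    have h2 : D * (y : ℤ) ^ 2 = D1 * ((e * w : ℕ) : ℤ) ^ 2 := by
      rw [← he, hz, he1]
      push_cast
      ring
    have h3 := (FDp_uniq hF hF1 hD hy (Nat.mul_pos h1 hw) h2).2
    exact ⟨w, h3.symm⟩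
  · rintro ⟨m, hm⟩
    refine ⟨D * (m : ℤ) ^ 2, ?_, mul_mod4 (FDp_mod hF) (sq_mod4 _)⟩
    rw [he, hm]
    push_cast
    ring

end Pool.Agent.T2h80.CL
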