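import Pool.Agent.T2h80.CL.Fin0

set_option autoImplicit false

namespace Pool.Agent.T2h80.CL

open Finset Filter Topology NumberField

theorem main_R (h1 : S_V) (h2 : S_U) (h3 : S_SV) (l : ℕ) (hodd : Odd l) (hl : 5 ≤ l) (θ : ℝ)
    (hθ1 : 1 / (l : ℝ) < θ) (hθ2 : θ < 1 / ((l : ℝ) - 2))
    (K : ℤ → Type) [∀ D, Field (K D)] [∀ D, NumberField (K D)]
    (hK : ∀ D : ℤ, D < 0 → FDp D → Module.finrank ℚ (K D) = 2 ∧ discr (K D) = D)
    (ε : ℝ) (hε : 0 < ε) : ∃ X₀ : ℝ, ∀ X : ℝ, X₀ ≤ X →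
      |((RS l ⌊X ^ θ⌋₊ X).card : ℝ) - 3 / (Real.pi * θ) * (√X * X ^ θ / Real.log X)| ≤
        ε * (√X * X ^ θ / Real.log X) := by
  have hl5 : (5 : ℝ) ≤ l := by exact_mod_cast hl
  have hθ : 0 < θ := by
    have : (0 : ℝ) < 1 / (l : ℝ) := by positivity
    linarith
  have hθ3 : ((l : ℝ) - 2) * θ < 1 := by
    rw [lt_div_iff₀ (by linarith)] at hθ2
    linarith
  have hpi := Real.pi_pos
  set δ : ℝ := (1 / 2 - ((l : ℝ) - 2) * θ / 2) / 4 with hδ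
  have hδ0 : 0 < δ := by rw [hδ]; linarith
  have hδ8 : δ ≤ 1 / 8 := by
    rw [hδ]
    have : 0 ≤ ((l : ℝ) - 2) * θ := mul_nonneg (by linarith) hθ.le
    linarith
  have hpar : Par l θ δ := ⟨hodd, hl, hθ1, hδ0, by rw [hδ]; linarith⟩
  obtain ⟨δ', hδ'0, hU⟩ := h2 l hodd hl θ hθ1 hθ2 δ hδ0
  obtain ⟨X₁, hX₁⟩ := hU K hK
  obtain ⟨C₂, hC₂, hSV⟩ := h3 l (by omega) (δ' / (2 * θ)) (by positivity)
  -- the choice of w
  obtain ⟨w, ⟨hw1, hw2⟩, hw3⟩ : ∃ w : ℕ, ((1 ≤ w) ∧ 2 * Real.pi / (ε * θ) ≤ (w : ℝ)) ∧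
      |∏ p ∈ (range (w + 1)).filter Nat.Prime, (1 - 1 / (p : ℝ) ^ 2) - 6 / Real.pi ^ 2| ≤
        ε * θ / (2 * Real.pi) := by
    have e1 : ∀ᶠ w : ℕ in atTop, 1 ≤ w := eventually_ge_atTop 1
    have e2 : ∀ᶠ w : ℕ in atTop, 2 * Real.pi / (ε * θ) ≤ (w : ℝ) :=
      tendsto_natCast_atTop_atTop.eventually_ge_atTop _
    have e3 := (Metric.tendsto_nhds.mp euler_tendsto) (ε * θ / (2 * Real.pi)) (by positivity)
    obtain ⟨w, hw⟩ := ((e1.and e2).and e3).exists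
    refine ⟨w, hw.1, ?_⟩
    have := hw.2
    rw [Real.dist_eq] at this
    exact this.le
  set 𝒟 := (primorial w).divisors with h𝒟
  set M : ℝ := (𝒟.card : ℝ) with hM
  have hM0 : 0 ≤ M := Nat.cast_nonneg _
  obtain ⟨X₂, hX₂⟩ := h1 l θ δ hpar (ε / (8 * (M + 1))) (by positivity)
  have ev1 : ∀ᶠ X : ℝ in atTop, (primorial w : ℝ) + 4 ≤ X ^ δ :=
    (tendsto_rpow_atTop hδ0).eventually_ge_atTop _
  have ev2 : ∀ᶠ X : ℝ in atTop, ‖Real.log X‖ ≤ ε / (8 * C₂) * ‖X ^ (δ' / 2)‖ :=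
    (isLittleO_log_rpow_atTop (by positivity : 0 < δ' / 2)).bound (by positivity)
  obtain ⟨X₃, hX₃⟩ := eventually_atTop.mp (ev1.and ev2)
  refine ⟨max (max X₁ X₂) (max X₃ 3), ?_⟩
  intro X hX
  have hXa : X₁ ≤ X := (le_max_left _ _).trans ((le_max_left _ _).trans hX)
  have hXb : X₂ ≤ X := (le_max_right _ _).trans ((le_max_left _ _).trans hX)
  have hXc : X₃ ≤ X := (le_max_left _ _).trans ((le_max_right _ _).trans hX)
  have hX3 : 3 ≤ X := (le_max_right _ _).trans ((le_max_right _ _).trans hX)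
  have hX0 : 0 < X := by linarith
  have hX1 : 1 ≤ X := by linarith
  have hlog : 0 < Real.log X := Real.log_pos (by linarith)
  obtain ⟨hc1, hc2⟩ := hX₃ X hXc
  rw [Real.norm_of_nonneg hlog.le, Real.norm_of_nonneg (Real.rpow_nonneg hX0.le _)] at hc2
  set Y : ℝ := √X * X ^ θ / Real.log X with hY
  have hXθ : 0 < X ^ θ := Real.rpow_pos_of_pos hX0 θ
  have hsX : 0 < √X := Real.sqrt_pos.mpr hX0
  have hY0 : 0 < Y := by positivity
  set Q := ⌊X ^ δ⌋₊ with hQ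
  set N := ⌊X ^ θ⌋₊ with hN
  have hN1 : 1 ≤ N := by
    rw [hN]
    apply Nat.one_le_floor_iff _ |>.mpr
    exact Real.one_le_rpow hX1 hθ.le
  have hNX : (N : ℝ) ≤ X ^ θ := Nat.floor_le hXθ.le
  have hQle : (Q : ℝ) ≤ X ^ δ := Nat.floor_le (Real.rpow_nonneg hX0.le _)
  have hXδ4 : 4 ≤ X ^ δ := by
    have : (0 : ℝ) ≤ (primorial w : ℝ) := Nat.cast_nonneg _
    linarith
  have hQge : X ^ δ / 2 ≤ Q := by
    have := Nat.lt_floor_add_one (X ^ δ)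
    rw [← hQ] at this
    linarith
  -- the sieve
  have hsv := hSV N w Q hN1 X (X ^ (1 - 2 * δ)) (X ^ (1 - δ)) hX1
    (Real.one_le_rpow hX1 (by linarith))
    (Real.rpow_le_rpow_of_exponent_le hX1 (by linarith)) (by
      have e1 : (X ^ δ / 2) ^ 2 ≤ (Q : ℝ) ^ 2 := by gcongr
      have e2 : X ^ (1 - δ) * (X ^ δ / 2) ^ 2 = X * X ^ δ / 4 := by
        have : X ^ (1 - δ) * X ^ δ = X := by
          rw [← Real.rpow_add hX0]; simp
        calc X ^ (1 - δ) * (X ^ δ / 2) ^ 2 = (X ^ (1 - δ) * X ^ δ) * X ^ δ / 4 := by ring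
          _ = _ := by rw [this]
      calc X ≤ X * X ^ δ / 4 := by nlinarith
        _ = X ^ (1 - δ) * (X ^ δ / 2) ^ 2 := e2.symm
        _ ≤ _ := by gcongr)
  have hdQ : ∀ d ∈ 𝒟, d ∈ Icc 1 Q := by
    intro d hd
    rw [mem_Icc]
    have hd' := Nat.mem_divisors.mp hd
    refine ⟨Nat.pos_of_dvd_of_pos hd'.1 (Nat.pos_of_ne_zero hd'.2), ?_⟩
    apply Nat.le_floor
    have : (d : ℝ) ≤ primorial w := by
      exact_mod_cast Nat.le_of_dvd (Nat.pos_of_ne_zero hd'.2) hd'.1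
    linarith
  -- single d
  have hV1 : ∀ d ∈ 𝒟, |(VV l N X (X ^ (1 - 2 * δ)) d : ℝ) -
      Real.pi / (2 * θ) * (1 / (d : ℝ) ^ 2) * Y| ≤ ε / (8 * (M + 1)) * Y := by
    intro d hd
    have := hX₂ X hXb (fun e => if e = d then 1 else 0) (by
      intro e; split_ifs <;> norm_num)
    rw [← hQ, ← hN, ← hY] at this
    have e1 : ∑ e ∈ Icc 1 Q, (if e = d then (1 : ℝ) else 0) *
        (VV l N X (X ^ (1 - 2 * δ)) e : ℝ) = (VV l N X (X ^ (1 - 2 * δ)) d : ℝ) := by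
      rw [sum_eq_single d]
      · simp
      · intro b _ hb; simp [hb]
      · intro h; exact absurd (hdQ d hd) h
    have e2 : ∑ e ∈ Icc 1 Q, (if e = d then (1 : ℝ) else 0) / (e : ℝ) ^ 2 = 1 / (d : ℝ) ^ 2 := by
      rw [sum_eq_single d]
      · simp
      · intro b _ hb; simp [hb]
      · intro h; exact absurd (hdQ d hd) h
    rw [e1, e2] at this
    exact this
  -- primes
  have hV2 : ∑ q ∈ (Ioc w Q).filter Nat.Prime, (VV l N X (X ^ (1 - 2 * δ)) q : ℝ) ≤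
      (Real.pi / (2 * θ) * (1 / w) + ε / (8 * (M + 1))) * Y := by
    have := hX₂ X hXb (fun e => if e.Prime ∧ w < e then 1 else 0) (by
      intro e; split_ifs <;> norm_num)
    rw [← hQ, ← hN, ← hY] at this
    have hset : (Ioc w Q).filter Nat.Prime = (Icc 1 Q).filter (fun e => e.Prime ∧ w < e) := by
      ext e
      simp only [mem_filter, mem_Ioc, mem_Icc]
      constructor
      · rintro ⟨⟨h1, h2⟩, h3⟩; exact ⟨⟨h3.one_lt.le, h2⟩, h3, h1⟩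
      · rintro ⟨⟨h1, h2⟩, h3, h4⟩; exact ⟨⟨h4, h2⟩, h3⟩
    have e1 : ∑ e ∈ Icc 1 Q, (if e.Prime ∧ w < e then (1 : ℝ) else 0) *
        (VV l N X (X ^ (1 - 2 * δ)) e : ℝ) =
        ∑ q ∈ (Ioc w Q).filter Nat.Prime, (VV l N X (X ^ (1 - 2 * δ)) q : ℝ) := by
      rw [hset, sum_filter]
      apply sum_congr rfl
      intro e _
      split_ifs <;> simp
    have e2 : ∑ e ∈ Icc 1 Q, (if e.Prime ∧ w < e then (1 : ℝ) else 0) / (e : ℝ) ^ 2 ≤ 1 / w := by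
      calc ∑ e ∈ Icc 1 Q, (if e.Prime ∧ w < e then (1 : ℝ) else 0) / (e : ℝ) ^ 2 =
          ∑ e ∈ (Ioc w Q).filter Nat.Prime, 1 / (e : ℝ) ^ 2 := by
            rw [hset, sum_filter]
            apply sum_congr rfl
            intro e _
            split_ifs <;> simp
        _ ≤ ∑ e ∈ Ioc w Q, 1 / (e : ℝ) ^ 2 :=
            sum_le_sum_of_subset_of_nonneg (filter_subset _ _) (fun _ _ _ => by positivity)
        _ ≤ 1 / w := tail_le w Q hw1
    rw [e1] at this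
    have h4 := (abs_le.mp this).2
    have h5 : Real.pi / (2 * θ) * (∑ e ∈ Icc 1 Q, (if e.Prime ∧ w < e then (1 : ℝ) else 0) /
        (e : ℝ) ^ 2) * Y ≤ Real.pi / (2 * θ) * (1 / w) * Y := by gcongr
    nlinarith
  -- the sum over d
  have hsum : |∑ d ∈ 𝒟, (ArithmeticFunction.moebius d : ℝ) *
      (VV l N X (X ^ (1 - 2 * δ)) d : ℝ) -
      Real.pi / (2 * θ) * (∑ d ∈ 𝒟, (ArithmeticFunction.moebius d : ℝ) * (1 / (d : ℝ) ^ 2)) * Y| ≤
      ε / 8 * Y := by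
    have e0 : ∑ d ∈ 𝒟, (ArithmeticFunction.moebius d : ℝ) *
        (VV l N X (X ^ (1 - 2 * δ)) d : ℝ) -
        Real.pi / (2 * θ) * (∑ d ∈ 𝒟, (ArithmeticFunction.moebius d : ℝ) * (1 / (d : ℝ) ^ 2)) * Y =
        ∑ d ∈ 𝒟, (ArithmeticFunction.moebius d : ℝ) * ((VV l N X (X ^ (1 - 2 * δ)) d : ℝ) -
          Real.pi / (2 * θ) * (1 / (d : ℝ) ^ 2) * Y) := by
      rw [mul_sum, sum_mul, ← sum_sub_distrib]
      apply sum_congr rfl
      intro d _
      ring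
    rw [e0]
    calc |∑ d ∈ 𝒟, (ArithmeticFunction.moebius d : ℝ) * ((VV l N X (X ^ (1 - 2 * δ)) d : ℝ) -
          Real.pi / (2 * θ) * (1 / (d : ℝ) ^ 2) * Y)| ≤ ∑ d ∈ 𝒟,
          |(ArithmeticFunction.moebius d : ℝ) * ((VV l N X (X ^ (1 - 2 * δ)) d : ℝ) -
          Real.pi / (2 * θ) * (1 / (d : ℝ) ^ 2) * Y)| := abs_sum_le_sum_abs _ _
      _ ≤ ∑ d ∈ 𝒟, ε / (8 * (M + 1)) * Y := by
          apply sum_le_sum
          intro d hd
          rw [abs_mul]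
          have hmu : |(ArithmeticFunction.moebius d : ℝ)| ≤ 1 := by
            have := ArithmeticFunction.abs_moebius_le_one (n := d)
            exact_mod_cast this
          calc |(ArithmeticFunction.moebius d : ℝ)| * _ ≤ 1 * (ε / (8 * (M + 1)) * Y) :=
                mul_le_mul hmu (hV1 d hd) (abs_nonneg _) zero_le_one
            _ = _ := one_mul _
      _ = M * (ε / (8 * (M + 1))) * Y := by rw [sum_const, nsmul_eq_mul, hM]; ring
      _ ≤ ε / 8 * Y := by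
          apply mul_le_mul_of_nonneg_right _ hY0.le
          rw [mul_div_assoc', div_le_div_iff₀ (by positivity) (by positivity)]
          nlinarith
  rw [euler_sum] at hsum
  set a : ℝ := ∏ p ∈ (range (w + 1)).filter Nat.Prime, (1 - 1 / (p : ℝ) ^ 2) with ha
  -- error terms
  have hE : C₂ * (N : ℝ) ^ (δ' / (2 * θ)) * ((RS l N (X ^ (1 - δ))).card : ℝ) ≤ ε / 8 * Y := by
    have e1 : (N : ℝ) ^ (δ' / (2 * θ)) ≤ X ^ (δ' / 2) := by
      calc (N : ℝ) ^ (δ' / (2 * θ)) ≤ (X ^ θ) ^ (δ' / (2 * θ)) :=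
            Real.rpow_le_rpow (Nat.cast_nonneg _) hNX (by positivity)
        _ = X ^ (δ' / 2) := by
            rw [← Real.rpow_mul hX0.le]; congr 1; field_simp
    have e2 := hX₁ X hXa N hNX
    calc C₂ * (N : ℝ) ^ (δ' / (2 * θ)) * ((RS l N (X ^ (1 - δ))).card : ℝ) ≤
          C₂ * X ^ (δ' / 2) * X ^ (1 / 2 + θ - δ') := by gcongr
      _ = C₂ * (√X * X ^ θ / X ^ (δ' / 2)) := by
          rw [Real.sqrt_eq_rpow, mul_assoc, ← Real.rpow_add hX0, ← Real.rpow_add hX0,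
            ← Real.rpow_sub hX0]
          congr 2; ring
      _ ≤ ε / 8 * Y := by
          rw [hY, mul_div_assoc', mul_div_assoc', div_le_div_iff₀ (Real.rpow_pos_of_pos hX0 _) hlog]
          have h5 : C₂ * Real.log X ≤ ε / 8 * X ^ (δ' / 2) := by
            calc C₂ * Real.log X ≤ C₂ * (ε / (8 * C₂) * X ^ (δ' / 2)) := by gcongr
              _ = _ := by field_simp
          calc C₂ * (√X * X ^ θ) * Real.log X = (C₂ * Real.log X) * (√X * X ^ θ) := by ring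
            _ ≤ (ε / 8 * X ^ (δ' / 2)) * (√X * X ^ θ) := by gcongr
            _ = _ := by ring
  have hM1 : ε / (8 * (M + 1)) * Y ≤ ε / 8 * Y := by
    apply mul_le_mul_of_nonneg_right _ hY0.le
    apply div_le_div_of_nonneg_left hε.le (by norm_num)
    linarith
  have hw4 : Real.pi / (2 * θ) * (1 / w) ≤ ε / 4 := by
    have hw0 : (0 : ℝ) < w := by exact_mod_cast hw1
    rw [div_le_iff₀ (by positivity)] at hw2
    rw [div_mul_div_comm, div_le_div_iff₀ (by positivity) (by norm_num)]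
    nlinarith
  have ha2 : |Real.pi / (2 * θ) * a * Y - 3 / (Real.pi * θ) * Y| ≤ ε / 4 * Y := by
    have e1 : Real.pi / (2 * θ) * a * Y - 3 / (Real.pi * θ) * Y =
        Real.pi / (2 * θ) * (a - 6 / Real.pi ^ 2) * Y := by
      field_simp; ring
    rw [e1, abs_mul, abs_mul, abs_of_pos hY0, abs_of_pos (by positivity : 0 < Real.pi / (2 * θ))]
    apply mul_le_mul_of_nonneg_right _ hY0.le
    calc Real.pi / (2 * θ) * |a - 6 / Real.pi ^ 2| ≤ Real.pi / (2 * θ) * (ε * θ / (2 * Real.pi)) := by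
          gcongr
      _ = ε / 4 := by field_simp; norm_num
  have hw5 : Real.pi / (2 * θ) * (1 / w) * Y ≤ ε / 4 * Y := mul_le_mul_of_nonneg_right hw4 hY0.le
  rw [add_mul] at hV2
  rw [abs_le] at hsv hsum ha2 ⊢
  constructor <;> linarith [hsv.1, hsv.2, hsum.1, hsum.2, ha2.1, ha2.2]

theorem t_FIN (h1 : S_V) (h2 : S_U) (h3 : S_SV) (h4 : S_ID) : S_FIN := by
  intro l hodd hl θ hθ1 hθ2 K _ _ hK
  have hl5 : (5 : ℝ) ≤ l := by exact_mod_cast hl
  have hθ : 0 < θ := by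
    have : (0 : ℝ) < 1 / (l : ℝ) := by positivity
    linarith
  have hpi := Real.pi_pos
  obtain ⟨C, hC, hID⟩ := h4 l hodd (by omega)
  rw [Metric.tendsto_atTop]
  intro ε hε
  obtain ⟨X₁, hX₁⟩ := main_R h1 h2 h3 l hodd hl θ hθ1 hθ2 K hK (ε / 8) (by positivity)
  have ev : ∀ᶠ X : ℝ in atTop, ‖Real.log X‖ ≤ ε / (4 * C) * ‖X ^ (1 / 2 : ℝ)‖ :=
    (isLittleO_log_rpow_atTop (by norm_num : (0 : ℝ) < 1 / 2)).bound (by positivity)
  obtain ⟨X₂, hX₂⟩ := eventually_atTop.mp ev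
  obtain ⟨M, hM⟩ := exists_nat_ge (max (max X₁ X₂) 3)
  refine ⟨M, ?_⟩
  intro n hn
  set X : ℝ := (n : ℝ) with hXn
  have hX : max (max X₁ X₂) 3 ≤ X := hM.trans (by rw [hXn]; exact_mod_cast hn)
  have hXa : X₁ ≤ X := (le_max_left _ _).trans ((le_max_left _ _).trans hX)
  have hXb : X₂ ≤ X := (le_max_right _ _).trans ((le_max_left _ _).trans hX)
  have hX3 : 3 ≤ X := (le_max_right _ _).trans hX
  have hX0 : 0 < X := by linarith
  have hlog : 0 < Real.log X := Real.log_pos (by linarith)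
  have hXθ : 0 < X ^ θ := Real.rpow_pos_of_pos hX0 θ
  have hsX : 0 < √X := Real.sqrt_pos.mpr hX0
  set Y : ℝ := √X * X ^ θ / Real.log X with hY
  have hY0 : 0 < Y := by positivity
  have hN1 : 1 ≤ ⌊X ^ θ⌋₊ := by
    apply (Nat.one_le_floor_iff _).mpr
    exact Real.one_le_rpow (by linarith) hθ.le
  have e1 := hX₁ X hXa
  have e2 := hID ⌊X ^ θ⌋₊ n hN1 K hK
  have hE : C * (⌊X ^ θ⌋₊ : ℝ) ≤ ε / 4 * Y := by
    have hc2 := hX₂ X hXb
    rw [Real.norm_of_nonneg hlog.le, Real.norm_of_nonneg (Real.rpow_nonneg hX0.le _),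
      ← Real.sqrt_eq_rpow] at hc2
    calc C * (⌊X ^ θ⌋₊ : ℝ) ≤ C * X ^ θ := by gcongr; exact Nat.floor_le hXθ.le
      _ ≤ ε / 4 * Y := by
          rw [hY, mul_div_assoc', le_div_iff₀ hlog]
          calc C * X ^ θ * Real.log X ≤ C * X ^ θ * (ε / (4 * C) * √X) := by gcongr
            _ = _ := by field_simp
  rw [← hXn] at e2
  rw [← hY] at e1
  rw [Real.dist_eq]
  set T : ℝ := ∑ D ∈ nF n, (Nat.card (PI l ⌊X ^ θ⌋₊ (K D)) : ℝ) with hT
  have e3 : T / Y - 6 / (Real.pi * θ) = (T - 6 / (Real.pi * θ) * Y) / Y := by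
    field_simp
  rw [e3, abs_div, abs_of_pos hY0, div_lt_iff₀ hY0]
  have e4 : T - 6 / (Real.pi * θ) * Y = (T - 2 * ((RS l ⌊X ^ θ⌋₊ X).card : ℝ)) +
      2 * (((RS l ⌊X ^ θ⌋₊ X).card : ℝ) - 3 / (Real.pi * θ) * Y) := by ring
  rw [e4]
  calc _ ≤ |T - 2 * ((RS l ⌊X ^ θ⌋₊ X).card : ℝ)| +
      |2 * (((RS l ⌊X ^ θ⌋₊ X).card : ℝ) - 3 / (Real.pi * θ) * Y)| := abs_add_le _ _
    _ ≤ ε / 4 * Y + 2 * (ε / 8 * Y) := by
        apply add_le_add (e2.trans hE)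
        rw [abs_mul, abs_of_pos (by norm_num : (0 : ℝ) < 2)]
        linarith
    _ < ε * Y := by nlinarith

end Pool.Agent.T2h80.CL
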