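import Pool.Agent.T2h80.CL.IDF

set_option autoImplicit false

namespace Pool.Agent.T2h80.CL

open NumberField Finset Pool.Agent.T2h80.TL
open scoped nonZeroDivisors

/-- at most two ideals of prime norm `p` -/
theorem card_norm_le {K : Type} [Field K] [NumberField K] (hK : Module.finrank ℚ K = 2) {p : ℕ}
    (hp : p.Prime) (S : Finset (Ideal (𝓞 K))) (hS : ∀ P ∈ S, Ideal.absNorm P = p) : S.card ≤ 2 := by
  classical
  rcases S.eq_empty_or_nonempty with h | ⟨P₁, hP₁⟩
  · rw [h, card_empty]; exact Nat.zero_le _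
  have hn1 := hS P₁ hP₁
  obtain ⟨J, hJ, hJn⟩ := cofactor hK (I := P₁) (by rw [hn1]; exact hp.ne_zero)
  rw [hn1] at hJ hJn
  have hsub : S ⊆ {P₁, J} := by
    intro P hP
    have hn := hS P hP
    have hPp : (Ideal.absNorm P).Prime := by rw [hn]; exact hp
    have hpr : Prime P := Ideal.prime_of_isPrime (ne_bot_of_prime hPp) (prime_of_norm hPp)
    obtain ⟨J', hJ', -⟩ := cofactor hK (I := P) (by rw [hn]; exact hp.ne_zero)
    rw [hn] at hJ'
    have hd : P ∣ P₁ * J := by rw [hJ, ← hJ']; exact Dvd.intro J' rfl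
    rw [mem_insert, mem_singleton]
    rcases hpr.dvd_or_dvd hd with h | h
    · left
      exact eq_of_dvd_pow hPp (by rw [hn1]; exact hp) (l := 1) (by rw [pow_one]; exact h)
    · right
      exact eq_of_dvd_pow hPp (by rw [hJn]; exact hp) (l := 1) (by rw [pow_one]; exact h)
  exact (card_le_card hsub).trans card_le_two

/-- counting ideals by their norms -/
theorem card_by_norm {K : Type} [Field K] [NumberField K] (hK : Module.finrank ℚ K = 2)
    (S : Finset (Ideal (𝓞 K))) (T : Finset ℕ) (hS : ∀ P ∈ S, (Ideal.absNorm P).Prime ∧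
      Ideal.absNorm P ∈ T) : S.card ≤ 2 * T.card := by
  classical
  have h1 : ∀ P ∈ S, Ideal.absNorm P ∈ T := fun P hP => (hS P hP).2
  rw [card_eq_sum_card_fiberwise h1]
  calc ∑ b ∈ T, (S.filter (fun P => Ideal.absNorm P = b)).card ≤ ∑ b ∈ T, 2 := by
        apply sum_le_sum
        intro b hb
        by_cases hbp : b.Prime
        · exact card_norm_le hK hbp _ (fun P hP => (mem_filter.mp hP).2)
        · rw [filter_eq_empty_iff.mpr]
          · simp
          · intro P hP hPb
            exact hbp (hPb ▸ (hS P hP).1)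
    _ = 2 * T.card := by rw [sum_const, smul_eq_mul, mul_comm]

open Classical in
/-- the set of solutions belonging to `D` -/
noncomputable def GD (l N : ℕ) (D : ℤ) : Finset (ℕ × ℕ) := (TT l N).filter (fun g =>
  ∃ y : ℕ, 1 ≤ y ∧ (g.2 : ℤ) ^ 2 - 4 * (g.1 : ℤ) ^ l = D * (y : ℤ) ^ 2)

theorem card_GD (l N : ℕ) (D : ℤ) : Nat.card {g : ℕ × ℕ // g ∈ TT l N ∧ ∃ y : ℕ, 1 ≤ y ∧
      (g.2 : ℤ) ^ 2 - 4 * (g.1 : ℤ) ^ l = D * (y : ℤ) ^ 2} = (GD l N D).card := by
  classical
  apply Nat.subtype_card
  intro g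
  rw [GD, mem_filter]

open Classical in
/-- the bad norms -/
noncomputable def bad (l N : ℕ) (D : ℤ) : Finset ℕ :=
  (if -D ≤ 2 ^ (l + 2) then {2} else ∅) ∪
    (Icc 1 N).filter (fun p : ℕ => (p : ℤ) ∣ D ∧ -D ≤ 4 * p)

theorem one_field (h1 : S_IDE) (h2 : S_IDF) (h3 : S_IDR) {K : Type} [Field K] [NumberField K]
    (hK : Module.finrank ℚ K = 2) (hD3 : discr K ≤ -3) {l N : ℕ} (hl : Odd l) (hl3 : 3 ≤ l) :
    |(Nat.card (PI l N K) : ℝ) - 2 * ((GD l N (discr K)).card : ℝ)| ≤
      (if discr K ≤ -5 then 0 else 62 * (N : ℝ)) + 2 * ((bad l N (discr K)).card : ℝ) := by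
  classical
  have hfin : {I : Ideal (𝓞 K) | Ideal.absNorm I ≤ N}.Finite := Ideal.finite_setOfPred_absNorm_le N
  set A := hfin.toFinset.filter (fun P : Ideal (𝓞 K) => (Ideal.absNorm P).Prime ∧
    Ideal.absNorm P ≤ N ∧ (P ^ l).IsPrincipal) with hA
  have hmemA : ∀ P, P ∈ A ↔ ((Ideal.absNorm P).Prime ∧ Ideal.absNorm P ≤ N ∧
      (P ^ l).IsPrincipal) := by
    intro P
    rw [hA, mem_filter, Set.Finite.mem_toFinset]
    constructor
    · exact fun h => h.2
    · exact fun h => ⟨h.2.1, h⟩
  have hcA : Nat.card (PI l N K) = A.card := Nat.subtype_card A hmemA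
  by_cases h5 : discr K ≤ -5
  · rw [if_pos h5, zero_add]
    set A₁ := A.filter (fun P => Ideal.absNorm P ≠ 2 ∧ ¬ ((Ideal.absNorm P : ℤ) ∣ discr K)) with hA₁
    set A₂ := A.filter (fun P => ¬ (Ideal.absNorm P ≠ 2 ∧ ¬ ((Ideal.absNorm P : ℤ) ∣ discr K))) with hA₂
    have hsum : A₁.card + A₂.card = A.card := card_filter_add_card_filter_not _
    have hc1 : A₁.card = 2 * (GD l N (discr K)).card := by
      rw [← card_GD, ← h1 K hK h5 l N hl hl3]
      symm
      apply Nat.subtype_card
      intro P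
      rw [hA₁, mem_filter, hmemA]
      tauto
    have hc2 : A₂.card ≤ 2 * (bad l N (discr K)).card := by
      apply card_by_norm hK
      intro P hP
      rw [hA₂, mem_filter, hmemA] at hP
      obtain ⟨⟨p1, p2, p3⟩, p4⟩ := hP
      refine ⟨p1, ?_⟩
      have p5 : Ideal.absNorm P = 2 ∨ (Ideal.absNorm P : ℤ) ∣ discr K := by tauto
      rw [bad, mem_union]
      rcases h3 K hK hD3 l hl hl3 P p1 p3 p5 with ⟨q1, q2⟩ | ⟨q1, q2⟩
      · left
        rw [if_pos q2, q1, mem_singleton]
      · right
        rw [mem_filter, mem_Icc]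
        exact ⟨⟨p1.one_lt.le, p2⟩, q1, q2⟩
    have e1 : (Nat.card (PI l N K) : ℝ) - 2 * ((GD l N (discr K)).card : ℝ) = (A₂.card : ℝ) := by
      rw [hcA, ← hsum, hc1]; push_cast; ring
    rw [e1, Nat.abs_cast]
    exact_mod_cast hc2
  · rw [if_neg h5]
    have hc3 : A.card ≤ 2 * N := by
      have := card_by_norm hK A (Icc 1 N) (by
        intro P hP
        rw [hmemA] at hP
        exact ⟨hP.1, mem_Icc.mpr ⟨hP.1.one_lt.le, hP.2.1⟩⟩)
      rwa [Nat.card_Icc, Nat.add_sub_cancel] at this
    have hc4 : (GD l N (discr K)).card ≤ 15 * A.card := by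
      rw [← card_GD, ← hcA]
      exact h2 K hK hD3 l N hl hl3
    have r3 : (A.card : ℝ) ≤ 2 * N := by exact_mod_cast hc3
    have r4 : ((GD l N (discr K)).card : ℝ) ≤ 15 * A.card := by exact_mod_cast hc4
    have r5 : (0 : ℝ) ≤ (GD l N (discr K)).card := Nat.cast_nonneg _
    have r6 : (0 : ℝ) ≤ A.card := Nat.cast_nonneg _
    have r7 : (0 : ℝ) ≤ (bad l N (discr K)).card := Nat.cast_nonneg _
    rw [hcA, abs_le]
    constructor <;> linarith

theorem FDp_le {D : ℤ} (h : FDp D) (h0 : D < 0) : D ≤ -3 := by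
  rcases h with ⟨h1, -, -⟩ | ⟨m, hm, h2, -⟩
  · omega
  · omega

theorem t_ID (h1 : S_IDE) (h2 : S_IDF) (h3 : S_IDR) (h4 : S_FD) : S_ID := by
  classical
  intro l hl hl3
  refine ⟨2 ^ (l + 3) + 200, by positivity, ?_⟩
  intro N X hN K _ _ hK
  have hN1 : (1 : ℝ) ≤ N := by exact_mod_cast hN
  -- RS is a disjoint union
  have hRS : (RS l N X).card = ∑ D ∈ nF X, (GD l N D).card := by
    rw [← card_biUnion]
    · congr 1
      ext g
      rw [mem_biUnion, RS, mem_filter]
      constructor
      · rintro ⟨hg, D, y, hD, hy, he, hX⟩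
        refine ⟨D, ?_, ?_⟩
        · rw [nF, mem_filter, mem_Ioo]
          have hlt : (g.2 : ℤ) ^ 2 < 4 * (g.1 : ℤ) ^ l := by
            have := hg; rw [TT, mem_filter] at this; exact_mod_cast this.2.2.2.2.1
          have hy2 : 0 ≤ (y : ℤ) ^ 2 := sq_nonneg _
          have hXD : -(X : ℤ) < D := by
            have : -(D : ℝ) < (X : ℝ) := hX
            have h5 : ((-D : ℤ) : ℝ) < ((X : ℤ) : ℝ) := by push_cast; exact this
            have h6 : -D < (X : ℤ) := by exact_mod_cast h5
            omega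
          refine ⟨⟨hXD, ?_⟩, hD⟩
          by_contra hcon
          rw [not_lt] at hcon
          have := mul_nonneg hcon hy2
          linarith
        · rw [GD, mem_filter]
          exact ⟨hg, y, hy, he⟩
      · rintro ⟨D, hD, hg⟩
        rw [nF, mem_filter, mem_Ioo] at hD
        rw [GD, mem_filter] at hg
        obtain ⟨hg, y, hy, he⟩ := hg
        refine ⟨hg, D, y, hD.2, hy, he, ?_⟩
        have h5 : -D < (X : ℤ) := by have := hD.1.1; omega
        have h6 : ((-D : ℤ) : ℝ) < ((X : ℤ) : ℝ) := by exact_mod_cast h5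
        push_cast at h6
        exact h6
    · intro D hD D' hD' hne
      rw [Function.onFun, disjoint_left]
      intro g hg hg'
      rw [GD, mem_filter] at hg hg'
      obtain ⟨hg1, y, hy, he⟩ := hg
      obtain ⟨-, y', hy', he'⟩ := hg'
      rw [mem_coe, nF, mem_filter] at hD hD'
      have hlt : g.2 ^ 2 < 4 * g.1 ^ l := by
        rw [TT, mem_filter] at hg1; exact hg1.2.2.2.2.1
      obtain ⟨D₀, y₀, -, -, -, -, -, hu⟩ := h4 l g.1 g.2 hlt
      have e1 := (hu D y hD.2 hy he).1
      have e2 := (hu D' y' hD'.2 hy' he').1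
      exact hne (e1.trans e2.symm)
  have hD3 : ∀ D ∈ nF X, D ≤ -3 := by
    intro D hD
    rw [nF, mem_filter, mem_Ioo] at hD
    exact FDp_le hD.2 hD.1.2
  have hKD : ∀ D ∈ nF X, Module.finrank ℚ (K D) = 2 ∧ discr (K D) = D := by
    intro D hD
    rw [nF, mem_filter, mem_Ioo] at hD
    exact hK D hD.1.2 hD.2
  have hone : ∀ D ∈ nF X, |(Nat.card (PI l N (K D)) : ℝ) - 2 * ((GD l N D).card : ℝ)| ≤
      (if D ≤ -5 then 0 else 62 * (N : ℝ)) + 2 * ((bad l N D).card : ℝ) := by
    intro D hD
    obtain ⟨k1, k2⟩ := hKD D hD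
    have := one_field h1 h2 h3 (N := N) k1 (by rw [k2]; exact hD3 D hD) hl hl3
    rw [k2] at this
    exact this
  have e1 : ∑ D ∈ nF X, (Nat.card (PI l N (K D)) : ℝ) - 2 * ((RS l N X).card : ℝ) =
      ∑ D ∈ nF X, ((Nat.card (PI l N (K D)) : ℝ) - 2 * ((GD l N D).card : ℝ)) := by
    rw [hRS, sum_sub_distrib]
    push_cast
    rw [mul_sum]
  rw [e1]
  refine (abs_sum_le_sum_abs _ _).trans ?_
  refine (sum_le_sum hone).trans ?_
  rw [sum_add_distrib, ← mul_sum]
  -- first sum
  have f1 : ∑ D ∈ nF X, (if D ≤ -5 then (0 : ℝ) else 62 * (N : ℝ)) ≤ 124 * N := by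
    rw [← sum_filter_add_sum_filter_not (nF X) (fun D => D ≤ -5)]
    have g1 : ∑ D ∈ (nF X).filter (fun D => D ≤ -5), (if D ≤ -5 then (0 : ℝ) else 62 * (N : ℝ)) = 0 := by
      apply sum_eq_zero
      intro D hD
      rw [if_pos (mem_filter.mp hD).2]
    rw [g1, zero_add]
    calc ∑ D ∈ (nF X).filter (fun D => ¬ D ≤ -5), (if D ≤ -5 then (0 : ℝ) else 62 * (N : ℝ)) =
        ∑ D ∈ (nF X).filter (fun D => ¬ D ≤ -5), 62 * (N : ℝ) := by
          apply sum_congr rfl
          intro D hD
          rw [if_neg (mem_filter.mp hD).2]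
      _ = ((nF X).filter (fun D => ¬ D ≤ -5)).card * (62 * (N : ℝ)) := by
          rw [sum_const, nsmul_eq_mul]
      _ ≤ 2 * (62 * (N : ℝ)) := by
          apply mul_le_mul_of_nonneg_right _ (by positivity)
          have : (nF X).filter (fun D => ¬ D ≤ -5) ⊆ Icc (-4 : ℤ) (-3) := by
            intro D hD
            rw [mem_filter] at hD
            rw [mem_Icc]
            have := hD3 D hD.1
            omega
          have h5 := card_le_card this
          rw [Int.card_Icc] at h5
          have h6 : ((nF X).filter (fun D => ¬ D ≤ -5)).card ≤ 2 := h5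
          exact_mod_cast h6
      _ = 124 * N := by ring
  -- second sum
  have f2 : ∑ D ∈ nF X, (bad l N D).card ≤ 2 ^ (l + 2) + 4 * N := by
    calc ∑ D ∈ nF X, (bad l N D).card ≤ ∑ D ∈ nF X, ((if -D ≤ 2 ^ (l + 2) then 1 else 0) +
          ((Icc 1 N).filter (fun p : ℕ => (p : ℤ) ∣ D ∧ -D ≤ 4 * p)).card) := by
          apply sum_le_sum
          intro D _
          rw [bad]
          refine (card_union_le _ _).trans ?_
          apply Nat.add_le_add_right
          split_ifs <;> simp
      _ = ∑ D ∈ nF X, (if -D ≤ 2 ^ (l + 2) then 1 else 0) +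
          ∑ D ∈ nF X, ((Icc 1 N).filter (fun p : ℕ => (p : ℤ) ∣ D ∧ -D ≤ 4 * p)).card :=
          sum_add_distrib
      _ ≤ 2 ^ (l + 2) + 4 * N := by
          apply Nat.add_le_add
          · rw [← sum_filter, sum_const, smul_eq_mul, mul_one]
            have : (nF X).filter (fun D => -D ≤ 2 ^ (l + 2)) ⊆ Icc (-2 ^ (l + 2)) (-1) := by
              intro D hD
              rw [mem_filter] at hD
              rw [mem_Icc]
              have := hD3 D hD.1
              constructor
              · linarith [hD.2]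
              · omega
            refine (card_le_card this).trans ?_
            rw [Int.card_Icc]
            have : (-1 + 1 - -2 ^ (l + 2) : ℤ) = ((2 ^ (l + 2) : ℕ) : ℤ) := by push_cast; ring
            rw [this, Int.toNat_natCast]
          · simp_rw [card_filter]
            rw [sum_comm]
            calc ∑ p ∈ Icc 1 N, ∑ D ∈ nF X, (if (p : ℤ) ∣ D ∧ -D ≤ 4 * p then 1 else 0) ≤
                ∑ p ∈ Icc 1 N, 4 := by
                  apply sum_le_sum
                  intro p hp
                  rw [mem_Icc] at hp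
                  rw [← card_filter]
                  have : (nF X).filter (fun D => (p : ℤ) ∣ D ∧ -D ≤ 4 * p) ⊆
                      (Icc (1 : ℤ) 4).image (fun j => -(p : ℤ) * j) := by
                    intro D hD
                    rw [mem_filter] at hD
                    obtain ⟨hD1, ⟨j, hj⟩, hD2⟩ := hD
                    have h5 := hD3 D hD1
                    rw [mem_image]
                    have hp0 : (0 : ℤ) < p := by exact_mod_cast hp.1
                    refine ⟨-j, ?_, by rw [hj]; ring⟩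
                    rw [mem_Icc]
                    constructor
                    · by_contra hcon
                      rw [not_le] at hcon
                      have : 0 ≤ j := by omega
                      have := mul_nonneg hp0.le this
                      omega
                    · by_contra hcon
                      rw [not_le] at hcon
                      have h6 : j ≤ -5 := by omega
                      nlinarith
                  refine (card_le_card this).trans (card_image_le.trans ?_)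
                  rw [Int.card_Icc]
                  decide
              _ = 4 * N := by
                  rw [sum_const, Nat.card_Icc, smul_eq_mul, Nat.add_sub_cancel, mul_comm]
  have f2' : ∑ D ∈ nF X, ((bad l N D).card : ℝ) ≤ 2 ^ (l + 2) + 4 * N := by exact_mod_cast f2
  have f3 : (2 : ℝ) ^ (l + 3) = 2 * 2 ^ (l + 2) := by rw [pow_succ]; ring
  have f4 : (0 : ℝ) < 2 ^ (l + 2) := by positivity
  rw [f3]
  nlinarith

end Pool.Agent.T2h80.CL
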