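import Pool.Agent.T2h80.CL.IDF

set_option autoImplicit false

namespace Pool.Agent.T2h80.CL

open NumberField Finset Pool.Agent.T2h80.TL
open scoped nonZeroDivisors

variable {K : Type} [Field K] [NumberField K]

theorem not_dvd_t (hK : Module.finrank ℚ K = 2) (hD : discr K < 0) {α : K}
    (hα : α ^ 2 = ((discr K : ℤ) : K)) {P : Ideal (𝓞 K)} {p : ℕ} (hp : p.Prime) (hp2 : p ≠ 2)
    (hP : Ideal.absNorm P = p) (hpD : ¬ (p : ℤ) ∣ discr K) {l : ℕ} (hl : Odd l) (hl3 : 3 ≤ l)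
    {β : 𝓞 K} (hβ : P ^ l = Ideal.span {β}) {t k : ℤ} (h1 : 2 * (β : K) = t + k * α)
    (h2 : 4 * (p : ℤ) ^ l = t ^ 2 - discr K * k ^ 2) : ¬ (p : ℤ) ∣ t := by
  intro hpt
  have hpZ : Prime (p : ℤ) := Nat.prime_iff_prime_int.mp hp
  have hPp : (Ideal.absNorm P).Prime := by rw [hP]; exact hp
  have hpl : (p : ℤ) ∣ 4 * (p : ℤ) ^ l := Dvd.dvd.mul_left (dvd_pow_self _ (by omega)) _
  have h3 : (p : ℤ) ∣ discr K * k ^ 2 := by
    have : discr K * k ^ 2 = t ^ 2 - 4 * (p : ℤ) ^ l := by linarith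
    rw [this]
    exact dvd_sub (Dvd.dvd.pow hpt two_ne_zero) hpl
  have h4 : (p : ℤ) ∣ k := hpZ.dvd_of_dvd_pow ((hpZ.dvd_mul.mp h3).resolve_left hpD)
  obtain ⟨t', rfl⟩ := hpt
  obtain ⟨k', rfl⟩ := h4
  have hp0 : (p : ℤ) ≠ 0 := by exact_mod_cast hp.ne_zero
  have hpK0 : (p : K) ≠ 0 := by exact_mod_cast hp.ne_zero
  have h5 : 4 * (p : ℤ) ^ (l - 2) = t' ^ 2 - discr K * k' ^ 2 := by
    have h6 : (p : ℤ) ^ l = (p : ℤ) ^ 2 * (p : ℤ) ^ (l - 2) := by
      rw [← pow_add]; congr 1; omega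
    have h7 : (p : ℤ) ^ 2 * (4 * (p : ℤ) ^ (l - 2)) = (p : ℤ) ^ 2 * (t' ^ 2 - discr K * k' ^ 2) := by
      rw [h6] at h2
      linear_combination h2
    exact mul_left_cancel₀ (pow_ne_zero 2 hp0) h7
  have hK5 : 4 * (p : K) ^ (l - 2) = (t' : K) ^ 2 - α ^ 2 * (k' : K) ^ 2 := by
    rw [hα]
    exact_mod_cast congrArg (fun z : ℤ => (z : K)) h5
  have hγi : IsIntegral ℤ (((t' : K) + k' * α) / 2) := by
    apply isInt_of_quad (x := t') (c := (p : ℤ) ^ (l - 2))
    push_cast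
    linear_combination hK5 / 4
  let γ : 𝓞 K := ⟨((t' : K) + k' * α) / 2, hγi⟩
  have hγ : (γ : K) = ((t' : K) + k' * α) / 2 := rfl
  have hβγ : β = ((p : ℕ) : 𝓞 K) * γ := by
    apply RingOfIntegers.coe_injective
    rw [map_mul, map_natCast]
    change (β : K) = (p : K) * (γ : K)
    rw [hγ]
    push_cast at h1
    linear_combination h1 / 2
  have hne : Ideal.absNorm P ≠ 0 := by rw [hP]; exact hp.ne_zero
  obtain ⟨J, hJ, hJn⟩ := cofactor hK hne
  rw [hP] at hJ hJn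
  have hJp : (Ideal.absNorm J).Prime := by rw [hJn]; exact hp
  have hJP : J = P := by
    apply eq_of_dvd_pow hJp hPp (l := l)
    rw [hβ, hβγ, ← Ideal.span_singleton_mul_span_singleton, ← hJ]
    exact Dvd.dvd.mul_right (Dvd.intro_left P rfl) _
  rw [hJP, ← sq] at hJ
  obtain ⟨s, r, h8, h9, h10⟩ := of_sq hK hD hα hp hP hl ⟨β, by rw [hβ, Ideal.submodule_span_eq]⟩ hJ
  obtain ⟨s', rfl⟩ := h10
  have h11 : (p : ℤ) ∣ discr K * r ^ 2 := ⟨p * s' ^ 2 - 4, by linear_combination h8⟩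
  have h12 : (p : ℤ) ∣ r := hpZ.dvd_of_dvd_pow ((hpZ.dvd_mul.mp h11).resolve_left hpD)
  obtain ⟨r', rfl⟩ := h12
  have h13 : (4 : ℤ) = p * (s' ^ 2 - discr K * r' ^ 2) := by
    have : (p : ℤ) * 4 = p * (p * (s' ^ 2 - discr K * r' ^ 2)) := by linear_combination h8
    exact mul_left_cancel₀ hp0 this
  have h14 : (p : ℤ) ∣ 2 ^ 2 := ⟨_, by rw [← h13]; norm_num⟩
  have h15 : (p : ℤ) ∣ 2 := hpZ.dvd_of_dvd_pow h14
  have h16 : p ∣ 2 := by exact_mod_cast h15
  exact hp2 ((Nat.prime_dvd_prime_iff_eq hp Nat.prime_two).mp h16)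

theorem one_le_of_TT {l N : ℕ} {g : ℕ × ℕ} (h : g ∈ TT l N) : 1 ≤ g.2 := by
  rw [TT, mem_filter] at h
  exact h.2.2.2.1

theorem t_IDE : S_IDE := by
  classical
  intro K _ _ hK hD5 l N hl hl3
  have hD : discr K < 0 := by omega
  have hD3 : discr K ≤ -3 := by omega
  obtain ⟨α, hα, hr⟩ := rep hK
  set G := {g : ℕ × ℕ // g ∈ TT l N ∧ ∃ y : ℕ, 1 ≤ y ∧
      (g.2 : ℤ) ^ 2 - 4 * (g.1 : ℤ) ^ l = discr K * (y : ℤ) ^ 2} with hG
  set PP := {P : Ideal (𝓞 K) // (Ideal.absNorm P).Prime ∧ Ideal.absNorm P ≤ N ∧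
      (P ^ l).IsPrincipal ∧ Ideal.absNorm P ≠ 2 ∧ ¬ ((Ideal.absNorm P : ℤ) ∣ discr K)} with hPP
  let sg : Bool → ℤ := fun b => if b then 1 else -1
  have hsg : ∀ b, sg b = 1 ∨ sg b = -1 := by
    intro b; cases b
    · right; rfl
    · left; rfl
  have hex : ∀ h : G × Bool, ∃ (I : PP) (β : 𝓞 K) (y : ℕ), 1 ≤ y ∧ Ideal.absNorm I.1 = h.1.1.1 ∧
      I.1 ^ l = Ideal.span {β} ∧
      2 * (β : K) = (h.1.1.2 : ℤ) + (sg h.2 * (y : ℤ) : ℤ) * α ∧
      (h.1.1.2 : ℤ) ^ 2 - 4 * (h.1.1.1 : ℤ) ^ l = discr K * (y : ℤ) ^ 2 := by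
    rintro ⟨⟨⟨p, x⟩, hg, y, hy1, hy⟩, b⟩
    rw [TT, mem_filter, mem_product, mem_range, mem_range] at hg
    obtain ⟨⟨hpN, -⟩, hp, hp2, hx1, hx2, hpx⟩ := hg
    have hα' : ((sg b : K) * α) ^ 2 = ((discr K : ℤ) : K) := by
      rcases hsg b with h | h <;> rw [h] <;> push_cast <;> linear_combination hα
    obtain ⟨I, β, h1, h2, h3⟩ := ideal_of_sol hK hD hα' (by omega) hp hpx hy
    refine ⟨⟨I, ?_, ?_, ?_, ?_, ?_⟩, β, y, hy1, h1, h2, ?_, hy⟩
    · rw [h1]; exact hp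
    · rw [h1]; simp only at hpN; omega
    · exact ⟨β, by rw [h2, Ideal.submodule_span_eq]⟩
    · rw [h1]; exact hp2
    · rw [h1]
      intro hcon
      have hpZ : Prime (p : ℤ) := Nat.prime_iff_prime_int.mp hp
      have h4 : (p : ℤ) ∣ (x : ℤ) ^ 2 := by
        have : (x : ℤ) ^ 2 = discr K * (y : ℤ) ^ 2 + 4 * (p : ℤ) ^ l := by
          simp only at hy
          linarith
        rw [this]
        exact dvd_add (Dvd.dvd.mul_right hcon _) (Dvd.dvd.mul_left (dvd_pow_self _ (by omega)) _)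
      apply hpx
      exact_mod_cast hpZ.dvd_of_dvd_pow h4
    · rw [h3]; push_cast; ring
  choose I β y hy1 hI1 hI2 hI3 hy using hex
  have hinj : Function.Injective I := by
    rintro ⟨g, b⟩ ⟨g', b'⟩ h
    have hx1 : 1 ≤ g.1.2 := one_le_of_TT g.2.1
    have hx1' : 1 ≤ g'.1.2 := one_le_of_TT g'.2.1
    have h1 : Associated (β (g, b)) (β (g', b')) := by
      rw [← Ideal.span_singleton_eq_span_singleton, ← hI2, ← hI2, h]
    obtain ⟨u, hu⟩ := h1
    obtain ⟨q, hq1, hq2, hq3⟩ := unit_mem hK hD3 hα u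
    have hq0 : q.2 = 0 := by
      by_contra hne
      have : 1 ≤ q.2 ^ 2 := by
        have : 0 < q.2 ^ 2 := by positivity
        omega
      nlinarith [sq_nonneg q.1]
    have hq4 : q.1 = 2 ∨ q.1 = -2 := by
      rw [hq0] at hq3
      have : (q.1 - 2) * (q.1 + 2) = 0 := by linear_combination -hq3
      rcases mul_eq_zero.mp this with h | h
      · left; linarith
      · right; linarith
    have hu1 : ((u : 𝓞 K) : K) = 1 ∨ ((u : 𝓞 K) : K) = -1 := by
      rw [hq0] at hq2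
      rcases hq4 with h | h
      · left
        rw [h] at hq2
        push_cast at hq2
        linear_combination hq2 / 2
      · right
        rw [h] at hq2
        push_cast at hq2
        linear_combination hq2 / 2
    have hβK : ((β (g, b) : 𝓞 K) : K) * ((u : 𝓞 K) : K) = ((β (g', b') : 𝓞 K) : K) := by
      rw [← hu]
      exact (map_mul (algebraMap (𝓞 K) K) _ _).symm
    have e1 := hI3 (g, b)
    have e2 := hI3 (g', b')
    simp only at e1 e2
    rcases hu1 with h | h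
    · rw [h, mul_one] at hβK
      rw [← hβK, e1] at e2
      obtain ⟨e3, e4⟩ := indep hD hα e2
      have hyy : sg b = sg b' := by
        have hy0 : (1 : ℤ) ≤ y (g, b) := by exact_mod_cast hy1 (g, b)
        have hy0' : (1 : ℤ) ≤ y (g', b') := by exact_mod_cast hy1 (g', b')
        rcases hsg b with h1 | h1 <;> rcases hsg b' with h2 | h2 <;> rw [h1, h2] at e4 ⊢
        · exfalso; linarith
        · exfalso; linarith
      have hbb : b = b' := by
        cases b <;> cases b' <;> first | rfl | (exfalso; simp [sg] at hyy)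
      have hgg : g = g' := by
        apply Subtype.ext
        apply Prod.ext
        · have f1 := hI1 (g, b)
          have f2 := hI1 (g', b')
          simp only at f1 f2
          rw [← f1, ← f2, ‹I (g, b) = I (g', b')›]
        · exact_mod_cast e3
      rw [hgg, hbb]
    · exfalso
      rw [h] at hβK
      have e5 : (((-(g.1.2 : ℤ)) : ℤ) : K) + ((-(sg b * (y (g, b) : ℤ)) : ℤ) : K) * α =
          ((g'.1.2 : ℤ) : K) + ((sg b' * (y (g', b') : ℤ) : ℤ) : K) * α := by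
        rw [← e2, ← hβK]
        push_cast at e1 ⊢
        linear_combination e1
      obtain ⟨e3, e4⟩ := indep hD hα e5
      omega
  have hsurj : Function.Surjective I := by
    rintro ⟨P, hP, hPN, hpr, hP2, hPD⟩
    set p := Ideal.absNorm P with hp
    obtain ⟨β₀, hβ₀⟩ := hpr
    rw [Ideal.submodule_span_eq] at hβ₀
    obtain ⟨t, k, h1, h2⟩ := rep' hK hα β₀
    have hn := norm_gen hK hD hβ₀
    rw [hn, ← hp] at h2
    have hpt := not_dvd_t hK hD hα hP hP2 hp.symm hPD hl hl3 hβ₀ h1 h2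
    have hpZ : Prime (p : ℤ) := Nat.prime_iff_prime_int.mp hP
    have ht0 : t ≠ 0 := by rintro rfl; exact hpt (dvd_zero _)
    have hk0 : k ≠ 0 := by
      rintro rfl
      apply hpt
      apply hpZ.dvd_of_dvd_pow (n := 2)
      have : t ^ 2 = 4 * (p : ℤ) ^ l := by rw [h2]; ring
      rw [this]
      exact Dvd.dvd.mul_left (dvd_pow_self _ (by omega)) _
    have hk1 : 1 ≤ k ^ 2 := by
      have : 0 < k ^ 2 := by positivity
      omega
    have hx2 : t.natAbs ^ 2 < 4 * p ^ l := by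
      have : ((t.natAbs ^ 2 : ℕ) : ℤ) < ((4 * p ^ l : ℕ) : ℤ) := by
        push_cast
        rw [sq_abs]
        nlinarith
      exact_mod_cast this
    have hpl : p ^ l ≤ N ^ l := Nat.pow_le_pow_left hPN l
    have hmem : (p, t.natAbs) ∈ TT l N := by
      rw [TT, mem_filter, mem_product, mem_range, mem_range]
      refine ⟨⟨by simp only; omega, ?_⟩, hP, hP2, Int.natAbs_pos.mpr ht0, hx2, ?_⟩
      · simp only
        have : t.natAbs ≤ t.natAbs ^ 2 := Nat.le_self_pow two_ne_zero _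
        omega
      · intro hcon
        exact hpt (Int.natCast_dvd.mpr hcon)
    have hyeq : ((t.natAbs : ℕ) : ℤ) ^ 2 - 4 * (p : ℤ) ^ l = discr K * ((k.natAbs : ℕ) : ℤ) ^ 2 := by
      rw [Int.natCast_natAbs, Int.natCast_natAbs, sq_abs, sq_abs]
      linarith
    let g : G := ⟨(p, t.natAbs), hmem, k.natAbs, Int.natAbs_pos.mpr hk0, hyeq⟩
    obtain ⟨b, hb⟩ : ∃ b : Bool, sg b * t.sign = k.sign := by
      rcases Int.lt_or_gt_of_ne ht0 with h | h <;> rcases Int.lt_or_gt_of_ne hk0 with h' | h'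
      · exact ⟨true, by rw [Int.sign_eq_neg_one_of_neg h, Int.sign_eq_neg_one_of_neg h']; rfl⟩
      · exact ⟨false, by rw [Int.sign_eq_neg_one_of_neg h, Int.sign_eq_one_of_pos h']; rfl⟩
      · exact ⟨false, by rw [Int.sign_eq_one_of_pos h, Int.sign_eq_neg_one_of_neg h']; rfl⟩
      · exact ⟨true, by rw [Int.sign_eq_one_of_pos h, Int.sign_eq_one_of_pos h']; rfl⟩
    refine ⟨(g, b), ?_⟩
    have f1 := hI1 (g, b)
    have f2 := hI2 (g, b)
    have f3 := hI3 (g, b)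
    have f4 := hy (g, b)
    simp only [g] at f1 f3 f4
    have hyk : ((y (g, b) : ℕ) : ℤ) = |k| := by
      have h5 : discr K * ((y (g, b) : ℕ) : ℤ) ^ 2 = discr K * ((k.natAbs : ℕ) : ℤ) ^ 2 := by
        rw [← hyeq]; exact f4.symm
      have h6 : ((y (g, b) : ℕ) : ℤ) ^ 2 = ((k.natAbs : ℕ) : ℤ) ^ 2 :=
        mul_left_cancel₀ hD.ne h5
      have h7 : y (g, b) ^ 2 = k.natAbs ^ 2 := by exact_mod_cast h6
      have h8 : y (g, b) = k.natAbs := Nat.pow_left_injective two_ne_zero h7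
      rw [h8, Int.natCast_natAbs]
    have hts : t.sign * t = |t| := by rw [Int.sign_mul_self, Int.natCast_natAbs]
    have hks : k.sign * k = |k| := by rw [Int.sign_mul_self, Int.natCast_natAbs]
    have htt : t.sign * t.sign = 1 := by
      rcases Int.lt_or_gt_of_ne ht0 with h | h
      · rw [Int.sign_eq_neg_one_of_neg h]; norm_num
      · rw [Int.sign_eq_one_of_pos h]; norm_num
    have hss : sg b * sg b = 1 := by rcases hsg b with h | h <;> rw [h] <;> norm_num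
    -- β (g, b) = sign t * β₀
    have hββ : β (g, b) = (t.sign : 𝓞 K) * β₀ := by
      apply RingOfIntegers.coe_injective
      rw [map_mul, map_intCast]
      change ((β (g, b) : 𝓞 K) : K) = (t.sign : K) * (β₀ : K)
      have e1 : ((t.natAbs : ℕ) : ℤ) = t.sign * t := by rw [Int.natCast_natAbs, hts]
      have e2 : sg b * ((y (g, b) : ℕ) : ℤ) = t.sign * k := by
        rw [hyk, ← hks, ← hb]
        calc sg b * (sg b * t.sign * k) = (sg b * sg b) * (t.sign * k) := by ring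
          _ = t.sign * k := by rw [hss, one_mul]
      have f3' : 2 * ((β (g, b) : 𝓞 K) : K) = ((t.sign * t : ℤ) : K) + ((t.sign * k : ℤ) : K) * α := by
        rw [← e2, ← e1]; exact f3
      push_cast at f3'
      linear_combination f3' / 2 - (t.sign : K) * h1 / 2
    have hspan : Ideal.span {β (g, b)} = Ideal.span {β₀} := by
      rw [Ideal.span_singleton_eq_span_singleton, hββ]
      have hun : (t.sign : 𝓞 K) * (t.sign : 𝓞 K) = 1 := by
        exact_mod_cast congrArg (fun z : ℤ => (z : 𝓞 K)) htt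
      refine ⟨⟨(t.sign : 𝓞 K), (t.sign : 𝓞 K), hun, hun⟩, ?_⟩
      change (t.sign : 𝓞 K) * β₀ * (t.sign : 𝓞 K) = β₀
      linear_combination β₀ * hun
    apply Subtype.ext
    have hIp : (Ideal.absNorm (I (g, b)).1).Prime := (I (g, b)).2.1
    apply eq_of_dvd_pow hIp hP (l := l)
    rw [hβ₀, ← hspan, ← f2]
    exact dvd_pow_self _ (by omega)
  have h1 := Nat.card_congr (Equiv.ofBijective I ⟨hinj, hsurj⟩)
  rw [Nat.card_prod] at h1
  rw [← h1, mul_comm]
  congr 1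
  simp

end Pool.Agent.T2h80.CL
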