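import Pool.Agent.T2h80.CL.Id0

set_option autoImplicit false

namespace Pool.Agent.T2h80.CL

open NumberField Finset Pool.Agent.T2h80.TL
open scoped nonZeroDivisors

variable {K : Type} [Field K] [NumberField K]

/-- the integer `t` in an ideal of norm `p` -/
theorem dvd_of_mem (hK : Module.finrank ℚ K = 2) {P : Ideal (𝓞 K)} {p : ℕ} (hp : p.Prime)
    (hP : Ideal.absNorm P = p) {s : ℤ} (h11 : (s : 𝓞 K) ∈ P) : (p : ℤ) ∣ s := by
  have h12 : Ideal.absNorm P ∣ Ideal.absNorm (Ideal.span {(s : 𝓞 K)}) := by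
    apply Ideal.absNorm_dvd_absNorm_of_le
    rw [Ideal.span_singleton_le_iff_mem]
    exact h11
  rw [hP, Ideal.absNorm_span_singleton] at h12
  have h13 : Algebra.norm ℤ (s : 𝓞 K) = s ^ 2 := by
    have := Algebra.norm_algebraMap (R := ℤ) (S := 𝓞 K) s
    rw [RingOfIntegers.rank, hK] at this
    simpa using this
  rw [h13, Int.natAbs_pow] at h12
  have h14 : p ∣ s.natAbs := hp.dvd_of_dvd_pow h12
  exact Int.natCast_dvd.mpr h14

/-- ramified primes -/
theorem sq_of_ram (hK : Module.finrank ℚ K = 2) (hD : discr K < 0) {P : Ideal (𝓞 K)} {p : ℕ}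
    (hp : p.Prime) (hp2 : p ≠ 2) (hP : Ideal.absNorm P = p) (hpD : (p : ℤ) ∣ discr K) :
    P ^ 2 = Ideal.span {((p : ℕ) : 𝓞 K)} := by
  have hPp : (Ideal.absNorm P).Prime := by rw [hP]; exact hp
  have hPprime := prime_of_norm hPp
  obtain ⟨α, hα, hr⟩ := rep hK
  have hpP : ((p : ℕ) : 𝓞 K) ∈ P := by
    have := Ideal.absNorm_mem P
    rwa [hP] at this
  -- α is an integer of P
  have hαi : IsIntegral ℤ α := by
    apply isInt_of_quad (x := 0) (c := - discr K)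
    push_cast
    linear_combination hα
  let a : 𝓞 K := ⟨α, hαi⟩
  have ha : (a : K) = α := rfl
  have ha2 : a ^ 2 = ((discr K : ℤ) : 𝓞 K) := by
    apply RingOfIntegers.coe_injective
    rw [map_pow, map_intCast]
    change (a : K) ^ 2 = _
    rw [ha, hα]
  have haP : a ∈ P := by
    apply hPprime.mem_of_pow_mem 2
    rw [ha2]
    obtain ⟨c, hc⟩ := hpD
    rw [hc]
    push_cast
    exact Ideal.mul_mem_right _ _ hpP
  -- squares
  have hsq : ∀ γ ∈ P, γ ^ 2 ∈ Ideal.span {((p : ℕ) : 𝓞 K)} := by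
    intro γ hγ
    obtain ⟨t, k, h1, h2⟩ := hr γ
    have h3 : 2 * γ = (t : 𝓞 K) + (k : 𝓞 K) * a := by
      apply RingOfIntegers.coe_injective
      rw [map_mul, map_add, map_mul, map_intCast, map_intCast, map_ofNat]
      exact h1
    have h4 : (t : 𝓞 K) ∈ P := by
      have : (t : 𝓞 K) = 2 * γ - (k : 𝓞 K) * a := by rw [h3]; ring
      rw [this]
      exact Ideal.sub_mem _ (Ideal.mul_mem_left _ _ hγ) (Ideal.mul_mem_left _ _ haP)
    obtain ⟨t', ht'⟩ := dvd_of_mem hK hp hP h4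
    have h5 : (p : ℤ) ∣ Algebra.norm ℤ γ := by
      have := Ideal.absNorm_dvd_norm_of_mem hγ
      rwa [hP] at this
    obtain ⟨n, hn⟩ := h5
    have h6 : γ ^ 2 = (t : 𝓞 K) * γ - ((Algebra.norm ℤ γ : ℤ) : 𝓞 K) := by
      have e0 : 4 * γ ^ 2 = 4 * ((t : 𝓞 K) * γ - ((Algebra.norm ℤ γ : ℤ) : 𝓞 K)) := by
        have e1 : ((4 * Algebra.norm ℤ γ : ℤ) : 𝓞 K) = ((t ^ 2 - discr K * k ^ 2 : ℤ) : 𝓞 K) := by
          rw [h2]
        push_cast at e1
        rw [← ha2] at e1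
        linear_combination (2 * γ + (k : 𝓞 K) * a - (t : 𝓞 K)) * h3 + e1
      exact mul_left_cancel₀ (by norm_num) e0
    rw [h6, ht', hn, Ideal.mem_span_singleton]
    push_cast
    exact ⟨(t' : 𝓞 K) * γ - (n : 𝓞 K), by ring⟩
  -- P² ≤ (p)
  have hle : P ^ 2 ≤ Ideal.span {((p : ℕ) : 𝓞 K)} := by
    rw [sq, Ideal.mul_le]
    intro x hx y hy
    obtain ⟨m, hm⟩ := hp.odd_of_ne_two hp2
    have h1 : 2 * (x * y) ∈ Ideal.span {((p : ℕ) : 𝓞 K)} := by
      have : 2 * (x * y) = (x + y) ^ 2 - x ^ 2 - y ^ 2 := by ring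
      rw [this]
      exact Ideal.sub_mem _ (Ideal.sub_mem _ (hsq _ (Ideal.add_mem _ hx hy)) (hsq _ hx)) (hsq _ hy)
    have h2 : x * y = ((p : ℕ) : 𝓞 K) * (x * y) - (m : 𝓞 K) * (2 * (x * y)) := by
      rw [hm]; push_cast; ring
    rw [h2]
    exact Ideal.sub_mem _ (Ideal.mul_mem_right _ _ (Ideal.mem_span_singleton_self _))
      (Ideal.mul_mem_left _ _ h1)
  obtain ⟨J, hJ⟩ := Ideal.dvd_iff_le.mpr hle
  have hn1 : Ideal.absNorm (Ideal.span {((p : ℕ) : 𝓞 K)}) = p ^ 2 := by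
    rw [Ideal.absNorm_span_singleton]
    have := Algebra.norm_algebraMap (R := ℤ) (S := 𝓞 K) (p : ℤ)
    rw [RingOfIntegers.rank, hK] at this
    have h2 : Algebra.norm ℤ ((p : ℕ) : 𝓞 K) = (p : ℤ) ^ 2 := by simpa using this
    rw [h2, Int.natAbs_pow]; simp
  have hn2 : Ideal.absNorm (P ^ 2) = p ^ 2 := by rw [map_pow, hP]
  have hJ1 : Ideal.absNorm J = 1 := by
    have : Ideal.absNorm (P ^ 2) = Ideal.absNorm (Ideal.span {((p : ℕ) : 𝓞 K)}) * Ideal.absNorm J := by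
      rw [← map_mul, ← hJ]
    rw [hn1, hn2] at this
    have hp0 : 0 < p ^ 2 := pow_pos hp.pos 2
    nlinarith
  rw [Ideal.absNorm_eq_one_iff] at hJ1
  rw [hJ, hJ1, Ideal.mul_top]

theorem t_IDR : S_IDR := by
  intro K _ _ hK hD3 l hl hl3 P hP hpr hcase
  have hD : discr K < 0 := by omega
  obtain ⟨α, hα, hr⟩ := rep hK
  by_cases h2 : Ideal.absNorm P = 2
  · left
    refine ⟨h2, ?_⟩
    obtain ⟨γ, hγ⟩ := hpr
    rw [Ideal.submodule_span_eq] at hγ
    have h3 := norm_gen hK hD hγ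
    obtain ⟨t, k, h4, h5⟩ := hr γ
    rw [h3, h2] at h5
    have hk : k ≠ 0 := by
      rintro rfl
      obtain ⟨m, hm⟩ := hl
      have h6 : t ^ 2 = 2 ^ (2 * (m + 1)) * 2 := by
        have : 4 * ((2 : ℕ) : ℤ) ^ l = 2 ^ (2 * (m + 1)) * 2 := by
          rw [hm]; push_cast; ring
        rw [← this, h5]; ring
      have h7 : ((2 : ℤ) ^ (m + 1)) ∣ t := by
        have : ((2 : ℤ) ^ (m + 1)) ^ 2 ∣ t ^ 2 := ⟨2, by rw [h6, ← pow_mul]; ring⟩
        exact (Int.pow_dvd_pow_iff two_ne_zero).mp this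
      obtain ⟨r, rfl⟩ := h7
      have h8 : r ^ 2 = 2 := by
        have h9 : (2 : ℤ) ^ (2 * (m + 1)) * r ^ 2 = 2 ^ (2 * (m + 1)) * 2 := by
          rw [← h6]; ring
        exact mul_left_cancel₀ (by positivity) h9
      have h10 : r < 2 := by nlinarith
      have h11 : -2 < r := by nlinarith
      interval_cases r <;> omega
    have hk2 : 1 ≤ k ^ 2 := by
      have : 0 < k ^ 2 := by positivity
      omega
    have h6 : (2 : ℤ) ^ (l + 2) = t ^ 2 - discr K * k ^ 2 := by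
      rw [← h5]; push_cast; ring
    rw [h6]
    nlinarith [sq_nonneg t]
  · right
    have hpD : (Ideal.absNorm P : ℤ) ∣ discr K := hcase.resolve_left h2
    refine ⟨hpD, ?_⟩
    have hsq := sq_of_ram hK hD hP h2 rfl hpD
    obtain ⟨s, r, h3, h4, -⟩ := of_sq hK hD hα hP rfl hl hpr hsq
    have hr2 : 1 ≤ r ^ 2 := by
      have : 0 < r ^ 2 := by positivity
      omega
    nlinarith [sq_nonneg s]

end Pool.Agent.T2h80.CL
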