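import Pool.Agent.T2h80.CL.NSq

set_option autoImplicit false

/-!
# Task LOC: the classes `x` modulo `e²`
-/

namespace Pool.Agent.T2h80.CL

open Finset

namespace LOCm

def Rel (s e c x : ℤ) : Prop :=
  (∃ m, c ^ 2 - x * c + s = e ^ 2 * m) ∧ ∃ k, 2 * c - x = e * k

lemma Rel.shift_c {s e c x : ℤ} (h : Rel s e c x) (t : ℤ) : Rel s e (c + e * t) x := by
  obtain ⟨⟨m, hm⟩, k, hk⟩ := h
  refine ⟨⟨m + t * k + t ^ 2, ?_⟩, k + 2 * t, ?_⟩
  · linear_combination hm + e * t * hk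
  · linear_combination hk

lemma Rel.shift_x {s e c x : ℤ} (h : Rel s e c x) (t : ℤ) : Rel s e c (x + e ^ 2 * t) := by
  obtain ⟨⟨m, hm⟩, k, hk⟩ := h
  refine ⟨⟨m - t * c, ?_⟩, k - e * t, ?_⟩
  · linear_combination hm
  · linear_combination hk

lemma Rel.root {s e c x : ℤ} (h : Rel s e c x) : ∃ t, c ^ 2 - s = e * t := by
  obtain ⟨⟨m, hm⟩, k, hk⟩ := h
  exact ⟨c * k - e * m, by linear_combination c * hk - hm⟩

lemma sq_emod4 (k : ℤ) : k ^ 2 % 4 = 0 ∨ k ^ 2 % 4 = 1 := by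
  have h : k % 4 = 0 ∨ k % 4 = 1 ∨ k % 4 = 2 ∨ k % 4 = 3 := by omega
  rcases h with h | h | h | h <;> simp [pow_two, Int.mul_emod, h]

lemma EE_of_Rel {l p e x : ℕ} {c : ℤ} (h : Rel ((p : ℤ) ^ l) e c x) : EE l p e x := by
  obtain ⟨⟨m, hm⟩, k, hk⟩ := h
  refine ⟨k ^ 2 - 4 * m, ?_, ?_⟩
  · linear_combination (-4) * hm + (2 * c - x + e * k) * hk
  · have := sq_emod4 k
    omega

lemma Rel_of_EE {l p e x : ℕ} (h : EE l p e x) : ∃ c : ℤ, Rel ((p : ℤ) ^ l) e c x := by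
  obtain ⟨z, hz, hz4⟩ := h
  have h1 : ∃ c : ℤ, 2 * c = x + e * (z % 2) := by
    have h2 : ((x : ℤ) + e * (z % 2)) % 2 = 0 := by
      have h3 : ((x : ℤ) ^ 2 - 4 * (p : ℤ) ^ l) % 2 = ((e : ℤ) ^ 2 * z) % 2 := by rw [hz]
      rcases Int.emod_two_eq_zero_or_one (x : ℤ) with hx | hx <;>
      rcases Int.emod_two_eq_zero_or_one (e : ℤ) with he | he <;>
      rcases Int.emod_two_eq_zero_or_one z with hz' | hz' <;>
      simp [pow_two, Int.sub_emod, Int.mul_emod, Int.add_emod, hx, he, hz'] at h3 ⊢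
    exact ⟨_, Int.mul_ediv_cancel' (Int.dvd_of_emod_eq_zero h2)⟩
  obtain ⟨c, hc⟩ := h1
  have h4 : ∃ m, (z % 2) ^ 2 - z = 4 * m := by
    have : z % 2 = 0 ∨ z % 2 = 1 := Int.emod_two_eq_zero_or_one z
    rcases hz4 with h | h
    · have h5 : z % 2 = 0 := by omega
      rw [h5]; exact ⟨-(z / 4), by omega⟩
    · have h5 : z % 2 = 1 := by omega
      rw [h5]; exact ⟨-(z / 4), by omega⟩
  obtain ⟨m, hm⟩ := h4
  refine ⟨c, ⟨m, ?_⟩, z % 2, by linear_combination hc⟩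
  have h5 : 4 * (c ^ 2 - x * c + (p : ℤ) ^ l) = 4 * ((e : ℤ) ^ 2 * m) := by
    linear_combination (2 * c - x + e * (z % 2)) * hc - hz + (e : ℤ) ^ 2 * hm
  linarith

lemma EE_iff {l p e x : ℕ} : EE l p e x ↔ ∃ c : ℤ, Rel ((p : ℤ) ^ l) e c x :=
  ⟨Rel_of_EE, fun ⟨_, h⟩ => EE_of_Rel h⟩

lemma Rel.uniq_c {s e c d x : ℤ} (he : e ≠ 0) (h : Rel s e c x) (h' : Rel s e d x) :
    ∃ t, c - d = e * t := by
  obtain ⟨⟨m, hm⟩, k, hk⟩ := h
  obtain ⟨⟨m', hm'⟩, k', hk'⟩ := h'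
  have e1 : e ^ 2 * (k ^ 2 - 4 * m) = e ^ 2 * (k' ^ 2 - 4 * m') := by
    linear_combination (-(2 * c - x + e * k)) * hk + 4 * hm + (2 * d - x + e * k') * hk' - 4 * hm'
  have e2 := mul_left_cancel₀ (pow_ne_zero 2 he) e1
  have e3 : (k - k') % 2 = 0 := by
    have : (k ^ 2 - 4 * m) % 2 = (k' ^ 2 - 4 * m') % 2 := by rw [e2]
    rcases Int.emod_two_eq_zero_or_one k with h1 | h1 <;>
    rcases Int.emod_two_eq_zero_or_one k' with h2 | h2 <;>
    simp [pow_two, Int.sub_emod, Int.mul_emod, h1, h2] at this ⊢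
  obtain ⟨t, ht⟩ := Int.dvd_of_emod_eq_zero e3
  refine ⟨t, ?_⟩
  have : 2 * (c - d) = 2 * (e * t) := by linear_combination hk - hk' + e * ht
  linarith

lemma coprime_c {s e c : ℤ} (hs : IsCoprime s e) (h : ∃ t, c ^ 2 - s = e * t) :
    IsCoprime c e := by
  obtain ⟨t, ht⟩ := h
  obtain ⟨u, v, huv⟩ := hs
  refine ⟨u * c, v - u * t, ?_⟩
  linear_combination huv + u * ht

lemma Rel.exists_x {s e c : ℤ} (hs : IsCoprime s e) (h : ∃ t, c ^ 2 - s = e * t) :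
    ∃ x, Rel s e c x := by
  have h1 : IsCoprime c (e ^ 2) := (coprime_c hs h).pow_right
  obtain ⟨t, ht⟩ := h
  obtain ⟨u, v, huv⟩ := h1
  refine ⟨c + s * u, ⟨s * v, ?_⟩, u * t + e * v * c, ?_⟩
  · linear_combination (-s) * huv
  · linear_combination u * ht - c * huv

lemma Rel.uniq_x {s e c x y : ℤ} (hs : IsCoprime s e) (h : Rel s e c x) (h' : Rel s e c y) :
    ∃ t, x - y = e ^ 2 * t := by
  have h1 : IsCoprime c (e ^ 2) := (coprime_c hs h.root).pow_right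
  obtain ⟨⟨m, hm⟩, -⟩ := h
  obtain ⟨⟨m', hm'⟩, -⟩ := h'
  have : e ^ 2 ∣ c * (x - y) := ⟨m' - m, by linear_combination hm' - hm⟩
  exact h1.symm.dvd_of_dvd_mul_left this

end LOCm

open LOCm in
theorem t_LOC : S_LOC := by
  classical
  intro l p e hl hp hp2 he hpe
  have he0 : (e : ℤ) ≠ 0 := by exact_mod_cast (by omega : e ≠ 0)
  have hcop : p.Coprime e := (Nat.Prime.coprime_iff_not_dvd hp).mpr hpe
  have hs : IsCoprime ((p : ℤ) ^ l) (e : ℤ) := by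
    apply IsCoprime.pow_left
    exact Nat.isCoprime_iff_coprime.mpr hcop
  have : NeZero e := ⟨by omega⟩
  constructor
  · intro x
    rw [EE_iff, EE_iff]
    constructor
    · rintro ⟨c, hc⟩
      refine ⟨c, ?_⟩
      have := hc.shift_x (-1)
      push_cast at this
      convert this using 1; ring
    · rintro ⟨c, hc⟩
      refine ⟨c, ?_⟩
      have := hc.shift_x 1
      push_cast
      convert this using 1; ring
  rw [← nsq_pow l p e hl hcop]
  unfold nsq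
  have red : ∀ x : ℕ, EE l p e x → ∃ c : ℕ, c < e ∧ Rel ((p : ℤ) ^ l) e c x := by
    intro x hx
    obtain ⟨c, hc⟩ := EE_iff.mp hx
    refine ⟨(c % e).toNat, ?_, ?_⟩
    · have h1 := Int.emod_lt_of_pos c (by omega : (0 : ℤ) < e)
      have h2 := Int.emod_nonneg c he0
      omega
    · rw [Int.toNat_of_nonneg (Int.emod_nonneg c he0)]
      have := hc.shift_c (-(c / e))
      convert this using 1
      have := Int.emod_add_mul_ediv c e
      linarith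
  choose f hf1 hf2 using red
  refine Finset.card_bij (fun x hx => f x (mem_filter.mp hx).2) ?_ ?_ ?_
  · intro x hx
    rw [mem_filter, mem_range]
    refine ⟨hf1 _ _, ?_⟩
    obtain ⟨t, ht⟩ := (hf2 x (mem_filter.mp hx).2).root
    apply Nat.ModEq.symm
    rw [Nat.modEq_iff_dvd]
    exact ⟨t, by push_cast; linarith⟩
  · intro x hx y hy hxy
    have h1 := hf2 x (mem_filter.mp hx).2
    have h2 := hf2 y (mem_filter.mp hy).2
    rw [hxy] at h1
    obtain ⟨t, ht⟩ := Rel.uniq_x hs h1 h2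
    have h3 : (x : ℤ) ≡ y [ZMOD (e ^ 2 : ℕ)] := by
      apply Int.ModEq.symm
      rw [Int.modEq_iff_dvd]
      exact ⟨t, by push_cast; linarith⟩
    have h4 := (Int.natCast_modEq_iff).mp h3
    exact Nat.ModEq.eq_of_lt_of_lt h4 (mem_range.mp (mem_filter.mp hx).1)
      (mem_range.mp (mem_filter.mp hy).1)
  · intro c hc
    rw [mem_filter, mem_range] at hc
    have h1 : ∃ t, (c : ℤ) ^ 2 - (p : ℤ) ^ l = e * t := by
      have := (Nat.modEq_iff_dvd.mp hc.2.symm)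
      obtain ⟨t, ht⟩ := this
      exact ⟨t, by push_cast at ht; linarith⟩
    obtain ⟨x, hx⟩ := Rel.exists_x hs h1
    have he2 : ((e : ℤ) ^ 2) ≠ 0 := pow_ne_zero 2 he0
    have hx' : Rel ((p : ℤ) ^ l) e c ((x % (e : ℤ) ^ 2).toNat : ℕ) := by
      rw [Int.toNat_of_nonneg (Int.emod_nonneg x he2)]
      have := hx.shift_x (-(x / (e : ℤ) ^ 2))
      convert this using 1
      have := Int.emod_add_mul_ediv x ((e : ℤ) ^ 2)
      linarith
    have hE : EE l p e (x % (e : ℤ) ^ 2).toNat := EE_iff.mpr ⟨_, hx'⟩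
    have hlt : (x % (e : ℤ) ^ 2).toNat < e ^ 2 := by
      have h1 := Int.emod_lt_of_pos x (by positivity : (0 : ℤ) < (e : ℤ) ^ 2)
      have h2 := Int.emod_nonneg x he2
      zify
      rw [Int.toNat_of_nonneg h2]
      exact h1
    refine ⟨(x % (e : ℤ) ^ 2).toNat, mem_filter.mpr ⟨mem_range.mpr hlt, hE⟩, ?_⟩
    obtain ⟨t, ht⟩ := Rel.uniq_c he0 (hf2 _ hE) hx'
    have h3 : ((f _ hE : ℕ) : ℤ) ≡ c [ZMOD (e : ℕ)] := by
      apply Int.ModEq.symm
      rw [Int.modEq_iff_dvd]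
      exact ⟨t, by linarith⟩
    exact Nat.ModEq.eq_of_lt_of_lt ((Int.natCast_modEq_iff).mp h3) (hf1 _ _) hc.1

end Pool.Agent.T2h80.CL
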