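import Pool.Agent.T2h80.CL.NSq
import Pool.Agent.H510R2.Div

set_option autoImplicit false

/-!
# Task NS: the number of square roots modulo `e`
-/

namespace Pool.Agent.T2h80.CL

open Finset

namespace NSm

lemma part_a (a e : ℕ) [NeZero e] (h : a.Coprime e) : (nsq a e : ℂ) =
    ∑ χ ∈ (univ : Finset (DirichletCharacter ℂ e)).filter (fun χ => χ ^ 2 = 1),
      χ (a : ZMod e) := by
  classical
  have ha : IsUnit (a : ZMod e) := (ZMod.isUnit_iff_coprime a e).mpr h
  have hphi : ((e.totient : ℕ) : ℂ) ≠ 0 := by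
    have : e.totient ≠ 0 := by
      rw [Ne, Nat.totient_eq_zero]; exact NeZero.ne e
    exact_mod_cast this
  rw [nsq_zmod, Finset.card_filter]
  push_cast
  have e1 : ∀ c : ZMod e, ((e.totient : ℕ) : ℂ) * (if c ^ 2 = (a : ZMod e) then (1 : ℂ) else 0) =
      ∑ χ : DirichletCharacter ℂ e, χ (a : ZMod e)⁻¹ * χ (c ^ 2) := by
    intro c
    rw [DirichletCharacter.sum_char_inv_mul_char_eq ℂ ha (c ^ 2)]
    by_cases hc : c ^ 2 = (a : ZMod e)
    · rw [if_pos hc, if_pos hc.symm, mul_one]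
    · rw [if_neg hc, if_neg (fun h => hc h.symm), mul_zero]
  have e2 : ∀ χ : DirichletCharacter ℂ e, ∑ c : ZMod e, χ (a : ZMod e)⁻¹ * χ (c ^ 2) =
      if χ ^ 2 = 1 then ((e.totient : ℕ) : ℂ) * χ (a : ZMod e) else 0 := by
    intro χ
    rw [← Finset.mul_sum]
    have e3 : ∀ c : ZMod e, χ (c ^ 2) = (χ ^ 2) c := by
      intro c
      rw [MulChar.pow_apply' χ (by norm_num : (2 : ℕ) ≠ 0), map_pow]
    rw [Finset.sum_congr rfl (fun c _ => e3 c)]
    split_ifs with hχ
    · rw [hχ, MulChar.sum_one_eq_card_units, ZMod.card_units_eq_totient, mul_comm]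
      congr 1
      have h1 : χ (a : ZMod e) * χ (a : ZMod e) = 1 := by
        have := congrArg (fun ψ : DirichletCharacter ℂ e => ψ (a : ZMod e)) hχ
        simp only [MulChar.pow_apply' χ (by norm_num : (2 : ℕ) ≠ 0), MulChar.one_apply ha] at this
        rw [← this, pow_two]
      have h2 : χ (a : ZMod e)⁻¹ * χ (a : ZMod e) = 1 := by
        rw [← map_mul, ZMod.inv_mul_of_unit _ ha, map_one]
      calc χ (a : ZMod e)⁻¹ = (χ (a : ZMod e)⁻¹ * χ (a : ZMod e)) * χ (a : ZMod e) := by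
            rw [mul_assoc, h1, mul_one]
        _ = χ (a : ZMod e) := by rw [h2, one_mul]
    · rw [MulChar.sum_eq_zero_of_ne_one hχ, mul_zero]
  have e4 : ((e.totient : ℕ) : ℂ) * ∑ c : ZMod e, (if c ^ 2 = (a : ZMod e) then (1 : ℂ) else 0) =
      ((e.totient : ℕ) : ℂ) *
      ∑ χ ∈ (univ : Finset (DirichletCharacter ℂ e)).filter (fun χ => χ ^ 2 = 1),
        χ (a : ZMod e) := by
    rw [Finset.mul_sum, Finset.sum_congr rfl (fun c _ => e1 c), Finset.sum_comm,
      Finset.sum_congr rfl (fun χ _ => e2 χ), Finset.mul_sum, Finset.sum_filter]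
  exact mul_left_cancel₀ hphi e4

lemma two_dvd {a e c0 c c' : ℤ} (he : e ≠ 0) (ha : IsCoprime c0 e) (h0 : e ∣ c0 ^ 2 - a)
    (h : e ∣ c ^ 2 - a) (h' : e ∣ c' ^ 2 - a) (hg : Int.gcd (c - c0) e = Int.gcd (c' - c0) e) :
    e ∣ 2 * (c - c') := by
  set g : ℤ := ((Int.gcd (c - c0) e : ℕ) : ℤ) with hgdef
  have hgpos : 0 < g := by
    have : 0 < Int.gcd (c - c0) e := Int.gcd_pos_of_ne_zero_right _ he
    rw [hgdef]; exact Int.natCast_pos.mpr this
  have key : ∀ x : ℤ, e ∣ x ^ 2 - a → (Int.gcd (x - c0) e : ℤ) = g →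
      ∀ m : ℤ, e = g * m → g ∣ x - c0 ∧ m ∣ x + c0 := by
    intro x hx hgx m hm
    have hd : g ∣ x - c0 := by rw [← hgx]; exact Int.gcd_dvd_left _ _
    refine ⟨hd, ?_⟩
    obtain ⟨u, hu⟩ := hd
    have hcop : IsCoprime u m := by
      rw [Int.isCoprime_iff_gcd_eq_one]
      have h1 : Int.gcd (g * u) (g * m) = g.natAbs * Int.gcd u m := Int.gcd_mul_left _ _ _
      rw [← hu, ← hm] at h1
      have h2 : (Int.gcd (x - c0) e : ℤ) = g * Int.gcd u m := by
        rw [h1]; push_cast; rw [abs_of_pos hgpos]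
      rw [hgx] at h2
      have h3 : g * 1 = g * (Int.gcd u m : ℤ) := by rw [mul_one]; exact h2
      have := mul_left_cancel₀ hgpos.ne' h3
      exact_mod_cast this.symm
    have h1 : e ∣ (x - c0) * (x + c0) := by
      have e9 : (x - c0) * (x + c0) = (x ^ 2 - a) - (c0 ^ 2 - a) := by ring
      rw [e9]; exact dvd_sub hx h0
    rw [hu, hm, mul_assoc] at h1
    have h2 : m ∣ u * (x + c0) := (mul_dvd_mul_iff_left hgpos.ne').mp h1
    exact hcop.symm.dvd_of_dvd_mul_left h2
  obtain ⟨m, hm⟩ : g ∣ e := Int.gcd_dvd_right _ _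
  obtain ⟨k1, k2⟩ := key c h rfl m hm
  obtain ⟨k3, k4⟩ := key c' h' (by rw [← hg]) m hm
  have hgd : g ∣ c - c' := by
    have e9 : c - c' = (c - c0) - (c' - c0) := by ring
    rw [e9]; exact dvd_sub k1 k3
  have hmd : m ∣ c - c' := by
    have e9 : c - c' = (c + c0) - (c' + c0) := by ring
    rw [e9]; exact dvd_sub k2 k4
  have hh : (Int.gcd g m : ℤ) ∣ 2 := by
    obtain ⟨u, v, huv⟩ := ha
    have h1 : (Int.gcd g m : ℤ) ∣ c - c0 := (Int.gcd_dvd_left _ _).trans k1
    have h2 : (Int.gcd g m : ℤ) ∣ c + c0 := (Int.gcd_dvd_right _ _).trans k2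
    have h3 : (Int.gcd g m : ℤ) ∣ e := (Int.gcd_dvd_left _ _).trans ⟨m, hm⟩
    have h4 : (2 : ℤ) = u * ((c + c0) - (c - c0)) + 2 * v * e := by linear_combination (-2) * huv
    rw [h4]
    exact dvd_add (Dvd.dvd.mul_left (dvd_sub h2 h1) _) (Dvd.dvd.mul_left h3 _)
  obtain ⟨t, ht⟩ := hh
  have hb := Int.gcd_eq_gcd_ab g m
  have e5 : 2 * (c - c') = g * (Int.gcdA g m * t) * (c - c') + m * (Int.gcdB g m * t) * (c - c') := by
    rw [ht, hb]; ring
  rw [e5, hm]
  apply dvd_add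
  · obtain ⟨w, hw⟩ := hmd
    exact ⟨Int.gcdA g m * t * w, by rw [hw]; ring⟩
  · obtain ⟨w, hw⟩ := hgd
    exact ⟨Int.gcdB g m * t * w, by rw [hw]; ring⟩

lemma part_b (a e : ℕ) (he : 1 ≤ e) (h : a.Coprime e) : nsq a e ≤ 2 * e.divisors.card := by
  classical
  unfold nsq
  set S := (range e).filter (fun c => c ^ 2 ≡ a [MOD e]) with hS
  rcases S.eq_empty_or_nonempty with h0 | ⟨c0, hc0⟩
  · rw [h0]; simp
  have he0 : (e : ℤ) ≠ 0 := by exact_mod_cast (by omega : e ≠ 0)
  have hdv : ∀ c ∈ S, (e : ℤ) ∣ (c : ℤ) ^ 2 - a := by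
    intro c hc
    have h2 := (mem_filter.mp hc).2
    have := Nat.modEq_iff_dvd.mp h2.symm
    push_cast at this
    exact this
  have hcop : IsCoprime (c0 : ℤ) (e : ℤ) := by
    have h1 : IsCoprime (a : ℤ) (e : ℤ) := Nat.isCoprime_iff_coprime.mpr h
    obtain ⟨t, ht⟩ := hdv c0 hc0
    obtain ⟨u, v, huv⟩ := h1
    exact ⟨u * c0, v - u * t, by linear_combination huv + u * ht⟩
  set g : ℕ → ℕ := fun c => Int.gcd ((c : ℤ) - c0) e with hg
  have h1 : S.card ≤ 2 * (S.image g).card := by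
    apply Finset.card_le_mul_card_image
    intro b _
    rcases (S.filter (fun x => g x = b)).eq_empty_or_nonempty with h2 | h2
    · rw [h2]; simp
    set c1 := (S.filter (fun x => g x = b)).min' h2 with hc1
    have hc1m : c1 ∈ S.filter (fun x => g x = b) := Finset.min'_mem _ _
    have hsub : S.filter (fun x => g x = b) ⊆ {c1, c1 + e / 2} := by
      intro c hc
      have hle : c1 ≤ c := Finset.min'_le _ _ hc
      rw [mem_filter] at hc hc1m
      have h3 : (e : ℤ) ∣ 2 * ((c : ℤ) - c1) := by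
        apply two_dvd he0 hcop (hdv c0 hc0) (hdv c hc.1) (hdv c1 hc1m.1)
        have := hc.2.trans hc1m.2.symm
        exact this
      have hclt : c < e := mem_range.mp (mem_filter.mp hc.1).1
      obtain ⟨t, ht⟩ := h3
      have ht0 : 0 ≤ t := by
        by_contra hneg
        push Not at hneg
        have : (e : ℤ) * t < 0 := mul_neg_of_pos_of_neg (by omega) hneg
        omega
      have ht2 : t < 2 := by
        by_contra hneg
        push Not at hneg
        have : (e : ℤ) * 2 ≤ e * t := mul_le_mul_of_nonneg_left hneg (by omega)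
        omega
      rw [mem_insert, mem_singleton]
      have : t = 0 ∨ t = 1 := by omega
      rcases this with rfl | rfl
      · left; omega
      · right; omega
    exact (Finset.card_le_card hsub).trans Finset.card_le_two
  refine h1.trans (Nat.mul_le_mul_left 2 (Finset.card_le_card ?_))
  intro d hd
  obtain ⟨c, _, rfl⟩ := mem_image.mp hd
  rw [Nat.mem_divisors]
  refine ⟨?_, by omega⟩
  have : ((Int.gcd ((c : ℤ) - c0) e : ℕ) : ℤ) ∣ (e : ℤ) := Int.gcd_dvd_right _ _
  exact Int.natCast_dvd_natCast.mp this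

end NSm

open NSm in
theorem t_NS : S_NS := by
  refine ⟨fun a e _ h => ?_, part_b, ?_⟩
  · convert part_a a e h
  · intro ε hε
    obtain ⟨C, hC, hb⟩ := Pool.Agent.H510R2.divisor_bound ε hε
    refine ⟨2 * C, by positivity, ?_⟩
    intro a e he h
    have h1 := part_b a e he h
    have h2 := hb e he
    have h3 : (nsq a e : ℝ) ≤ 2 * (e.divisors.card : ℝ) := by exact_mod_cast h1
    linarith

end Pool.Agent.T2h80.CL
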