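import Pool.Agent.T2h80.CL.PRa

set_option autoImplicit false

/-!
# Task PR: square roots of primes on average over the moduli
-/

namespace Pool.Agent.T2h80.CL.PRm

open Finset Pool.Agent.H410R2 Pool.Agent.H398R2.BV Pool.Agent.T2h80.CL.QMm

lemma ev_log_pow (k : ℕ) {s κ : ℝ} (hs : 0 < s) (hκ : 0 < κ) :
    ∀ᶠ t : ℝ in Filter.atTop, (Real.log t) ^ k ≤ κ * t ^ s := by
  have h1 := (isLittleO_log_rpow_rpow_atTop (k : ℝ) hs).bound hκ
  filter_upwards [h1, Filter.eventually_ge_atTop (Real.exp 1)] with t ht1 ht2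
  have ht0 : 0 < t := (Real.exp_pos 1).trans_le ht2
  have hL : 1 ≤ Real.log t := by rw [Real.le_log_iff_exp_le ht0]; exact ht2
  rw [Real.norm_of_nonneg (by positivity), Real.norm_of_nonneg (by positivity),
    Real.rpow_natCast] at ht1
  exact ht1

lemma err_small (h1 : S_NS) (h2 : S_QM) {δ : ℝ} (hδ : 0 < δ) (hδ1 : δ ≤ 1) (k : ℕ) {κ : ℝ}
    (hκ : 0 < κ) : ∀ᶠ t : ℝ in Filter.atTop, ∀ E : ℕ, (E : ℝ) ≤ t ^ (1 - δ) → ∀ c : ℕ → ℝ,
      (∀ e ∈ Icc 1 E, 0 ≤ c e ∧ c e ≤ 1 / e) → ∀ x : ℝ, t * Real.exp (-1) ≤ x →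
      x ≤ t * Real.exp 1 →
      |∑ e ∈ Icc 1 E, c e * TH e x - (∑ e ∈ Icc 1 E, c e) * psiLog1 x| ≤
        κ * (t / (Real.log t) ^ k) := by
  obtain ⟨t₁, ht₁⟩ := h2 (δ / 2) (by positivity) (k + 2)
  have e1 : ∀ᶠ t : ℝ in Filter.atTop, max t₁ 1 * Real.exp 1 ≤ t := Filter.eventually_ge_atTop _
  have e2 : ∀ᶠ t : ℝ in Filter.atTop, Real.exp 1 ≤ t ^ (δ / 2) :=
    (tendsto_rpow_atTop (by positivity : 0 < δ / 2)).eventually_ge_atTop _
  have e3 : ∀ᶠ t : ℝ in Filter.atTop, max 2 (12 * 2 ^ (k + 2) / κ) ≤ Real.log t :=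
    Real.tendsto_log_atTop.eventually_ge_atTop _
  have e4 := ev_log_pow (k + 5) one_pos (by positivity : 0 < κ / 384)
  filter_upwards [e1, e2, e3, e4] with t a1 a2 a3 a4 E hE c hc x hx1 hx2
  obtain ⟨L, hL⟩ : ∃ L, L = Real.log t := ⟨_, rfl⟩
  rw [← hL] at a3 a4 ⊢
  have hL2 : 2 ≤ L := (le_max_left _ _).trans a3
  have hLk : 12 * 2 ^ (k + 2) / κ ≤ L := (le_max_right _ _).trans a3
  have he0 : 0 < Real.exp 1 := Real.exp_pos 1
  have he1 : 1 ≤ Real.exp 1 := Real.one_le_exp (by norm_num)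
  have he3 : Real.exp 1 ≤ 3 := by have := Real.exp_one_lt_d9; linarith
  have ht1 : 1 ≤ t := by
    have : 1 ≤ max t₁ 1 * Real.exp 1 := by nlinarith [le_max_right t₁ 1]
    linarith
  have ht0 : 0 < t := by linarith
  have hexp : Real.exp (-1) * Real.exp 1 = 1 := by rw [← Real.exp_add]; simp
  have hx3 : max t₁ 1 ≤ x := by
    refine le_trans ?_ hx1
    have := mul_le_mul_of_nonneg_right a1 (Real.exp_pos (-1)).le
    calc max t₁ 1 = max t₁ 1 * (Real.exp (-1) * Real.exp 1) := by rw [hexp, mul_one]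
      _ = max t₁ 1 * Real.exp 1 * Real.exp (-1) := by ring
      _ ≤ _ := this
  have hx4 : 1 ≤ x := (le_max_right _ _).trans hx3
  have hx0 : 0 < x := by linarith
  have hlx1 : Real.log x ≤ L + 1 := by
    have := Real.log_le_log hx0 hx2
    rwa [Real.log_mul ht0.ne' he0.ne', Real.log_exp, ← hL] at this
  have hlx2 : L - 1 ≤ Real.log x := by
    have := Real.log_le_log (by positivity) hx1
    rw [Real.log_mul ht0.ne' (Real.exp_pos _).ne', Real.log_exp, ← hL] at this
    linarith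
  have hEx : (E : ℝ) ≤ x ^ (1 - δ / 2) := by
    refine hE.trans ?_
    have b1 : (t * Real.exp (-1)) ^ (1 - δ / 2) ≤ x ^ (1 - δ / 2) :=
      Real.rpow_le_rpow (by positivity) hx1 (by linarith)
    refine le_trans ?_ b1
    rw [Real.mul_rpow ht0.le (Real.exp_pos _).le]
    have b2 : Real.exp (-1) ≤ Real.exp (-1) ^ (1 - δ / 2) := by
      rw [← Real.exp_mul]
      apply Real.exp_le_exp.mpr
      nlinarith
    have b3 : t ^ (1 - δ / 2) = t ^ (1 - δ) * t ^ (δ / 2) := by
      rw [← Real.rpow_add ht0]; congr 1; ring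
    calc t ^ (1 - δ) = t ^ (1 - δ) * (Real.exp 1 * Real.exp (-1)) := by
          rw [mul_comm (Real.exp 1), hexp, mul_one]
      _ ≤ t ^ (1 - δ) * (t ^ (δ / 2) * Real.exp (-1)) := by
          apply mul_le_mul_of_nonneg_left _ (by positivity)
          exact mul_le_mul_of_nonneg_right a2 (Real.exp_pos _).le
      _ = t ^ (1 - δ / 2) * Real.exp (-1) := by rw [b3]; ring
      _ ≤ _ := mul_le_mul_of_nonneg_left b2 (by positivity)
  have hq := ht₁ x ((le_max_left _ _).trans hx3) E hEx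
  have hEt : (E : ℝ) ≤ t := by
    refine hE.trans ?_
    calc t ^ (1 - δ) ≤ t ^ (1 : ℝ) := Real.rpow_le_rpow_of_exponent_le ht1 (by linarith)
      _ = t := Real.rpow_one t
  have hlE : Real.log E ≤ L := by
    rcases Nat.eq_zero_or_pos E with h | h
    · subst h; simp; linarith
    · rw [hL]; exact Real.log_le_log (by exact_mod_cast h) hEt
  have hlE0 : 0 ≤ Real.log E := Real.log_natCast_nonneg E
  refine (total h1 x hx4 E c hc).trans ?_
  have c1 : (1 + Real.log E) * (∑ f ∈ Icc 2 E, (1 / (f : ℝ)) * QQ x f) ≤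
      (κ / 2) * (t / L ^ k) := by
    calc _ ≤ (2 * L) * (x / Real.log x ^ (k + 2)) := by
          apply mul_le_mul (by linarith) hq
          · exact Finset.sum_nonneg fun f _ => mul_nonneg (by positivity) (QQ_nonneg x f)
          · linarith
      _ ≤ (2 * L) * ((3 * t) / (L / 2) ^ (k + 2)) := by
          apply mul_le_mul_of_nonneg_left _ (by linarith)
          apply div_le_div₀ (by positivity)
          · nlinarith
          · positivity
          · apply pow_le_pow_left₀ (by positivity)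
            linarith
      _ = (6 * 2 ^ (k + 2) / L) * (t / L ^ k) := by
          rw [div_pow]
          field_simp
          ring
      _ ≤ (κ / 2) * (t / L ^ k) := by
          apply mul_le_mul_of_nonneg_right _ (by positivity)
          rw [div_le_iff₀ hκ] at hLk
          rw [div_le_iff₀ (by linarith)]
          linarith
  have c2 : 6 * (1 + Real.log E) ^ 3 * Real.log x ^ 2 ≤ (κ / 2) * (t / L ^ k) := by
    have d1 : (1 + Real.log E) ^ 3 ≤ (2 * L) ^ 3 := pow_le_pow_left₀ (by linarith) (by linarith) 3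
    have d2 : Real.log x ^ 2 ≤ (2 * L) ^ 2 := pow_le_pow_left₀ (by linarith) (by linarith) 2
    rw [Real.rpow_one] at a4
    calc 6 * (1 + Real.log E) ^ 3 * Real.log x ^ 2 ≤ 6 * (2 * L) ^ 3 * (2 * L) ^ 2 := by
          apply mul_le_mul _ d2 (by positivity) (by positivity)
          exact mul_le_mul_of_nonneg_left d1 (by norm_num)
      _ = 192 * L ^ (k + 5) / L ^ k := by
          rw [pow_add]
          field_simp
          ring
      _ ≤ 192 * (κ / 384 * t) / L ^ k := by
          apply div_le_div_of_nonneg_right _ (by positivity)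
          exact mul_le_mul_of_nonneg_left a4 (by norm_num)
      _ = _ := by ring
  have : κ * (t / L ^ k) = (κ / 2) * (t / L ^ k) + (κ / 2) * (t / L ^ k) := by ring
  rw [this]
  exact add_le_add c1 c2

/-- prime powers -/
lemma thS_bound (h1 : S_NS) {t : ℝ} (ht : 1 ≤ t) (e : ℕ) (he : 1 ≤ e) :
    thS t e ≤ ∑ n ∈ Icc 1 ⌊t⌋₊, uu e n ∧
    ∑ n ∈ Icc 1 ⌊t⌋₊, uu e n ≤ thS t e + 4 * (e.divisors.card : ℝ) * (√t * Real.log t) := by
  classical
  have e0 : ∑ n ∈ Icc 1 ⌊t⌋₊, uu e n =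
      ∑ n ∈ (Icc 1 ⌊t⌋₊).filter Nat.Prime, uu e n +
      ∑ n ∈ (Icc 1 ⌊t⌋₊).filter (fun n => ¬ n.Prime), uu e n :=
    (Finset.sum_filter_add_sum_filter_not _ _ _).symm
  have e1 : ∑ n ∈ (Icc 1 ⌊t⌋₊).filter Nat.Prime, uu e n = thS t e := by
    unfold thS
    rw [← Finset.filter_filter, Finset.sum_filter (s := (Icc 1 ⌊t⌋₊).filter Nat.Prime)]
    refine Finset.sum_congr rfl fun p hp => ?_
    rw [mem_filter] at hp
    unfold uu
    have := Nat.Prime.coprime_iff_not_dvd hp.2 (n := e)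
    by_cases hd : p ∣ e
    · rw [if_neg (fun h => (this.mp h) hd), if_neg (fun h => h hd)]
    · rw [if_pos (this.mpr hd), if_pos hd, ArithmeticFunction.vonMangoldt_apply_prime hp.2, mul_comm]
  have e2 : 0 ≤ ∑ n ∈ (Icc 1 ⌊t⌋₊).filter (fun n => ¬ n.Prime), uu e n :=
    Finset.sum_nonneg fun n _ => uu_nonneg e n
  have e3 : ∑ n ∈ (Icc 1 ⌊t⌋₊).filter (fun n => ¬ n.Prime), uu e n ≤
      2 * (e.divisors.card : ℝ) * (2 * √t * Real.log t) := by
    calc _ ≤ ∑ n ∈ (Icc 1 ⌊t⌋₊).filter (fun n => ¬ n.Prime),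
          2 * (e.divisors.card : ℝ) * ArithmeticFunction.vonMangoldt n := by
          refine Finset.sum_le_sum fun n _ => ?_
          unfold uu
          have hv : 0 ≤ ArithmeticFunction.vonMangoldt n := ArithmeticFunction.vonMangoldt_nonneg
          split_ifs with hc
          · have := h1.2.1 n e he hc
            have : (nsq n e : ℝ) ≤ 2 * (e.divisors.card : ℝ) := by exact_mod_cast this
            nlinarith
          · positivity
      _ = 2 * (e.divisors.card : ℝ) * (Chebyshev.psi t - Chebyshev.theta t) := by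
          rw [← Finset.mul_sum, Chebyshev.psi_sub_theta_eq_sum_not_prime]
          rfl
      _ ≤ _ := mul_le_mul_of_nonneg_left (Chebyshev.psi_sub_theta_le ht) (by positivity)
  rw [e0, e1]
  constructor
  · linarith
  · linarith

end Pool.Agent.T2h80.CL.PRm

namespace Pool.Agent.T2h80.CL

open Finset Pool.Agent.H410R2 Pool.Agent.H398R2.BV QMm PRm

theorem t_PR (h1 : S_NS) (h2 : S_QM) : S_PR := by
  classical
  intro δ₀ hδ₀ ε hε k
  set δ : ℝ := min δ₀ 1 with hδdef
  have hδ : 0 < δ := lt_min hδ₀ one_pos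
  have hδ1 : δ ≤ 1 := min_le_right _ _
  set h : ℝ := min 1 (ε / 2) with hh
  have hh0 : 0 < h := lt_min one_pos (by positivity)
  have hh1 : h ≤ 1 := min_le_left _ _
  have hhε : 2 * h ≤ ε := by
    have : h ≤ ε / 2 := min_le_right _ _
    linarith
  set η : ℝ := h ^ 2 / 4 with hη
  have hη0 : 0 < η := by positivity
  have hP : PNTLog := Pool.Agent.H732R2.pntLog
  have hW : ∀ᶠ x : ℝ in Filter.atTop, |psiLog1 x - x| ≤ η * x := by
    have h3 := Metric.tendsto_nhds.mp hP η hη0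
    filter_upwards [h3, Filter.eventually_gt_atTop 0] with x hx hx0
    rw [Real.dist_eq] at hx
    have : psiLog1 x - x = (psiLog1 x / x - 1) * x := by field_simp
    rw [this, abs_mul, abs_of_pos hx0]
    exact mul_le_mul_of_nonneg_right hx.le hx0.le
  obtain ⟨x₁, hx₁⟩ := Filter.eventually_atTop.mp hW
  have f1 := err_small h1 h2 hδ hδ1 k (by positivity : 0 < h / 4)
  have f2 : ∀ᶠ t : ℝ in Filter.atTop, max x₁ 1 * Real.exp 1 ≤ t := Filter.eventually_ge_atTop _
  have f3 : ∀ᶠ t : ℝ in Filter.atTop, 2 ≤ Real.log t := Real.tendsto_log_atTop.eventually_ge_atTop _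
  have f4 := ev_log_pow (k + 3) (by norm_num : (0 : ℝ) < 1 / 2) (by norm_num : (0 : ℝ) < 1 / 32)
  obtain ⟨t₀, ht₀⟩ := Filter.eventually_atTop.mp (f1.and (f2.and (f3.and f4)))
  refine ⟨t₀, ?_⟩
  intro t ht E hE₀ c hc
  obtain ⟨g1, g2, g3, g4⟩ := ht₀ t ht
  have he0 : 0 < Real.exp 1 := Real.exp_pos 1
  have he1 : 1 ≤ Real.exp 1 := Real.one_le_exp (by norm_num)
  have he3 : Real.exp 1 ≤ 3 := by have := Real.exp_one_lt_d9; linarith
  have ht1 : 1 ≤ t := by
    have : 1 ≤ max x₁ 1 * Real.exp 1 := by nlinarith [le_max_right x₁ 1]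
    linarith
  have htp : 0 < t := by linarith
  have hE : (E : ℝ) ≤ t ^ (1 - δ) := by
    refine hE₀.trans (Real.rpow_le_rpow_of_exponent_le ht1 ?_)
    have : δ ≤ δ₀ := min_le_left _ _
    linarith
  obtain ⟨L, hL⟩ : ∃ L, L = Real.log t := ⟨_, rfl⟩
  have g1' := g1 E hE c hc
  rw [← hL] at g3 g4 g1' ⊢
  have hEt : (E : ℝ) ≤ t := by
    refine hE.trans ?_
    calc t ^ (1 - δ) ≤ t ^ (1 : ℝ) := Real.rpow_le_rpow_of_exponent_le ht1 (by linarith)
      _ = t := Real.rpow_one t
  have hlE : Real.log E ≤ L := by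
    rcases Nat.eq_zero_or_pos E with h | h
    · subst h; simp; linarith
    · rw [hL]; exact Real.log_le_log (by exact_mod_cast h) hEt
  have hlE0 : 0 ≤ Real.log E := Real.log_natCast_nonneg E
  set C1 : ℝ := ∑ e ∈ Icc 1 E, c e with hC1
  have hC10 : 0 ≤ C1 := Finset.sum_nonneg fun e he => (hc e he).1
  set T : ℝ → ℝ := fun x => ∑ e ∈ Icc 1 E, c e * TH e x with hT
  set u : ℕ → ℝ := fun n => ∑ e ∈ Icc 1 E, c e * uu e n with hu
  have hu0 : ∀ n, 0 ≤ u n := fun n =>
    Finset.sum_nonneg fun e he => mul_nonneg (hc e he).1 (uu_nonneg e n)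
  have hTu : ∀ x : ℝ, ∑ n ∈ Icc 1 ⌊x⌋₊, u n * Real.log (x / n) = T x := by
    intro x
    rw [hT, hu]
    simp only [TH, Finset.sum_mul, Finset.mul_sum]
    rw [Finset.sum_comm]
    refine Finset.sum_congr rfl fun e _ => Finset.sum_congr rfl fun n _ => ?_
    ring
  set F : ℝ := ∑ n ∈ Icc 1 ⌊t⌋₊, u n with hF
  have hFe : F = ∑ e ∈ Icc 1 E, c e * ∑ n ∈ Icc 1 ⌊t⌋₊, uu e n := by
    rw [hF, hu, Finset.sum_comm]
    refine Finset.sum_congr rfl fun e _ => ?_
    rw [Finset.mul_sum]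
  set S : ℝ := ∑ e ∈ Icc 1 E, c e * thS t e with hS
  have hSF : S ≤ F := by
    rw [hFe, hS]
    refine Finset.sum_le_sum fun e he => ?_
    exact mul_le_mul_of_nonneg_left (thS_bound h1 ht1 e (mem_Icc.mp he).1).1 (hc e he).1
  have hFS : F ≤ S + t / (2 * L ^ k) := by
    have b1 : F ≤ S + 4 * (√t * L) * (1 + Real.log E) ^ 2 := by
      calc F ≤ ∑ e ∈ Icc 1 E, (c e * thS t e +
            4 * (√t * L) * ((1 / (e : ℝ)) * (e.divisors.card : ℝ))) := by
            rw [hFe]
            refine Finset.sum_le_sum fun e he => ?_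
            obtain ⟨h0, h01⟩ := hc e he
            have b2 := (thS_bound h1 ht1 e (mem_Icc.mp he).1).2
            rw [← hL] at b2
            calc c e * ∑ n ∈ Icc 1 ⌊t⌋₊, uu e n ≤
                c e * (thS t e + 4 * (e.divisors.card : ℝ) * (√t * L)) :=
                  mul_le_mul_of_nonneg_left b2 h0
              _ = c e * thS t e + c e * (4 * (e.divisors.card : ℝ) * (√t * L)) := by ring
              _ ≤ c e * thS t e + (1 / (e : ℝ)) * (4 * (e.divisors.card : ℝ) * (√t * L)) := by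
                  have : 0 ≤ 4 * (e.divisors.card : ℝ) * (√t * L) := by positivity
                  have := mul_le_mul_of_nonneg_right h01 this
                  linarith
              _ = _ := by ring
        _ = S + 4 * (√t * L) * ∑ e ∈ Icc 1 E, (1 / (e : ℝ)) * (e.divisors.card : ℝ) := by
            rw [Finset.sum_add_distrib, ← Finset.mul_sum]
        _ ≤ _ := by
            have := mul_le_mul_of_nonneg_left (sum_tau E) (by positivity : 0 ≤ 4 * (√t * L))
            linarith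
    have b3 : 4 * (√t * L) * (1 + Real.log E) ^ 2 ≤ t / (2 * L ^ k) := by
      have b4 : (1 + Real.log E) ^ 2 ≤ (2 * L) ^ 2 := pow_le_pow_left₀ (by linarith) (by linarith) 2
      rw [← Real.sqrt_eq_rpow] at g4
      have hs : √t * √t = t := Real.mul_self_sqrt htp.le
      rw [le_div_iff₀ (by positivity)]
      calc 4 * (√t * L) * (1 + Real.log E) ^ 2 * (2 * L ^ k) ≤
          4 * (√t * L) * (2 * L) ^ 2 * (2 * L ^ k) := by
            apply mul_le_mul_of_nonneg_right _ (by positivity)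
            exact mul_le_mul_of_nonneg_left b4 (by positivity)
        _ = √t * (32 * L ^ (k + 3)) := by ring
        _ ≤ √t * √t := mul_le_mul_of_nonneg_left (by linarith) (Real.sqrt_nonneg t)
        _ = t := hs
    linarith
  -- exponential
  have hexp1 := Real.abs_exp_sub_one_sub_id_le (x := h) (by rw [abs_of_pos hh0]; exact hh1)
  have hexp2 := Real.abs_exp_sub_one_sub_id_le (x := -h) (by rw [abs_neg, abs_of_pos hh0]; exact hh1)
  rw [abs_le] at hexp1 hexp2
  have hexp3 : 0 < Real.exp h := Real.exp_pos h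
  have hexp4 : 0 < Real.exp (-h) := Real.exp_pos (-h)
  have hexp5 : Real.exp h ≤ Real.exp 1 := Real.exp_le_exp.mpr hh1
  have hexp6 : Real.exp (-1) ≤ Real.exp (-h) := Real.exp_le_exp.mpr (by linarith)
  have hexp7 : Real.exp (-1) ≤ 1 := by rw [Real.exp_le_one_iff]; norm_num
  have hexp8 : 1 ≤ Real.exp h := Real.one_le_exp hh0.le
  have hexp9 : Real.exp (-h) ≤ 1 := by rw [Real.exp_le_one_iff]; linarith
  have hexp10 : Real.exp (-1) * Real.exp 1 = 1 := by rw [← Real.exp_add]; simp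
  have hx₁t : x₁ ≤ t * Real.exp (-1) := by
    have := mul_le_mul_of_nonneg_right g2 (Real.exp_pos (-1)).le
    calc x₁ ≤ max x₁ 1 := le_max_left _ _
      _ = max x₁ 1 * (Real.exp (-1) * Real.exp 1) := by rw [hexp10, mul_one]
      _ = max x₁ 1 * Real.exp 1 * Real.exp (-1) := by ring
      _ ≤ _ := this
  -- the three points
  have m0 : t * Real.exp (-1) ≤ t := mul_le_of_le_one_right htp.le hexp7
  have m1 : t ≤ t * Real.exp 1 := le_mul_of_one_le_right htp.le he1
  have m2 : t * Real.exp (-1) ≤ t * Real.exp (-h) := mul_le_mul_of_nonneg_left hexp6 htp.le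
  have m3 : t * Real.exp (-h) ≤ t := mul_le_of_le_one_right htp.le hexp9
  have m4 : t ≤ t * Real.exp h := le_mul_of_one_le_right htp.le hexp8
  have m5 : t * Real.exp h ≤ t * Real.exp 1 := mul_le_mul_of_nonneg_left hexp5 htp.le
  have E0 := g1' t m0 m1
  have Em := g1' (t * Real.exp (-h)) m2 (m3.trans m1)
  have Ep := g1' (t * Real.exp h) (m0.trans m4) m5
  have W0 := hx₁ t (hx₁t.trans m0)
  have Wm := hx₁ (t * Real.exp (-h)) (hx₁t.trans m2)
  have Wp := hx₁ (t * Real.exp h) ((hx₁t.trans m0).trans m4)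
  change |T t - C1 * psiLog1 t| ≤ _ at E0
  change |T (t * Real.exp (-h)) - C1 * psiLog1 (t * Real.exp (-h))| ≤ _ at Em
  change |T (t * Real.exp h) - C1 * psiLog1 (t * Real.exp h)| ≤ _ at Ep
  rw [abs_le] at E0 Em Ep W0 Wm Wp
  set A : ℝ := t / L ^ k with hA
  have hA2 : t / (2 * L ^ k) = A / 2 := by rw [hA]; field_simp
  rw [hA2] at hFS
  have U1 := (unsmooth u hu0 htp hh0).1
  have U2 := (unsmooth u hu0 (x := t * Real.exp (-h)) (by positivity) hh0).2
  have hback : t * Real.exp (-h) * Real.exp h = t := by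
    rw [mul_assoc, ← Real.exp_add]; simp
  rw [hback] at U2
  rw [hTu, hTu] at U1 U2
  change h * F ≤ _ at U1
  change _ ≤ h * F at U2
  -- upper
  have D1 : psiLog1 (t * Real.exp h) - psiLog1 t ≤ t * (h + 2 * h ^ 2) := by
    have q1 : psiLog1 (t * Real.exp h) - psiLog1 t ≤
        t * (Real.exp h - 1) + η * t * (Real.exp h + 1) := by
      have e : t * (Real.exp h - 1) + η * t * (Real.exp h + 1) =
        (t * Real.exp h - t) + (η * (t * Real.exp h) + η * t) := by ring
      rw [e]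
      linarith [Wp.2, W0.1]
    have q2 : t * (Real.exp h - 1) ≤ t * (h + h ^ 2) :=
      mul_le_mul_of_nonneg_left (by linarith) htp.le
    have q3 : η * t * (Real.exp h + 1) ≤ η * t * 4 :=
      mul_le_mul_of_nonneg_left (by linarith) (by positivity)
    have q4 : η * t * 4 = t * h ^ 2 := by rw [hη]; ring
    have q5 : t * (h + 2 * h ^ 2) = t * (h + h ^ 2) + t * h ^ 2 := by ring
    linarith
  have D2 : t * (h - 2 * h ^ 2) ≤ psiLog1 t - psiLog1 (t * Real.exp (-h)) := by
    have q1 : t * (1 - Real.exp (-h)) - η * t * (1 + Real.exp (-h)) ≤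
        psiLog1 t - psiLog1 (t * Real.exp (-h)) := by
      have e : t * (1 - Real.exp (-h)) - η * t * (1 + Real.exp (-h)) =
        (t - t * Real.exp (-h)) - (η * (t * Real.exp (-h)) + η * t) := by ring
      rw [e]
      linarith [Wm.2, W0.1]
    have q2 : t * (h - h ^ 2) ≤ t * (1 - Real.exp (-h)) := by
      apply mul_le_mul_of_nonneg_left _ htp.le
      have := hexp2.2
      have e9 : (-h) ^ 2 = h ^ 2 := by ring
      rw [e9] at this
      linarith
    have q3 : η * t * (1 + Real.exp (-h)) ≤ η * t * 4 :=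
      mul_le_mul_of_nonneg_left (by linarith) (by positivity)
    have q4 : η * t * 4 = t * h ^ 2 := by rw [hη]; ring
    have q5 : t * (h - 2 * h ^ 2) = t * (h - h ^ 2) - t * h ^ 2 := by ring
    linarith
  have D1' : C1 * (psiLog1 (t * Real.exp h) - psiLog1 t) ≤ C1 * (t * (h + 2 * h ^ 2)) :=
    mul_le_mul_of_nonneg_left D1 hC10
  have D2' : C1 * (t * (h - 2 * h ^ 2)) ≤ C1 * (psiLog1 t - psiLog1 (t * Real.exp (-h))) :=
    mul_le_mul_of_nonneg_left D2 hC10
  have up : h * F ≤ h * (C1 * t * (1 + 2 * h) + A / 2) := by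
    have : h * (C1 * t * (1 + 2 * h) + A / 2) = C1 * (t * (h + 2 * h ^ 2)) + 2 * (h / 4 * A) := by
      ring
    rw [this]
    linarith [Ep.2, E0.1]
  have low : h * (C1 * t * (1 - 2 * h) - A / 2) ≤ h * F := by
    have : h * (C1 * t * (1 - 2 * h) - A / 2) = C1 * (t * (h - 2 * h ^ 2)) - 2 * (h / 4 * A) := by
      ring
    rw [this]
    linarith [E0.1, Em.2]
  have up' := le_of_mul_le_mul_left up hh0
  have low' := le_of_mul_le_mul_left low hh0
  have hCt : 0 ≤ C1 * t := mul_nonneg hC10 htp.le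
  have hεC : C1 * t * (2 * h) ≤ C1 * t * ε := mul_le_mul_of_nonneg_left hhε hCt
  have hA0 : 0 ≤ A := by positivity
  have r1 : C1 * t * (1 - 2 * h) = C1 * t - C1 * t * (2 * h) := by ring
  have r2 : C1 * t * (1 + 2 * h) = C1 * t + C1 * t * (2 * h) := by ring
  have r3 : C1 * t * ε = ε * t * C1 := by ring
  have r4 : C1 * t = t * C1 := by ring
  rw [abs_le]
  constructor
  · linarith
  · linarith

end Pool.Agent.T2h80.CL
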