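import Pool.Agent.T2h80.CL.QMa
import Pool.Agent.H379R2.SWMain
import Pool.Agent.H307R2.Sg6

set_option autoImplicit false

/-!
# Task QM: quadratic characters of large conductors on average
-/

namespace Pool.Agent.T2h80.CL.QMm

open Finset Pool.Agent.H410R2

lemma mem_quadr {f : ℕ} (hf : f ≠ 0) (ψ : DirichletCharacter ℂ f) :
    ψ ∈ quadr f ↔ ψ.IsPrimitive ∧ ψ ^ 2 = 1 := by
  classical
  unfold quadr
  rw [dif_neg hf]
  simp

lemma card_sq_one (h : S_NS) (f : ℕ) [NeZero f] [DecidableEq (DirichletCharacter ℂ f)] :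
    ((univ : Finset (DirichletCharacter ℂ f)).filter (fun χ => χ ^ 2 = 1)).card ≤
      2 * f.divisors.card := by
  have h1 := h.1 1 f (Nat.coprime_one_left f)
  have h2 := h.2.1 1 f (Nat.one_le_iff_ne_zero.mpr (NeZero.ne f)) (Nat.coprime_one_left f)
  refine le_trans (le_of_eq ?_) h2
  have h3 : ((((univ : Finset (DirichletCharacter ℂ f)).filter (fun χ => χ ^ 2 = 1)).card : ℕ) : ℂ)
      = (nsq 1 f : ℂ) := by
    rw [h1]
    simp only [Nat.cast_one, map_one, Finset.sum_const, nsmul_eq_mul, mul_one]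
    congr!
  exact_mod_cast h3

lemma card_quadr (h : S_NS) {f : ℕ} (hf : f ≠ 0) : (quadr f).card ≤ 2 * f.divisors.card := by
  classical
  have : NeZero f := ⟨hf⟩
  refine le_trans (Finset.card_le_card ?_) (card_sq_one h f)
  intro ψ hψ
  rw [mem_quadr hf] at hψ
  rw [mem_filter]
  exact ⟨mem_univ _, hψ.2⟩

lemma harm_le (E : ℕ) : ∑ d ∈ Icc 1 E, (1 : ℝ) / d ≤ 1 + Real.log E := by
  have h1 := harmonic_le_one_add_log E
  rw [harmonic_eq_sum_Icc] at h1
  push_cast at h1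
  simpa [one_div] using h1

lemma sum_tau (E : ℕ) : ∑ f ∈ Icc 1 E, (1 / (f : ℝ)) * (f.divisors.card : ℝ) ≤
    (1 + Real.log E) ^ 2 := by
  classical
  have h0 : ∀ f ∈ Icc 1 E, (1 / (f : ℝ)) * (f.divisors.card : ℝ) =
      ∑ p ∈ f.divisorsAntidiagonal, (1 / (p.1 : ℝ)) * (1 / (p.2 : ℝ)) := by
    intro f _
    have : ∀ p ∈ f.divisorsAntidiagonal, (1 / (p.1 : ℝ)) * (1 / (p.2 : ℝ)) = 1 / (f : ℝ) := by
      intro p hp
      rw [Nat.mem_divisorsAntidiagonal] at hp
      rw [← hp.1]; push_cast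
      rw [one_div_mul_one_div]
    rw [Finset.sum_congr rfl this, Finset.sum_const, nsmul_eq_mul, mul_comm]
    congr 2
    rw [← Nat.map_div_right_divisors, Finset.card_map]
  rw [Finset.sum_congr rfl h0, ← Finset.sum_biUnion]
  · calc _ ≤ ∑ p ∈ Icc 1 E ×ˢ Icc 1 E, (1 / (p.1 : ℝ)) * (1 / (p.2 : ℝ)) := by
          apply Finset.sum_le_sum_of_subset_of_nonneg
          · intro p hp
            rw [mem_biUnion] at hp
            obtain ⟨f, hf, hp⟩ := hp
            rw [Nat.mem_divisorsAntidiagonal] at hp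
            rw [mem_Icc] at hf
            have h1 : p.1 ≠ 0 := by
              intro h; rw [h, zero_mul] at hp; exact hp.2 hp.1.symm
            have h2 : p.2 ≠ 0 := by
              intro h; rw [h, mul_zero] at hp; exact hp.2 hp.1.symm
            have h3 : p.1 ≤ f := by
              rw [← hp.1]; exact Nat.le_mul_of_pos_right _ (Nat.pos_of_ne_zero h2)
            have h4 : p.2 ≤ f := by
              rw [← hp.1]; exact Nat.le_mul_of_pos_left _ (Nat.pos_of_ne_zero h1)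
            rw [mem_product, mem_Icc, mem_Icc]
            omega
          · intro p _ _
            positivity
      _ = (∑ d ∈ Icc 1 E, (1 : ℝ) / d) * (∑ d ∈ Icc 1 E, (1 : ℝ) / d) := by
          rw [Finset.sum_mul_sum, Finset.sum_product]
      _ ≤ (1 + Real.log E) ^ 2 := by
          rw [pow_two]
          have h1 := harm_le E
          have h2 : 0 ≤ ∑ d ∈ Icc 1 E, (1 : ℝ) / d := Finset.sum_nonneg fun i _ => by positivity
          exact mul_le_mul h1 h1 h2 (h2.trans h1)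
  · intro f _ f' _ hne
    rw [Function.onFun, Finset.disjoint_left]
    intro p hp hp'
    rw [Nat.mem_divisorsAntidiagonal] at hp hp'
    exact hne (hp.1.symm.trans hp'.1)

/-- the sum over a set of conductors of `#quadr(f)/f` -/
lemma sum_quadr (h : S_NS) (E : ℕ) (s : Finset ℕ) (hs : s ⊆ Icc 1 E) :
    ∑ f ∈ s, (1 / (f : ℝ)) * ((quadr f).card : ℝ) ≤ 2 * (1 + Real.log E) ^ 2 := by
  calc ∑ f ∈ s, (1 / (f : ℝ)) * ((quadr f).card : ℝ)
      ≤ ∑ f ∈ Icc 1 E, (1 / (f : ℝ)) * ((quadr f).card : ℝ) :=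
        Finset.sum_le_sum_of_subset_of_nonneg hs fun i _ _ => by positivity
    _ ≤ ∑ f ∈ Icc 1 E, 2 * ((1 / (f : ℝ)) * (f.divisors.card : ℝ)) := by
        refine Finset.sum_le_sum fun f hf => ?_
        have h1 := card_quadr h (f := f) (by rw [mem_Icc] at hf; omega)
        have h2 : ((quadr f).card : ℝ) ≤ 2 * (f.divisors.card : ℝ) := by exact_mod_cast h1
        calc (1 / (f : ℝ)) * ((quadr f).card : ℝ) ≤ (1 / (f : ℝ)) * (2 * (f.divisors.card : ℝ)) :=
              mul_le_mul_of_nonneg_left h2 (by positivity)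
          _ = _ := by ring
    _ = 2 * ∑ f ∈ Icc 1 E, (1 / (f : ℝ)) * (f.divisors.card : ℝ) := by rw [Finset.mul_sum]
    _ ≤ 2 * (1 + Real.log E) ^ 2 := by
        have := sum_tau E
        linarith

/-- the large sieve part -/
lemma large (h : S_NS) {t Q L : ℝ} (ht : Real.exp 1 ≤ t) (hQ : 1 ≤ Q) (hL : L = Real.log t)
    {E : ℕ} (hE : (E : ℝ) ≤ t) :
    (∑ f ∈ (Icc 2 E).filter (fun f : ℕ => Q < (f : ℝ)), (1 / (f : ℝ)) *
      ∑ ψ ∈ quadr f, ‖psiLog t f ψ‖) ^ 2 ≤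
      8 * L ^ 2 * (t * L ^ 4 * (1 / Q * t + 12 * L * (8 * E * L ^ 2))) := by
  classical
  have ht0 : 0 < t := (Real.exp_pos 1).trans_le ht
  have hL1 : 1 ≤ L := by
    rw [hL, Real.le_log_iff_exp_le ht0]; exact ht
  have ht1 : 1 ≤ t := by
    have := Real.add_one_le_exp 1
    linarith
  rcases Nat.eq_zero_or_pos E with hE0 | hE0
  · subst hE0
    simp
    positivity
  have hlogE : Real.log E ≤ L := by
    rw [hL]; exact Real.log_le_log (by exact_mod_cast hE0) hE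
  set s := (Icc 2 E).filter (fun f : ℕ => Q < (f : ℝ)) with hs
  have hsub : s ⊆ Icc 1 E := by
    intro f hf
    rw [hs, mem_filter, mem_Icc] at hf
    rw [mem_Icc]; omega
  set Ψ : Finset (Σ f, DirichletCharacter ℂ f) := s.sigma (fun f => quadr f) with hΨ
  set I : Finset ℕ := Icc 1 ⌊t⌋₊ with hI
  set a : ℕ → ℂ := fun n => ((ArithmeticFunction.vonMangoldt n : ℝ) : ℂ) *
    ((Real.log (t / n) : ℝ) : ℂ) with ha
  set g : (Σ f, DirichletCharacter ℂ f) → ℕ → ℂ := fun i n => i.2 (n : ZMod i.1) with hg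
  have hpsi : ∀ i : (Σ f, DirichletCharacter ℂ f), psiLog t i.1 i.2 = ∑ n ∈ I, a n * g i n := by
    intro i
    unfold psiLog
    refine Finset.sum_congr rfl fun n _ => ?_
    rw [ha, hg]; ring
  have e1 : ∑ f ∈ s, (1 / (f : ℝ)) * ∑ ψ ∈ quadr f, ‖psiLog t f ψ‖ =
      ∑ i ∈ Ψ, (1 / (i.1 : ℝ)) * ‖∑ n ∈ I, a n * g i n‖ := by
    rw [hΨ, Finset.sum_sigma]
    refine Finset.sum_congr rfl fun f _ => ?_
    rw [Finset.mul_sum]
    refine Finset.sum_congr rfl fun ψ _ => ?_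
    rw [← hpsi ⟨f, ψ⟩]
  have hmem : ∀ i ∈ Ψ, 2 ≤ i.1 ∧ i.1 ≤ E ∧ Q < (i.1 : ℝ) ∧ i.2.IsPrimitive := by
    intro i hi
    rw [hΨ, mem_sigma, hs, mem_filter, mem_Icc] at hi
    have := (mem_quadr (by omega : i.1 ≠ 0) i.2).mp hi.2
    exact ⟨hi.1.1.1, hi.1.1.2, hi.1.2, this.1⟩
  have hNt : ((⌊t⌋₊ : ℕ) : ℝ) ≤ t := Nat.floor_le ht0.le
  -- the norm of a
  have hA : ∑ n ∈ I, ‖a n‖ ^ 2 ≤ t * L ^ 4 := by
    calc ∑ n ∈ I, ‖a n‖ ^ 2 ≤ ∑ n ∈ I, L ^ 4 := by
          refine Finset.sum_le_sum fun n hn => ?_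
          rw [hI, mem_Icc] at hn
          have hn1 : (1 : ℝ) ≤ n := by exact_mod_cast hn.1
          have hnt : (n : ℝ) ≤ t := le_trans (by exact_mod_cast hn.2) hNt
          have b1 : ArithmeticFunction.vonMangoldt n ≤ L := by
            refine ArithmeticFunction.vonMangoldt_le_log.trans ?_
            rw [hL]; exact Real.log_le_log (by linarith) hnt
          have b2 : 0 ≤ Real.log (t / n) := Real.log_nonneg (by rw [le_div_iff₀ (by linarith)]; linarith)
          have b3 : Real.log (t / n) ≤ L := by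
            rw [hL]; exact Real.log_le_log (by positivity) (div_le_self ht0.le hn1)
          have b4 : 0 ≤ ArithmeticFunction.vonMangoldt n := ArithmeticFunction.vonMangoldt_nonneg
          have b5 : ‖a n‖ = ArithmeticFunction.vonMangoldt n * Real.log (t / n) := by
            rw [ha]
            simp only [norm_mul, Complex.norm_real, Real.norm_of_nonneg b4, Real.norm_of_nonneg b2]
          have b6 : ‖a n‖ ≤ L * L := by
            rw [b5]; exact mul_le_mul b1 b3 b2 (by linarith)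
          calc ‖a n‖ ^ 2 ≤ (L * L) ^ 2 := pow_le_pow_left₀ (norm_nonneg _) b6 2
            _ = L ^ 4 := by ring
      _ = ((⌊t⌋₊ : ℕ) : ℝ) * L ^ 4 := by rw [Finset.sum_const, hI, Nat.card_Icc]; simp
      _ ≤ t * L ^ 4 := mul_le_mul_of_nonneg_right hNt (by positivity)
  have hA0 : 0 ≤ ∑ n ∈ I, ‖a n‖ ^ 2 := Finset.sum_nonneg fun _ _ => by positivity
  -- duality
  have hd := duality I Ψ a g (fun i => 1 / (i.1 : ℝ)) (fun i => (i.1 : ℝ)) (1 / Q) (12 * L)
    (fun i _ => by positivity)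
    (fun i hi => by
      have := hmem i hi
      exact one_div_le_one_div_of_le (by linarith) this.2.2.1.le)
    (fun i _ => by positivity) (by positivity) (by positivity)
    (fun i _ n _ => DirichletCharacter.norm_le_one _ _)
    (fun i hi j hj hij => by
      obtain ⟨i2, iE, -, ip⟩ := hmem i hi
      obtain ⟨j2, jE, -, jp⟩ := hmem j hj
      have h1 := prod_char i2 j2 i.2 j.2 ip jp (by simpa using hij) ⌊t⌋₊
      refine h1.trans ?_
      rw [Real.sqrt_mul (by positivity)]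
      have hi0 : (0 : ℝ) < i.1 := by exact_mod_cast (by omega : 0 < i.1)
      have hj0 : (0 : ℝ) < j.1 := by exact_mod_cast (by omega : 0 < j.1)
      have hiE : (i.1 : ℝ) ≤ E := by exact_mod_cast iE
      have hjE : (j.1 : ℝ) ≤ E := by exact_mod_cast jE
      have c1 : Real.log i.1 ≤ L := (Real.log_le_log hi0 hiE).trans hlogE
      have c2 : Real.log j.1 ≤ L := (Real.log_le_log hj0 hjE).trans hlogE
      have c3 : Real.log ((i.1 : ℝ) * j.1) ≤ 2 * L := by
        rw [Real.log_mul hi0.ne' hj0.ne']; linarith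
      have c4 : 4 * (√(i.1 : ℝ) * √(j.1 : ℝ)) * (1 + Real.log ((i.1 : ℝ) * j.1)) ≤
          4 * (√(i.1 : ℝ) * √(j.1 : ℝ)) * (3 * L) :=
        mul_le_mul_of_nonneg_left (by linarith) (by positivity)
      refine c4.trans (le_of_eq (by ring)))
  -- the numbers of characters
  have hS1 : ∑ i ∈ Ψ, (1 / (i.1 : ℝ)) ≤ 8 * L ^ 2 := by
    rw [hΨ, Finset.sum_sigma]
    have h1 := sum_quadr h E s hsub
    have h2 : ∑ f ∈ s, ∑ ψ ∈ quadr f, (1 / (f : ℝ)) =
        ∑ f ∈ s, (1 / (f : ℝ)) * ((quadr f).card : ℝ) := by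
      refine Finset.sum_congr rfl fun f _ => ?_
      rw [Finset.sum_const, nsmul_eq_mul, mul_comm]
    rw [h2]
    refine h1.trans ?_
    have h3 : 1 + Real.log E ≤ 2 * L := by linarith
    have h4 : 0 ≤ 1 + Real.log E := by
      have := Real.log_nonneg (by exact_mod_cast hE0 : (1 : ℝ) ≤ E)
      linarith
    nlinarith
  have hS2 : ∑ i ∈ Ψ, (1 / (i.1 : ℝ)) * (i.1 : ℝ) ≤ 8 * E * L ^ 2 := by
    calc ∑ i ∈ Ψ, (1 / (i.1 : ℝ)) * (i.1 : ℝ) ≤ ∑ i ∈ Ψ, (E : ℝ) * (1 / (i.1 : ℝ)) := by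
          refine Finset.sum_le_sum fun i hi => ?_
          obtain ⟨i2, iE, -, ip⟩ := hmem i hi
          have hiE : (i.1 : ℝ) ≤ E := by exact_mod_cast iE
          rw [mul_comm]
          exact mul_le_mul_of_nonneg_right hiE (by positivity)
      _ = E * ∑ i ∈ Ψ, (1 / (i.1 : ℝ)) := by rw [Finset.mul_sum]
      _ ≤ E * (8 * L ^ 2) := mul_le_mul_of_nonneg_left hS1 (by positivity)
      _ = _ := by ring
  have hIc : (I.card : ℝ) ≤ t := by
    rw [hI, Nat.card_Icc]; simpa using hNt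
  -- Cauchy
  rw [e1]
  have e2 : ∀ i ∈ Ψ, (1 / (i.1 : ℝ)) * ‖∑ n ∈ I, a n * g i n‖ =
      √(1 / (i.1 : ℝ)) * (√(1 / (i.1 : ℝ)) * ‖∑ n ∈ I, a n * g i n‖) := by
    intro i _
    rw [← mul_assoc, Real.mul_self_sqrt (by positivity)]
  rw [Finset.sum_congr rfl e2]
  refine (Finset.sum_mul_sq_le_sq_mul_sq _ _ _).trans ?_
  have e3 : ∑ i ∈ Ψ, √(1 / (i.1 : ℝ)) ^ 2 = ∑ i ∈ Ψ, (1 / (i.1 : ℝ)) := by
    refine Finset.sum_congr rfl fun i _ => Real.sq_sqrt (by positivity)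
  have e4 : ∑ i ∈ Ψ, (√(1 / (i.1 : ℝ)) * ‖∑ n ∈ I, a n * g i n‖) ^ 2 =
      ∑ i ∈ Ψ, (1 / (i.1 : ℝ)) * ‖∑ n ∈ I, a n * g i n‖ ^ 2 := by
    refine Finset.sum_congr rfl fun i _ => ?_
    rw [mul_pow, Real.sq_sqrt (by positivity)]
  rw [e3, e4]
  have hS0 : 0 ≤ ∑ i ∈ Ψ, (1 / (i.1 : ℝ)) * ‖∑ n ∈ I, a n * g i n‖ ^ 2 :=
    Finset.sum_nonneg fun _ _ => by positivity
  refine mul_le_mul hS1 ?_ hS0 (by positivity)
  refine hd.trans ?_
  have h5 : 1 / Q * (I.card : ℝ) + 12 * L * ∑ i ∈ Ψ, (1 / (i.1 : ℝ)) * (i.1 : ℝ) ≤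
      1 / Q * t + 12 * L * (8 * E * L ^ 2) := by
    apply add_le_add
    · exact mul_le_mul_of_nonneg_left hIc (by positivity)
    · exact mul_le_mul_of_nonneg_left hS2 (by positivity)
  have h6 : 0 ≤ 1 / Q * (I.card : ℝ) + 12 * L * ∑ i ∈ Ψ, (1 / (i.1 : ℝ)) * (i.1 : ℝ) := by
    have : 0 ≤ ∑ i ∈ Ψ, (1 / (i.1 : ℝ)) * (i.1 : ℝ) := Finset.sum_nonneg fun _ _ => by positivity
    positivity
  exact mul_le_mul hA h5 h6 (by positivity)

end Pool.Agent.T2h80.CL.QMm

namespace Pool.Agent.T2h80.CL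

open Finset Pool.Agent.H410R2 QMm

theorem t_QM (h : S_NS) : S_QM := by
  classical
  intro δ hδ k
  obtain ⟨x₀, hSW⟩ := Pool.Agent.H379R2.SW.siegelWalfisz Pool.Agent.H307R2.siegel (k + 3)
    (2 * k + 7)
  have hlim : ∀ᶠ t : ℝ in Filter.atTop, 6144 * (Real.log t) ^ (2 * k + 9) ≤ t ^ δ := by
    have h1 := (isLittleO_log_rpow_rpow_atTop ((2 * k + 9 : ℕ) : ℝ) hδ).bound
      (by norm_num : (0 : ℝ) < 1 / 6144)
    filter_upwards [h1, Filter.eventually_ge_atTop (Real.exp 1)] with t ht1 ht2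
    have ht0 : 0 < t := (Real.exp_pos 1).trans_le ht2
    have hL : 1 ≤ Real.log t := by rw [Real.le_log_iff_exp_le ht0]; exact ht2
    rw [Real.norm_of_nonneg (by positivity), Real.norm_of_nonneg (by positivity),
      Real.rpow_natCast] at ht1
    linarith
  obtain ⟨t₁, ht₁⟩ := Filter.eventually_atTop.mp hlim
  refine ⟨max (max x₀ t₁) (Real.exp 64), ?_⟩
  intro t ht E hE
  have hx0 : x₀ ≤ t := ((le_max_left _ _).trans (le_max_left _ _)).trans ht
  have ht1 := ht₁ t (((le_max_right _ _).trans (le_max_left _ _)).trans ht)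
  have ht64 : Real.exp 64 ≤ t := (le_max_right _ _).trans ht
  have hte : Real.exp 1 ≤ t := (Real.exp_le_exp.mpr (by norm_num)).trans ht64
  have ht0 : 0 < t := (Real.exp_pos 1).trans_le hte
  have ht1' : 1 ≤ t := by
    have := Real.add_one_le_exp 1
    linarith
  obtain ⟨L, hL⟩ : ∃ L, L = Real.log t := ⟨_, rfl⟩
  have hL64 : 64 ≤ L := by rw [hL, Real.le_log_iff_exp_le ht0]; exact ht64
  rw [← hL] at ht1 ⊢
  have hEt : (E : ℝ) ≤ t := by
    refine hE.trans ?_
    calc t ^ (1 - δ) ≤ t ^ (1 : ℝ) := Real.rpow_le_rpow_of_exponent_le ht1' (by linarith)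
      _ = t := Real.rpow_one t
  have hEδ : (E : ℝ) * t ^ δ ≤ t := by
    calc (E : ℝ) * t ^ δ ≤ t ^ (1 - δ) * t ^ δ :=
          mul_le_mul_of_nonneg_right hE (by positivity)
      _ = t := by rw [← Real.rpow_add ht0]; simp
  have hQ : (1 : ℝ) ≤ L ^ (2 * k + 7) := one_le_pow₀ (by linarith)
  -- split
  rw [← Finset.sum_filter_add_sum_filter_not (Icc 2 E) (fun f : ℕ => L ^ (2 * k + 7) < (f : ℝ))]
  have hbig : ∑ f ∈ (Icc 2 E).filter (fun f : ℕ => L ^ (2 * k + 7) < (f : ℝ)), (1 / (f : ℝ)) *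
      ∑ ψ ∈ quadr f, ‖psiLog t f ψ‖ ≤ t / (2 * L ^ k) := by
    have h1 := large h hte hQ hL hEt
    refine abs_le_of_sq_le_sq' (h1.trans ?_) (by positivity) |>.2
    have h2 : 8 * L ^ 2 * (t * L ^ 4 * (1 / L ^ (2 * k + 7) * t)) ≤ t ^ 2 / (8 * L ^ (2 * k)) := by
      rw [le_div_iff₀ (by positivity)]
      have : 8 * L ^ 2 * (t * L ^ 4 * (1 / L ^ (2 * k + 7) * t)) * (8 * L ^ (2 * k)) =
          t ^ 2 * (64 / L) := by
        field_simp
        ring
      rw [this]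
      have : 64 / L ≤ 1 := by rw [div_le_one (by linarith)]; exact hL64
      nlinarith [sq_nonneg t]
    have h3 : 8 * L ^ 2 * (t * L ^ 4 * (12 * L * (8 * E * L ^ 2))) ≤ t ^ 2 / (8 * L ^ (2 * k)) := by
      rw [le_div_iff₀ (by positivity)]
      have e : 8 * L ^ 2 * (t * L ^ 4 * (12 * L * (8 * E * L ^ 2))) * (8 * L ^ (2 * k)) =
          t * (E * (6144 * L ^ (2 * k + 9))) := by ring
      rw [e, pow_two]
      apply mul_le_mul_of_nonneg_left _ ht0.le
      exact (mul_le_mul_of_nonneg_left ht1 (Nat.cast_nonneg _)).trans hEδ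
    have h4 : (t / (2 * L ^ k)) ^ 2 = t ^ 2 / (8 * L ^ (2 * k)) + t ^ 2 / (8 * L ^ (2 * k)) := by
      have : L ^ (2 * k) = (L ^ k) ^ 2 := by rw [mul_comm, pow_mul]
      rw [this]
      field_simp
      ring
    rw [h4]
    have h5 : 8 * L ^ 2 * (t * L ^ 4 * (1 / L ^ (2 * k + 7) * t + 12 * L * (8 * E * L ^ 2))) =
      8 * L ^ 2 * (t * L ^ 4 * (1 / L ^ (2 * k + 7) * t)) +
      8 * L ^ 2 * (t * L ^ 4 * (12 * L * (8 * E * L ^ 2))) := by ring
    rw [h5]
    exact add_le_add h2 h3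
  have hsmall : ∑ f ∈ (Icc 2 E).filter (fun f : ℕ => ¬ L ^ (2 * k + 7) < (f : ℝ)), (1 / (f : ℝ)) *
      ∑ ψ ∈ quadr f, ‖psiLog t f ψ‖ ≤ t / (2 * L ^ k) := by
    have hE1 : E = 0 ∨ 1 ≤ E := by omega
    rcases hE1 with hE1 | hE1
    · subst hE1
      simp
      positivity
    have hlogE : Real.log E ≤ L := by
      rw [hL]; exact Real.log_le_log (by exact_mod_cast hE1) hEt
    have hlogE0 : 0 ≤ Real.log E := Real.log_nonneg (by exact_mod_cast hE1)
    calc _ ≤ ∑ f ∈ (Icc 2 E).filter (fun f : ℕ => ¬ L ^ (2 * k + 7) < (f : ℝ)),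
          (t / L ^ (k + 3)) * ((1 / (f : ℝ)) * ((quadr f).card : ℝ)) := by
          refine Finset.sum_le_sum fun f hf => ?_
          rw [mem_filter, mem_Icc, not_lt] at hf
          have h1 : ∑ ψ ∈ quadr f, ‖psiLog t f ψ‖ ≤ ((quadr f).card : ℝ) * (t / L ^ (k + 3)) := by
            rw [← nsmul_eq_mul]
            apply Finset.sum_le_card_nsmul
            intro ψ hψ
            have h2 := (mem_quadr (by omega : f ≠ 0) ψ).mp hψ
            have := hSW t hx0 f (by omega) (by rw [← hL]; exact hf.2) ψ h2.1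
            rw [← hL] at this
            exact this
          calc (1 / (f : ℝ)) * ∑ ψ ∈ quadr f, ‖psiLog t f ψ‖ ≤
                (1 / (f : ℝ)) * (((quadr f).card : ℝ) * (t / L ^ (k + 3))) :=
                mul_le_mul_of_nonneg_left h1 (by positivity)
            _ = _ := by ring
      _ = (t / L ^ (k + 3)) * ∑ f ∈ (Icc 2 E).filter (fun f : ℕ => ¬ L ^ (2 * k + 7) < (f : ℝ)),
          ((1 / (f : ℝ)) * ((quadr f).card : ℝ)) := by rw [Finset.mul_sum]
      _ ≤ (t / L ^ (k + 3)) * (2 * (1 + Real.log E) ^ 2) := by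
          apply mul_le_mul_of_nonneg_left _ (by positivity)
          apply sum_quadr h E
          intro f hf
          rw [mem_filter, mem_Icc] at hf
          rw [mem_Icc]; omega
      _ ≤ (t / L ^ (k + 3)) * (8 * L ^ 2) := by
          apply mul_le_mul_of_nonneg_left _ (by positivity)
          nlinarith
      _ ≤ t / (2 * L ^ k) := by
          rw [le_div_iff₀ (by positivity)]
          have e : (t / L ^ (k + 3)) * (8 * L ^ 2) * (2 * L ^ k) = t * (16 / L) := by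
            field_simp
            ring
          rw [e]
          have : 16 / L ≤ 1 := by rw [div_le_one (by linarith)]; linarith
          nlinarith
  have e : t / L ^ k = t / (2 * L ^ k) + t / (2 * L ^ k) := by
    field_simp
    ring
  rw [e]
  exact add_le_add hbig hsmall

end Pool.Agent.T2h80.CL
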