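import Pool.Agent.T2h80.CL.Stm
import Pool.Agent.H510R2.Div

/-!
SV: the sieve inequality.
-/

set_option autoImplicit false
set_option linter.all false

namespace Pool.Agent.T2h80.CL

open Finset

namespace SVh

/-- Moebius over the divisors of `P` -/
lemma moeb (P y v : ℕ) (hP : P ≠ 0) (hv : 1 ≤ v) (hvy : v ∣ y) :
    ∑ d ∈ P.divisors, (if v * d ∣ y then (ArithmeticFunction.moebius d : ℝ) else 0) =
      if Nat.gcd P (y / v) = 1 then 1 else 0 := by
  have h1 : ∀ d, v * d ∣ y ↔ d ∣ y / v := by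
    intro d
    rw [Nat.dvd_div_iff_mul_dvd hvy]
  simp only [h1]
  rw [← Finset.sum_filter]
  have h2 : P.divisors.filter (fun d => d ∣ y / v) = (Nat.gcd P (y / v)).divisors := by
    ext d
    rw [Finset.mem_filter, Nat.mem_divisors, Nat.mem_divisors, Nat.dvd_gcd_iff]
    constructor
    · rintro ⟨⟨h3, _⟩, h4⟩
      exact ⟨⟨h3, h4⟩, fun h => hP (Nat.eq_zero_of_gcd_eq_zero_left h)⟩
    · rintro ⟨⟨h3, h4⟩, _⟩
      exact ⟨⟨h3, hP⟩, h4⟩
  rw [h2]
  have h3 := congrArg (fun f : ArithmeticFunction ℤ => f (Nat.gcd P (y / v)))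
    ArithmeticFunction.moebius_mul_coe_zeta
  simp only [ArithmeticFunction.coe_mul_zeta_apply, ArithmeticFunction.one_apply] at h3
  have h4 : (∑ i ∈ (Nat.gcd P (y / v)).divisors, (ArithmeticFunction.moebius i : ℝ)) =
      ((∑ i ∈ (Nat.gcd P (y / v)).divisors, ArithmeticFunction.moebius i : ℤ) : ℝ) := by
    push_cast
    rfl
  rw [h4, h3]
  split_ifs <;> simp

/-- the `v` for one pair -/
noncomputable def W (a n X K : ℝ) (y M : ℕ) : Finset ℕ := by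
  classical
  exact (Icc 1 M).filter (fun v => K * (v : ℝ) ^ 2 ≤ a ∧ n < X * (v : ℝ) ^ 2 ∧ v ∣ y)

lemma mem_W {a n X K : ℝ} {y M v : ℕ} : v ∈ W a n X K y M ↔
    (1 ≤ v ∧ v ≤ M) ∧ K * (v : ℝ) ^ 2 ≤ a ∧ n < X * (v : ℝ) ^ 2 ∧ v ∣ y := by
  unfold W
  rw [Finset.mem_filter, Finset.mem_Icc]

lemma pt (a n X K K' : ℝ) (y M w Q : ℕ) (hy : 1 ≤ y) (hyM : y ≤ M) (hn : n ≤ a) (hX : 1 ≤ X)
    (hK : 1 ≤ K) (hKK : K ≤ K') (hXQ : X ≤ K' * (Q : ℝ) ^ 2) :
    |(if n < X * (y : ℝ) ^ 2 then (1 : ℝ) else 0) -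
      (((W a n X K y M).filter (fun v => Nat.gcd (primorial w) (y / v) = 1)).card : ℝ)| ≤
    ∑ q ∈ (Ioc w Q).filter Nat.Prime, (((W a n X K y M).filter (fun v => v * q ∣ y)).card : ℝ) +
      (if n < K' * (y : ℝ) ^ 2 then (y.divisors.card : ℝ) else 0) := by
  classical
  obtain ⟨T, hT⟩ : ∃ T, T = (W a n X K y M).filter (fun v => Nat.gcd (primorial w) (y / v) = 1) :=
    ⟨_, rfl⟩
  rw [← hT]
  obtain ⟨T', hT'⟩ : ∃ T', T' = T.filter (fun v => ¬ v = y) := ⟨_, rfl⟩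
  have hyR : (1 : ℝ) ≤ y := by exact_mod_cast hy
  have hK0 : 0 < K' := by linarith
  -- the part with `v ≠ y`
  have hsub : T' ⊆ ((Ioc w Q).filter Nat.Prime).biUnion
      (fun q => (W a n X K y M).filter (fun v => v * q ∣ y)) ∪
      (if n < K' * (y : ℝ) ^ 2 then y.divisors.erase y else ∅) := by
    intro v hv
    rw [hT', Finset.mem_filter, hT, Finset.mem_filter] at hv
    obtain ⟨⟨hvW, hg⟩, hvy⟩ := hv
    have hvW' := mem_W.1 hvW
    obtain ⟨⟨hv1, hvM⟩, hvK, hvX, hvd⟩ := hvW'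
    obtain ⟨m, hm⟩ := hvd
    have hm0 : m ≠ 0 := by
      rintro rfl
      omega
    have hm1 : m ≠ 1 := by
      rintro rfl
      exact hvy (by omega)
    have hdiv : y / v = m := by
      rw [hm, Nat.mul_div_cancel_left _ (by omega)]
    rw [hdiv] at hg
    obtain ⟨q, hq, hqm⟩ := Nat.exists_prime_and_dvd hm1
    have hqw : w < q := by
      by_contra hle
      have : q ∣ primorial w := by
        rw [hq.dvd_primorial_iff]
        omega
      have h1 : q ∣ Nat.gcd (primorial w) m := Nat.dvd_gcd this hqm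
      rw [hg] at h1
      exact hq.one_lt.ne' (Nat.dvd_one.1 h1)
    rw [Finset.mem_union]
    by_cases hqQ : q ≤ Q
    · left
      rw [Finset.mem_biUnion]
      refine ⟨q, Finset.mem_filter.2 ⟨Finset.mem_Ioc.2 ⟨hqw, hqQ⟩, hq⟩, ?_⟩
      rw [Finset.mem_filter]
      refine ⟨hvW, ?_⟩
      rw [hm]
      exact Nat.mul_dvd_mul_left v hqm
    · right
      have hQv : (Q : ℝ) * v ≤ y := by
        have h1 : Q * v ≤ y := by
          have h2 : q ≤ m := Nat.le_of_dvd (by omega) hqm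
          calc Q * v ≤ m * v := Nat.mul_le_mul_right _ (by omega)
            _ = y := by rw [hm, mul_comm]
        exact_mod_cast h1
      have h3 : n < K' * (y : ℝ) ^ 2 := by
        calc n < X * (v : ℝ) ^ 2 := hvX
          _ ≤ (K' * (Q : ℝ) ^ 2) * (v : ℝ) ^ 2 := by gcongr
          _ = K' * ((Q : ℝ) * v) ^ 2 := by ring
          _ ≤ K' * (y : ℝ) ^ 2 := by gcongr
      rw [if_pos h3, Finset.mem_erase, Nat.mem_divisors]
      exact ⟨hvy, ⟨m, hm⟩, by omega⟩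
  have hcT' : (T'.card : ℝ) ≤ ∑ q ∈ (Ioc w Q).filter Nat.Prime,
      (((W a n X K y M).filter (fun v => v * q ∣ y)).card : ℝ) +
      (if n < K' * (y : ℝ) ^ 2 then (y.divisors.card : ℝ) - 1 else 0) := by
    have h1 := (Finset.card_le_card hsub).trans (Finset.card_union_le _ _)
    have h2 : (((Ioc w Q).filter Nat.Prime).biUnion
      (fun q => (W a n X K y M).filter (fun v => v * q ∣ y))).card ≤
      ∑ q ∈ (Ioc w Q).filter Nat.Prime, ((W a n X K y M).filter (fun v => v * q ∣ y)).card :=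
      Finset.card_biUnion_le
    have h3 : (T'.card : ℝ) ≤ ((∑ q ∈ (Ioc w Q).filter Nat.Prime,
        ((W a n X K y M).filter (fun v => v * q ∣ y)).card : ℕ) : ℝ) +
        (((if n < K' * (y : ℝ) ^ 2 then y.divisors.erase y else ∅).card : ℕ) : ℝ) := by
      exact_mod_cast h1.trans (Nat.add_le_add_right h2 _)
    push_cast at h3
    refine h3.trans (add_le_add le_rfl ?_)
    split_ifs with h4
    · have h5 : y ∈ y.divisors := Nat.mem_divisors.2 ⟨dvd_rfl, by omega⟩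
      rw [Finset.card_erase_of_mem h5]
      have h6 : 1 ≤ y.divisors.card := Finset.card_pos.2 ⟨y, h5⟩
      rw [Nat.cast_sub h6]
      norm_num
    · simp
  have hS0 : 0 ≤ ∑ q ∈ (Ioc w Q).filter Nat.Prime,
      (((W a n X K y M).filter (fun v => v * q ∣ y)).card : ℝ) :=
    Finset.sum_nonneg fun q _ => Nat.cast_nonneg _
  have hτ : 1 ≤ (y.divisors.card : ℝ) := by
    have h5 : y ∈ y.divisors := Nat.mem_divisors.2 ⟨dvd_rfl, by omega⟩
    exact_mod_cast Finset.card_pos.2 ⟨y, h5⟩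
  have hT0 : (0 : ℝ) ≤ (T'.card : ℝ) := Nat.cast_nonneg _
  have hsplit : T.card = T'.card + (T.filter (fun v => v = y)).card := by
    have h1 := Finset.card_filter_add_card_filter_not (s := T) (p := fun v => v = y)
    rw [hT']
    omega
  have hT1 : T.filter (fun v => v = y) = if y ∈ T then {y} else ∅ := Finset.filter_eq' T y
  have hyT : y ∈ T ↔ K * (y : ℝ) ^ 2 ≤ a ∧ n < X * (y : ℝ) ^ 2 := by
    rw [hT, Finset.mem_filter, mem_W, Nat.div_self (by omega), Nat.gcd_one_right]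
    constructor
    · rintro ⟨⟨_, h1, h2, _⟩, _⟩
      exact ⟨h1, h2⟩
    · rintro ⟨h1, h2⟩
      exact ⟨⟨⟨hy, hyM⟩, h1, h2, dvd_rfl⟩, rfl⟩
  have hind : (if n < K' * (y : ℝ) ^ 2 then (y.divisors.card : ℝ) - 1 else 0) ≤
      (if n < K' * (y : ℝ) ^ 2 then (y.divisors.card : ℝ) else 0) := by
    split_ifs <;> linarith
  by_cases h1 : n < X * (y : ℝ) ^ 2
  · rw [if_pos h1]
    by_cases h2 : K * (y : ℝ) ^ 2 ≤ a
    · have h3 : y ∈ T := hyT.2 ⟨h2, h1⟩
      rw [if_pos h3] at hT1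
      rw [hT1, Finset.card_singleton] at hsplit
      rw [hsplit]
      push_cast
      have h4 : (1 : ℝ) - ((T'.card : ℝ) + 1) = -(T'.card : ℝ) := by ring
      rw [h4, abs_neg, abs_of_nonneg hT0]
      linarith
    · have h3 : y ∉ T := fun h => h2 (hyT.1 h).1
      rw [if_neg h3] at hT1
      rw [hT1, Finset.card_empty, add_zero] at hsplit
      rw [hsplit]
      push Not at h2
      have h4 : n < K' * (y : ℝ) ^ 2 := by
        calc n ≤ a := hn
          _ < K * (y : ℝ) ^ 2 := h2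
          _ ≤ K' * (y : ℝ) ^ 2 := by gcongr
      rw [if_pos h4] at hcT' ⊢
      rw [abs_le]
      constructor <;> linarith
  · rw [if_neg h1]
    have h3 : y ∉ T := fun h => h1 (hyT.1 h).2
    rw [if_neg h3] at hT1
    rw [hT1, Finset.card_empty, add_zero] at hsplit
    rw [hsplit, zero_sub, abs_neg, abs_of_nonneg hT0]
    linarith

end SVh

open SVh in
theorem t_SV (hFD : S_FD) : S_SV := by
  classical
  intro l hl ε hε
  have hlR : (0 : ℝ) < l := by exact_mod_cast hl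
  obtain ⟨C0, hC0, hdiv⟩ := Pool.Agent.H510R2.divisor_bound (ε / l) (by positivity)
  refine ⟨C0 * 4 ^ (ε / l), by positivity, fun N w Q hN X K K' hX hK hKK hXQ => ?_⟩
  have hch : ∀ g : ℕ × ℕ, ∃ (D : ℤ) (y : ℕ), g.2 ^ 2 < 4 * g.1 ^ l → D < 0 ∧ FDp D ∧ 1 ≤ y ∧
      (g.2 : ℤ) ^ 2 - 4 * (g.1 : ℤ) ^ l = D * (y : ℤ) ^ 2 ∧
      (∀ e : ℕ, 1 ≤ e → (EE l g.1 e g.2 ↔ e ∣ y)) ∧
      (∀ (D' : ℤ) (y' : ℕ), FDp D' → 1 ≤ y' →
        (g.2 : ℤ) ^ 2 - 4 * (g.1 : ℤ) ^ l = D' * (y' : ℤ) ^ 2 → D' = D ∧ y' = y) := by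
    intro g
    by_cases h : g.2 ^ 2 < 4 * g.1 ^ l
    · obtain ⟨D, y, h1⟩ := hFD l g.1 g.2 h
      exact ⟨D, y, fun _ => h1⟩
    · exact ⟨0, 0, fun h' => absurd h' h⟩
  choose D y hDy using hch
  have hTT : ∀ g ∈ TT l N, g.1 ≤ N ∧ g.2 ^ 2 < 4 * g.1 ^ l := by
    intro g hg
    unfold TT at hg
    rw [Finset.mem_filter, Finset.mem_product, Finset.mem_range, Finset.mem_range] at hg
    exact ⟨by omega, hg.2.2.2.2.1⟩
  have hRS : ∀ Z : ℝ, ∀ g ∈ TT l N, (g ∈ RS l N Z ↔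
      4 * (g.1 : ℝ) ^ l - (g.2 : ℝ) ^ 2 < Z * (y g : ℝ) ^ 2) := by
    intro Z g hg
    obtain ⟨h1, h2, h3, h4, h5, h6⟩ := hDy g (hTT g hg).2
    have h4' : (g.2 : ℝ) ^ 2 - 4 * (g.1 : ℝ) ^ l = (D g : ℝ) * (y g : ℝ) ^ 2 := by
      exact_mod_cast h4
    have hy0 : (0 : ℝ) < (y g : ℝ) ^ 2 := by
      have : (0 : ℝ) < y g := by exact_mod_cast h3
      positivity
    have h7 : 4 * (g.1 : ℝ) ^ l - (g.2 : ℝ) ^ 2 = -(D g : ℝ) * (y g : ℝ) ^ 2 := by linarith
    rw [h7, mul_lt_mul_iff_left₀ hy0]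
    unfold RS
    rw [Finset.mem_filter]
    constructor
    · rintro ⟨_, D', y', hD', hy', he, hlt⟩
      rw [← (h6 D' y' hD' hy' he).1]
      exact hlt
    · intro h
      exact ⟨hg, D g, y g, h2, h3, h4, h⟩
  have hRSs : ∀ Z : ℝ, RS l N Z ⊆ TT l N := fun Z => Finset.filter_subset _ _
  have hRSc : ∀ Z : ℝ, ((RS l N Z).card : ℝ) = ∑ g ∈ TT l N,
      (if 4 * (g.1 : ℝ) ^ l - (g.2 : ℝ) ^ 2 < Z * (y g : ℝ) ^ 2 then (1 : ℝ) else 0) := by
    intro Z
    rw [← Finset.sum_filter, Finset.sum_const, nsmul_eq_mul, mul_one]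
    congr 2
    ext g
    rw [Finset.mem_filter]
    constructor
    · intro h
      exact ⟨hRSs Z h, (hRS Z g (hRSs Z h)).1 h⟩
    · rintro ⟨h1, h2⟩
      exact (hRS Z g h1).2 h2
  obtain ⟨V, hV⟩ : ∃ V : ℕ × ℕ → Finset ℕ, V = fun g =>
    W (4 * (g.1 : ℝ) ^ l) (4 * (g.1 : ℝ) ^ l - (g.2 : ℝ) ^ 2) X K (y g) (4 * N ^ l) := ⟨_, rfl⟩
  have hVV : ∀ e : ℕ, 1 ≤ e → (VV l N X K e : ℝ) =
      ∑ g ∈ TT l N, (((V g).filter (fun v => v * e ∣ y g)).card : ℝ) := by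
    intro e he
    have h1 : VV l N X K e = ∑ g ∈ TT l N, ((V g).filter (fun v => v * e ∣ y g)).card := by
      unfold VV
      rw [Finset.card_filter, Finset.sum_product]
      refine Finset.sum_congr rfl fun g hg => ?_
      rw [← Finset.card_filter]
      congr 1
      ext v
      rw [Finset.mem_filter, Finset.mem_filter, hV, mem_W, Finset.mem_Icc]
      obtain ⟨h1, h2, h3, h4, h5, h6⟩ := hDy g (hTT g hg).2
      constructor
      · rintro ⟨⟨h7, h8⟩, h9, h10, h11⟩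
        have h12 : v * e ∣ y g := (h5 (v * e) (Nat.mul_pos h7 he)).1 h10
        exact ⟨⟨⟨h7, h8⟩, h9, h11, (Dvd.intro _ rfl).trans h12⟩, h12⟩
      · rintro ⟨⟨⟨h7, h8⟩, h9, h11, _⟩, h12⟩
        exact ⟨⟨h7, h8⟩, h9, (h5 (v * e) (Nat.mul_pos h7 he)).2 h12, h11⟩
    rw [h1]
    push_cast
    rfl
  have hP0 : primorial w ≠ 0 := (primorial_pos w).ne'
  have hmo : ∑ d ∈ (primorial w).divisors, (ArithmeticFunction.moebius d : ℝ) *
      (VV l N X K d : ℝ) = ∑ g ∈ TT l N,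
        (((V g).filter (fun v => Nat.gcd (primorial w) (y g / v) = 1)).card : ℝ) := by
    have h1 : ∑ d ∈ (primorial w).divisors, (ArithmeticFunction.moebius d : ℝ) *
      (VV l N X K d : ℝ) = ∑ d ∈ (primorial w).divisors, ∑ g ∈ TT l N, ∑ v ∈ V g,
        (if v * d ∣ y g then (ArithmeticFunction.moebius d : ℝ) else 0) := by
      refine Finset.sum_congr rfl fun d hd => ?_
      have hd1 : 1 ≤ d := Nat.pos_of_mem_divisors hd
      rw [hVV d hd1, Finset.mul_sum]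
      refine Finset.sum_congr rfl fun g _ => ?_
      rw [← Finset.sum_filter, Finset.sum_const, nsmul_eq_mul, mul_comm]
    rw [h1, Finset.sum_comm]
    refine Finset.sum_congr rfl fun g hg => ?_
    rw [Finset.sum_comm]
    have h2 : ∀ v ∈ V g, ∑ d ∈ (primorial w).divisors,
        (if v * d ∣ y g then (ArithmeticFunction.moebius d : ℝ) else 0) =
        if Nat.gcd (primorial w) (y g / v) = 1 then 1 else 0 := by
      intro v hv
      rw [hV, mem_W] at hv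
      exact moeb _ _ _ hP0 hv.1.1 hv.2.2.2
    rw [Finset.sum_congr rfl h2, ← Finset.sum_filter, Finset.sum_const, nsmul_eq_mul, mul_one]
  have hq : ∑ q ∈ (Ioc w Q).filter Nat.Prime, (VV l N X K q : ℝ) =
      ∑ g ∈ TT l N, ∑ q ∈ (Ioc w Q).filter Nat.Prime,
        (((V g).filter (fun v => v * q ∣ y g)).card : ℝ) := by
    rw [Finset.sum_comm]
    refine Finset.sum_congr rfl fun q hq => ?_
    exact hVV q (Finset.mem_filter.1 hq).2.one_lt.le
  have hpt : ∀ g ∈ TT l N,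
      |(if 4 * (g.1 : ℝ) ^ l - (g.2 : ℝ) ^ 2 < X * (y g : ℝ) ^ 2 then (1 : ℝ) else 0) -
        (((V g).filter (fun v => Nat.gcd (primorial w) (y g / v) = 1)).card : ℝ)| ≤
      ∑ q ∈ (Ioc w Q).filter Nat.Prime, (((V g).filter (fun v => v * q ∣ y g)).card : ℝ) +
      (C0 * 4 ^ (ε / l) * (N : ℝ) ^ ε) *
      (if 4 * (g.1 : ℝ) ^ l - (g.2 : ℝ) ^ 2 < K' * (y g : ℝ) ^ 2 then (1 : ℝ) else 0) := by
    intro g hg
    obtain ⟨h1, h2, h3, h4, h5, h6⟩ := hDy g (hTT g hg).2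
    have hgN := (hTT g hg).1
    have h4' : 4 * (g.1 : ℤ) ^ l - (g.2 : ℤ) ^ 2 = (-D g) * (y g : ℤ) ^ 2 := by linarith
    have hyle : (y g) ^ 2 ≤ 4 * g.1 ^ l := by
      have h7 : (1 : ℤ) ≤ -D g := by omega
      have h8 : (y g : ℤ) ^ 2 ≤ 4 * (g.1 : ℤ) ^ l := by nlinarith [sq_nonneg (y g : ℤ), sq_nonneg (g.2 : ℤ)]
      exact_mod_cast h8
    have hpN : g.1 ^ l ≤ N ^ l := Nat.pow_le_pow_left hgN l
    have hyM : y g ≤ 4 * N ^ l := by nlinarith
    have h9 := pt (4 * (g.1 : ℝ) ^ l) (4 * (g.1 : ℝ) ^ l - (g.2 : ℝ) ^ 2) X K K' (y g) (4 * N ^ l) w Q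
      h3 hyM (by nlinarith [sq_nonneg (g.2 : ℝ)]) hX hK hKK hXQ
    rw [hV]
    refine h9.trans (add_le_add le_rfl ?_)
    split_ifs with h10
    · rw [mul_one]
      have h11 := hdiv (y g) h3
      have h12 : (y g : ℝ) ≤ 4 * (N : ℝ) ^ l := by exact_mod_cast hyM
      have h13 : (y g : ℝ) ^ (ε / l) ≤ (4 * (N : ℝ) ^ l) ^ (ε / l) :=
        Real.rpow_le_rpow (Nat.cast_nonneg _) h12 (by positivity)
      have h14 : (4 * (N : ℝ) ^ l) ^ (ε / l) = 4 ^ (ε / l) * (N : ℝ) ^ ε := by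
        rw [Real.mul_rpow (by norm_num) (by positivity), ← Real.rpow_natCast,
          ← Real.rpow_mul (Nat.cast_nonneg _)]
        congr 2
        field_simp
      calc ((y g).divisors.card : ℝ) ≤ C0 * (y g : ℝ) ^ (ε / l) := h11
        _ ≤ C0 * (4 ^ (ε / l) * (N : ℝ) ^ ε) := by
            rw [← h14]
            exact mul_le_mul_of_nonneg_left h13 hC0.le
        _ = _ := by ring
    · rw [mul_zero]
  rw [hmo, hRSc X, hRSc K', hq, ← Finset.sum_sub_distrib, Finset.mul_sum, ← Finset.sum_add_distrib]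
  exact (Finset.abs_sum_le_sum_abs _ _).trans (Finset.sum_le_sum hpt)

end Pool.Agent.T2h80.CL
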