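import Pool.Agent.T2h80.CL.Stm

/-!
U: the discriminants below `X ^ (1 - δ)`.
-/

set_option autoImplicit false
set_option linter.all false

namespace Pool.Agent.T2h80.CL

open Finset

lemma RS_mono (l N : ℕ) {X Y : ℝ} (h : X ≤ Y) : RS l N X ⊆ RS l N Y := by
  classical
  intro g hg
  unfold RS at hg ⊢
  rw [Finset.mem_filter] at hg ⊢
  obtain ⟨h1, D, y, h2, h3, h4, h5⟩ := hg
  exact ⟨h1, D, y, h2, h3, h4, lt_of_lt_of_le h5 h⟩

lemma RS_zero (l : ℕ) (X : ℝ) : RS l 0 X = ∅ := by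
  classical
  rw [Finset.eq_empty_iff_forall_notMem]
  intro g hg
  unfold RS TT at hg
  rw [Finset.mem_filter, Finset.mem_filter, Finset.mem_product, Finset.mem_range] at hg
  have h1 := hg.1.2.1
  have h2 : g.1 = 0 := by omega
  rw [h2] at h1
  exact Nat.not_prime_zero h1

theorem t_U (h1 : S_U1) (h2 : S_U2) : S_U := by
  intro l hl hl5 θ hθ1 hθ2 δ hδ
  obtain ⟨L, hL⟩ : ∃ L : ℝ, L = l := ⟨_, rfl⟩
  have hL5 : 5 ≤ L := by rw [hL]; exact_mod_cast hl5
  rw [← hL] at hθ1 hθ2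
  have e1 : 1 < L * θ := by
    rw [div_lt_iff₀ (by linarith)] at hθ1
    linarith
  have e2 : (L - 2) * θ < 1 := by
    rw [lt_div_iff₀ (by linarith)] at hθ2
    linarith
  have hθ0 : 0 < θ := lt_trans (by positivity) hθ1
  have hθ3 : θ < 1 / 3 := lt_of_lt_of_le hθ2 (one_div_le_one_div_of_le (by norm_num) (by linarith))
  have e3 : L * θ - 1 < (L + 1) / (2 * L - 1) := by
    rw [lt_div_iff₀ (by linarith)]
    have h3 : θ * (2 * L - 1) < 3 := by
      have h4 : (2 * L - 1) ≤ 3 * (L - 2) := by linarith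
      nlinarith
    nlinarith
  obtain ⟨a, ha1, ha2, ha3⟩ : ∃ a, L * θ - 1 < a ∧ a < 2 * θ ∧ a < (L + 1) / (2 * L - 1) := by
    obtain ⟨a, h3, h4⟩ := exists_between (show L * θ - 1 < min (2 * θ) ((L + 1) / (2 * L - 1)) from
      lt_min (by linarith) e3)
    exact ⟨a, h3, lt_of_lt_of_le h4 (min_le_left _ _), lt_of_lt_of_le h4 (min_le_right _ _)⟩
  have ha0 : 0 < a := by linarith
  obtain ⟨κ, hκ⟩ : ∃ κ : ℝ, κ = 1 - 3 / (2 * (L + 1)) := ⟨_, rfl⟩
  have hκ2 : a * κ < 1 / 2 := by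
    have h3 : κ = (2 * L - 1) / (2 * (L + 1)) := by
      rw [hκ]
      field_simp
      ring
    rw [lt_div_iff₀ (by linarith)] at ha3
    rw [h3, ← mul_div_assoc, div_lt_div_iff₀ (by linarith) (by norm_num)]
    linarith
  obtain ⟨G, hG⟩ : ∃ G : ℝ, G = min (δ / 2) (min ((1 - L * θ + a) / 2) (1 / 2 - a * κ)) := ⟨_, rfl⟩
  have hG0 : 0 < G := by
    rw [hG]
    exact lt_min (by linarith) (lt_min (by linarith) (by linarith))
  have hGa : G ≤ δ / 2 := by rw [hG]; exact min_le_left _ _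
  have hGb : G ≤ (1 - L * θ + a) / 2 := by
    rw [hG]; exact (min_le_right _ _).trans (min_le_left _ _)
  have hGc : G ≤ 1 / 2 - a * κ := by
    rw [hG]; exact (min_le_right _ _).trans (min_le_right _ _)
  obtain ⟨C₁, hC₁, hU1⟩ := h1 l hl (G / 8) (by linarith)
  obtain ⟨C₂, hC₂, hU2⟩ := h2 l hl hl5 (G / 8) (by linarith)
  refine ⟨G / 4, by linarith, fun K _ _ hK => ?_⟩
  have hX0 := (tendsto_rpow_atTop (show 0 < G / 2 by linarith)).eventually_ge_atTop
    (2 * C₁ + 2 * C₂)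
  obtain ⟨X₀, hX₀⟩ := Filter.eventually_atTop.1 hX0
  refine ⟨max X₀ 1, fun X hX N hN => ?_⟩
  have hX1 : 1 ≤ X := (le_max_right _ _).trans hX
  have hXp : 0 < X := by linarith
  have hXG := hX₀ X ((le_max_left _ _).trans hX)
  rcases Nat.eq_zero_or_pos N with hN0 | hN0
  · subst hN0
    rw [RS_zero, Finset.card_empty]
    push_cast
    positivity
  have hN1 : 1 ≤ N := hN0
  have hNR : (0 : ℝ) < N := by exact_mod_cast hN0
  have hNR1 : (1 : ℝ) ≤ N := by exact_mod_cast hN1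
  have hNe : ∀ s : ℝ, 0 ≤ s → (N : ℝ) ^ s ≤ X ^ (θ * s) := by
    intro s hs
    rw [Real.rpow_mul hXp.le]
    exact Real.rpow_le_rpow hNR.le hN hs
  have hXm : ∀ s t : ℝ, s ≤ t → X ^ s ≤ X ^ t := fun s t h => Real.rpow_le_rpow_of_exponent_le hX1 h
  have hXa : ∀ s t : ℝ, X ^ s * X ^ t = X ^ (s + t) := fun s t => (Real.rpow_add hXp s t).symm
  have hsq : ∀ s : ℝ, √(X ^ s) = X ^ (s / 2) := by
    intro s
    rw [Real.sqrt_eq_rpow, ← Real.rpow_mul hXp.le]
    congr 1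
    ring
  have hNG : (N : ℝ) ^ (G / 8) ≤ X ^ (G / 8) := (hNe _ (by linarith)).trans (hXm _ _ (by nlinarith))
  have hXa1 : 1 ≤ X ^ a := Real.one_le_rpow hX1 ha0.le
  -- the small discriminants
  have hsmall : ((RS l N (X ^ a)).card : ℝ) ≤ 2 * C₂ * X ^ (1 / 2 + θ - 3 * G / 4) := by
    have h3 := hU2 K hK N hN1 (X ^ a) hXa1
    rw [← hL, ← hκ, hsq, ← Real.rpow_mul hXp.le] at h3
    have h4 : (N : ℝ) + X ^ (a / 2) ≤ 2 * X ^ θ := by
      have := hXm (a / 2) θ (by linarith)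
      linarith
    calc ((RS l N (X ^ a)).card : ℝ) ≤ C₂ * (N : ℝ) ^ (G / 8) * ((N : ℝ) + X ^ (a / 2)) *
          X ^ (a * (κ + G / 8)) := h3
      _ ≤ C₂ * X ^ (G / 8) * (2 * X ^ θ) * X ^ (1 / 2 - G + G / 8) := by
          have h5 : X ^ (a * (κ + G / 8)) ≤ X ^ (1 / 2 - G + G / 8) := by
            apply hXm
            have : a * (G / 8) ≤ 1 * (G / 8) :=
              mul_le_mul_of_nonneg_right (by linarith) (by linarith)
            nlinarith
          gcongr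
      _ = 2 * C₂ * (X ^ (G / 8) * X ^ θ * X ^ (1 / 2 - G + G / 8)) := by ring
      _ = _ := by
          rw [hXa, hXa]
          congr 2
          ring
  have hfin : ((RS l N (X ^ (1 - δ))).card : ℝ) ≤ (2 * C₁ + 2 * C₂) * X ^ (1 / 2 + θ - 3 * G / 4) := by
    have hP : 0 < X ^ (1 / 2 + θ - 3 * G / 4) := by positivity
    rcases le_total (X ^ (1 - δ)) (X ^ a) with hc | hc
    · have h3 : ((RS l N (X ^ (1 - δ))).card : ℝ) ≤ ((RS l N (X ^ a)).card : ℝ) := by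
        exact_mod_cast Finset.card_le_card (RS_mono l N hc)
      have : 0 < C₁ * X ^ (1 / 2 + θ - 3 * G / 4) := by positivity
      nlinarith
    · have h3 : ((RS l N (X ^ (1 - δ))).card : ℝ) ≤ ((RS l N (X ^ a)).card : ℝ) +
          ((RS l N (X ^ (1 - δ)) \ RS l N (X ^ a)).card : ℝ) := by
        have h4 := Finset.card_sdiff_add_card_eq_card (RS_mono l N hc)
        have h5 : (RS l N (X ^ (1 - δ))).card = (RS l N (X ^ a)).card +
          (RS l N (X ^ (1 - δ)) \ RS l N (X ^ a)).card := by omega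
        exact le_of_eq (by exact_mod_cast h5)
      have h4 := hU1 N hN1 (X ^ a) (X ^ (1 - δ)) hXa1 hc
      rw [hsq, hsq, ← hL] at h4
      have h5 : (N : ℝ) ^ (G / 8) * ((N : ℝ) * X ^ ((1 - δ) / 2) +
          (N : ℝ) ^ (1 + L / 2) / X ^ (a / 2)) ≤ 2 * X ^ (1 / 2 + θ - 3 * G / 4) := by
        have h6 : (N : ℝ) * X ^ ((1 - δ) / 2) ≤ X ^ (1 / 2 + θ - G) := by
          calc (N : ℝ) * X ^ ((1 - δ) / 2) ≤ X ^ θ * X ^ ((1 - δ) / 2) := by gcongr
            _ = X ^ (θ + (1 - δ) / 2) := hXa _ _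
            _ ≤ _ := hXm _ _ (by linarith)
        have h7 : (N : ℝ) ^ (1 + L / 2) / X ^ (a / 2) ≤ X ^ (1 / 2 + θ - G) := by
          rw [div_le_iff₀ (by positivity), hXa]
          refine (hNe _ (by linarith)).trans (hXm _ _ ?_)
          nlinarith
        calc _ ≤ X ^ (G / 8) * (X ^ (1 / 2 + θ - G) + X ^ (1 / 2 + θ - G)) := by gcongr
          _ = 2 * (X ^ (G / 8) * X ^ (1 / 2 + θ - G)) := by ring
          _ ≤ _ := by
              rw [hXa]
              have := hXm (G / 8 + (1 / 2 + θ - G)) (1 / 2 + θ - 3 * G / 4) (by linarith)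
              linarith
      have h8 : ((RS l N (X ^ (1 - δ)) \ RS l N (X ^ a)).card : ℝ) ≤
          C₁ * (2 * X ^ (1 / 2 + θ - 3 * G / 4)) := by
        refine h4.trans ?_
        rw [mul_assoc]
        exact mul_le_mul_of_nonneg_left h5 hC₁.le
      nlinarith
  calc ((RS l N (X ^ (1 - δ))).card : ℝ) ≤ (2 * C₁ + 2 * C₂) * X ^ (1 / 2 + θ - 3 * G / 4) := hfin
    _ ≤ X ^ (G / 2) * X ^ (1 / 2 + θ - 3 * G / 4) := by gcongr
    _ = _ := by
        rw [hXa]
        congr 1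
        ring

end Pool.Agent.T2h80.CL
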