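import Pool.Agent.T2h80.CL.Bl

/-!
U1: the pairs with discriminant between `K₁` and `K₂`.
-/

set_option autoImplicit false
set_option linter.all false

namespace Pool.Agent.T2h80.CL

open Finset

theorem t_U1 (h1 : S_CNT) (h2 : S_NS) (h3 : S_FD) (h4 : S_WA) (h5 : S_WL) : S_U1 := by
  classical
  intro l hl ε hε
  have hl1 : 1 ≤ l := by
    rcases hl with ⟨k, hk⟩
    omega
  have hlR : (0 : ℝ) < l := by exact_mod_cast hl1
  obtain ⟨C, hC, hBB⟩ := BB_le h1 h2 h5 (show 0 < ε / l by positivity)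
  refine ⟨C * 2 ^ (ε / l) * 12, by positivity, fun N hN K₁ K₂ hK₁ hK₂ => ?_⟩
  have hK20 : 0 < K₂ := by linarith
  have hNR : (1 : ℝ) ≤ N := by exact_mod_cast hN
  have hN0 : (0 : ℝ) < N := by linarith
  obtain ⟨Y, hY⟩ : ∃ Y, Y = ⌊2 * (N : ℝ) ^ ((l : ℝ) / 2) / √K₁⌋₊ := ⟨_, rfl⟩
  have hsK : 0 < √K₁ := Real.sqrt_pos.2 (by linarith)
  have hsK1 : 1 ≤ √K₁ := by
    rw [Real.one_le_sqrt]
    exact hK₁
  have hYle : (Y : ℝ) ≤ 2 * (N : ℝ) ^ ((l : ℝ) / 2) / √K₁ := by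
    rw [hY]
    exact Nat.floor_le (by positivity)
  have hYle2 : (Y : ℝ) ≤ 2 * (N : ℝ) ^ (l : ℝ) := by
    refine hYle.trans ?_
    rw [div_le_iff₀ hsK]
    have h6 : (N : ℝ) ^ ((l : ℝ) / 2) ≤ (N : ℝ) ^ (l : ℝ) :=
      Real.rpow_le_rpow_of_exponent_le hNR (by linarith)
    have h7 : 0 < (N : ℝ) ^ (l : ℝ) := by positivity
    nlinarith
  have hS : ∀ p y : ℕ, ∃ S : Finset ℕ, S.card = BB l p y y K₂ ∧ ∀ x, x ∈ S ↔
      (x < 4 * p ^ l + 1 ∧ 1 ≤ x ∧ x ^ 2 < 4 * p ^ l ∧ ¬ p ∣ x ∧ EE l p y x ∧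
        4 * (p : ℝ) ^ l - (x : ℝ) ^ 2 < K₂ * (y : ℝ) ^ 2) := by
    intro p y
    refine ⟨_, rfl, fun x => ?_⟩
    rw [Finset.mem_filter, Finset.mem_range]
  choose S hSc hSm using hS
  -- the covering
  have hcov : RS l N K₂ \ RS l N K₁ ⊆
      ((Icc 1 N).filter (fun p => p.Prime ∧ p ≠ 2)).biUnion (fun p =>
        (Icc 1 Y).biUnion (fun y => (S p y).image (fun x => (p, x)))) := by
    intro g hg
    rw [Finset.mem_sdiff] at hg
    obtain ⟨hg2, hg1⟩ := hg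
    have hgT : g ∈ TT l N := (Finset.filter_subset _ _) hg2
    have hgT' := hgT
    unfold TT at hgT'
    rw [Finset.mem_filter, Finset.mem_product, Finset.mem_range, Finset.mem_range] at hgT'
    obtain ⟨⟨ha1, ha2⟩, ha3, ha4, ha5, ha6, ha7⟩ := hgT'
    obtain ⟨D, y, hD, hF, hy, he, hEE, huq⟩ := h3 l g.1 g.2 ha6
    unfold RS at hg1 hg2
    rw [Finset.mem_filter] at hg1 hg2
    obtain ⟨-, D', y', hD', hy', he', hlt⟩ := hg2
    rw [(huq D' y' hD' hy' he').1] at hlt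
    have hge : K₁ ≤ -(D : ℝ) := by
      by_contra hc
      push Not at hc
      exact hg1 ⟨hgT, D, y, hF, hy, he, hc⟩
    have heR : (g.2 : ℝ) ^ 2 - 4 * (g.1 : ℝ) ^ l = (D : ℝ) * (y : ℝ) ^ 2 := by exact_mod_cast he
    have hy0 : (0 : ℝ) < y := by exact_mod_cast hy
    have hgN : g.1 ≤ N := by omega
    have hpN : (g.1 : ℝ) ^ l ≤ (N : ℝ) ^ l := by
      have : (g.1 : ℝ) ≤ N := by exact_mod_cast hgN
      gcongr
    have hyY : y ≤ Y := by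
      rw [hY]
      apply Nat.le_floor
      rw [le_div_iff₀ hsK]
      have h6 : ((y : ℝ) * √K₁) ^ 2 ≤ (2 * (N : ℝ) ^ ((l : ℝ) / 2)) ^ 2 := by
        have h7 : ((N : ℝ) ^ ((l : ℝ) / 2)) ^ 2 = (N : ℝ) ^ l := by
          rw [← Real.rpow_natCast, ← Real.rpow_mul hN0.le, ← Real.rpow_natCast]
          congr 1
          push_cast
          ring
        rw [mul_pow, mul_pow, h7, Real.sq_sqrt (by linarith)]
        have h8 : (y : ℝ) ^ 2 * K₁ ≤ (y : ℝ) ^ 2 * -(D : ℝ) :=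
          mul_le_mul_of_nonneg_left hge (by positivity)
        nlinarith [sq_nonneg (g.2 : ℝ)]
      exact le_of_sq_le_sq h6 (by positivity)
    rw [Finset.mem_biUnion]
    refine ⟨g.1, ?_, ?_⟩
    · rw [Finset.mem_filter, Finset.mem_Icc]
      exact ⟨⟨ha3.one_lt.le, hgN⟩, ha3, ha4⟩
    · rw [Finset.mem_biUnion]
      refine ⟨y, Finset.mem_Icc.2 ⟨hy, hyY⟩, ?_⟩
      rw [Finset.mem_image]
      refine ⟨g.2, ?_, rfl⟩
      rw [hSm]
      refine ⟨by nlinarith, ha5, ha6, ha7, (hEE y hy).2 dvd_rfl, ?_⟩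
      have : -(D : ℝ) * (y : ℝ) ^ 2 < K₂ * (y : ℝ) ^ 2 := by
        apply mul_lt_mul_of_pos_right hlt (by positivity)
      linarith
  have hcard : ((RS l N K₂ \ RS l N K₁).card : ℝ) ≤
      ∑ p ∈ (Icc 1 N).filter (fun p => p.Prime ∧ p ≠ 2), ∑ y ∈ Icc 1 Y, (BB l p y y K₂ : ℝ) := by
    have h6 : (RS l N K₂ \ RS l N K₁).card ≤
      ∑ p ∈ (Icc 1 N).filter (fun p => p.Prime ∧ p ≠ 2), ∑ y ∈ Icc 1 Y, BB l p y y K₂ := by
      refine (Finset.card_le_card hcov).trans (Finset.card_biUnion_le.trans ?_)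
      refine Finset.sum_le_sum fun p _ => Finset.card_biUnion_le.trans ?_
      refine Finset.sum_le_sum fun y _ => ?_
      rw [← hSc]
      exact Finset.card_image_le
    exact_mod_cast h6
  -- the sum for one prime
  have hone : ∀ p ∈ (Icc 1 N).filter (fun p => p.Prime ∧ p ≠ 2),
      ∑ y ∈ Icc 1 Y, (BB l p y y K₂ : ℝ) ≤
      C * 2 ^ (ε / l) * (N : ℝ) ^ ε * (12 * √K₂ + 12 * ((N : ℝ) ^ ((l : ℝ) / 2) / √K₁)) := by
    intro p hp
    rw [Finset.mem_filter] at hp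
    obtain ⟨_, hpp, hp2⟩ := hp
    have hp0 : (0 : ℝ) < p := by exact_mod_cast hpp.pos
    have h6 : ∀ y ∈ Icc 1 Y, (BB l p y y K₂ : ℝ) ≤ C * (2 ^ (ε / l) * (N : ℝ) ^ ε) *
        (3 * (LL (4 * (p : ℝ) ^ l) K₂ y / (y : ℝ) ^ 2) + 4) := by
      intro y hy
      rw [Finset.mem_Icc] at hy
      refine (hBB l p y y K₂ hl hpp hp2 hy.1 hy.1 hK20).trans ?_
      have h7 : (y : ℝ) ^ (ε / l) ≤ 2 ^ (ε / l) * (N : ℝ) ^ ε := by
        have h8 : (y : ℝ) ≤ 2 * (N : ℝ) ^ (l : ℝ) :=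
          le_trans (by exact_mod_cast hy.2) hYle2
        calc (y : ℝ) ^ (ε / l) ≤ (2 * (N : ℝ) ^ (l : ℝ)) ^ (ε / l) :=
              Real.rpow_le_rpow (Nat.cast_nonneg _) h8 (by positivity)
          _ = 2 ^ (ε / l) * (N : ℝ) ^ ε := by
              rw [Real.mul_rpow (by norm_num) (by positivity), ← Real.rpow_mul hN0.le]
              congr 2
              field_simp
      have h9 : 0 ≤ 3 * (LL (4 * (p : ℝ) ^ l) K₂ y / (y : ℝ) ^ 2) + 4 := by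
        have := (h5 (4 * (p : ℝ) ^ l) K₂ (by positivity) hK20 y hy.1).1.1
        positivity
      exact mul_le_mul_of_nonneg_right (mul_le_mul_of_nonneg_left h7 hC.le) h9
    refine (Finset.sum_le_sum h6).trans ?_
    rw [← Finset.mul_sum, Finset.sum_add_distrib, ← Finset.mul_sum, Finset.sum_const, Nat.card_Icc,
      Nat.add_sub_cancel, nsmul_eq_mul]
    have h7 := LL_sum h4 h5 (show 0 < 4 * (p : ℝ) ^ l by positivity) hK20 Y
    have h8 : (Y : ℝ) * 4 ≤ 12 * ((N : ℝ) ^ ((l : ℝ) / 2) / √K₁) := by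
      have h9 : 2 * (N : ℝ) ^ ((l : ℝ) / 2) / √K₁ = 2 * ((N : ℝ) ^ ((l : ℝ) / 2) / √K₁) := by ring
      have h10 : 0 < (N : ℝ) ^ ((l : ℝ) / 2) / √K₁ := by positivity
      rw [h9] at hYle
      linarith
    have h9 : 3 * ∑ i ∈ Icc 1 Y, LL (4 * (p : ℝ) ^ l) K₂ i / (i : ℝ) ^ 2 + Y * 4 ≤
        12 * √K₂ + 12 * ((N : ℝ) ^ ((l : ℝ) / 2) / √K₁) := by linarith
    calc _ ≤ C * (2 ^ (ε / l) * (N : ℝ) ^ ε) * (12 * √K₂ + 12 * ((N : ℝ) ^ ((l : ℝ) / 2) / √K₁)) :=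
          mul_le_mul_of_nonneg_left h9 (by positivity)
      _ = _ := by ring
  refine hcard.trans ((Finset.sum_le_sum hone).trans ?_)
  rw [Finset.sum_const, nsmul_eq_mul]
  have hc : (((Icc 1 N).filter (fun p => p.Prime ∧ p ≠ 2)).card : ℝ) ≤ N := by
    have := Finset.card_filter_le (Icc 1 N) (fun p => p.Prime ∧ p ≠ 2)
    rw [Nat.card_Icc, Nat.add_sub_cancel] at this
    exact_mod_cast this
  have hpw : (N : ℝ) ^ (1 + (l : ℝ) / 2) = N * (N : ℝ) ^ ((l : ℝ) / 2) := by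
    rw [Real.rpow_add hN0, Real.rpow_one]
  rw [hpw]
  calc _ ≤ (N : ℝ) * (C * 2 ^ (ε / l) * (N : ℝ) ^ ε *
        (12 * √K₂ + 12 * ((N : ℝ) ^ ((l : ℝ) / 2) / √K₁))) :=
        mul_le_mul_of_nonneg_right hc (by positivity)
    _ = _ := by ring

end Pool.Agent.T2h80.CL
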