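import Pool.Agent.T2h80.CL.Stm

/-!
WA, WL: sums of `min (a / v²) b` and the length of the interval.
-/

set_option autoImplicit false
set_option linter.all false

namespace Pool.Agent.T2h80.CL

open Finset

/-- `∑_{s < v ≤ M} 1/v² ≤ 2/s` for `s ≥ 1` -/
lemma sum_inv_sq_tail (m M : ℕ) (hm : 1 ≤ m) :
    ∑ v ∈ Ioc m M, 1 / (v : ℝ) ^ 2 ≤ 1 / (m : ℝ) := by
  by_cases hmM : m ≤ M
  · have h : ∀ n, m ≤ n → ∑ v ∈ Ioc m n, 1 / (v : ℝ) ^ 2 ≤ 1 / (m : ℝ) - 1 / (n : ℝ) := by
      intro n hn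
      induction n, hn using Nat.le_induction with
      | base => simp
      | succ n hn ih =>
        rw [← Finset.insert_Ioc_right_eq_Ioc_add_one hn, Finset.sum_insert (by simp)]
        have hn0 : (0 : ℝ) < n := by
          have : 1 ≤ n := hm.trans hn
          exact_mod_cast this
        have h1 : 1 / ((n + 1 : ℕ) : ℝ) ^ 2 ≤ 1 / (n : ℝ) - 1 / ((n + 1 : ℕ) : ℝ) := by
          push_cast
          rw [div_sub_div _ _ hn0.ne' (by positivity), div_le_div_iff₀ (by positivity) (by positivity)]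
          nlinarith
        linarith
    have h1 := h M hmM
    have h2 : (0 : ℝ) ≤ 1 / M := by positivity
    linarith
  · rw [Finset.Ioc_eq_empty (by omega), Finset.sum_empty]
    positivity

theorem t_WA : S_WA := by
  intro a b ha hb M
  obtain ⟨s, hs⟩ : ∃ s, s = √(a / b) := ⟨_, rfl⟩
  have hs0 : 0 < s := by rw [hs]; positivity
  have hs2 : s ^ 2 = a / b := by rw [hs]; exact Real.sq_sqrt (by positivity)
  have hab : √(a * b) = s * b := by
    rw [show a * b = (s * b) ^ 2 by rw [mul_pow, hs2]; field_simp]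
    exact Real.sqrt_sq (by positivity)
  have has : a = s ^ 2 * b := by rw [hs2]; field_simp
  rw [hab]
  obtain ⟨m, hm⟩ : ∃ m, m = ⌊s⌋₊ := ⟨_, rfl⟩
  have hms : (m : ℝ) ≤ s := by rw [hm]; exact Nat.floor_le hs0.le
  have hsm : s < m + 1 := by rw [hm]; exact Nat.lt_floor_add_one s
  by_cases h1 : 1 ≤ m
  · -- s ≥ 1
    have hm0 : (1 : ℝ) ≤ m := by exact_mod_cast h1
    have h2 : ∑ v ∈ Icc 1 M, min (a / (v : ℝ) ^ 2) b ≤
        ∑ v ∈ Icc 1 m, b + ∑ v ∈ Ioc m M, a / (v : ℝ) ^ 2 := by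
      have h3 : Icc 1 M ⊆ Icc 1 m ∪ Ioc m M := by
        intro v hv
        rw [Finset.mem_Icc] at hv
        rw [Finset.mem_union, Finset.mem_Icc, Finset.mem_Ioc]
        omega
      calc _ ≤ ∑ v ∈ Icc 1 m ∪ Ioc m M, min (a / (v : ℝ) ^ 2) b :=
            Finset.sum_le_sum_of_subset_of_nonneg h3 fun v _ _ => by positivity
        _ ≤ ∑ v ∈ Icc 1 m, min (a / (v : ℝ) ^ 2) b + ∑ v ∈ Ioc m M, min (a / (v : ℝ) ^ 2) b := by
            rw [← Finset.sum_union_inter]
            have : 0 ≤ ∑ v ∈ Icc 1 m ∩ Ioc m M, min (a / (v : ℝ) ^ 2) b :=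
              Finset.sum_nonneg fun v _ => by positivity
            linarith
        _ ≤ _ := add_le_add (Finset.sum_le_sum fun v _ => min_le_right _ _)
              (Finset.sum_le_sum fun v _ => min_le_left _ _)
    have h3 : ∑ v ∈ Ioc m M, a / (v : ℝ) ^ 2 = a * ∑ v ∈ Ioc m M, 1 / (v : ℝ) ^ 2 := by
      rw [Finset.mul_sum]
      exact Finset.sum_congr rfl fun v _ => by ring
    have h4 := sum_inv_sq_tail m M h1
    rw [Finset.sum_const, Nat.card_Icc, Nat.add_sub_cancel, nsmul_eq_mul] at h2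
    have h5 : a * ∑ v ∈ Ioc m M, 1 / (v : ℝ) ^ 2 ≤ a * (1 / m) :=
      mul_le_mul_of_nonneg_left h4 ha.le
    have h6 : a * (1 / (m : ℝ)) ≤ 2 * (s * b) := by
      rw [has, mul_one_div, div_le_iff₀ (by linarith)]
      have : s ≤ 2 * m := by linarith
      nlinarith [mul_pos hs0 hb, mul_le_mul_of_nonneg_left this (mul_pos hs0 hb).le]
    have h7 : (m : ℝ) * b ≤ s * b := mul_le_mul_of_nonneg_right hms hb.le
    have h8 : 0 < s * b := by positivity
    linarith
  · -- s < 1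
    have hm0 : m = 0 := by omega
    rw [hm0] at hsm
    have hs1 : s < 1 := by simpa using hsm
    have h2 : ∑ v ∈ Icc 1 M, min (a / (v : ℝ) ^ 2) b ≤ a * ∑ v ∈ Icc 1 M, 1 / (v : ℝ) ^ 2 := by
      rw [Finset.mul_sum]
      refine Finset.sum_le_sum fun v _ => (min_le_left _ _).trans (le_of_eq (by ring))
    have h3 : ∑ v ∈ Icc 1 M, 1 / (v : ℝ) ^ 2 ≤ 2 := by
      have h4 : Icc 1 M ⊆ insert 1 (Ioc 1 M) := by
        intro v hv
        rw [Finset.mem_Icc] at hv
        rw [Finset.mem_insert, Finset.mem_Ioc]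
        omega
      calc _ ≤ ∑ v ∈ insert 1 (Ioc 1 M), 1 / (v : ℝ) ^ 2 :=
            Finset.sum_le_sum_of_subset_of_nonneg h4 fun v _ _ => by positivity
        _ = 1 + ∑ v ∈ Ioc 1 M, 1 / (v : ℝ) ^ 2 := by
            rw [Finset.sum_insert (by simp)]
            norm_num
        _ ≤ 1 + 1 / (1 : ℕ) := add_le_add le_rfl (sum_inv_sq_tail 1 M le_rfl)
        _ = 2 := by norm_num
    have h5 : a ≤ s * b := by
      rw [has]
      nlinarith [mul_pos hs0 hb]
    have h8 : 0 < s * b := by positivity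
    calc _ ≤ a * 2 := h2.trans (mul_le_mul_of_nonneg_left h3 ha.le)
      _ ≤ 4 * (s * b) := by linarith

lemma sqrt_sub_le {a b : ℝ} (h : a ≤ b) : √b - √a ≤ √(b - a) := by
  rcases le_or_gt 0 a with ha | ha
  · have h1 : √b ≤ √a + √(b - a) := by
      rw [Real.sqrt_le_left (by positivity)]
      nlinarith [Real.sq_sqrt ha, Real.sq_sqrt (show 0 ≤ b - a by linarith), Real.sqrt_nonneg a,
        Real.sqrt_nonneg (b - a), mul_nonneg (Real.sqrt_nonneg a) (Real.sqrt_nonneg (b - a))]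
    linarith
  · rw [Real.sqrt_eq_zero_of_nonpos ha.le, sub_zero]
    exact Real.sqrt_le_sqrt (by linarith)

theorem t_WL : S_WL := by
  intro a X ha hX v hv
  have hv0 : (0 : ℝ) < v := by exact_mod_cast hv
  have hsa : 0 < √a := Real.sqrt_pos.2 ha
  have hc : 0 < X * (v : ℝ) ^ 2 := by positivity
  refine ⟨⟨?_, ?_, ?_⟩, ?_⟩
  · unfold LL
    have := Real.sqrt_le_sqrt (show a - X * (v : ℝ) ^ 2 ≤ a by linarith)
    linarith
  · unfold LL
    have := Real.sqrt_nonneg (a - X * (v : ℝ) ^ 2)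
    linarith
  · unfold LL
    rw [le_div_iff₀ hsa]
    rcases le_or_gt (X * (v : ℝ) ^ 2) a with h | h
    · have h1 : √(a - X * (v : ℝ) ^ 2) * √(a - X * (v : ℝ) ^ 2) = a - X * (v : ℝ) ^ 2 :=
        Real.mul_self_sqrt (by linarith)
      have h2 : √a * √a = a := Real.mul_self_sqrt ha.le
      have h3 : √(a - X * (v : ℝ) ^ 2) ≤ √a := Real.sqrt_le_sqrt (by linarith)
      have h4 := Real.sqrt_nonneg (a - X * (v : ℝ) ^ 2)
      nlinarith
    · have h0 : √(a - X * (v : ℝ) ^ 2) = 0 := Real.sqrt_eq_zero_of_nonpos (by linarith)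
      rw [h0, sub_zero, Real.mul_self_sqrt ha.le]
      exact h.le
  · intro a' haa
    unfold LL
    have h1 := sqrt_sub_le haa
    have h2 := sqrt_sub_le (show a - X * (v : ℝ) ^ 2 ≤ a' - X * (v : ℝ) ^ 2 by linarith)
    have h3 : a' - X * (v : ℝ) ^ 2 - (a - X * (v : ℝ) ^ 2) = a' - a := by ring
    rw [h3] at h2
    have h4 := Real.sqrt_le_sqrt haa
    have h5 := Real.sqrt_le_sqrt (show a - X * (v : ℝ) ^ 2 ≤ a' - X * (v : ℝ) ^ 2 by linarith)
    have h6 := Real.sqrt_nonneg (a' - a)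
    rw [abs_le]
    constructor <;> linarith

end Pool.Agent.T2h80.CL
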