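import Pool.Agent.T2h80.CL.Stm

set_option autoImplicit false

/-!
# Task WC: the Riemann sum
-/

namespace Pool.Agent.T2h80.CL.WCm

open Finset Real

noncomputable def phi (s : ℝ) : ℝ := (1 - √(1 - s ^ 2)) / s ^ 2
noncomputable def G (s : ℝ) : ℝ := Real.arcsin s - (1 - √(1 - s ^ 2)) / s
noncomputable def W (s : ℝ) : ℝ := if s ≤ 1 then phi s else 2 - phi s

lemma phi_le {s : ℝ} (h0 : 0 < s) (h1 : s ≤ 1) : phi s = 1 / (1 + √(1 - s ^ 2)) := by
  unfold phi
  have h2 : 0 ≤ 1 - s ^ 2 := by nlinarith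
  have h3 := Real.sq_sqrt h2
  have h4 := Real.sqrt_nonneg (1 - s ^ 2)
  rw [div_eq_div_iff (by positivity) (by positivity)]
  nlinarith

lemma sqrt_ge {s : ℝ} (h : 1 ≤ s) : √(1 - s ^ 2) = 0 :=
  Real.sqrt_eq_zero_of_nonpos (by nlinarith)

lemma phi_ge {s : ℝ} (h : 1 ≤ s) : phi s = 1 / s ^ 2 := by
  unfold phi; rw [sqrt_ge h, sub_zero]

lemma G_ge {s : ℝ} (h : 1 ≤ s) : G s = π / 2 - 1 / s := by
  unfold G; rw [sqrt_ge h, sub_zero, Real.arcsin_of_one_le h]

lemma phi_mono {s t : ℝ} (h0 : 0 < s) (h : s ≤ t) (h1 : t ≤ 1) : phi s ≤ phi t := by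
  rw [phi_le h0 (h.trans h1), phi_le (h0.trans_le h) h1]
  have h4 : √(1 - t ^ 2) ≤ √(1 - s ^ 2) := Real.sqrt_le_sqrt (by nlinarith)
  have h5 := Real.sqrt_nonneg (1 - t ^ 2)
  exact one_div_le_one_div_of_le (by positivity) (by linarith)

lemma phi_anti {s t : ℝ} (h0 : 1 ≤ s) (h : s ≤ t) : phi t ≤ phi s := by
  rw [phi_ge h0, phi_ge (h0.trans h)]
  have : 0 < s := by linarith
  exact one_div_le_one_div_of_le (by positivity) (by nlinarith)

lemma phi_one : phi 1 = 1 := by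
  rw [phi_ge le_rfl]; norm_num

lemma phi_nonneg {s : ℝ} (h0 : 0 < s) : 0 ≤ phi s := by
  unfold phi
  have : √(1 - s ^ 2) ≤ 1 := by
    rw [Real.sqrt_le_one]
    nlinarith
  exact div_nonneg (by linarith) (by positivity)

lemma phi_le_one {s : ℝ} (h0 : 0 < s) : phi s ≤ 1 := by
  rcases le_total s 1 with h | h
  · rw [← phi_one]; exact phi_mono h0 h le_rfl
  · rw [← phi_one]; exact phi_anti le_rfl h

lemma W_le {s : ℝ} (h : s ≤ 1) : W s = phi s := by unfold W; rw [if_pos h]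

lemma W_ge {s : ℝ} (h : 1 ≤ s) : W s = 2 - phi s := by
  unfold W
  rcases h.eq_or_lt with h | h
  · subst h; rw [if_pos le_rfl, phi_one]; norm_num
  · rw [if_neg (not_le.mpr h)]

lemma W_mem {s : ℝ} (h0 : 0 < s) : 0 ≤ W s ∧ W s ≤ 2 := by
  have h1 := phi_nonneg h0
  have h2 := phi_le_one h0
  rcases le_total s 1 with h | h
  · rw [W_le h]; constructor <;> linarith
  · rw [W_ge h]; constructor <;> linarith

lemma G_deriv {x : ℝ} (h0 : 0 < x) (h1 : x < 1) : HasDerivAt G (phi x) x := by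
  have h2 : 0 < 1 - x ^ 2 := by nlinarith
  have hs : 0 < √(1 - x ^ 2) := Real.sqrt_pos.mpr h2
  have h3 := Real.sq_sqrt h2.le
  have d1 : HasDerivAt Real.arcsin (1 / √(1 - x ^ 2)) x :=
    Real.hasDerivAt_arcsin (by linarith) (by linarith)
  have d2 : HasDerivAt (fun x : ℝ => 1 - x ^ 2) (-(2 * x)) x := by
    have := (hasDerivAt_pow 2 x).const_sub 1
    simpa using this
  have d3 : HasDerivAt (fun x : ℝ => √(1 - x ^ 2)) (-(2 * x) / (2 * √(1 - x ^ 2))) x :=
    d2.sqrt h2.ne'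
  have d4 : HasDerivAt (fun x : ℝ => 1 - √(1 - x ^ 2)) (-(-(2 * x) / (2 * √(1 - x ^ 2)))) x :=
    d3.const_sub 1
  have d5 := d4.div (hasDerivAt_id x) h0.ne'
  have d6 := d1.sub d5
  refine d6.congr_deriv ?_
  unfold phi
  simp only [id]
  set r := √(1 - x ^ 2) with hr
  field_simp
  nlinarith

lemma G_cont {s t : ℝ} (h0 : 0 < s) : ContinuousOn G (Set.Icc s t) := by
  unfold G
  apply ContinuousOn.sub
  · exact Real.continuous_arcsin.continuousOn
  · apply ContinuousOn.div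
    · exact (continuous_const.sub (continuous_const.sub (continuous_pow 2)).sqrt).continuousOn
    · exact continuousOn_id
    · intro x hx
      exact (h0.trans_le hx.1).ne'

lemma key_lo {s t : ℝ} (h0 : 0 < s) (h : s ≤ t) (h1 : t ≤ 1) :
    |(t - s) * phi s - (G t - G s)| ≤ (t - s) * (W t - W s) := by
  rcases h.eq_or_lt with h | h
  · subst h; simp
  obtain ⟨ξ, hξ, hd⟩ := exists_hasDerivAt_eq_slope G phi h (G_cont h0)
    (fun x hx => G_deriv (h0.trans hx.1) (hx.2.trans_le h1))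
  have hts : 0 < t - s := by linarith
  have e : G t - G s = (t - s) * phi ξ := by
    rw [hd]; field_simp
  have a1 := phi_mono h0 hξ.1.le (hξ.2.le.trans h1)
  have a2 := phi_mono (h0.trans hξ.1) hξ.2.le h1
  rw [e, ← mul_sub, abs_mul, abs_of_pos hts, W_le h1, W_le (h.le.trans h1)]
  apply mul_le_mul_of_nonneg_left _ hts.le
  rw [abs_le]; constructor <;> linarith

lemma key_hi {s t : ℝ} (h0 : 1 ≤ s) (h : s ≤ t) :
    |(t - s) * phi s - (G t - G s)| ≤ (t - s) * (W t - W s) := by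
  have hts : 0 ≤ t - s := by linarith
  have hs : 0 < s := by linarith
  have ht : 0 < t := by linarith
  have e : G t - G s = (t - s) * (1 / (s * t)) := by
    rw [G_ge h0, G_ge (h0.trans h)]
    field_simp
    ring
  rw [e, ← mul_sub, abs_mul, abs_of_nonneg hts, W_ge h0, W_ge (h0.trans h)]
  apply mul_le_mul_of_nonneg_left _ hts
  rw [phi_ge h0, phi_ge (h0.trans h)]
  have a1 : 1 / t ^ 2 ≤ 1 / (s * t) :=
    one_div_le_one_div_of_le (by positivity) (by nlinarith)
  have a2 : 1 / (s * t) ≤ 1 / s ^ 2 :=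
    one_div_le_one_div_of_le (by positivity) (by nlinarith)
  rw [abs_le]; constructor <;> linarith

lemma key {s t : ℝ} (h0 : 0 < s) (h : s ≤ t) :
    |(t - s) * phi s - (G t - G s)| ≤ (t - s) * (W t - W s) := by
  rcases le_total t 1 with h1 | h1
  · exact key_lo h0 h h1
  rcases le_total 1 s with h2 | h2
  · exact key_hi h2 h
  have a1 := key_lo h0 h2 le_rfl
  have a2 := key_hi le_rfl h1
  have a3 : phi s ≤ phi 1 := phi_mono h0 h2 le_rfl
  have e1 : W 1 = phi 1 := W_le le_rfl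
  have e2 : W s = phi s := W_le h2
  have e3 : W t = 2 - phi t := W_ge h1
  have a4 : phi t ≤ phi 1 := phi_anti le_rfl h1
  rw [phi_one] at a3 a4 e1 a2
  rw [abs_le] at a1 a2 ⊢
  rw [e1, e2] at a1
  rw [e1, e3] at a2
  rw [e2, e3]
  have b1 : (t - 1) * (1 - phi s) ≥ 0 := mul_nonneg (by linarith) (by linarith)
  have b2 : (1 - s) * (1 - phi t) ≥ 0 := mul_nonneg (by linarith) (by linarith)
  constructor <;> nlinarith

lemma tele {h : ℝ} (hh : 0 < h) (M : ℕ) :
    |∑ v ∈ Icc 1 M, h * phi (v * h) - (G ((M + 1) * h) - G h)| ≤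
      h * (W ((M + 1) * h) - W h) := by
  induction M with
  | zero => simp
  | succ n ih =>
    rw [Finset.sum_Icc_succ_top (by omega)]
    have k := @key (((n + 1 : ℕ) : ℝ) * h) (((n + 1 : ℕ) + 1 : ℝ) * h) (by positivity)
      (by nlinarith)
    have e1 : (((n + 1 : ℕ) + 1 : ℝ) * h) - (((n + 1 : ℕ) : ℝ) * h) = h := by ring
    rw [e1] at k
    push_cast at k ih ⊢
    rw [abs_le] at k ih ⊢
    constructor <;> nlinarith

lemma G_small {h : ℝ} (h0 : 0 < h) (h1 : h ≤ 1) : 0 ≤ G h ∧ G h ≤ 2 * h := by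
  have h2 : 0 ≤ 1 - h ^ 2 := by nlinarith
  have e : (1 - √(1 - h ^ 2)) / h = h * phi h := by
    unfold phi; field_simp
  unfold G
  rw [e]
  have a1 := phi_nonneg h0
  have a2 := phi_le_one h0
  have a3 : h ≤ Real.arcsin h := by
    have : Real.sin (Real.arcsin h) ≤ Real.arcsin h :=
      Real.sin_le (by exact Real.arcsin_nonneg.mpr h0.le)
    rwa [Real.sin_arcsin (by linarith) h1] at this
  have a4 : Real.arcsin h ≤ 2 * h := by
    have h5 : 0 ≤ Real.arcsin h := Real.arcsin_nonneg.mpr h0.le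
    have h6 : Real.arcsin h ≤ π / 2 := Real.arcsin_le_pi_div_two h
    have h7 := Real.mul_le_sin h5 h6
    rw [Real.sin_arcsin (by linarith) h1] at h7
    have h8 := Real.pi_le_four
    have h9 := Real.pi_pos
    have : 2 / π ≥ 1 / 2 := by
      rw [ge_iff_le, div_le_div_iff₀ (by norm_num) h9]
      linarith
    nlinarith
  constructor
  · nlinarith
  · nlinarith

end Pool.Agent.T2h80.CL.WCm

namespace Pool.Agent.T2h80.CL

open Finset Real WCm

theorem t_WC : S_WC := by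
  intro ε hε
  refine ⟨min ((ε / 7) ^ 2) (1 / 4), by positivity, ?_⟩
  intro a X K ha hX hK hXa hKX
  set c : ℝ := min ((ε / 7) ^ 2) (1 / 4) with hc
  have hcpos : 0 < c := by positivity
  have hsc : √c ≤ ε / 7 := by
    rw [Real.sqrt_le_left (by positivity)]
    exact min_le_left _ _
  have hsc1 : √c ≤ 1 := by
    rw [Real.sqrt_le_left (by positivity)]
    exact (min_le_right _ _).trans (by norm_num)
  set h : ℝ := √(X / a) with hh
  have hhpos : 0 < h := Real.sqrt_pos.mpr (by positivity)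
  have hhc : h ≤ √c := Real.sqrt_le_sqrt (by rw [div_le_iff₀ ha]; exact hXa)
  have hh1 : h ≤ 1 := hhc.trans hsc1
  have hsq : h ^ 2 = X / a := Real.sq_sqrt (by positivity)
  set M := ⌊√(a / K)⌋₊ with hM
  have e1 : ∀ v ∈ Icc 1 M, LL a X v / (v : ℝ) ^ 2 = √X * (h * phi (v * h)) := by
    intro v hv
    have hv1 : (0 : ℝ) < v := by
      have := (mem_Icc.mp hv).1
      exact_mod_cast this
    unfold LL phi
    have q1 : a - X * (v : ℝ) ^ 2 = a * (1 - (v * h) ^ 2) := by
      rw [mul_pow, hsq]; field_simp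
    have q2 : √X = √a * h := by
      rw [hh, ← Real.sqrt_mul ha.le]
      congr 1; field_simp
    rw [q1, Real.sqrt_mul ha.le, q2]
    field_simp
  rw [Finset.sum_congr rfl e1, ← Finset.mul_sum, mul_comm (π / 2), ← mul_sub, abs_mul,
    abs_of_nonneg (Real.sqrt_nonneg X), mul_comm ε]
  apply mul_le_mul_of_nonneg_left _ (Real.sqrt_nonneg X)
  have t1 := tele hhpos M
  have t2 := G_small hhpos hh1
  have t3 : 1 / √c ≤ (M + 1) * h := by
    have u1 : √(a / K) ≤ M + 1 := (Nat.lt_floor_add_one _).le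
    have u2 : √(a / K) * h ≤ (M + 1) * h := mul_le_mul_of_nonneg_right u1 hhpos.le
    refine le_trans ?_ u2
    rw [hh, ← Real.sqrt_mul (by positivity)]
    rw [show (1 : ℝ) / √c = √(1 / c) by rw [Real.sqrt_div (by norm_num), Real.sqrt_one]]
    apply Real.sqrt_le_sqrt
    have : a / K * (X / a) = X / K := by field_simp
    rw [this, div_le_div_iff₀ hcpos hK]
    linarith
  have hscpos : 0 < √c := Real.sqrt_pos.mpr hcpos
  have t4 : 1 ≤ (M + 1) * h := by
    refine le_trans ?_ t3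
    rw [le_div_iff₀ hscpos]; linarith
  have t5 : G ((M + 1) * h) = π / 2 - 1 / ((M + 1) * h) := G_ge t4
  have t6 : 1 / ((M + 1) * h) ≤ √c := by
    rw [div_le_iff₀ (by positivity)]
    rw [div_le_iff₀ hscpos] at t3
    linarith
  have t7 : 0 < 1 / (((M : ℝ) + 1) * h) := by positivity
  have w1 := W_mem hhpos
  have w2 := @W_mem (((M : ℝ) + 1) * h) (by positivity)
  have t8 : h * (W ((M + 1) * h) - W h) ≤ 2 * h := by nlinarith
  rw [t5] at t1
  rw [abs_le] at t1 ⊢
  constructor <;> linarith [t1.1, t1.2, t2.1, t2.2]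

end Pool.Agent.T2h80.CL
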