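import Pool.Agent.T2h80.CL.BA
import Pool.Agent.T2h80.CL.FIN
import Pool.Agent.T2h80.CL.ID
import Pool.Agent.T2h80.CL.IDE
import Pool.Agent.T2h80.CL.IDR
import Pool.Agent.T2h80.CL.LOC
import Pool.Agent.T2h80.CL.NS
import Pool.Agent.T2h80.CL.PR
import Pool.Agent.T2h80.CL.QM
import Pool.Agent.T2h80.CL.FD
import Pool.Agent.T2h80.CL.SV
import Pool.Agent.T2h80.CL.CNT
import Pool.Agent.T2h80.CL.U
import Pool.Agent.T2h80.CL.U1
import Pool.Agent.T2h80.CL.VA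
import Pool.Agent.T2h80.CL.WA
import Pool.Agent.T2h80.CL.WC

set_option autoImplicit false

namespace Pool.Agent.T2h80.CL

theorem asm0 (hU2 : S_U2) (hBU : S_BU) : S_FIN := by
  have hCNT := t_CNT t_LOC
  have hPR := t_PR t_NS (t_QM t_NS)
  have hU := t_U (t_U1 hCNT t_NS t_FD t_WA t_WL) hU2
  have hV := t_V (t_VA hCNT t_NS t_WA t_WL) (t_BA hPR t_WA t_WL t_WC) hBU
  exact t_FIN hV hU (t_SV t_FD) (t_ID t_IDE t_IDF t_IDR t_FD)

end Pool.Agent.T2h80.CL
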