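import Pool.Agent.T2h80.CL.BA0

set_option autoImplicit false

namespace Pool.Agent.T2h80.CL

open Finset

open Classical in
/-- the weight -/
noncomputable def om (a X K : ℝ) (v : ℕ) : ℝ :=
  if K * (v : ℝ) ^ 2 ≤ a then LL a X v / (v : ℝ) ^ 2 else 0

open Classical in
/-- the error weight -/
noncomputable def rh (c η₁ a X K : ℝ) (v : ℕ) : ℝ :=
  if K * (v : ℝ) ^ 2 ≤ c * a then min (η₁ * √a / (v : ℝ) ^ 2) (X / √a) +
    c * min (√a / (v : ℝ) ^ 2) (K / √a) else 0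

theorem min_le_gm {x y : ℝ} (hx : 0 ≤ x) (hy : 0 ≤ y) : min x y ≤ √(x * y) := by
  apply Real.le_sqrt_of_sq_le
  rw [sq]
  exact mul_le_mul (min_le_left _ _) (min_le_right _ _) (le_min hx hy) hx

theorem min_gm {x y : ℝ} (hx : 0 ≤ x) (hy : 0 ≤ y) {v : ℕ} (hv : 1 ≤ v) :
    min (x / (v : ℝ) ^ 2) y ≤ √(x * y) / v := by
  have hv0 : (0 : ℝ) < v := by exact_mod_cast hv
  refine (min_le_gm (by positivity) hy).trans (le_of_eq ?_)
  have : x / (v : ℝ) ^ 2 * y = (x * y) / (v : ℝ) ^ 2 := by ring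
  rw [this, Real.sqrt_div (by positivity), Real.sqrt_sq hv0.le]

theorem om_nonneg {a X K : ℝ} (hX : 0 ≤ X) (v : ℕ) : 0 ≤ om a X K v := by
  unfold om
  split_ifs
  · exact div_nonneg (LL_nonneg _ _ hX _) (by positivity)
  · exact le_rfl

theorem om_le_min (h3 : S_WL) {a X K : ℝ} (ha : 0 < a) (hX : 0 < X) {v : ℕ} (hv : 1 ≤ v) :
    om a X K v ≤ min (√a / (v : ℝ) ^ 2) (X / √a) := by
  have hv0 : (0 : ℝ) < v := by exact_mod_cast hv
  have hsa : 0 < √a := Real.sqrt_pos.mpr ha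
  unfold om
  split_ifs
  · obtain ⟨⟨-, h1, h2⟩, -⟩ := h3 a X ha hX v hv
    apply le_min
    · gcongr
    · rw [div_le_iff₀ (by positivity)]
      refine h2.trans (le_of_eq ?_)
      ring
  · exact le_min (by positivity) (by positivity)

theorem rh_nonneg {c η₁ a X K : ℝ} (hc : 0 ≤ c) (hη : 0 ≤ η₁) (hX : 0 ≤ X) (hK : 0 ≤ K)
    (v : ℕ) : 0 ≤ rh c η₁ a X K v := by
  unfold rh
  split_ifs
  · have := Real.sqrt_nonneg a
    apply add_nonneg
    · exact le_min (by positivity) (by positivity)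
    · exact mul_nonneg hc (le_min (by positivity) (by positivity))
  · exact le_rfl

theorem rh_le_min {c η₁ a X K : ℝ} (hc : 0 ≤ c) (hη : 0 ≤ η₁) (hX : 0 ≤ X) (hK : 0 ≤ K)
    (v : ℕ) : rh c η₁ a X K v ≤ min (η₁ * √a / (v : ℝ) ^ 2) (X / √a) +
      c * min (√a / (v : ℝ) ^ 2) (K / √a) := by
  unfold rh
  split_ifs
  · exact le_rfl
  · have := Real.sqrt_nonneg a
    apply add_nonneg
    · exact le_min (by positivity) (by positivity)
    · exact mul_nonneg hc (le_min (by positivity) (by positivity))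

theorem diff_bound (h3 : S_WL) {c a a' X K η₁ : ℝ} (ha : 0 < a) (haa : a ≤ a') (hc : 1 ≤ c)
    (ha' : a' ≤ c * a) (hη : 2 * √(a' - a) ≤ η₁ * √a) (hX : 0 < X) (hK : 0 < K) {v : ℕ}
    (hv : 1 ≤ v) : |om a' X K v - om a X K v| ≤ rh c η₁ a X K v := by
  have hv0 : (0 : ℝ) < v := by exact_mod_cast hv
  have hsa : 0 < √a := Real.sqrt_pos.mpr ha
  have ha'0 : 0 < a' := lt_of_lt_of_le ha haa
  have hη0 : 0 ≤ η₁ := by
    by_contra hcon
    rw [not_le] at hcon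
    have h1 : η₁ * √a < 0 := mul_neg_of_neg_of_pos hcon hsa
    have h2 := Real.sqrt_nonneg (a' - a)
    linarith
  obtain ⟨⟨p1, p2, p3⟩, p4⟩ := h3 a X ha hX v hv
  obtain ⟨⟨q1, q2, q3⟩, -⟩ := h3 a' X ha'0 hX v hv
  have p4' := p4 a' haa
  have hss : √a ≤ √a' := Real.sqrt_le_sqrt haa
  by_cases h1 : K * (v : ℝ) ^ 2 ≤ a
  · have h2 : K * (v : ℝ) ^ 2 ≤ a' := h1.trans haa
    have h4 : K * (v : ℝ) ^ 2 ≤ c * a := h1.trans (by nlinarith)
    unfold om rh
    rw [if_pos h1, if_pos h2, if_pos h4, ← sub_div, abs_div, abs_of_nonneg (by positivity : (0:ℝ) ≤ (v:ℝ)^2)]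
    have e1 : |LL a' X v - LL a X v| / (v : ℝ) ^ 2 ≤ min (η₁ * √a / (v : ℝ) ^ 2) (X / √a) := by
      apply le_min
      · apply div_le_div_of_nonneg_right _ (by positivity)
        exact p4'.trans hη
      · rw [div_le_iff₀ (by positivity)]
        have q3' : LL a' X v ≤ X * (v : ℝ) ^ 2 / √a := by
          refine q3.trans ?_
          gcongr
        have e2 : X / √a * (v : ℝ) ^ 2 = X * (v : ℝ) ^ 2 / √a := by ring
        rw [e2, abs_le]
        constructor <;> linarith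
    have e2 : 0 ≤ c * min (√a / (v : ℝ) ^ 2) (K / √a) :=
      mul_nonneg (by linarith) (le_min (by positivity) (by positivity))
    linarith
  · by_cases h2 : K * (v : ℝ) ^ 2 ≤ a'
    · have h4 : K * (v : ℝ) ^ 2 ≤ c * a := h2.trans ha'
      unfold om rh
      rw [if_neg h1, if_pos h2, if_pos h4, sub_zero, abs_of_nonneg (div_nonneg q1 (by positivity))]
      rw [not_le] at h1
      have e1 : 0 ≤ min (η₁ * √a / (v : ℝ) ^ 2) (X / √a) := le_min (by positivity) (by positivity)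
      have e2 : LL a' X v / (v : ℝ) ^ 2 ≤ c * min (√a / (v : ℝ) ^ 2) (K / √a) := by
        have e3 : min (√a / (v : ℝ) ^ 2) (K / √a) = √a / (v : ℝ) ^ 2 := by
          apply min_eq_left
          rw [div_le_div_iff₀ (by positivity) hsa, Real.mul_self_sqrt ha.le]
          exact h1.le
        rw [e3, mul_div_assoc']
        apply div_le_div_of_nonneg_right _ (by positivity)
        calc LL a' X v ≤ √a' := q2
          _ ≤ √(c ^ 2 * a) := by
              apply Real.sqrt_le_sqrt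
              nlinarith
          _ = c * √a := by
              rw [Real.sqrt_mul (by positivity), Real.sqrt_sq (by linarith)]
      linarith
    · have e0 : om a' X K v - om a X K v = 0 := by
        unfold om; rw [if_neg h1, if_neg h2, sub_zero]
      rw [e0, abs_zero]
      exact rh_nonneg (by linarith) hη0 hX.le hK.le v

theorem sum_om_le (h2 : S_WA) (h3 : S_WL) {a X K : ℝ} (ha : 0 < a) (hX : 0 < X) (V : ℕ) :
    ∑ v ∈ Icc 1 V, om a X K v ≤ 4 * √X := by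
  have hsa : 0 < √a := Real.sqrt_pos.mpr ha
  calc ∑ v ∈ Icc 1 V, om a X K v ≤ ∑ v ∈ Icc 1 V, min (√a / (v : ℝ) ^ 2) (X / √a) := by
        apply sum_le_sum
        intro v hv
        exact om_le_min h3 ha hX (mem_Icc.mp hv).1
    _ ≤ 4 * √(√a * (X / √a)) := h2 _ _ hsa (by positivity) V
    _ = 4 * √X := by rw [mul_div_cancel₀ _ hsa.ne']

theorem sum_rh_le (h2 : S_WA) {c η₁ a X K : ℝ} (hc : 0 ≤ c) (hη : 0 < η₁) (ha : 0 < a)
    (hX : 0 < X) (hK : 0 < K) (V : ℕ) :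
    ∑ v ∈ Icc 1 V, rh c η₁ a X K v ≤ 4 * (√η₁ * √X) + c * (4 * √K) := by
  have hsa : 0 < √a := Real.sqrt_pos.mpr ha
  calc ∑ v ∈ Icc 1 V, rh c η₁ a X K v ≤ ∑ v ∈ Icc 1 V, (min (η₁ * √a / (v : ℝ) ^ 2) (X / √a) +
      c * min (√a / (v : ℝ) ^ 2) (K / √a)) := by
        apply sum_le_sum
        intro v hv
        exact rh_le_min hc hη.le hX.le hK.le v
    _ = ∑ v ∈ Icc 1 V, min (η₁ * √a / (v : ℝ) ^ 2) (X / √a) +
        c * ∑ v ∈ Icc 1 V, min (√a / (v : ℝ) ^ 2) (K / √a) := by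
        rw [sum_add_distrib, mul_sum]
    _ ≤ 4 * √((η₁ * √a) * (X / √a)) + c * (4 * √(√a * (K / √a))) := by
        have e1 := h2 (η₁ * √a) (X / √a) (by positivity) (by positivity) V
        have e2 := h2 (√a) (K / √a) hsa (by positivity) V
        gcongr
    _ = 4 * (√η₁ * √X) + c * (4 * √K) := by
        rw [mul_div_cancel₀ _ hsa.ne', mul_assoc, mul_div_cancel₀ _ hsa.ne',
          Real.sqrt_mul hη.le]

theorem one_add_pow_le {η : ℝ} (h0 : 0 ≤ η) (h1 : η ≤ 1) (l : ℕ) :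
    (1 + η) ^ l ≤ 1 + (2 ^ l - 1) * η := by
  induction l with
  | zero => simp
  | succ l ih =>
    have h2 : (1 : ℝ) ≤ 2 ^ l := one_le_pow₀ (by norm_num)
    calc (1 + η) ^ (l + 1) = (1 + η) ^ l * (1 + η) := pow_succ _ _
      _ ≤ (1 + (2 ^ l - 1) * η) * (1 + η) := by gcongr
      _ ≤ 1 + (2 ^ (l + 1) - 1) * η := by
          rw [pow_succ]
          have h3 : 0 ≤ (2 ^ l - 1) * η * (1 - η) :=
            mul_nonneg (mul_nonneg (by linarith) h0) (by linarith)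
          nlinarith

open Classical in
theorem block_eq {V Q N : ℕ} {κ φ : ℕ → ℝ} {P P' : ℝ} (hP : 2 ≤ P) (hPP : P ≤ P')
    (hN : ⌊P'⌋₊ ≤ N) : Ps V Q κ φ P' - Ps V Q κ φ P =
      ∑ p ∈ (Icc 1 N).filter (fun p : ℕ => p.Prime ∧ p ≠ 2 ∧ P < (p : ℝ) ∧ (p : ℝ) ≤ P'),
        Real.log p * Ph V Q κ φ p := by
  classical
  rw [sub_eq_iff_eq_add, add_comm]
  unfold Ps
  rw [← sum_union]
  · apply sum_congr _ (fun _ _ => rfl)
    ext p
    simp only [mem_union, mem_filter, mem_Icc]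
    constructor
    · rintro ⟨⟨h1, h2⟩, h3⟩
      by_cases h4 : (p : ℝ) ≤ P
      · exact Or.inl ⟨⟨h1, Nat.le_floor h4⟩, h3⟩
      · rw [not_le] at h4
        refine Or.inr ⟨⟨h1, h2.trans hN⟩, h3, ?_, h4, ?_⟩
        · rintro rfl
          norm_num at h4
          linarith
        · exact (Nat.le_floor_iff (by linarith)).mp h2
    · rintro (⟨⟨h1, h2⟩, h3⟩ | ⟨⟨h1, h2⟩, h3, h4, h5, h6⟩)
      · exact ⟨⟨h1, h2.trans (Nat.floor_le_floor hPP)⟩, h3⟩
      · exact ⟨⟨h1, Nat.le_floor h6⟩, h3⟩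
  · rw [disjoint_left]
    intro p hp hp'
    rw [mem_filter, mem_Icc] at hp
    rw [mem_filter] at hp'
    have := (Nat.le_floor_iff (by linarith : (0 : ℝ) ≤ P)).mp hp.1.2
    linarith [hp'.2.2.2.1]

open Classical in
theorem MM_eq (l N : ℕ) (X K : ℝ) (Q : ℕ) (κ : ℕ → ℝ) (P P' : ℝ) : MM l N X K Q κ P P' =
    ∑ p ∈ (Icc 1 N).filter (fun p : ℕ => p.Prime ∧ p ≠ 2 ∧ P < (p : ℝ) ∧ (p : ℝ) ≤ P'),
      Ph (4 * N ^ l) Q κ (om (4 * (p : ℝ) ^ l) X K) p := by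
  unfold MM Ph
  apply sum_congr rfl
  intro p _
  apply sum_congr rfl
  intro e _
  congr 1
  rw [filter_and]
  rw [show (Icc 1 (4 * N ^ l)).filter (fun v : ℕ => K * (v : ℝ) ^ 2 ≤ 4 * (p : ℝ) ^ l) ∩
      (Icc 1 (4 * N ^ l)).filter (fun v : ℕ => ¬ p ∣ v * e) =
      ((Icc 1 (4 * N ^ l)).filter (fun v : ℕ => ¬ p ∣ v * e)).filter
        (fun v : ℕ => K * (v : ℝ) ^ 2 ≤ 4 * (p : ℝ) ^ l) by
    ext v; simp only [mem_inter, mem_filter]; tauto]
  rw [sum_filter]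
  apply sum_congr rfl
  intro v _
  unfold om
  split_ifs with h
  · rw [mul_pow]
    rw [mul_div_assoc', div_div]
  · simp

theorem fin_ineq {ε₂ u c U W L m0 lP : ℝ} (hε0 : 0 < ε₂) (hε1 : ε₂ ≤ 1 / 100) (hu : 0 < u)
    (hc0 : 0 ≤ c) (hc : c ≤ 4 * u) (hUT1 : c - 29 * ε₂ * u ≤ U) (hUT2 : U ≤ c + 29 * ε₂ * u)
    (hW1 : W ≤ 15 * ε₂ * u) (hL0 : 0 < L) (hm : 0 ≤ m0) (hupper : lP * m0 ≤ U + W)
    (hlower : U - W ≤ L * m0) (hlP : (1 - ε₂) * L ≤ lP) : |L * m0 - c| ≤ 200 * ε₂ * u := by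
  have e8 : 0 < ε₂ * u := mul_pos hε0 hu
  rw [abs_le]
  constructor
  · linarith
  · have e1 : (1 - ε₂) * (L * m0) ≤ U + W := by
      refine le_trans ?_ hupper
      rw [← mul_assoc]
      exact mul_le_mul_of_nonneg_right hlP hm
    have e2 : (1 - ε₂) * (L * m0) ≤ c + 44 * (ε₂ * u) := by linarith
    have e5 : 0 ≤ L * m0 := mul_nonneg hL0.le hm
    have e4 : 1 ≤ (1 + 2 * ε₂) * (1 - ε₂) := by nlinarith
    have e3 : L * m0 ≤ (1 + 2 * ε₂) * (c + 44 * (ε₂ * u)) := by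
      calc L * m0 = 1 * (L * m0) := (one_mul _).symm
        _ ≤ ((1 + 2 * ε₂) * (1 - ε₂)) * (L * m0) := mul_le_mul_of_nonneg_right e4 e5
        _ = (1 + 2 * ε₂) * ((1 - ε₂) * (L * m0)) := by ring
        _ ≤ _ := mul_le_mul_of_nonneg_left e2 (by linarith)
    have e3' : L * m0 ≤ c + 44 * (ε₂ * u) + 2 * (ε₂ * c) + 88 * (ε₂ * (ε₂ * u)) :=
      e3.trans (le_of_eq (by ring))
    have e6 : ε₂ * c ≤ ε₂ * (4 * u) := mul_le_mul_of_nonneg_left hc hε0.le
    have e7 : ε₂ * (ε₂ * u) ≤ 1 / 100 * (ε₂ * u) := mul_le_mul_of_nonneg_right hε1 e8.le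
    linarith

set_option maxHeartbeats 16000000 in
theorem t_BA (h1 : S_PR) (h2 : S_WA) (h3 : S_WL) (h4 : S_WC) : S_BA := by
  classical
  intro l θ δ hpar ε hε
  have hpar' := hpar
  obtain ⟨hodd, hl, hθ1, hδ0, hpar4⟩ := hpar
  have hl5 : (5 : ℝ) ≤ l := by exact_mod_cast hl
  have hθ : 0 < θ := by
    have : (0 : ℝ) < 1 / (l : ℝ) := by positivity
    linarith
  have hlθ : 1 < (l : ℝ) * θ := by
    rw [div_lt_iff₀ (by linarith)] at hθ1
    linarith
  have hθ13 : θ ≤ 1 / 3 := by nlinarith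
  have hδ8 : δ ≤ 1 / 8 := by nlinarith
  -- constants
  set ε₂ : ℝ := min (ε * θ / 200) (1 / 100) with hε₂
  have hε₂0 : 0 < ε₂ := lt_min (by positivity) (by norm_num)
  have hε₂1 : ε₂ ≤ 1 / 100 := min_le_right _ _
  have hε₂2 : 200 * ε₂ ≤ ε * θ := by
    have : ε₂ ≤ ε * θ / 200 := min_le_left _ _
    linarith
  have hcl1 : (1 : ℝ) ≤ 2 ^ l := one_le_pow₀ (by norm_num)
  set η : ℝ := (ε₂ ^ 2 / 2) ^ 2 / 2 ^ l with hη
  have hη0 : 0 < η := by positivity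
  have hη1 : η ≤ 1 := by
    rw [hη, div_le_one (by positivity)]
    calc (ε₂ ^ 2 / 2) ^ 2 ≤ ((1 / 100) ^ 2 / 2) ^ 2 := by gcongr
      _ ≤ 1 := by norm_num
      _ ≤ 2 ^ l := hcl1
  refine ⟨η, hη0, hη1, ?_⟩
  intro σ₁ hσ₁
  set σ : ℝ := min σ₁ 1 with hσd
  have hσ : 0 < σ := lt_min hσ₁ one_pos
  have hσ1 : σ ≤ 1 := min_le_right _ _
  have hσσ : σ ≤ σ₁ := min_le_left _ _
  obtain ⟨c, hc0, hWC⟩ := h4 ε₂ hε₂0
  obtain ⟨X₁, hX₁⟩ := PRB h1 l θ δ hpar' (η * ε₂) (by positivity) (1 + 2 ^ l) (by positivity) σ hσ hσ1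
  have ev1 : ∀ᶠ X : ℝ in Filter.atTop, (|Real.log σ| + 1) / (ε₂ * θ) ≤ Real.log X :=
    Real.tendsto_log_atTop.eventually_ge_atTop _
  have ev2 : ∀ᶠ X : ℝ in Filter.atTop, 1 / (4 * σ ^ l * c) ≤ X ^ ((l : ℝ) * θ - 1) :=
    (tendsto_rpow_atTop (by linarith)).eventually_ge_atTop _
  have ev3 : ∀ᶠ X : ℝ in Filter.atTop, 1 / c + (2 ^ (l + 2) / ε₂) ^ 2 ≤ X ^ (2 * δ) :=
    (tendsto_rpow_atTop (by positivity)).eventually_ge_atTop _
  have ev4 : ∀ᶠ X : ℝ in Filter.atTop, 3 / σ ≤ X ^ θ :=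
    (tendsto_rpow_atTop hθ).eventually_ge_atTop _
  obtain ⟨X₂, hX₂⟩ := Filter.eventually_atTop.mp ((ev1.and ev2).and (ev3.and ev4))
  refine ⟨max (max X₁ X₂) 3, ?_⟩
  intro X hX κ hκ P hP1' hP2
  have hXa : X₁ ≤ X := (le_max_left _ _).trans ((le_max_left _ _).trans hX)
  have hXb : X₂ ≤ X := (le_max_right _ _).trans ((le_max_left _ _).trans hX)
  have hX3 : 3 ≤ X := (le_max_right _ _).trans hX
  obtain ⟨⟨c1, c2⟩, c3, c4⟩ := hX₂ X hXb
  have hX0 : 0 < X := by linarith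
  have hX1 : 1 ≤ X := by linarith
  have hXθ : 0 < X ^ θ := Real.rpow_pos_of_pos hX0 θ
  have hP1 : σ * X ^ θ ≤ P := le_trans (mul_le_mul_of_nonneg_right hσσ hXθ.le) hP1'
  have hsX : 0 < √X := Real.sqrt_pos.mpr hX0
  have hlogX : 0 < Real.log X := Real.log_pos (by linarith)
  have hP3 : 3 ≤ P := by
    rw [div_le_iff₀ hσ] at c4
    linarith
  have hP0 : 0 < P := by linarith
  set P' : ℝ := (1 + η) * P with hP'
  have hPP' : P ≤ P' := by rw [hP']; linarith only [mul_pos hη0 hP0]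
  have hPX : P ≤ X ^ θ := hPP'.trans hP2
  have hP1'' : σ * X ^ θ ≤ P' := hP1.trans hPP'
  set Q := ⌊X ^ δ⌋₊ with hQ
  set N := ⌊X ^ θ⌋₊ with hN
  set V := 4 * N ^ l with hV
  set K : ℝ := X ^ (1 - 2 * δ) with hK
  have hK0 : 0 < K := Real.rpow_pos_of_pos hX0 _
  have hK1 : 1 ≤ K := Real.one_le_rpow hX1 (by linarith)
  set S : ℝ := ∑ e ∈ Icc 1 Q, κ e / (e : ℝ) ^ 2 with hS
  obtain ⟨hS0, hS2⟩ := sum_inv_sq_le κ hκ Q
  rw [← hS] at hS0 hS2
  set a : ℝ := 4 * P ^ l with ha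
  have ha0 : 0 < a := by positivity
  have hsa : 0 < √a := Real.sqrt_pos.mpr ha0
  set η₁ : ℝ := ε₂ ^ 2 with hη₁
  have hη₁0 : 0 < η₁ := by positivity
  have hη₁1 : η₁ ≤ 1 := by
    calc η₁ ≤ (1 / 100) ^ 2 := by rw [hη₁]; gcongr
      _ ≤ 1 := by norm_num
  -- a is large
  have haX : 4 * σ ^ l * X ^ ((l : ℝ) * θ) ≤ a := by
    rw [ha, mul_assoc]
    apply mul_le_mul_of_nonneg_left _ (by norm_num)
    calc σ ^ l * X ^ ((l : ℝ) * θ) = (σ * X ^ θ) ^ l := by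
          rw [mul_pow, ← Real.rpow_natCast (X ^ θ) l, ← Real.rpow_mul hX0.le, mul_comm θ]
      _ ≤ P ^ l := by gcongr
  have haX' : ∀ R : ℝ, 0 ≤ R → R ≤ X ^ θ → 4 * R ^ l ≤ 4 * X ^ ((l : ℝ) * θ) := by
    intro R hR0 hR
    apply mul_le_mul_of_nonneg_left _ (by norm_num)
    calc R ^ l ≤ (X ^ θ) ^ l := by gcongr
      _ = X ^ ((l : ℝ) * θ) := by
          rw [← Real.rpow_natCast (X ^ θ) l, ← Real.rpow_mul hX0.le, mul_comm θ]
  have hXca : X ≤ c * a := by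
    calc X = c * (4 * σ ^ l * X ^ ((l : ℝ) * θ)) * (1 / (4 * σ ^ l * c) / X ^ ((l : ℝ) * θ - 1)) := by
          rw [Real.rpow_sub hX0, Real.rpow_one]
          have := Real.rpow_pos_of_pos hX0 ((l : ℝ) * θ)
          field_simp
      _ ≤ c * (4 * σ ^ l * X ^ ((l : ℝ) * θ)) * 1 := by
          apply mul_le_mul_of_nonneg_left _ (by positivity)
          rw [div_le_one (Real.rpow_pos_of_pos hX0 _)]
          exact c2
      _ ≤ c * a := by
          rw [mul_one]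
          exact mul_le_mul_of_nonneg_left haX hc0.le
  have hX2δ : X ^ (2 * δ) * K = X := by
    rw [hK, ← Real.rpow_add hX0]; simp
  have hKcX : K ≤ c * X := by
    have h5 : 1 / c ≤ X ^ (2 * δ) := by
      have : 0 ≤ (2 ^ (l + 2) / ε₂) ^ 2 := by positivity
      linarith
    rw [div_le_iff₀ hc0] at h5
    calc K = 1 * K := (one_mul K).symm
      _ ≤ (X ^ (2 * δ) * c) * K := by gcongr
      _ = c * (X ^ (2 * δ) * K) := by ring
      _ = c * X := by rw [hX2δ]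
  have hKsmall : 2 ^ (l + 2) * √K ≤ ε₂ * √X := by
    have h5 : (2 ^ (l + 2) / ε₂) ^ 2 ≤ X ^ (2 * δ) := by
      have : 0 ≤ 1 / c := by positivity
      linarith
    have h6 : 2 ^ (l + 2) * √K = √((2 ^ (l + 2)) ^ 2 * K) := by
      rw [Real.sqrt_mul (by positivity), Real.sqrt_sq (by positivity)]
    have h7 : ε₂ * √X = √(ε₂ ^ 2 * X) := by
      rw [Real.sqrt_mul (by positivity), Real.sqrt_sq (by positivity)]
    rw [h6, h7]
    apply Real.sqrt_le_sqrt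
    rw [div_pow, div_le_iff₀ (by positivity)] at h5
    calc (2 ^ (l + 2)) ^ 2 * K ≤ (X ^ (2 * δ) * ε₂ ^ 2) * K := by gcongr
      _ = ε₂ ^ 2 * (X ^ (2 * δ) * K) := by ring
      _ = ε₂ ^ 2 * X := by rw [hX2δ]
  -- N is at least 2
  have hN2 : 2 ≤ N := by
    apply Nat.le_floor
    push_cast
    have : P ≤ X ^ θ := hPX
    linarith
  have hlP : (2 : ℝ) ^ l * a ≤ 2 ^ l * (4 * X ^ ((l : ℝ) * θ)) :=
    mul_le_mul_of_nonneg_left (haX' P hP0.le hPX) (by positivity)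
  -- the two weights
  have hKX : K ≤ X := by
    rw [hK]
    calc X ^ (1 - 2 * δ) ≤ X ^ (1 : ℝ) := Real.rpow_le_rpow_of_exponent_le hX1 (by linarith)
      _ = X := Real.rpow_one X
  have hom1 : ∀ v : ℕ, 1 ≤ v → 0 ≤ om a X K v ∧ om a X K v ≤ (1 + 2 ^ l) * √X / v := by
    intro v hv
    have hv0 : (0 : ℝ) < v := by exact_mod_cast hv
    refine ⟨om_nonneg hX0.le v, (om_le_min h3 ha0 hX0 hv).trans ?_⟩
    refine (min_gm hsa.le (by positivity) hv).trans ?_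
    rw [mul_div_cancel₀ _ hsa.ne']
    apply div_le_div_of_nonneg_right _ hv0.le
    nlinarith only [hsX, hcl1]
  have hrh1 : ∀ v : ℕ, 1 ≤ v → 0 ≤ rh (2 ^ l) η₁ a X K v ∧
      rh (2 ^ l) η₁ a X K v ≤ (1 + 2 ^ l) * √X / v := by
    intro v hv
    have hv0 : (0 : ℝ) < v := by exact_mod_cast hv
    refine ⟨rh_nonneg (by positivity) hη₁0.le hX0.le hK0.le v, ?_⟩
    refine (rh_le_min (by positivity) hη₁0.le hX0.le hK0.le v).trans ?_
    have e1 : min (η₁ * √a / (v : ℝ) ^ 2) (X / √a) ≤ √X / v := by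
      refine (min_gm (by positivity) (by positivity) hv).trans ?_
      apply div_le_div_of_nonneg_right _ hv0.le
      apply Real.sqrt_le_sqrt
      rw [mul_assoc, mul_div_cancel₀ _ hsa.ne']
      nlinarith only [hη₁1, hX0]
    have e2 : min (√a / (v : ℝ) ^ 2) (K / √a) ≤ √X / v := by
      refine (min_gm hsa.le (by positivity) hv).trans ?_
      apply div_le_div_of_nonneg_right _ hv0.le
      apply Real.sqrt_le_sqrt
      rw [mul_div_cancel₀ _ hsa.ne']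
      exact hKX
    calc min (η₁ * √a / (v : ℝ) ^ 2) (X / √a) + 2 ^ l * min (√a / (v : ℝ) ^ 2) (K / √a) ≤
        √X / v + 2 ^ l * (√X / v) := by gcongr
      _ = _ := by ring
  have homs : ∀ v : ℕ, 2 ^ l * (4 * X ^ ((l : ℝ) * θ)) < K * (v : ℝ) ^ 2 → om a X K v = 0 := by
    intro v hv
    unfold om
    rw [if_neg]
    rw [not_le]
    refine lt_of_le_of_lt ?_ hv
    refine le_trans ?_ hlP
    nlinarith only [hcl1, ha0]
  have hrhs : ∀ v : ℕ, 2 ^ l * (4 * X ^ ((l : ℝ) * θ)) < K * (v : ℝ) ^ 2 →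
      rh (2 ^ l) η₁ a X K v = 0 := by
    intro v hv
    unfold rh
    rw [if_neg]
    rw [not_le]
    exact lt_of_le_of_lt hlP hv
  have f1 := hX₁ X hXa κ hκ P hP1 hPX V (om a X K) hom1 homs
  have f2 := hX₁ X hXa κ hκ P' hP1'' hP2 V (om a X K) hom1 homs
  have f3 := hX₁ X hXa κ hκ P hP1 hPX V (rh (2 ^ l) η₁ a X K) hrh1 hrhs
  have f4 := hX₁ X hXa κ hκ P' hP1'' hP2 V (rh (2 ^ l) η₁ a X K) hrh1 hrhs
  rw [← hQ, ← hS] at f1 f2 f3 f4
  set Fo : ℝ := ∑ v ∈ Icc 1 V, om a X K v with hFo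
  set Fr : ℝ := ∑ v ∈ Icc 1 V, rh (2 ^ l) η₁ a X K v with hFr
  have hFo4 : Fo ≤ 4 * √X := sum_om_le h2 h3 ha0 hX0 V
  have hFo0 : 0 ≤ Fo := sum_nonneg fun v _ => om_nonneg hX0.le v
  have hFr0 : 0 ≤ Fr := sum_nonneg fun v _ => rh_nonneg (by positivity) hη₁0.le hX0.le hK0.le v
  have hFr5 : Fr ≤ 5 * ε₂ * √X := by
    refine (sum_rh_le h2 (by positivity) hη₁0 ha0 hX0 hK0 V).trans ?_
    have e1 : √η₁ = ε₂ := by rw [hη₁, Real.sqrt_sq hε₂0.le]
    rw [e1]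
    have e2 : 2 ^ l * (4 * √K) = 2 ^ (l + 2) * √K := by rw [pow_add]; ring
    rw [e2]
    linarith
  -- the main value of Fo
  have hFoWC : |Fo - Real.pi / 2 * √X| ≤ ε₂ * √X := by
    have hwc := hWC a X K ha0 hX0 hK0 hXca hKcX
    have e1 : Fo = ∑ v ∈ Icc 1 ⌊√(a / K)⌋₊, LL a X v / (v : ℝ) ^ 2 := by
      rw [hFo]
      have e2 : ∀ v : ℕ, v ≤ ⌊√(a / K)⌋₊ ↔ K * (v : ℝ) ^ 2 ≤ a := by
        intro v
        rw [Nat.le_floor_iff (Real.sqrt_nonneg _), Real.le_sqrt (Nat.cast_nonneg _) (by positivity),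
          le_div_iff₀ hK0, mul_comm]
      have e3 : ∀ v : ℕ, K * (v : ℝ) ^ 2 ≤ a → v ≤ V := by
        intro v hv
        have h5 : (v : ℝ) ^ 2 ≤ a := by
          have h51 := sq_nonneg (v : ℝ)
          nlinarith only [h51, hv, hK1]
        have h6 : a ≤ 4 * ((2 * N : ℕ) : ℝ) ^ l := by
          rw [ha]
          apply mul_le_mul_of_nonneg_left _ (by norm_num)
          apply pow_le_pow_left₀ hP0.le
          have h61 := Nat.lt_floor_add_one (X ^ θ)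
          rw [← hN] at h61
          have h62 : (2 : ℝ) ≤ N := by exact_mod_cast hN2
          push_cast
          linarith
        have h7 : v ^ 2 ≤ 4 * (2 * N) ^ l := by exact_mod_cast h5.trans h6
        have h8 : 4 * (2 * N) ^ l ≤ (4 * N ^ l) ^ 2 := by
          rw [mul_pow, mul_pow]
          have h81 : 2 ^ l ≤ N ^ l := Nat.pow_le_pow_left hN2 l
          calc 4 * (2 ^ l * N ^ l) ≤ 4 * (N ^ l * N ^ l) := by gcongr
            _ ≤ 4 ^ 2 * (N ^ l) ^ 2 := by rw [sq (N ^ l)]; omega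
        have h9 : v ^ 2 ≤ V ^ 2 := h7.trans h8
        exact (Nat.pow_le_pow_iff_left two_ne_zero).mp h9
      symm
      rw [← sum_subset (s₁ := Icc 1 ⌊√(a / K)⌋₊) (s₂ := Icc 1 V)]
      · apply sum_congr rfl
        intro v hv
        rw [mem_Icc] at hv
        unfold om
        rw [if_pos ((e2 v).mp hv.2)]
      · intro v hv
        rw [mem_Icc] at hv ⊢
        exact ⟨hv.1, e3 v ((e2 v).mp hv.2)⟩
      · intro v hv hv'
        rw [mem_Icc] at hv hv'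
        unfold om
        rw [if_neg]
        intro hcon
        exact hv' ⟨hv.1, (e2 v).mpr hcon⟩
    rw [e1]
    exact hwc
  -- the block sums
  set Bl := (Icc 1 N).filter (fun p : ℕ => p.Prime ∧ p ≠ 2 ∧ P < (p : ℝ) ∧ (p : ℝ) ≤ P') with hBl
  have hfl : ⌊P'⌋₊ ≤ N := Nat.floor_le_floor hP2
  have hUo := block_eq (V := V) (Q := Q) (κ := κ) (φ := om a X K) (by linarith : (2 : ℝ) ≤ P) hPP' hfl
  have hUr := block_eq (V := V) (Q := Q) (κ := κ) (φ := rh (2 ^ l) η₁ a X K)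
    (by linarith : (2 : ℝ) ≤ P) hPP' hfl
  rw [← hBl] at hUo hUr
  set U : ℝ := ∑ p ∈ Bl, Real.log p * Ph V Q κ (om a X K) p with hU
  set W : ℝ := ∑ p ∈ Bl, Real.log p * Ph V Q κ (rh (2 ^ l) η₁ a X K) p with hW
  set m : ℕ → ℝ := fun p => Ph V Q κ (om (4 * (p : ℝ) ^ l) X K) p with hm
  have hMM : MM l N X K Q κ P P' = ∑ p ∈ Bl, m p := by
    rw [MM_eq]
  have hm0 : ∀ p, 0 ≤ m p := fun p =>
    Ph_nonneg (fun e => (hκ e).1) (fun v _ => om_nonneg hX0.le v) p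
  have hmd : ∀ p ∈ Bl, |m p - Ph V Q κ (om a X K) p| ≤ Ph V Q κ (rh (2 ^ l) η₁ a X K) p := by
    intro p hp
    rw [hBl, mem_filter] at hp
    obtain ⟨-, hpp, -, hp3, hp4⟩ := hp
    apply Ph_sub_le (fun e => (hκ e).1)
    intro v hv
    have e1 : a ≤ 4 * (p : ℝ) ^ l := by
      rw [ha]; gcongr
    have e2 : 4 * (p : ℝ) ^ l ≤ (1 + (2 ^ l - 1) * η) * a := by
      calc 4 * (p : ℝ) ^ l ≤ 4 * ((1 + η) * P) ^ l := by gcongr
        _ = (1 + η) ^ l * a := by rw [mul_pow, ha]; ring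
        _ ≤ (1 + (2 ^ l - 1) * η) * a := by
            apply mul_le_mul_of_nonneg_right (one_add_pow_le hη0.le hη1 l) ha0.le
    apply diff_bound h3 ha0 e1 hcl1 _ _ hX0 hK0 hv
    · refine e2.trans ?_
      apply mul_le_mul_of_nonneg_right _ ha0.le
      nlinarith only [hη1, hη0, hcl1]
    · have e3 : 4 * (p : ℝ) ^ l - a ≤ (η₁ / 2) ^ 2 * a := by
        have e4 : 2 ^ l * η = (η₁ / 2) ^ 2 := by
          rw [hη, hη₁]; field_simp
        calc 4 * (p : ℝ) ^ l - a ≤ ((2 ^ l - 1) * η) * a := by linarith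
          _ ≤ (2 ^ l * η) * a := by
              apply mul_le_mul_of_nonneg_right _ ha0.le
              linarith only [hη0]
          _ = _ := by rw [e4]
      calc 2 * √(4 * (p : ℝ) ^ l - a) ≤ 2 * √((η₁ / 2) ^ 2 * a) := by
            gcongr
        _ = η₁ * √a := by
            rw [Real.sqrt_mul (by positivity), Real.sqrt_sq (by positivity)]; ring
  have hlogp : ∀ p ∈ Bl, Real.log P ≤ Real.log p ∧ Real.log p ≤ θ * Real.log X := by
    intro p hp
    rw [hBl, mem_filter] at hp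
    obtain ⟨-, hpp, -, hp3, hp4⟩ := hp
    refine ⟨Real.log_le_log hP0 hp3.le, ?_⟩
    rw [← Real.log_rpow hX0]
    exact Real.log_le_log (by linarith) (hp4.trans hP2)
  have hlogP0 : 0 < Real.log P := Real.log_pos (by linarith)
  have hupper : Real.log P * ∑ p ∈ Bl, m p ≤ U + W := by
    rw [mul_sum, hU, hW, ← sum_add_distrib]
    apply sum_le_sum
    intro p hp
    obtain ⟨g1, g2⟩ := hlogp p hp
    have g3 := (abs_le.mp (hmd p hp)).2
    have g4 : 0 ≤ Real.log p := hlogP0.le.trans g1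
    calc Real.log P * m p ≤ Real.log p * m p := by
          apply mul_le_mul_of_nonneg_right g1 (hm0 p)
      _ ≤ Real.log p * (Ph V Q κ (om a X K) p + Ph V Q κ (rh (2 ^ l) η₁ a X K) p) := by
          apply mul_le_mul_of_nonneg_left _ g4
          linarith
      _ = _ := by ring
  have hlower : U - W ≤ (θ * Real.log X) * ∑ p ∈ Bl, m p := by
    rw [mul_sum, hU, hW, ← sum_sub_distrib]
    apply sum_le_sum
    intro p hp
    obtain ⟨g1, g2⟩ := hlogp p hp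
    have g3 := (abs_le.mp (hmd p hp)).1
    have g4 : 0 ≤ Real.log p := hlogP0.le.trans g1
    calc Real.log p * Ph V Q κ (om a X K) p - Real.log p * Ph V Q κ (rh (2 ^ l) η₁ a X K) p =
        Real.log p * (Ph V Q κ (om a X K) p - Ph V Q κ (rh (2 ^ l) η₁ a X K) p) := by ring
      _ ≤ Real.log p * m p := by
          apply mul_le_mul_of_nonneg_left _ g4
          linarith
      _ ≤ (θ * Real.log X) * m p := mul_le_mul_of_nonneg_right g2 (hm0 p)
  set L : ℝ := θ * Real.log X with hL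
  have hL0 : 0 < L := by positivity
  have hlogPL : (1 - ε₂) * L ≤ Real.log P := by
    have h5 : Real.log σ + L ≤ Real.log P := by
      rw [hL, ← Real.log_rpow hX0, ← Real.log_mul hσ.ne' hXθ.ne']
      exact Real.log_le_log (by positivity) hP1
    have h6 : |Real.log σ| ≤ ε₂ * L := by
      rw [div_le_iff₀ (by positivity)] at c1
      rw [hL]
      nlinarith only [c1]
    have h7 := neg_abs_le (Real.log σ)
    linarith
  -- estimates of U and W
  set u : ℝ := √X * (η * P) with hu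
  have hu0 : 0 < u := by positivity
  have hPP3 : P + P' ≤ 3 * P := by rw [hP']; linarith only [mul_le_mul_of_nonneg_right hη1 hP0.le]
  have hd : P' - P = η * P := by rw [hP']; ring
  have hSFo : S * Fo ≤ 8 * √X := by
    calc S * Fo ≤ 2 * (4 * √X) := mul_le_mul hS2 hFo4 hFo0 (by norm_num)
      _ = 8 * √X := by ring
  have hSFr : S * Fr ≤ 10 * ε₂ * √X := by
    calc S * Fr ≤ 2 * (5 * ε₂ * √X) := mul_le_mul hS2 hFr5 hFr0 (by norm_num)
      _ = 10 * ε₂ * √X := by ring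
  have hSFo0 : 0 ≤ S * Fo := mul_nonneg hS0 hFo0
  have hSFr0 : 0 ≤ S * Fr := mul_nonneg hS0 hFr0
  have hU1 : |U - η * P * (S * Fo)| ≤ 27 * ε₂ * u := by
    rw [← hUo]
    have e1 : Ps V Q κ (om a X K) P' - Ps V Q κ (om a X K) P - η * P * (S * Fo) =
        (Ps V Q κ (om a X K) P' - P' * (S * Fo)) - (Ps V Q κ (om a X K) P - P * (S * Fo)) := by
      rw [← hd]; ring
    rw [e1]
    refine (abs_sub _ _).trans ?_
    refine (add_le_add f2 f1).trans ?_
    calc η * ε₂ * P' * (S * Fo + √X) + η * ε₂ * P * (S * Fo + √X) =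
        η * ε₂ * (P + P') * (S * Fo + √X) := by ring
      _ ≤ η * ε₂ * (3 * P) * (8 * √X + √X) := by gcongr
      _ = 27 * ε₂ * u := by rw [hu]; ring
  have hW1 : W ≤ 15 * ε₂ * u := by
    have e0 : |W - η * P * (S * Fr)| ≤ 4 * ε₂ * u := by
      rw [← hUr]
      have e1 : Ps V Q κ (rh (2 ^ l) η₁ a X K) P' - Ps V Q κ (rh (2 ^ l) η₁ a X K) P -
          η * P * (S * Fr) = (Ps V Q κ (rh (2 ^ l) η₁ a X K) P' - P' * (S * Fr)) -
          (Ps V Q κ (rh (2 ^ l) η₁ a X K) P - P * (S * Fr)) := by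
        rw [← hd]; ring
      rw [e1]
      refine (abs_sub _ _).trans ?_
      refine (add_le_add f4 f3).trans ?_
      calc η * ε₂ * P' * (S * Fr + √X) + η * ε₂ * P * (S * Fr + √X) =
          η * ε₂ * (P + P') * (S * Fr + √X) := by ring
        _ ≤ η * ε₂ * (3 * P) * (10 * ε₂ * √X + √X) := by gcongr
        _ = (30 * ε₂ + 3) * ε₂ * u := by rw [hu]; ring
        _ ≤ 4 * ε₂ * u := by
            apply mul_le_mul_of_nonneg_right _ hu0.le
            apply mul_le_mul_of_nonneg_right _ hε₂0.le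
            linarith
    have e2 := (abs_le.mp e0).2
    have e3 : η * P * (S * Fr) ≤ 10 * ε₂ * u := by
      calc η * P * (S * Fr) ≤ η * P * (10 * ε₂ * √X) := by gcongr
        _ = _ := by rw [hu]; ring
    linarith only [e2, e3, mul_pos hε₂0 hu0]
  have hpi := Real.pi_pos
  have hpi4 := Real.pi_le_four
  have hT : |η * P * (S * Fo) - Real.pi / 2 * S * u| ≤ 2 * ε₂ * u := by
    have e1 : η * P * (S * Fo) - Real.pi / 2 * S * u = η * P * S * (Fo - Real.pi / 2 * √X) := by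
      rw [hu]; ring
    rw [e1, abs_mul, abs_of_nonneg (by positivity)]
    calc η * P * S * |Fo - Real.pi / 2 * √X| ≤ η * P * 2 * (ε₂ * √X) := by gcongr
      _ = _ := by rw [hu]; ring
  have hUT : |U - Real.pi / 2 * S * u| ≤ 29 * ε₂ * u := by
    have e1 := abs_add_le (U - η * P * (S * Fo)) (η * P * (S * Fo) - Real.pi / 2 * S * u)
    rw [sub_add_sub_cancel] at e1
    linarith
  obtain ⟨hUT1, hUT2⟩ := abs_le.mp hUT
  have hSu : Real.pi / 2 * S * u ≤ 4 * u := by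
    apply mul_le_mul_of_nonneg_right _ hu0.le
    calc Real.pi / 2 * S ≤ 2 * 2 := mul_le_mul (by linarith only [hpi4]) hS2 hS0 (by norm_num)
      _ = 4 := by norm_num
  -- conclusion
  have hlogXθ : Real.log (X ^ θ) = L := by rw [Real.log_rpow hX0]
  rw [hMM, hlogXθ]
  set m0 : ℝ := ∑ p ∈ Bl, m p with hm0d
  have hm00 : 0 ≤ m0 := sum_nonneg fun p _ => hm0 p
  have hfin : |L * m0 - Real.pi / 2 * S * u| ≤ 200 * ε₂ * u :=
    fin_ineq hε₂0 hε₂1 hu0 (by positivity) hSu (by linarith) (by linarith) hW1 hL0 hm00 hupper hlower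
      hlogPL
  have e1 : m0 - Real.pi / 2 * S * (u / L) = (L * m0 - Real.pi / 2 * S * u) / L := by
    field_simp
  rw [e1, abs_div, abs_of_pos hL0, div_le_iff₀ hL0]
  refine hfin.trans ?_
  calc 200 * ε₂ * u ≤ (ε * θ) * u := by gcongr
    _ = ε * (u / Real.log X) * L := by rw [hL]; field_simp

end Pool.Agent.T2h80.CL
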