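import Pool.Agent.T2h80.CL.V

set_option autoImplicit false

namespace Pool.Agent.T2h80.CL

open Finset

open Classical in
/-- the inner sum with a general weight -/
noncomputable def Ph (V Q : ℕ) (κ φ : ℕ → ℝ) (p : ℕ) : ℝ :=
  ∑ e ∈ Icc 1 Q, κ e * ∑ v ∈ (Icc 1 V).filter (fun v : ℕ => ¬ p ∣ v * e),
    (nsq p (v * e) : ℝ) * φ v / (e : ℝ) ^ 2

open Classical in
/-- the coefficients -/
noncomputable def cf (V Q : ℕ) (κ φ : ℕ → ℝ) (f : ℕ) : ℝ :=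
  ∑ e ∈ Icc 1 Q, ∑ v ∈ Icc 1 V, if v * e = f then κ e * φ v / (e : ℝ) ^ 2 else 0

theorem cf_nonneg {V Q : ℕ} {κ φ : ℕ → ℝ} (hκ : ∀ e, 0 ≤ κ e) (hφ : ∀ v, 1 ≤ v → 0 ≤ φ v)
    (f : ℕ) : 0 ≤ cf V Q κ φ f := by
  unfold cf
  apply sum_nonneg; intro e he
  apply sum_nonneg; intro v hv
  rw [mem_Icc] at hv
  split_ifs
  · exact div_nonneg (mul_nonneg (hκ e) (hφ v hv.1)) (by positivity)
  · exact le_rfl

theorem cf_le {V Q : ℕ} {κ φ : ℕ → ℝ} (hκ : ∀ e, 0 ≤ κ e ∧ κ e ≤ 1) {B : ℝ} (hB : 0 ≤ B)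
    (hφ : ∀ v : ℕ, 1 ≤ v → 0 ≤ φ v ∧ φ v ≤ B / v) {f : ℕ} (hf : 1 ≤ f) :
    cf V Q κ φ f ≤ B * (1 + Real.log Q) / f := by
  classical
  rcases Nat.eq_zero_or_pos Q with rfl | hQ
  · unfold cf
    simp only [show Icc 1 0 = (∅ : Finset ℕ) from rfl, sum_empty]
    simp
    positivity
  have hf0 : (0 : ℝ) < f := by exact_mod_cast hf
  have h1 : ∀ e ∈ Icc 1 Q, ∑ v ∈ Icc 1 V, (if v * e = f then κ e * φ v / (e : ℝ) ^ 2 else 0) ≤
      B / f * (1 / (e : ℝ)) := by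
    intro e he
    rw [mem_Icc] at he
    have he0 : (0 : ℝ) < e := by exact_mod_cast he.1
    by_cases hd : e ∣ f
    · obtain ⟨k, hk⟩ := hd
      have hk0 : 0 < k := by
        rcases Nat.eq_zero_or_pos k with h | h
        · rw [h] at hk; omega
        · exact h
      have hk0' : (0 : ℝ) < k := by exact_mod_cast hk0
      calc ∑ v ∈ Icc 1 V, (if v * e = f then κ e * φ v / (e : ℝ) ^ 2 else 0) ≤
          ∑ v ∈ Icc 1 V, (if v = k then κ e * φ k / (e : ℝ) ^ 2 else 0) := by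
            apply sum_le_sum
            intro v hv
            by_cases hv' : v * e = f
            · have : v = k := by
                apply Nat.eq_of_mul_eq_mul_right he.1
                rw [hv', hk]; ring
              rw [if_pos hv', if_pos this, this]
            · rw [if_neg hv']
              split_ifs
              · exact div_nonneg (mul_nonneg (hκ e).1 (hφ k hk0).1) (by positivity)
              · exact le_rfl
        _ ≤ κ e * φ k / (e : ℝ) ^ 2 := by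
            rw [sum_ite_eq']
            split_ifs
            · exact le_rfl
            · exact div_nonneg (mul_nonneg (hκ e).1 (hφ k hk0).1) (by positivity)
        _ ≤ 1 * (B / k) / (e : ℝ) ^ 2 := by
            apply div_le_div_of_nonneg_right _ (by positivity)
            exact mul_le_mul (hκ e).2 (hφ k hk0).2 (hφ k hk0).1 zero_le_one
        _ = B / f * (1 / (e : ℝ)) := by
            rw [hk]; push_cast; field_simp
    · rw [sum_eq_zero]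
      · positivity
      · intro v _
        rw [if_neg]
        intro h
        exact hd (Dvd.intro_left v h)
  unfold cf
  calc ∑ e ∈ Icc 1 Q, ∑ v ∈ Icc 1 V, (if v * e = f then κ e * φ v / (e : ℝ) ^ 2 else 0) ≤
      ∑ e ∈ Icc 1 Q, B / f * (1 / (e : ℝ)) := sum_le_sum h1
    _ = B / f * ∑ e ∈ Icc 1 Q, (1 / (e : ℝ)) := by rw [mul_sum]
    _ ≤ B / f * (1 + Real.log Q) := by
        apply mul_le_mul_of_nonneg_left _ (by positivity)
        have := harmonic_le_one_add_log Q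
        rw [harmonic_eq_sum_Icc] at this
        push_cast at this
        simpa [one_div] using this
    _ = B * (1 + Real.log Q) / f := by ring

/-- the sum of the coefficients -/
theorem sum_cf {V Q E : ℕ} {κ φ : ℕ → ℝ} (hE : ∀ e ∈ Icc 1 Q, ∀ v ∈ Icc 1 V, E < v * e → φ v = 0)
    (g : ℕ → ℝ) : ∑ f ∈ Icc 1 E, cf V Q κ φ f * g f =
      ∑ e ∈ Icc 1 Q, κ e * ∑ v ∈ Icc 1 V, g (v * e) * φ v / (e : ℝ) ^ 2 := by
  classical
  unfold cf
  simp_rw [sum_mul]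
  rw [sum_comm]
  apply sum_congr rfl
  intro e he
  rw [sum_comm, mul_sum]
  apply sum_congr rfl
  intro v hv
  have he' := mem_Icc.mp he
  have hv' := mem_Icc.mp hv
  by_cases h : v * e ≤ E
  · rw [sum_eq_single (v * e)]
    · rw [if_pos rfl]; ring
    · intro f _ hf
      rw [if_neg (Ne.symm hf), zero_mul]
    · intro hh
      exfalso
      apply hh
      rw [mem_Icc]
      exact ⟨Nat.mul_pos hv'.1 he'.1, h⟩
  · rw [hE e he v hv (not_le.mp h)]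
    simp

theorem Ph_eq {V Q E : ℕ} {κ φ : ℕ → ℝ} (hE : ∀ e ∈ Icc 1 Q, ∀ v ∈ Icc 1 V, E < v * e → φ v = 0)
    (p : ℕ) : Ph V Q κ φ p =
      ∑ f ∈ Icc 1 E, cf V Q κ φ f * (if ¬ p ∣ f then (nsq p f : ℝ) else 0) := by
  classical
  rw [sum_cf hE]
  unfold Ph
  apply sum_congr rfl
  intro e _
  congr 1
  rw [sum_filter]
  apply sum_congr rfl
  intro v _
  by_cases h : p ∣ v * e
  · rw [if_neg (not_not.mpr h), if_neg (not_not.mpr h)]; simp
  · rw [if_pos h, if_pos h]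

theorem Ph_nonneg {V Q : ℕ} {κ φ : ℕ → ℝ} (hκ : ∀ e, 0 ≤ κ e) (hφ : ∀ v, 1 ≤ v → 0 ≤ φ v)
    (p : ℕ) : 0 ≤ Ph V Q κ φ p := by
  unfold Ph
  apply sum_nonneg; intro e _
  apply mul_nonneg (hκ e)
  apply sum_nonneg; intro v hv
  rw [mem_filter, mem_Icc] at hv
  exact div_nonneg (mul_nonneg (Nat.cast_nonneg _) (hφ v hv.1.1)) (by positivity)

theorem Ph_sub_le {V Q : ℕ} {κ φ ψ ρ : ℕ → ℝ} (hκ : ∀ e, 0 ≤ κ e)
    (h : ∀ v, 1 ≤ v → |φ v - ψ v| ≤ ρ v) (p : ℕ) :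
    |Ph V Q κ φ p - Ph V Q κ ψ p| ≤ Ph V Q κ ρ p := by
  unfold Ph
  rw [← sum_sub_distrib]
  refine (abs_sum_le_sum_abs _ _).trans (sum_le_sum ?_)
  intro e _
  rw [← mul_sub, abs_mul, abs_of_nonneg (hκ e)]
  apply mul_le_mul_of_nonneg_left _ (hκ e)
  rw [← sum_sub_distrib]
  refine (abs_sum_le_sum_abs _ _).trans (sum_le_sum ?_)
  intro v hv
  rw [mem_filter, mem_Icc] at hv
  rw [← sub_div, ← mul_sub, abs_div, abs_mul, abs_of_nonneg (by positivity : (0 : ℝ) ≤ (e : ℝ) ^ 2),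
    Nat.abs_cast]
  gcongr
  exact h v hv.1.1

open Classical in
/-- the logarithmic sum over `p ≤ t` -/
noncomputable def Ps (V Q : ℕ) (κ φ : ℕ → ℝ) (t : ℝ) : ℝ :=
  ∑ p ∈ (Icc 1 ⌊t⌋₊).filter Nat.Prime, Real.log p * Ph V Q κ φ p

theorem Ps_eq {V Q E : ℕ} {κ φ : ℕ → ℝ} (hE : ∀ e ∈ Icc 1 Q, ∀ v ∈ Icc 1 V, E < v * e → φ v = 0)
    (t : ℝ) : Ps V Q κ φ t = ∑ f ∈ Icc 1 E, cf V Q κ φ f * thS t f := by
  classical
  unfold Ps
  simp_rw [Ph_eq hE, mul_sum]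
  rw [sum_comm]
  apply sum_congr rfl
  intro f _
  unfold thS
  rw [mul_sum, ← filter_filter, sum_filter (fun p => ¬ p ∣ f)]
  apply sum_congr rfl
  intro p _
  by_cases h : p ∣ f
  · rw [if_neg (not_not.mpr h), if_neg (not_not.mpr h)]; ring
  · rw [if_pos h, if_pos h]; ring

/-- PR for general weights -/
theorem PRB (h : S_PR) (l : ℕ) (θ δ : ℝ) (hpar : Par l θ δ) (ε₀ : ℝ) (hε₀ : 0 < ε₀) (B : ℝ)
    (hB : 0 < B) (σ : ℝ) (hσ : 0 < σ) (hσ1 : σ ≤ 1) : ∃ X₀ : ℝ, ∀ X : ℝ, X₀ ≤ X →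
    ∀ κ : ℕ → ℝ, (∀ e, 0 ≤ κ e ∧ κ e ≤ 1) → ∀ P : ℝ, σ * X ^ θ ≤ P → P ≤ X ^ θ →
    ∀ V : ℕ, ∀ φ : ℕ → ℝ, (∀ v : ℕ, 1 ≤ v → 0 ≤ φ v ∧ φ v ≤ B * √X / v) →
    (∀ v : ℕ, 2 ^ l * (4 * X ^ ((l : ℝ) * θ)) < X ^ (1 - 2 * δ) * (v : ℝ) ^ 2 → φ v = 0) →
    |Ps V ⌊X ^ δ⌋₊ κ φ P - P * ((∑ e ∈ Icc 1 ⌊X ^ δ⌋₊, κ e / (e : ℝ) ^ 2) *
      ∑ v ∈ Icc 1 V, φ v)| ≤ ε₀ * P * ((∑ e ∈ Icc 1 ⌊X ^ δ⌋₊, κ e / (e : ℝ) ^ 2) *
      (∑ v ∈ Icc 1 V, φ v) + √X) := by
  obtain ⟨hodd, hl, hθ1, hδ0, hpar4⟩ := hpar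
  have hl5 : (5 : ℝ) ≤ l := by exact_mod_cast hl
  have hθ : 0 < θ := by
    have : (0 : ℝ) < 1 / (l : ℝ) := by positivity
    linarith
  have hθ13 : θ ≤ 1 / 3 := by nlinarith
  have hδ8 : δ ≤ 1 / 8 := by nlinarith
  obtain ⟨t₀, ht₀⟩ := h (δ / 2) (by positivity) ε₀ hε₀ 2
  -- largeness
  have ev1 : ∀ᶠ X : ℝ in Filter.atTop, (2 : ℝ) ^ (l + 2) / σ ≤ X ^ (3 * δ / 2) :=
    (tendsto_rpow_atTop (by positivity)).eventually_ge_atTop _
  have ev2 : ∀ᶠ X : ℝ in Filter.atTop, (|t₀| + 3) / σ ≤ X ^ θ :=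
    (tendsto_rpow_atTop hθ).eventually_ge_atTop _
  have ev3 : ∀ᶠ X : ℝ in Filter.atTop, 8 * B / (ε₀ * θ ^ 2) + 1 + 2 / θ * |Real.log σ| ≤ Real.log X :=
    Real.tendsto_log_atTop.eventually_ge_atTop _
  obtain ⟨X₁, hX₁⟩ := Filter.eventually_atTop.mp ((ev1.and ev2).and ev3)
  refine ⟨max X₁ 3, ?_⟩
  intro X hX κ hκ P hP1 hP2 V φ hφ hsupp
  obtain ⟨⟨c1, c2⟩, c3⟩ := hX₁ X ((le_max_left _ _).trans hX)
  have hX3 : 3 ≤ X := (le_max_right _ _).trans hX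
  have hX0 : 0 < X := by linarith
  have hX1 : 1 ≤ X := by linarith
  have hXθ : 0 < X ^ θ := Real.rpow_pos_of_pos hX0 θ
  have hsX : 0 < √X := Real.sqrt_pos.mpr hX0
  have hPt : |t₀| + 3 ≤ P := by
    rw [div_le_iff₀ hσ] at c2
    linarith
  have hP0 : 0 < P := by
    have := abs_nonneg t₀
    linarith
  have hPt0 : t₀ ≤ P := by
    have := le_abs_self t₀
    linarith
  have hlogX : 0 < Real.log X := Real.log_pos (by linarith)
  set Q := ⌊X ^ δ⌋₊ with hQ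
  set S : ℝ := ∑ e ∈ Icc 1 Q, κ e / (e : ℝ) ^ 2 with hS
  set F : ℝ := ∑ v ∈ Icc 1 V, φ v with hF
  have hQle : (Q : ℝ) ≤ X ^ δ := Nat.floor_le (Real.rpow_nonneg hX0.le _)
  have hQ1 : 1 ≤ Q := by
    rw [hQ]; apply (Nat.one_le_floor_iff _).mpr; exact Real.one_le_rpow hX1 hδ0.le
  have hQX : (Q : ℝ) ≤ X := hQle.trans (by
    calc X ^ δ ≤ X ^ (1 : ℝ) := Real.rpow_le_rpow_of_exponent_le hX1 (by linarith)
      _ = X := Real.rpow_one X)
  set E := ⌊(2 : ℝ) ^ (l + 2) * X ^ (θ - 2 * δ)⌋₊ with hE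
  have hEle : (E : ℝ) ≤ (2 : ℝ) ^ (l + 2) * X ^ (θ - 2 * δ) := Nat.floor_le (by positivity)
  -- support
  have hEs : ∀ e ∈ Icc 1 Q, ∀ v ∈ Icc 1 V, E < v * e → φ v = 0 := by
    intro e he v hv hlt
    rw [mem_Icc] at he hv
    apply hsupp
    by_contra hcon
    rw [not_lt] at hcon
    have e1 : (v : ℝ) ^ 2 ≤ (2 ^ (l + 2) * X ^ ((l : ℝ) * θ / 2 - 1 / 2 + δ)) ^ 2 := by
      have h1 : (v : ℝ) ^ 2 ≤ 2 ^ l * (4 * X ^ ((l : ℝ) * θ)) / X ^ (1 - 2 * δ) := by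
        rw [le_div_iff₀ (Real.rpow_pos_of_pos hX0 _)]
        linarith
      have h2 : (2 ^ (l + 2) * X ^ ((l : ℝ) * θ / 2 - 1 / 2 + δ)) ^ 2 =
          2 ^ (l + 2) * 2 ^ l * 4 * (X ^ ((l : ℝ) * θ) / X ^ (1 - 2 * δ)) := by
        rw [mul_pow, ← Real.rpow_natCast (X ^ ((l : ℝ) * θ / 2 - 1 / 2 + δ)) 2,
          ← Real.rpow_mul hX0.le, ← Real.rpow_sub hX0]
        have : ((l : ℝ) * θ / 2 - 1 / 2 + δ) * ((2 : ℕ) : ℝ) = (l : ℝ) * θ - (1 - 2 * δ) := by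
          push_cast; ring
        rw [this, pow_add]; ring
      rw [h2]
      refine h1.trans ?_
      have h3 : (1 : ℝ) ≤ 2 ^ (l + 2) := one_le_pow₀ (by norm_num)
      have h4 : 0 < X ^ ((l : ℝ) * θ) / X ^ (1 - 2 * δ) :=
        div_pos (Real.rpow_pos_of_pos hX0 _) (Real.rpow_pos_of_pos hX0 _)
      calc 2 ^ l * (4 * X ^ ((l : ℝ) * θ)) / X ^ (1 - 2 * δ) =
          1 * (2 ^ l * 4 * (X ^ ((l : ℝ) * θ) / X ^ (1 - 2 * δ))) := by ring
        _ ≤ 2 ^ (l + 2) * (2 ^ l * 4 * (X ^ ((l : ℝ) * θ) / X ^ (1 - 2 * δ))) := by gcongr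
        _ = _ := by ring
    have e2 : (v : ℝ) ≤ 2 ^ (l + 2) * X ^ ((l : ℝ) * θ / 2 - 1 / 2 + δ) :=
      le_of_sq_le_sq e1 (by positivity)
    have e3 : ((v * e : ℕ) : ℝ) ≤ (2 : ℝ) ^ (l + 2) * X ^ (θ - 2 * δ) := by
      push_cast
      have he1 : (e : ℝ) ≤ X ^ δ := le_trans (by exact_mod_cast he.2) hQle
      calc (v : ℝ) * e ≤ (2 ^ (l + 2) * X ^ ((l : ℝ) * θ / 2 - 1 / 2 + δ)) * X ^ δ := by gcongr
        _ = 2 ^ (l + 2) * X ^ ((l : ℝ) * θ / 2 - 1 / 2 + δ + δ) := by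
            rw [mul_assoc, ← Real.rpow_add hX0]
        _ ≤ 2 ^ (l + 2) * X ^ (θ - 2 * δ) := by
            apply mul_le_mul_of_nonneg_left _ (by positivity)
            apply Real.rpow_le_rpow_of_exponent_le hX1
            linarith
    have := Nat.le_floor e3
    rw [← hE] at this
    omega
  -- E is small
  have hσP : E ≤ P ^ (1 - δ / 2) := by
    have h1 : σ * X ^ (θ * (1 - δ / 2)) ≤ P ^ (1 - δ / 2) := by
      calc σ * X ^ (θ * (1 - δ / 2)) ≤ σ ^ (1 - δ / 2) * X ^ (θ * (1 - δ / 2)) := by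
            apply mul_le_mul_of_nonneg_right _ (by positivity)
            calc σ = σ ^ (1 : ℝ) := (Real.rpow_one σ).symm
              _ ≤ σ ^ (1 - δ / 2) := Real.rpow_le_rpow_of_exponent_ge hσ hσ1 (by linarith)
        _ = (σ * X ^ θ) ^ (1 - δ / 2) := by
            rw [Real.mul_rpow hσ.le hXθ.le, ← Real.rpow_mul hX0.le]
        _ ≤ P ^ (1 - δ / 2) := Real.rpow_le_rpow (by positivity) hP1 (by linarith)
    refine le_trans ?_ h1
    refine hEle.trans ?_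
    rw [div_le_iff₀ hσ] at c1
    calc (2 : ℝ) ^ (l + 2) * X ^ (θ - 2 * δ) ≤ (X ^ (3 * δ / 2) * σ) * X ^ (θ - 2 * δ) := by gcongr
      _ = σ * X ^ (θ - δ / 2) := by
          rw [mul_comm (X ^ (3 * δ / 2)) σ, mul_assoc, ← Real.rpow_add hX0]
          congr 2; ring
      _ ≤ σ * X ^ (θ * (1 - δ / 2)) := by
          apply mul_le_mul_of_nonneg_left _ hσ.le
          apply Real.rpow_le_rpow_of_exponent_le hX1
          nlinarith
  set M0 : ℝ := B * √X * (1 + Real.log X) with hM0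
  have hM00 : 0 < M0 := by positivity
  have hcf : ∀ e ∈ Icc 1 E, 0 ≤ cf V Q κ φ e / M0 ∧ cf V Q κ φ e / M0 ≤ 1 / e := by
    intro e he
    rw [mem_Icc] at he
    have he0 : (0 : ℝ) < e := by exact_mod_cast he.1
    constructor
    · exact div_nonneg (cf_nonneg (fun e => (hκ e).1) (fun v hv => (hφ v hv).1) e) hM00.le
    · rw [div_le_iff₀ hM00]
      have h1 := cf_le (V := V) (Q := Q) hκ (by positivity : 0 ≤ B * √X) hφ he.1
      refine h1.trans ?_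
      rw [hM0, one_div_mul_eq_div]
      apply div_le_div_of_nonneg_right _ he0.le
      apply mul_le_mul_of_nonneg_left _ (by positivity)
      have : Real.log Q ≤ Real.log X := Real.log_le_log (by exact_mod_cast hQ1) hQX
      linarith
  have hmain := ht₀ P hPt0 E hσP (fun e => cf V Q κ φ e / M0) hcf
  have hPs := Ps_eq (κ := κ) hEs P
  have hsum := sum_cf (κ := κ) hEs (fun _ => 1)
  have hSF : ∑ f ∈ Icc 1 E, cf V Q κ φ f = S * F := by
    have e1 : ∑ f ∈ Icc 1 E, cf V Q κ φ f = ∑ f ∈ Icc 1 E, cf V Q κ φ f * 1 := by simp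
    rw [e1, hsum, hS, hF, sum_mul]
    apply sum_congr rfl
    intro e _
    rw [mul_sum, mul_sum]
    apply sum_congr rfl
    intro v _
    ring
  have e1 : ∑ e ∈ Icc 1 E, cf V Q κ φ e / M0 * thS P e = Ps V Q κ φ P / M0 := by
    rw [hPs, sum_div]
    apply sum_congr rfl
    intro f _
    ring
  have e2 : ∑ e ∈ Icc 1 E, cf V Q κ φ e / M0 = S * F / M0 := by
    rw [← hSF, sum_div]
  rw [e1, e2] at hmain
  have hlogP : θ / 2 * Real.log X ≤ Real.log P := by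
    have h1 : Real.log σ + θ * Real.log X ≤ Real.log P := by
      rw [← Real.log_rpow hX0, ← Real.log_mul hσ.ne' hXθ.ne']
      exact Real.log_le_log (by positivity) hP1
    have h2 : 2 / θ * |Real.log σ| ≤ Real.log X := by
      have : 0 ≤ 8 * B / (ε₀ * θ ^ 2) := by positivity
      linarith
    rw [div_mul_eq_mul_div, div_le_iff₀ hθ] at h2
    have h3 := neg_abs_le (Real.log σ)
    linarith
  have hlogP0 : 0 < Real.log P := lt_of_lt_of_le (by positivity) hlogP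
  -- the error
  have herr : M0 * (P / (Real.log P) ^ 2) ≤ ε₀ * P * √X := by
    have h1 : (θ / 2 * Real.log X) ^ 2 ≤ (Real.log P) ^ 2 := by gcongr
    have h2 : 8 * B / (ε₀ * θ ^ 2) ≤ Real.log X := by
      have h2 : 0 ≤ 2 / θ * |Real.log σ| := by positivity
      linarith
    rw [div_le_iff₀ (by positivity)] at h2
    have h3 : 1 ≤ Real.log X := by
      have h2 : 0 ≤ 2 / θ * |Real.log σ| := by positivity
      have h3 : 0 ≤ 8 * B / (ε₀ * θ ^ 2) := by positivity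
      linarith
    have h4 : B * (1 + Real.log X) ≤ ε₀ * (θ / 2 * Real.log X) ^ 2 := by
      calc B * (1 + Real.log X) ≤ B * (2 * Real.log X) := by
            apply mul_le_mul_of_nonneg_left _ hB.le; linarith
        _ = 8 * B * (Real.log X / 4) := by ring
        _ ≤ (Real.log X * (ε₀ * θ ^ 2)) * (Real.log X / 4) := by gcongr
        _ = _ := by ring
    rw [mul_div_assoc', div_le_iff₀ (by positivity)]
    calc M0 * P = (B * (1 + Real.log X)) * (P * √X) := by rw [hM0]; ring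
      _ ≤ (ε₀ * (θ / 2 * Real.log X) ^ 2) * (P * √X) := by gcongr
      _ ≤ (ε₀ * (Real.log P) ^ 2) * (P * √X) := by gcongr
      _ = _ := by ring
  have e3 : Ps V Q κ φ P / M0 - P * (S * F / M0) = (Ps V Q κ φ P - P * (S * F)) / M0 := by
    field_simp
  rw [e3, abs_div, abs_of_pos hM00, div_le_iff₀ hM00] at hmain
  refine hmain.trans ?_
  calc (ε₀ * P * (S * F / M0) + P / Real.log P ^ 2) * M0 =
      ε₀ * P * (S * F) + M0 * (P / Real.log P ^ 2) := by field_simp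
    _ ≤ ε₀ * P * (S * F) + ε₀ * P * √X := by linarith
    _ = _ := by ring

end Pool.Agent.T2h80.CL
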