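import Pool.Agent.T2h80.CL.Bl

/-!
VA: the sieve sums and the main sum.
-/

set_option autoImplicit false
set_option linter.all false

namespace Pool.Agent.T2h80.CL

open Finset

namespace VAh

lemma harm (N : ℕ) (hN : 1 ≤ N) : ∑ n ∈ Icc 1 N, 1 / (n : ℝ) ≤ 1 + Real.log N := by
  have h := harmonic_le_one_add_log N
  rw [harmonic_eq_sum_Icc] at h
  push_cast at h
  simpa [one_div] using h

lemma inv_sq (M : ℕ) : ∑ v ∈ Icc 1 M, 1 / (v : ℝ) ^ 2 ≤ 2 := by
  have h : ∀ n : ℕ, 1 ≤ n → ∑ v ∈ Icc 1 n, 1 / (v : ℝ) ^ 2 ≤ 2 - 1 / (n : ℝ) := by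
    intro n hn
    induction n, hn using Nat.le_induction with
    | base => norm_num
    | succ n hn ih =>
      rw [← Finset.insert_Icc_right_eq_Icc_add_one (by omega), Finset.sum_insert (by simp)]
      have hn0 : (0 : ℝ) < n := by exact_mod_cast hn
      have h1 : 1 / ((n + 1 : ℕ) : ℝ) ^ 2 ≤ 1 / (n : ℝ) - 1 / ((n + 1 : ℕ) : ℝ) := by
        push_cast
        rw [div_sub_div _ _ hn0.ne' (by positivity), div_le_div_iff₀ (by positivity) (by positivity)]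
        nlinarith
      linarith
  by_cases h0 : M = 0
  · subst h0; simp
  · have h1 := h M (by omega)
    have : (0 : ℝ) ≤ 1 / (M : ℝ) := by positivity
    linarith

end VAh

open VAh in
theorem t_VA (h1 : S_CNT) (h2 : S_NS) (h3 : S_WA) (h4 : S_WL) : S_VA := by
  classical
  intro l θ δ hPar ε hε
  obtain ⟨hl, hl5, hθ1, hδ, hpar⟩ := hPar
  obtain ⟨L, hL⟩ : ∃ L : ℝ, L = l := ⟨_, rfl⟩
  have hL5 : 5 ≤ L := by rw [hL]; exact_mod_cast hl5
  rw [← hL] at hθ1 hpar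
  have hθ0 : 0 < θ := lt_trans (by positivity) hθ1
  have e1 : 1 < L * θ := by
    rw [div_lt_iff₀ (by linarith)] at hθ1
    linarith
  have hθ3 : θ ≤ 1 / 3 := by nlinarith
  obtain ⟨C, hC, hns⟩ := h2.2.2 (θ / 4) (by linarith)
  obtain ⟨s, hs⟩ : ∃ s, s = θ / 8 := ⟨_, rfl⟩
  have hs0 : 0 < s := by rw [hs]; linarith
  obtain ⟨A, hA⟩ : ∃ A, A = 16 * C / s + 32 * C * (1 + 1 / s) / s := ⟨_, rfl⟩
  have hX0 := (tendsto_rpow_atTop hs0).eventually_ge_atTop (A / ε)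
  obtain ⟨X₀, hX₀⟩ := Filter.eventually_atTop.1 hX0
  refine ⟨max X₀ 3, fun X hX κ hκ => ?_⟩
  have hX3 : 3 ≤ X := (le_max_right _ _).trans hX
  have hX1 : 1 ≤ X := by linarith
  have hXp : 0 < X := by linarith
  have hlogX : 0 < Real.log X := Real.log_pos (by linarith)
  have hXG := hX₀ X ((le_max_left _ _).trans hX)
  have hXm : ∀ s t : ℝ, s ≤ t → X ^ s ≤ X ^ t := fun s t h => Real.rpow_le_rpow_of_exponent_le hX1 h
  have hXa : ∀ s t : ℝ, X ^ s * X ^ t = X ^ (s + t) := fun s t => (Real.rpow_add hXp s t).symm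
  obtain ⟨N, hN⟩ : ∃ N, N = ⌊X ^ θ⌋₊ := ⟨_, rfl⟩
  obtain ⟨Q, hQ⟩ : ∃ Q, Q = ⌊X ^ δ⌋₊ := ⟨_, rfl⟩
  obtain ⟨K, hK⟩ : ∃ K, K = X ^ (1 - 2 * δ) := ⟨_, rfl⟩
  rw [← hN, ← hQ, ← hK]
  have hK0 : 0 < K := by rw [hK]; positivity
  have hNX : (N : ℝ) ≤ X ^ θ := by rw [hN]; exact Nat.floor_le (by positivity)
  have hQX : (Q : ℝ) ≤ X ^ δ := by rw [hQ]; exact Nat.floor_le (by positivity)
  have hN1 : 1 ≤ N := by
    rw [hN]
    apply Nat.le_floor
    exact_mod_cast Real.one_le_rpow hX1 hθ0.le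
  obtain ⟨b, hb⟩ : ∃ b : ℝ, b = (θ * L - 1 + 2 * δ) / 2 := ⟨_, rfl⟩
  have hb0 : 0 < b := by rw [hb]; nlinarith
  have hbδ : b + δ ≤ θ := by rw [hb]; nlinarith
  obtain ⟨M, hM⟩ : ∃ M, M = ⌊2 * X ^ b⌋₊ := ⟨_, rfl⟩
  have hMX : (M : ℝ) ≤ 2 * X ^ b := by rw [hM]; exact Nat.floor_le (by positivity)
  obtain ⟨P, hP⟩ : ∃ P, P = (Icc 1 N).filter (fun p => p.Prime ∧ p ≠ 2) := ⟨_, rfl⟩
  -- range of `v`
  have hv : ∀ p ∈ P, ∀ v : ℕ, K * (v : ℝ) ^ 2 ≤ 4 * (p : ℝ) ^ l → v ≤ M := by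
    intro p hp v hv
    rw [hP, Finset.mem_filter, Finset.mem_Icc] at hp
    rw [hM]
    apply Nat.le_floor
    have hpX : (p : ℝ) ≤ X ^ θ := le_trans (by exact_mod_cast hp.1.2) hNX
    have h5 : (p : ℝ) ^ l ≤ X ^ (θ * L) := by
      rw [Real.rpow_mul hXp.le, hL, Real.rpow_natCast]
      gcongr
    have h6 : (v : ℝ) ^ 2 ≤ (2 * X ^ b) ^ 2 := by
      have h7 : (2 * X ^ b) ^ 2 * K = 4 * X ^ (θ * L) := by
        have h9 : (X ^ b) ^ 2 = X ^ (b * 2) := by
          rw [Real.rpow_mul hXp.le]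
          norm_num
        rw [hK, mul_pow, h9, mul_assoc, hXa]
        have h10 : b * 2 + (1 - 2 * δ) = θ * L := by rw [hb]; ring
        rw [h10]
        norm_num
      have h8 : (v : ℝ) ^ 2 * K ≤ (2 * X ^ b) ^ 2 * K := by
        rw [h7]
        linarith
      exact le_of_mul_le_mul_right h8 hK0
    exact le_of_sq_le_sq h6 (by positivity)
  -- the sieve sum
  have hVV : ∀ e : ℕ, (VV l N X K e : ℝ) = ∑ p ∈ P,
      ∑ v ∈ (Icc 1 (4 * N ^ l)).filter (fun v : ℕ => K * (v : ℝ) ^ 2 ≤ 4 * (p : ℝ) ^ l),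
        (BB l p (v * e) v X : ℝ) := by
    intro e
    have h5 : VV l N X K e = ∑ p ∈ P,
      ∑ v ∈ (Icc 1 (4 * N ^ l)).filter (fun v : ℕ => K * (v : ℝ) ^ 2 ≤ 4 * (p : ℝ) ^ l),
        BB l p (v * e) v X := by
      have hset : VV l N X K e = (P.biUnion (fun p =>
          ((Icc 1 (4 * N ^ l)).filter (fun v : ℕ => K * (v : ℝ) ^ 2 ≤ 4 * (p : ℝ) ^ l)).biUnion
          (fun v => ((range (4 * p ^ l + 1)).filter (fun x => 1 ≤ x ∧ x ^ 2 < 4 * p ^ l ∧ ¬ p ∣ x ∧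
            EE l p (v * e) x ∧ 4 * (p : ℝ) ^ l - (x : ℝ) ^ 2 < X * (v : ℝ) ^ 2)).image
            (fun x => ((p, x), v))))).card := by
        unfold VV
        congr 1
        ext ⟨⟨p, x⟩, v⟩
        simp only [Finset.mem_filter, Finset.mem_product, Finset.mem_Icc, Finset.mem_biUnion,
          Finset.mem_image, Finset.mem_range, TT, hP, Prod.mk.injEq]
        constructor
        · rintro ⟨⟨⟨⟨h6, h7⟩, h8, h9, h10, h11, h12⟩, h13⟩, h14, h15, h16⟩
          refine ⟨p, ⟨⟨h8.one_lt.le, by omega⟩, h8, h9⟩, v, ⟨h13, h14⟩, x, ⟨?_, h10, h11, h12, h15, h16⟩,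
            ⟨rfl, rfl⟩, rfl⟩
          nlinarith
        · rintro ⟨p', ⟨⟨h6, h7⟩, h8, h9⟩, v', ⟨h13, h14⟩, x', ⟨h17, h10, h11, h12, h15, h16⟩,
            ⟨rfl, rfl⟩, rfl⟩
          refine ⟨⟨⟨⟨by omega, ?_⟩, h8, h9, h10, h11, h12⟩, h13⟩, h14, h15, h16⟩
          have : p' ^ l ≤ N ^ l := Nat.pow_le_pow_left h7 l
          nlinarith
      rw [hset, Finset.card_biUnion]
      · refine Finset.sum_congr rfl fun p _ => ?_
        rw [Finset.card_biUnion]
        · refine Finset.sum_congr rfl fun v _ => ?_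
          rw [Finset.card_image_of_injective]
          · rfl
          · intro x x' h
            simpa using h
        · intro v _ v' _ hne
          show Disjoint _ _
          rw [Finset.disjoint_left]
          intro g hg hg'
          rw [Finset.mem_image] at hg hg'
          obtain ⟨x, _, rfl⟩ := hg
          obtain ⟨x', _, h6⟩ := hg'
          exact hne (by simpa using (Prod.ext_iff.1 h6).2.symm)
      · intro p _ p' _ hne
        show Disjoint _ _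
        rw [Finset.disjoint_left]
        intro g hg hg'
        rw [Finset.mem_biUnion] at hg hg'
        obtain ⟨v, _, hg⟩ := hg
        obtain ⟨v', _, hg'⟩ := hg'
        rw [Finset.mem_image] at hg hg'
        obtain ⟨x, _, rfl⟩ := hg
        obtain ⟨x', _, h6⟩ := hg'
        simp only [Prod.mk.injEq] at h6
        exact hne h6.1.1.symm
    rw [h5]
    push_cast
    rfl
  -- the difference for one triple
  have hpt : ∀ p ∈ P, ∀ e ∈ Icc 1 Q, ∀ v ∈ Icc 1 M,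
      |(BB l p (v * e) v X : ℝ) - (if ¬ p ∣ v * e then
        (nsq p (v * e) : ℝ) * LL (4 * (p : ℝ) ^ l) X v / ((v : ℝ) * e) ^ 2 else 0)| ≤
      2 * C * X ^ (θ / 4) * (4 + 2 * ((1 / (p : ℝ)) * (1 / (e : ℝ) ^ 2) *
        (LL (4 * (p : ℝ) ^ l) X v / (v : ℝ) ^ 2))) := by
    intro p hp e he v hv
    rw [hP, Finset.mem_filter, Finset.mem_Icc] at hp
    rw [Finset.mem_Icc] at he hv
    obtain ⟨_, hpp, hp2⟩ := hp
    have hp0 : (0 : ℝ) < p := by exact_mod_cast hpp.pos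
    have hv0 : (0 : ℝ) < v := by exact_mod_cast hv.1
    have he0 : (0 : ℝ) < e := by exact_mod_cast he.1
    have hLL := (h4 (4 * (p : ℝ) ^ l) X (by positivity) hXp v hv.1).1.1
    have hnn : 0 ≤ 2 * C * X ^ (θ / 4) * (4 + 2 * ((1 / (p : ℝ)) * (1 / (e : ℝ) ^ 2) *
        (LL (4 * (p : ℝ) ^ l) X v / (v : ℝ) ^ 2))) := by positivity
    obtain ⟨h5, h6⟩ := h1 l p (v * e) v X hl hpp hp2 (Nat.mul_pos hv.1 he.1) hv.1 hXp.le
    by_cases hpf : p ∣ v * e
    · rw [h5 hpf, if_neg (by simpa using hpf)]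
      simpa using hnn
    · rw [if_pos hpf]
      have h7 := h6 hpf
      push_cast at h7
      have h8 : (nsq p (v * e) : ℝ) ≤ 2 * C * X ^ (θ / 4) := by
        have h9 := hns p (v * e) (Nat.mul_pos hv.1 he.1) ((Nat.Prime.coprime_iff_not_dvd hpp).2 hpf)
        push_cast at h9
        have h10 : (v : ℝ) * e ≤ 2 * X := by
          calc (v : ℝ) * e ≤ M * Q := by
                have h11 : (v : ℝ) ≤ M := by exact_mod_cast hv.2
                have h12 : (e : ℝ) ≤ Q := by exact_mod_cast he.2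
                gcongr
            _ ≤ (2 * X ^ b) * X ^ δ := by gcongr
            _ = 2 * X ^ (b + δ) := by rw [mul_assoc, hXa]
            _ ≤ 2 * X ^ (1 : ℝ) := by
                have := hXm (b + δ) 1 (by linarith)
                linarith
            _ = 2 * X := by rw [Real.rpow_one]
        have h11 : ((v : ℝ) * e) ^ (θ / 4) ≤ 2 * X ^ (θ / 4) := by
          calc ((v : ℝ) * e) ^ (θ / 4) ≤ (2 * X) ^ (θ / 4) :=
                Real.rpow_le_rpow (by positivity) h10 (by linarith)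
            _ = 2 ^ (θ / 4) * X ^ (θ / 4) := Real.mul_rpow (by norm_num) hXp.le
            _ ≤ 2 ^ (1 : ℝ) * X ^ (θ / 4) := by
                gcongr
                · norm_num
                · linarith
            _ = 2 * X ^ (θ / 4) := by norm_num
        calc (nsq p (v * e) : ℝ) ≤ C * ((v : ℝ) * e) ^ (θ / 4) := h9
          _ ≤ C * (2 * X ^ (θ / 4)) := by gcongr
          _ = _ := by ring
      have h12 : (4 : ℝ) + 2 * LL (4 * (p : ℝ) ^ l) X v / (p * ((v : ℝ) * e) ^ 2) =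
          4 + 2 * ((1 / (p : ℝ)) * (1 / (e : ℝ) ^ 2) *
        (LL (4 * (p : ℝ) ^ l) X v / (v : ℝ) ^ 2)) := by
        field_simp
      rw [h12] at h7
      refine h7.trans ?_
      exact mul_le_mul_of_nonneg_right h8 (by positivity)
  obtain ⟨F, hF⟩ : ∃ F : ℕ → Finset ℕ, F = fun (p : ℕ) =>
    (Icc 1 (4 * N ^ l)).filter (fun v : ℕ => K * (v : ℝ) ^ 2 ≤ 4 * (p : ℝ) ^ l) := ⟨_, rfl⟩
  have hFM : ∀ p ∈ P, F p ⊆ Icc 1 M := by
    intro p hp v hv'
    rw [hF, Finset.mem_filter, Finset.mem_Icc] at hv'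
    exact Finset.mem_Icc.2 ⟨hv'.1.1, hv p hp v hv'.2⟩
  obtain ⟨f, hf⟩ : ∃ f : ℕ → ℕ → ℕ → ℝ, f = fun (p e v : ℕ) => (if ¬ p ∣ v * e then
        (nsq p (v * e) : ℝ) * LL (4 * (p : ℝ) ^ l) X v / ((v : ℝ) * e) ^ 2 else 0) := ⟨_, rfl⟩
  have hMM : MM l N X K Q κ 0 N = ∑ p ∈ P, ∑ e ∈ Icc 1 Q, κ e * ∑ v ∈ F p, f p e v := by
    unfold MM
    have h5 : (Icc 1 N).filter (fun p : ℕ => p.Prime ∧ p ≠ 2 ∧ (0 : ℝ) < (p : ℝ) ∧
        (p : ℝ) ≤ (N : ℝ)) = P := by
      rw [hP]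
      ext p
      rw [Finset.mem_filter, Finset.mem_filter, Finset.mem_Icc]
      constructor
      · rintro ⟨h6, h7, h8, _⟩
        exact ⟨h6, h7, h8⟩
      · rintro ⟨h6, h7, h8⟩
        exact ⟨h6, h7, h8, by exact_mod_cast h7.pos, by exact_mod_cast h6.2⟩
    rw [h5]
    refine Finset.sum_congr rfl fun p _ => Finset.sum_congr rfl fun e _ => ?_
    congr 1
    rw [hF, hf, ← Finset.sum_filter, Finset.filter_filter]
  have hS : ∑ e ∈ Icc 1 Q, κ e * (VV l N X K e : ℝ) =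
      ∑ p ∈ P, ∑ e ∈ Icc 1 Q, κ e * ∑ v ∈ F p, (BB l p (v * e) v X : ℝ) := by
    rw [Finset.sum_comm]
    refine Finset.sum_congr rfl fun e _ => ?_
    rw [hVV, Finset.mul_sum, hF]
  obtain ⟨g, hg⟩ : ∃ g : ℕ → ℕ → ℕ → ℝ, g = fun (p e v : ℕ) =>
      2 * C * X ^ (θ / 4) * (4 + 2 * ((1 / (p : ℝ)) * (1 / (e : ℝ) ^ 2) *
        (LL (4 * (p : ℝ) ^ l) X v / (v : ℝ) ^ 2))) := ⟨_, rfl⟩
  have hpt' : ∀ p ∈ P, ∀ e ∈ Icc 1 Q, ∀ v ∈ Icc 1 M,
      |(BB l p (v * e) v X : ℝ) - f p e v| ≤ g p e v := by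
    intro p hp e he v hv
    rw [hf, hg]
    exact hpt p hp e he v hv
  have hd : |∑ e ∈ Icc 1 Q, κ e * (VV l N X K e : ℝ) - MM l N X K Q κ 0 N| ≤
      ∑ p ∈ P, ∑ e ∈ Icc 1 Q, ∑ v ∈ Icc 1 M, g p e v := by
    rw [hS, hMM, ← Finset.sum_sub_distrib]
    refine (Finset.abs_sum_le_sum_abs _ _).trans (Finset.sum_le_sum fun p hp => ?_)
    rw [← Finset.sum_sub_distrib]
    refine (Finset.abs_sum_le_sum_abs _ _).trans (Finset.sum_le_sum fun e he => ?_)
    rw [← mul_sub, ← Finset.sum_sub_distrib, abs_mul, abs_of_nonneg (hκ e).1]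
    have h6 : |∑ v ∈ F p, ((BB l p (v * e) v X : ℝ) - f p e v)| ≤ ∑ v ∈ Icc 1 M, g p e v := by
      refine (Finset.abs_sum_le_sum_abs _ _).trans ?_
      refine le_trans (Finset.sum_le_sum fun v hv' => hpt' p hp e he v (hFM p hp hv')) ?_
      refine Finset.sum_le_sum_of_subset_of_nonneg (hFM p hp) fun v hv' _ => ?_
      exact (abs_nonneg _).trans (hpt' p hp e he v hv')
    calc κ e * |∑ v ∈ F p, ((BB l p (v * e) v X : ℝ) - f p e v)|
        ≤ 1 * |∑ v ∈ F p, ((BB l p (v * e) v X : ℝ) - f p e v)| :=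
          mul_le_mul_of_nonneg_right (hκ e).2 (abs_nonneg _)
      _ ≤ _ := by rw [one_mul]; exact h6
  -- the sum of the errors
  have hcP : (P.card : ℝ) ≤ X ^ θ := by
    refine le_trans ?_ hNX
    have := Finset.card_filter_le (Icc 1 N) (fun p => p.Prime ∧ p ≠ 2)
    rw [Nat.card_Icc, Nat.add_sub_cancel, ← hP] at this
    exact_mod_cast this
  have hsumg : ∑ p ∈ P, ∑ e ∈ Icc 1 Q, ∑ v ∈ Icc 1 M, g p e v ≤
      16 * C * X ^ (θ + 1 / 3 + θ / 4) + 32 * C * (X ^ (1 / 2 + θ / 4) * (1 + Real.log X)) := by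
    have h5 : ∀ p ∈ P, ∑ e ∈ Icc 1 Q, ∑ v ∈ Icc 1 M, g p e v ≤
        2 * C * X ^ (θ / 4) * (4 * (X ^ δ * (2 * X ^ b)) + 16 * √X * (1 / (p : ℝ))) := by
      intro p hp
      rw [hP, Finset.mem_filter, Finset.mem_Icc] at hp
      obtain ⟨_, hpp, hp2⟩ := hp
      have hp0 : (0 : ℝ) < p := by exact_mod_cast hpp.pos
      have h6 : ∀ e ∈ Icc 1 Q, ∑ v ∈ Icc 1 M, g p e v ≤
          2 * C * X ^ (θ / 4) * (4 * (2 * X ^ b) + 8 * √X * (1 / (p : ℝ)) * (1 / (e : ℝ) ^ 2)) := by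
        intro e he
        rw [Finset.mem_Icc] at he
        have he0 : (0 : ℝ) < e := by exact_mod_cast he.1
        rw [hg]
        simp only
        rw [← Finset.mul_sum, Finset.sum_add_distrib, ← Finset.mul_sum, ← Finset.mul_sum,
          Finset.sum_const, Nat.card_Icc, Nat.add_sub_cancel, nsmul_eq_mul]
        refine mul_le_mul_of_nonneg_left ?_ (by positivity)
        have h7 := LL_sum h3 h4 (show 0 < 4 * (p : ℝ) ^ l by positivity) hXp M
        have h8 : (1 / (p : ℝ)) * (1 / (e : ℝ) ^ 2) *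
            ∑ i ∈ Icc 1 M, LL (4 * (p : ℝ) ^ l) X i / (i : ℝ) ^ 2 ≤
            (1 / (p : ℝ)) * (1 / (e : ℝ) ^ 2) * (4 * √X) :=
          mul_le_mul_of_nonneg_left h7 (by positivity)
        linarith
      refine (Finset.sum_le_sum h6).trans ?_
      rw [← Finset.mul_sum, Finset.sum_add_distrib,
        Finset.sum_const, Nat.card_Icc, Nat.add_sub_cancel, nsmul_eq_mul, ← Finset.mul_sum]
      refine mul_le_mul_of_nonneg_left ?_ (by positivity)
      have h7 := inv_sq Q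
      have h8 : 8 * √X * (1 / (p : ℝ)) * ∑ i ∈ Icc 1 Q, 1 / (i : ℝ) ^ 2 ≤
          8 * √X * (1 / (p : ℝ)) * 2 := mul_le_mul_of_nonneg_left h7 (by positivity)
      have h9 : (Q : ℝ) * (4 * (2 * X ^ b)) ≤ X ^ δ * (4 * (2 * X ^ b)) :=
        mul_le_mul_of_nonneg_right hQX (by positivity)
      linarith
    refine (Finset.sum_le_sum h5).trans ?_
    rw [← Finset.mul_sum, Finset.sum_add_distrib,
        Finset.sum_const, nsmul_eq_mul, ← Finset.mul_sum]
    have h7 : ∑ p ∈ P, 1 / (p : ℝ) ≤ 1 + Real.log X := by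
      calc ∑ p ∈ P, 1 / (p : ℝ) ≤ ∑ p ∈ Icc 1 N, 1 / (p : ℝ) := by
            rw [hP]
            exact Finset.sum_le_sum_of_subset_of_nonneg (Finset.filter_subset _ _)
              fun v _ _ => by positivity
        _ ≤ 1 + Real.log N := harm N hN1
        _ ≤ 1 + Real.log X := by
            have hNX' : (N : ℝ) ≤ X := by
              refine hNX.trans ?_
              have := hXm θ 1 (by linarith)
              rwa [Real.rpow_one] at this
            have hN0 : (0 : ℝ) < N := by exact_mod_cast hN1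
            have := Real.log_le_log hN0 hNX'
            linarith
    have h8 : (P.card : ℝ) * (4 * (X ^ δ * (2 * X ^ b))) ≤ 8 * X ^ (θ + 1 / 3) := by
      calc (P.card : ℝ) * (4 * (X ^ δ * (2 * X ^ b))) ≤ X ^ θ * (4 * (X ^ δ * (2 * X ^ b))) :=
            mul_le_mul_of_nonneg_right hcP (by positivity)
        _ = 8 * (X ^ θ * (X ^ δ * X ^ b)) := by ring
        _ ≤ 8 * X ^ (θ + 1 / 3) := by
            rw [hXa, hXa]
            have := hXm (θ + (δ + b)) (θ + 1 / 3) (by linarith)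
            linarith
    have h9 : 16 * √X * ∑ p ∈ P, 1 / (p : ℝ) ≤ 16 * √X * (1 + Real.log X) :=
      mul_le_mul_of_nonneg_left h7 (by positivity)
    calc _ ≤ 2 * C * X ^ (θ / 4) * (8 * X ^ (θ + 1 / 3) + 16 * √X * (1 + Real.log X)) := by
          refine mul_le_mul_of_nonneg_left ?_ (by positivity)
          linarith
      _ = 16 * C * (X ^ (θ + 1 / 3) * X ^ (θ / 4)) +
          32 * C * (X ^ (1 / 2 : ℝ) * X ^ (θ / 4) * (1 + Real.log X)) := by
          rw [← Real.sqrt_eq_rpow]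
          ring
      _ = _ := by rw [hXa, hXa]
  refine (hd.trans hsumg).trans ?_
  have hlog : Real.log X ≤ X ^ s / s := Real.log_le_rpow_div hXp.le hs0
  have hXs1 : 1 ≤ X ^ s := Real.one_le_rpow hX1 hs0.le
  have hlog1 : 1 + Real.log X ≤ (1 + 1 / s) * X ^ s := by
    have : X ^ s / s = 1 / s * X ^ s := by ring
    rw [this] at hlog
    linarith
  rw [← mul_div_assoc, le_div_iff₀ hlogX]
  calc (16 * C * X ^ (θ + 1 / 3 + θ / 4) + 32 * C * (X ^ (1 / 2 + θ / 4) * (1 + Real.log X))) *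
        Real.log X
      ≤ (16 * C * X ^ (θ + 1 / 3 + θ / 4) + 32 * C * (X ^ (1 / 2 + θ / 4) * ((1 + 1 / s) * X ^ s))) *
        (X ^ s / s) := by gcongr
    _ = 16 * C / s * (X ^ (θ + 1 / 3 + θ / 4) * X ^ s) +
        32 * C * (1 + 1 / s) / s * (X ^ (1 / 2 + θ / 4) * X ^ s * X ^ s) := by ring
    _ ≤ 16 * C / s * X ^ (1 / 2 + θ - s) + 32 * C * (1 + 1 / s) / s * X ^ (1 / 2 + θ - s) := by
        rw [hXa, hXa, hXa]
        have h5 := hXm (θ + 1 / 3 + θ / 4 + s) (1 / 2 + θ - s) (by rw [hs]; linarith)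
        have h6 := hXm (1 / 2 + θ / 4 + s + s) (1 / 2 + θ - s) (by rw [hs]; linarith)
        gcongr
    _ = A * X ^ (1 / 2 + θ - s) := by rw [hA]; ring
    _ ≤ (ε * X ^ s) * X ^ (1 / 2 + θ - s) := by
        refine mul_le_mul_of_nonneg_right ?_ (by positivity)
        rw [div_le_iff₀ hε] at hXG
        linarith
    _ = ε * (X ^ s * X ^ (1 / 2 + θ - s)) := by ring
    _ = ε * (√X * X ^ θ) := by
        rw [hXa, Real.sqrt_eq_rpow, hXa]
        congr 2
        ring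

end Pool.Agent.T2h80.CL
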