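import Pool.Agent.T2h80.CL.Bl
import Pool.Agent.T2h80.CL.VA

/-!
BU: the small primes in the main sum.
-/

set_option autoImplicit false
set_option linter.all false

namespace Pool.Agent.T2h80.CL

open Finset

namespace BUh

open VAh

/-- one dyadic block -/
lemma block (hPR : S_PR) (h3 : S_WA) (h4 : S_WL) (l : ℕ) (θ δ : ℝ) (hPar : Par l θ δ) :
    ∃ C : ℝ, 0 < C ∧ ∃ X₀ : ℝ, ∀ X : ℝ, X₀ ≤ X → ∀ κ : ℕ → ℝ, (∀ e, 0 ≤ κ e ∧ κ e ≤ 1) →
      ∀ P : ℝ, X ^ (θ * (1 - δ / 2)) / 2 ≤ P → 2 * P ≤ X ^ θ →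
      MM l ⌊X ^ θ⌋₊ X (X ^ (1 - 2 * δ)) ⌊X ^ δ⌋₊ κ P (2 * P) ≤ C * (√X * P / Real.log X) := by
  classical
  obtain ⟨hl, hl5, hθ1, hδ, hpar⟩ := hPar
  obtain ⟨L, hL⟩ : ∃ L : ℝ, L = l := ⟨_, rfl⟩
  have hL5 : 5 ≤ L := by rw [hL]; exact_mod_cast hl5
  rw [← hL] at hθ1 hpar
  have hθ0 : 0 < θ := lt_trans (by positivity) hθ1
  have hδ8 : δ ≤ 1 / 8 := by nlinarith
  have hθ3 : θ ≤ 1 / 3 := by nlinarith
  obtain ⟨t₀, hPR⟩ := hPR δ hδ 1 one_pos 1
  obtain ⟨c₀, hc₀⟩ : ∃ c₀ : ℝ, c₀ = θ * (1 - δ / 2) := ⟨_, rfl⟩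
  have hc₀0 : 0 < c₀ := by rw [hc₀]; exact mul_pos hθ0 (by linarith)
  have hc₀2 : θ / 2 ≤ c₀ := by rw [hc₀]; nlinarith
  have hX1 := (tendsto_rpow_atTop hc₀0).eventually_ge_atTop (max t₀ 2)
  have hX2 := (tendsto_rpow_atTop hδ).eventually_ge_atTop ((2 : ℝ) ^ (l + 1))
  have hX3 := Real.tendsto_log_atTop.eventually_ge_atTop (max 1 (4 * Real.log 2 / θ))
  obtain ⟨X₀, hX₀⟩ := Filter.eventually_atTop.1 ((hX1.and hX2).and hX3)
  refine ⟨(2 : ℝ) ^ l * (32 + 16 / θ) * (4 / θ), by positivity, max X₀ 3, fun X hX κ hκ P hP1 hP2 => ?_⟩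
  obtain ⟨⟨hXa1, hXa2⟩, hXa3⟩ := hX₀ X ((le_max_left _ _).trans hX)
  have hX3 : 3 ≤ X := (le_max_right _ _).trans hX
  have hX1' : 1 ≤ X := by linarith
  have hXp : 0 < X := by linarith
  have hlogX : 1 ≤ Real.log X := (le_max_left _ _).trans hXa3
  have hlogX2 : 4 * Real.log 2 / θ ≤ Real.log X := (le_max_right _ _).trans hXa3
  have hXm : ∀ s t : ℝ, s ≤ t → X ^ s ≤ X ^ t := fun s t h => Real.rpow_le_rpow_of_exponent_le hX1' h
  have hXa : ∀ s t : ℝ, X ^ s * X ^ t = X ^ (s + t) := fun s t => (Real.rpow_add hXp s t).symm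
  rw [← hc₀] at hP1
  have hP21 : X ^ c₀ ≤ 2 * P := by linarith
  have hP1' : 1 ≤ P := by
    have : (2 : ℝ) ≤ X ^ c₀ := (le_max_right _ _).trans hXa1
    linarith
  have hP0 : 0 < P := by linarith
  have ht₀ : t₀ ≤ 2 * P := ((le_max_left _ _).trans hXa1).trans hP21
  have hPX : P ≤ X ^ θ := by linarith
  have hlogP : θ / 4 * Real.log X ≤ Real.log P := by
    have h5 : Real.log (X ^ c₀ / 2) ≤ Real.log P := Real.log_le_log (by positivity) hP1
    rw [Real.log_div (by positivity) (by norm_num), Real.log_rpow hXp] at h5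
    have h6 : Real.log 2 ≤ θ / 4 * Real.log X := by
      rw [div_le_iff₀ hθ0] at hlogX2
      linarith
    have h7 : θ / 2 * Real.log X ≤ c₀ * Real.log X :=
      mul_le_mul_of_nonneg_right hc₀2 (by linarith)
    linarith
  have hlogP0 : 0 < Real.log P := lt_of_lt_of_le (by positivity) hlogP
  have hlog2P : Real.log P ≤ Real.log (2 * P) := Real.log_le_log hP0 (by linarith)
  obtain ⟨N, hN⟩ : ∃ N, N = ⌊X ^ θ⌋₊ := ⟨_, rfl⟩
  obtain ⟨Q, hQ⟩ : ∃ Q, Q = ⌊X ^ δ⌋₊ := ⟨_, rfl⟩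
  obtain ⟨K, hK⟩ : ∃ K, K = X ^ (1 - 2 * δ) := ⟨_, rfl⟩
  rw [← hN, ← hQ, ← hK]
  have hK0 : 0 < K := by rw [hK]; positivity
  have hQX : (Q : ℝ) ≤ X ^ δ := by rw [hQ]; exact Nat.floor_le (by positivity)
  have hQ1 : 1 ≤ Q := by
    rw [hQ]
    apply Nat.le_floor
    exact_mod_cast Real.one_le_rpow hX1' hδ.le
  obtain ⟨A, hA⟩ : ∃ A, A = √(4 * P ^ l) := ⟨_, rfl⟩
  have hA0 : 0 < A := by rw [hA]; exact Real.sqrt_pos.2 (by positivity)
  have hA2 : A ^ 2 = 4 * P ^ l := by rw [hA]; exact Real.sq_sqrt (by positivity)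
  have h2l1 : (1 : ℝ) ≤ 2 ^ l := one_le_pow₀ (by norm_num)
  have hsK : √K = X ^ (1 / 2 - δ) := by
    rw [hK, Real.sqrt_eq_rpow, ← Real.rpow_mul hXp.le]
    congr 1
    ring
  have hsK0 : 0 < √K := Real.sqrt_pos.2 hK0
  obtain ⟨V, hV⟩ : ∃ V, V = ⌊2 ^ l * A / √K⌋₊ := ⟨_, rfl⟩
  have hVle : (V : ℝ) ≤ 2 ^ l * A / √K := by rw [hV]; exact Nat.floor_le (by positivity)
  obtain ⟨ρ, hρ⟩ : ∃ ρ : ℕ → ℝ, ρ = fun (v : ℕ) => min (2 ^ l * A / (v : ℝ) ^ 2) (X / A) := ⟨_, rfl⟩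
  have hρ0 : ∀ v, 0 ≤ ρ v := by
    intro v
    rw [hρ]
    positivity
  have hsX0 : 0 < √X := Real.sqrt_pos.2 hXp
  obtain ⟨B, hB⟩ : ∃ B : ℝ, B = 2 ^ l * √X := ⟨_, rfl⟩
  have hB0 : 0 < B := by rw [hB]; positivity
  -- `ρ v * v ≤ B`
  have hρB : ∀ v : ℕ, 1 ≤ v → ρ v * v ≤ B := by
    intro v hv
    have hv0 : (0 : ℝ) < v := by exact_mod_cast hv
    have h5 : (ρ v * v) ^ 2 ≤ 2 ^ l * X := by
      have h6 : ρ v ≤ 2 ^ l * A / (v : ℝ) ^ 2 := by rw [hρ]; exact min_le_left _ _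
      have h7 : ρ v ≤ X / A := by rw [hρ]; exact min_le_right _ _
      calc (ρ v * v) ^ 2 = (ρ v * ρ v) * (v : ℝ) ^ 2 := by ring
        _ ≤ ((2 ^ l * A / (v : ℝ) ^ 2) * (X / A)) * (v : ℝ) ^ 2 := by
            have := mul_le_mul h6 h7 (hρ0 v) (by positivity)
            exact mul_le_mul_of_nonneg_right this (by positivity)
        _ = 2 ^ l * X := by field_simp
    have h8 : B ^ 2 = 2 ^ l * 2 ^ l * X := by
      rw [hB, mul_pow, Real.sq_sqrt hXp.le]
      ring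
    have h9 : 2 ^ l * X ≤ B ^ 2 := by
      rw [h8]
      have : (0 : ℝ) < 2 ^ l * X := by positivity
      nlinarith
    exact le_of_sq_le_sq (h5.trans h9) hB0.le
  obtain ⟨M₀, hM₀⟩ : ∃ M₀ : ℝ, M₀ = B * (1 + Real.log Q) := ⟨_, rfl⟩
  have hlQ : 0 ≤ Real.log Q := Real.log_nonneg (by exact_mod_cast hQ1)
  have hM₀0 : 0 < M₀ := by rw [hM₀]; positivity
  obtain ⟨c, hc⟩ : ∃ c : ℕ → ℝ, c = fun (f : ℕ) => (1 / M₀) * ∑ e ∈ Icc 1 Q, ∑ v ∈ Icc 1 V,
      (if v * e = f then ρ v / (e : ℝ) ^ 2 else 0) := ⟨_, rfl⟩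
  have hc01 : ∀ f ∈ Icc 1 (V * Q), 0 ≤ c f ∧ c f ≤ 1 / f := by
    intro f hf
    rw [Finset.mem_Icc] at hf
    have hf0 : (0 : ℝ) < f := by exact_mod_cast hf.1
    constructor
    · rw [hc]
      refine mul_nonneg (by positivity) (Finset.sum_nonneg fun e _ => Finset.sum_nonneg fun v _ => ?_)
      split_ifs
      · have := hρ0 v
        positivity
      · exact le_rfl
    · have h5 : ∀ e ∈ Icc 1 Q, ∑ v ∈ Icc 1 V, (if v * e = f then ρ v / (e : ℝ) ^ 2 else 0) ≤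
          (B / f) * (1 / (e : ℝ)) := by
        intro e he
        rw [Finset.mem_Icc] at he
        have he0 : (0 : ℝ) < e := by exact_mod_cast he.1
        have h6 : ∀ v ∈ Icc 1 V, (if v * e = f then ρ v / (e : ℝ) ^ 2 else 0) ≤
            (if v = f / e then (B / f) * (1 / (e : ℝ)) else 0) := by
          intro v hv
          rw [Finset.mem_Icc] at hv
          have hv0 : (0 : ℝ) < v := by exact_mod_cast hv.1
          by_cases h7 : v * e = f
          · have h8 : v = f / e := by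
              rw [← h7, Nat.mul_div_cancel _ (by omega)]
            rw [if_pos h7, if_pos h8]
            have h9 : (f : ℝ) = v * e := by rw [← h7]; push_cast; rfl
            rw [h9, div_le_iff₀ (by positivity)]
            have h10 : B / ((v : ℝ) * e) * (1 / (e : ℝ)) * (e : ℝ) ^ 2 = B / v := by field_simp
            rw [h10, le_div_iff₀ hv0]
            exact hρB v hv.1
          · rw [if_neg h7]
            split_ifs <;> positivity
        refine (Finset.sum_le_sum h6).trans ?_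
        rw [Finset.sum_ite_eq' (Icc 1 V) (f / e)]
        split_ifs
        · exact le_rfl
        · positivity
      rw [hc]
      simp only
      rw [one_div_mul_eq_div, div_le_iff₀ hM₀0]
      refine (Finset.sum_le_sum h5).trans ?_
      rw [← Finset.mul_sum]
      have h6 := harm Q hQ1
      calc B / f * ∑ e ∈ Icc 1 Q, 1 / (e : ℝ) ≤ B / f * (1 + Real.log Q) :=
            mul_le_mul_of_nonneg_left h6 (by positivity)
        _ = 1 / f * M₀ := by rw [hM₀]; ring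
  -- the length
  have hAP : A = 2 * P ^ (L / 2) := by
    have h5 : 4 * P ^ l = (2 * P ^ (L / 2)) ^ 2 := by
      have h6 : (P ^ (L / 2)) ^ 2 = P ^ l := by
        rw [← Real.rpow_natCast (P ^ (L / 2)) 2, ← Real.rpow_mul hP0.le, hL, ← Real.rpow_natCast P l]
        congr 1
        push_cast
        ring
      rw [mul_pow, h6]
      norm_num
    rw [hA, h5, Real.sqrt_sq (by positivity)]
  have hPX1 : P ≤ X := by
    have := hXm θ 1 (by linarith)
    rw [Real.rpow_one] at this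
    linarith
  have hE : ((V * Q : ℕ) : ℝ) ≤ (2 * P) ^ (1 - δ) := by
    push_cast
    have h5 : P ^ (L / 2) ≤ P * X ^ (θ * (L - 2) / 2) := by
      have h6 : P ^ (L / 2) = P * P ^ ((L - 2) / 2) := by
        rw [← Real.rpow_one_add' hP0.le (by linarith)]
        congr 1
        ring
      have h7 : P ^ ((L - 2) / 2) ≤ X ^ (θ * (L - 2) / 2) := by
        calc P ^ ((L - 2) / 2) ≤ (X ^ θ) ^ ((L - 2) / 2) :=
              Real.rpow_le_rpow hP0.le hPX (by linarith)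
          _ = _ := by
              rw [← Real.rpow_mul hXp.le]
              congr 1
              ring
      rw [h6]
      exact mul_le_mul_of_nonneg_left h7 hP0.le
    have h6 : (V : ℝ) * Q ≤ 2 ^ (l + 1) * (P * X ^ (-(2 * δ))) := by
      calc (V : ℝ) * Q ≤ (2 ^ l * A / √K) * X ^ δ := by gcongr
        _ = 2 ^ l * (2 * P ^ (L / 2)) * (X ^ (-(1 / 2 - δ)) * X ^ δ) := by
            rw [hAP, hsK, Real.rpow_neg hXp.le]
            ring
        _ ≤ 2 ^ l * (2 * (P * X ^ (θ * (L - 2) / 2))) * (X ^ (-(1 / 2 - δ)) * X ^ δ) := by gcongr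
        _ = 2 ^ (l + 1) * (P * (X ^ (θ * (L - 2) / 2) * X ^ (-(1 / 2 - δ)) * X ^ δ)) := by
            rw [pow_succ]
            ring
        _ ≤ _ := by
            rw [hXa, hXa]
            have := hXm (θ * (L - 2) / 2 + -(1 / 2 - δ) + δ) (-(2 * δ)) (by linarith)
            gcongr
    refine h6.trans ?_
    calc 2 ^ (l + 1) * (P * X ^ (-(2 * δ))) ≤ X ^ δ * (P * X ^ (-(2 * δ))) := by gcongr
      _ = P * (X ^ δ * X ^ (-(2 * δ))) := by ring
      _ = P * X ^ (-δ) := by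
          rw [hXa]
          congr 2
          ring
      _ ≤ P * P ^ (-δ) := by
          refine mul_le_mul_of_nonneg_left ?_ hP0.le
          exact Real.rpow_le_rpow_of_nonpos hP0 hPX1 (by linarith)
      _ = P ^ (1 - δ) := by
          rw [sub_eq_add_neg, Real.rpow_one_add' hP0.le (by linarith)]
      _ ≤ _ := Real.rpow_le_rpow hP0.le (by linarith) (by linarith)
  -- summation over `f`
  have hcg : ∀ g : ℕ → ℝ, ∑ f ∈ Icc 1 (V * Q), c f * g f =
      (1 / M₀) * ∑ e ∈ Icc 1 Q, ∑ v ∈ Icc 1 V, ρ v / (e : ℝ) ^ 2 * g (v * e) := by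
    intro g
    have h5 : ∀ f ∈ Icc 1 (V * Q), c f * g f = (1 / M₀) * ∑ e ∈ Icc 1 Q, ∑ v ∈ Icc 1 V,
        (if v * e = f then ρ v / (e : ℝ) ^ 2 * g (v * e) else 0) := by
      intro f _
      rw [hc]
      simp only
      rw [mul_assoc, Finset.sum_mul]
      congr 1
      refine Finset.sum_congr rfl fun e _ => ?_
      rw [Finset.sum_mul]
      refine Finset.sum_congr rfl fun v _ => ?_
      split_ifs with h
      · rw [h]
      · rw [zero_mul]
    rw [Finset.sum_congr rfl h5, ← Finset.mul_sum]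
    congr 1
    rw [Finset.sum_comm]
    refine Finset.sum_congr rfl fun e he => ?_
    rw [Finset.sum_comm]
    refine Finset.sum_congr rfl fun v hv => ?_
    rw [Finset.mem_Icc] at he hv
    rw [Finset.sum_ite_eq, if_pos]
    rw [Finset.mem_Icc]
    exact ⟨Nat.mul_pos hv.1 he.1, Nat.mul_le_mul hv.2 he.2⟩
  have hR : ∑ e ∈ Icc 1 Q, ∑ v ∈ Icc 1 V, ρ v / (e : ℝ) ^ 2 ≤ 8 * B := by
    have h5 : ∑ v ∈ Icc 1 V, ρ v ≤ 4 * B := by
      have h6 := h3 (2 ^ l * A) (X / A) (by positivity) (by positivity) V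
      have h7 : 2 ^ l * A * (X / A) = 2 ^ l * X := by field_simp
      rw [h7] at h6
      have h8 : √(2 ^ l * X) ≤ B := by
        rw [Real.sqrt_le_left hB0.le, hB, mul_pow, Real.sq_sqrt hXp.le]
        have : (0 : ℝ) < 2 ^ l * X := by positivity
        nlinarith
      rw [hρ]
      linarith
    have h6 : ∑ e ∈ Icc 1 Q, ∑ v ∈ Icc 1 V, ρ v / (e : ℝ) ^ 2 =
        (∑ v ∈ Icc 1 V, ρ v) * ∑ e ∈ Icc 1 Q, 1 / (e : ℝ) ^ 2 := by
      rw [Finset.mul_sum]
      refine Finset.sum_congr rfl fun e _ => ?_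
      rw [← Finset.sum_div]
      ring
    rw [h6]
    have h7 := inv_sq Q
    have h8 : 0 ≤ ∑ e ∈ Icc 1 Q, 1 / (e : ℝ) ^ 2 := Finset.sum_nonneg fun e _ => by positivity
    calc _ ≤ 4 * B * 2 := mul_le_mul h5 h7 h8 (by positivity)
      _ = _ := by ring
  have hkey : ∑ e ∈ Icc 1 Q, ∑ v ∈ Icc 1 V, ρ v / (e : ℝ) ^ 2 * thS (2 * P) (v * e) ≤
      2 ^ l * (32 + 16 / θ) * (√X * P) := by
    have h5 := hPR (2 * P) ht₀ (V * Q) hE c hc01
    have h6 := (abs_le.1 h5).2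
    have h7 := hcg (fun f => thS (2 * P) f)
    have h8 := hcg (fun _ => 1)
    simp only [mul_one] at h8
    obtain ⟨S1, hS1⟩ : ∃ S1, S1 = ∑ e ∈ Icc 1 Q, ∑ v ∈ Icc 1 V, ρ v / (e : ℝ) ^ 2 *
      thS (2 * P) (v * e) := ⟨_, rfl⟩
    obtain ⟨S2, hS2⟩ : ∃ S2, S2 = ∑ e ∈ Icc 1 Q, ∑ v ∈ Icc 1 V, ρ v / (e : ℝ) ^ 2 := ⟨_, rfl⟩
    rw [← hS1] at h7 ⊢
    rw [← hS2] at h8 hR
    rw [h7, h8] at h6
    have h9 : S1 ≤ 4 * P * S2 + M₀ * (2 * P / Real.log (2 * P)) := by
      have h10 : 1 / M₀ * S1 ≤ 1 / M₀ * (4 * P * S2) + 2 * P / Real.log (2 * P) := by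
        rw [pow_one] at h6
        linarith
      have h11 := mul_le_mul_of_nonneg_left h10 hM₀0.le
      have h12 : M₀ * (1 / M₀ * S1) = S1 := by field_simp
      have h13 : M₀ * (1 / M₀ * (4 * P * S2) + 2 * P / Real.log (2 * P)) =
          4 * P * S2 + M₀ * (2 * P / Real.log (2 * P)) := by field_simp
      rw [h12, h13] at h11
      exact h11
    have h10 : (1 + Real.log Q) / Real.log (2 * P) ≤ 8 / θ := by
      rw [div_le_div_iff₀ (by linarith) hθ0]
      have h11 : Real.log Q ≤ Real.log X := by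
        have h12 : (Q : ℝ) ≤ X := by
          refine hQX.trans ?_
          have := hXm δ 1 (by linarith)
          rwa [Real.rpow_one] at this
        exact Real.log_le_log (by exact_mod_cast hQ1) h12
      have h12 : (1 + Real.log Q) * θ ≤ 2 * Real.log X * θ :=
        mul_le_mul_of_nonneg_right (by linarith) hθ0.le
      have h13 : 8 * (θ / 4 * Real.log X) ≤ 8 * Real.log (2 * P) := by linarith
      linarith
    have h11 : M₀ * (2 * P / Real.log (2 * P)) ≤ 2 * P * B * (8 / θ) := by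
      calc M₀ * (2 * P / Real.log (2 * P)) = 2 * P * B * ((1 + Real.log Q) / Real.log (2 * P)) := by
            rw [hM₀]; ring
        _ ≤ _ := mul_le_mul_of_nonneg_left h10 (by positivity)
    have h12 : 4 * P * S2 ≤ 4 * P * (8 * B) := mul_le_mul_of_nonneg_left hR (by positivity)
    calc S1 ≤ 4 * P * (8 * B) + 2 * P * B * (8 / θ) := by linarith
      _ = _ := by
          rw [hB]
          ring
  -- the block
  have hMM : MM l N X K Q κ P (2 * P) ≤ (1 / Real.log P) *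
      ∑ e ∈ Icc 1 Q, ∑ v ∈ Icc 1 V, ρ v / (e : ℝ) ^ 2 * thS (2 * P) (v * e) := by
    unfold MM
    obtain ⟨F, hF⟩ : ∃ F, F = (Icc 1 N).filter (fun p : ℕ => p.Prime ∧ p ≠ 2 ∧ P < (p : ℝ) ∧
      (p : ℝ) ≤ 2 * P) := ⟨_, rfl⟩
    rw [← hF]
    have h5 : ∀ p ∈ F, ∀ e ∈ Icc 1 Q, κ e * ∑ v ∈ (Icc 1 (4 * N ^ l)).filter
        (fun v : ℕ => K * (v : ℝ) ^ 2 ≤ 4 * (p : ℝ) ^ l ∧ ¬ p ∣ v * e),
        (nsq p (v * e) : ℝ) * LL (4 * (p : ℝ) ^ l) X v / ((v : ℝ) * e) ^ 2 ≤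
        ∑ v ∈ Icc 1 V, (if ¬ p ∣ v * e then (nsq p (v * e) : ℝ) * (ρ v / (e : ℝ) ^ 2) else 0) := by
      intro p hp e he
      rw [hF, Finset.mem_filter, Finset.mem_Icc] at hp
      rw [Finset.mem_Icc] at he
      obtain ⟨_, hpp, hp2, hpP, hpP2⟩ := hp
      have hp0 : (0 : ℝ) < p := by exact_mod_cast hpp.pos
      have he0 : (0 : ℝ) < e := by exact_mod_cast he.1
      have hpl : 4 * (p : ℝ) ^ l ≤ 2 ^ l * A ^ 2 := by
        rw [hA2]
        calc 4 * (p : ℝ) ^ l ≤ 4 * (2 * P) ^ l := by gcongr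
          _ = _ := by rw [mul_pow]; ring
      have hpl2 : 4 * (p : ℝ) ^ l ≤ (2 ^ l * A) ^ 2 := by
        refine hpl.trans ?_
        rw [mul_pow]
        have h6 : (0 : ℝ) < 2 ^ l * A ^ 2 := by positivity
        nlinarith
      have hsq1 : √(4 * (p : ℝ) ^ l) ≤ 2 ^ l * A := by
        rw [Real.sqrt_le_left (by positivity)]
        exact hpl2
      have hsq2 : A ≤ √(4 * (p : ℝ) ^ l) := by
        rw [hA]
        apply Real.sqrt_le_sqrt
        gcongr
      have hnn : ∀ v : ℕ, 0 ≤ (if ¬ p ∣ v * e then (nsq p (v * e) : ℝ) * (ρ v / (e : ℝ) ^ 2)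
          else 0) := by
        intro v
        have := hρ0 v
        split_ifs <;> positivity
      have h6 : ∑ v ∈ (Icc 1 (4 * N ^ l)).filter
        (fun v : ℕ => K * (v : ℝ) ^ 2 ≤ 4 * (p : ℝ) ^ l ∧ ¬ p ∣ v * e),
        (nsq p (v * e) : ℝ) * LL (4 * (p : ℝ) ^ l) X v / ((v : ℝ) * e) ^ 2 ≤
        ∑ v ∈ Icc 1 V, (if ¬ p ∣ v * e then (nsq p (v * e) : ℝ) * (ρ v / (e : ℝ) ^ 2) else 0) := by
        refine le_trans (Finset.sum_le_sum (g := fun v => (if ¬ p ∣ v * e then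
          (nsq p (v * e) : ℝ) * (ρ v / (e : ℝ) ^ 2) else 0)) fun v hv => ?_) ?_
        · rw [Finset.mem_filter, Finset.mem_Icc] at hv
          obtain ⟨⟨hv1, _⟩, hvK, hvp⟩ := hv
          have hv0 : (0 : ℝ) < v := by exact_mod_cast hv1
          obtain ⟨⟨h7, h8, h9⟩, _⟩ := h4 (4 * (p : ℝ) ^ l) X (by positivity) hXp v hv1
          rw [if_pos hvp, mul_div_assoc]
          refine mul_le_mul_of_nonneg_left ?_ (Nat.cast_nonneg _)
          rw [mul_pow, ← div_div]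
          refine div_le_div_of_nonneg_right ?_ (by positivity)
          rw [hρ]
          refine le_min ?_ ?_
          · exact div_le_div_of_nonneg_right (h8.trans hsq1) (by positivity)
          · rw [div_le_iff₀ (by positivity)]
            calc LL (4 * (p : ℝ) ^ l) X v ≤ X * (v : ℝ) ^ 2 / √(4 * (p : ℝ) ^ l) := h9
              _ ≤ X * (v : ℝ) ^ 2 / A := by
                  apply div_le_div_of_nonneg_left (by positivity) hA0 hsq2
              _ = _ := by ring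
        · refine Finset.sum_le_sum_of_subset_of_nonneg ?_ fun v _ _ => hnn v
          intro v hv
          rw [Finset.mem_filter, Finset.mem_Icc] at hv
          obtain ⟨⟨hv1, _⟩, hvK, hvp⟩ := hv
          rw [Finset.mem_Icc]
          refine ⟨hv1, ?_⟩
          rw [hV]
          apply Nat.le_floor
          rw [le_div_iff₀ hsK0]
          refine le_of_sq_le_sq ?_ (by positivity)
          rw [mul_pow, Real.sq_sqrt hK0.le]
          linarith
      calc _ ≤ 1 * ∑ v ∈ Icc 1 V, (if ¬ p ∣ v * e then (nsq p (v * e) : ℝ) * (ρ v / (e : ℝ) ^ 2)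
            else 0) := by
            refine mul_le_mul (hκ e).2 h6 (Finset.sum_nonneg fun v hv => ?_) (by norm_num)
            rw [Finset.mem_filter, Finset.mem_Icc] at hv
            have := (h4 (4 * (p : ℝ) ^ l) X (by positivity) hXp v hv.1.1).1.1
            positivity
        _ = _ := one_mul _
    refine (Finset.sum_le_sum fun p hp => Finset.sum_le_sum fun e he => h5 p hp e he).trans ?_
    rw [Finset.sum_comm, Finset.mul_sum]
    refine Finset.sum_le_sum fun e he => ?_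
    rw [Finset.sum_comm, Finset.mul_sum]
    refine Finset.sum_le_sum fun v hv => ?_
    rw [← Finset.sum_filter, ← Finset.sum_mul]
    have h6 : (∑ p ∈ F.filter (fun p => ¬ p ∣ v * e), (nsq p (v * e) : ℝ)) * Real.log P ≤
        thS (2 * P) (v * e) := by
      unfold thS
      rw [Finset.sum_mul]
      refine le_trans (Finset.sum_le_sum (g := fun p : ℕ => (nsq p (v * e) : ℝ) * Real.log p)
        fun p hp => ?_) ?_
      · rw [Finset.mem_filter, hF, Finset.mem_filter] at hp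
        exact mul_le_mul_of_nonneg_left (Real.log_le_log hP0 hp.1.2.2.2.1.le) (Nat.cast_nonneg _)
      · refine Finset.sum_le_sum_of_subset_of_nonneg ?_ ?_
        · intro p hp
          rw [Finset.mem_filter, hF, Finset.mem_filter, Finset.mem_Icc] at hp
          rw [Finset.mem_filter, Finset.mem_Icc]
          exact ⟨⟨hp.1.1.1, Nat.le_floor hp.1.2.2.2.2⟩, hp.1.2.1, hp.2⟩
        · intro p hp _
          rw [Finset.mem_filter] at hp
          exact mul_nonneg (Nat.cast_nonneg _) (Real.log_natCast_nonneg p)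
    have h7 : 0 ≤ ρ v / (e : ℝ) ^ 2 := div_nonneg (hρ0 v) (by positivity)
    calc _ ≤ (1 / Real.log P * thS (2 * P) (v * e)) * (ρ v / (e : ℝ) ^ 2) := by
          refine mul_le_mul_of_nonneg_right ?_ h7
          rw [one_div_mul_eq_div, le_div_iff₀ hlogP0]
          exact h6
      _ = _ := by ring
  refine hMM.trans ?_
  have h5 : 0 < 2 ^ l * (32 + 16 / θ) * (√X * P) := by positivity
  have hlogX0 : 0 < Real.log X := by linarith
  calc _ ≤ (1 / Real.log P) * (2 ^ l * (32 + 16 / θ) * (√X * P)) :=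
        mul_le_mul_of_nonneg_left hkey (by positivity)
    _ ≤ (1 / (θ / 4 * Real.log X)) * (2 ^ l * (32 + 16 / θ) * (√X * P)) := by
        refine mul_le_mul_of_nonneg_right ?_ h5.le
        exact one_div_le_one_div_of_le (by positivity) hlogP
    _ = _ := by
        field_simp

end BUh

open VAh BUh in
theorem t_BU (h1 : S_PR) (h2 : S_NS) (h3 : S_WA) (h4 : S_WL) : S_BU := by
  classical
  intro l θ δ hPar
  obtain ⟨C', hC', X₁, hblock⟩ := block h1 h3 h4 l θ δ hPar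
  obtain ⟨hl, hl5, hθ1, hδ, hpar⟩ := hPar
  obtain ⟨L, hL⟩ : ∃ L : ℝ, L = l := ⟨_, rfl⟩
  have hL5 : 5 ≤ L := by rw [hL]; exact_mod_cast hl5
  rw [← hL] at hθ1 hpar
  have hθ0 : 0 < θ := lt_trans (by positivity) hθ1
  have hδ8 : δ ≤ 1 / 8 := by nlinarith
  have hθ3 : θ ≤ 1 / 3 := by nlinarith
  obtain ⟨s, hs⟩ : ∃ s, s = θ * δ / 8 := ⟨_, rfl⟩
  have hs0 : 0 < s := by rw [hs]; positivity
  obtain ⟨C₁, hC₁, hns⟩ := h2.2.2 (s / (L + 1)) (by positivity)
  refine ⟨1 + C', by positivity, fun σ hσ hσ1 => ?_⟩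
  have hX1 := (tendsto_rpow_atTop (show 0 < 2 * s by linarith)).eventually_ge_atTop
    (32 * C₁ / (s * σ))
  obtain ⟨X₀, hX₀⟩ := Filter.eventually_atTop.1 hX1
  refine ⟨max (max X₀ X₁) 3, fun X hX κ hκ => ?_⟩
  have hXG := hX₀ X ((le_max_left _ _).trans ((le_max_left _ _).trans hX))
  have hXb := (le_max_right _ _).trans ((le_max_left _ _).trans hX)
  have hX3 : 3 ≤ X := (le_max_right _ _).trans hX
  have hX1' : 1 ≤ X := by linarith
  have hXp : 0 < X := by linarith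
  have hlogX : 0 < Real.log X := Real.log_pos (by linarith)
  have hXm : ∀ s t : ℝ, s ≤ t → X ^ s ≤ X ^ t := fun s t h => Real.rpow_le_rpow_of_exponent_le hX1' h
  have hXa : ∀ s t : ℝ, X ^ s * X ^ t = X ^ (s + t) := fun s t => (Real.rpow_add hXp s t).symm
  have hbl := hblock X hXb κ hκ
  obtain ⟨N, hN⟩ : ∃ N, N = ⌊X ^ θ⌋₊ := ⟨_, rfl⟩
  obtain ⟨Q, hQ⟩ : ∃ Q, Q = ⌊X ^ δ⌋₊ := ⟨_, rfl⟩
  obtain ⟨K, hK⟩ : ∃ K, K = X ^ (1 - 2 * δ) := ⟨_, rfl⟩
  rw [← hN, ← hQ, ← hK] at hbl ⊢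
  have hQX : (Q : ℝ) ≤ X ^ δ := by rw [hQ]; exact Nat.floor_le (by positivity)
  have hNX : (N : ℝ) ≤ X ^ θ := by rw [hN]; exact Nat.floor_le (by positivity)
  obtain ⟨Z, hZ⟩ : ∃ Z, Z = X ^ (θ * (1 - δ / 2)) := ⟨_, rfl⟩
  rw [← hZ] at hbl
  have hZ0 : 0 < Z := by rw [hZ]; positivity
  obtain ⟨T, hT⟩ : ∃ T, T = σ * X ^ θ := ⟨_, rfl⟩
  rw [← hT]
  have hT0 : 0 < T := by rw [hT]; positivity
  have hTX : T ≤ X ^ θ := by
    rw [hT]
    have : 0 < X ^ θ := by positivity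
    nlinarith
  obtain ⟨w, hw⟩ : ∃ w : ℕ → ℝ, w = fun (p : ℕ) => ∑ e ∈ Icc 1 Q, κ e *
      ∑ v ∈ (Icc 1 (4 * N ^ l)).filter
      (fun v : ℕ => K * (v : ℝ) ^ 2 ≤ 4 * (p : ℝ) ^ l ∧ ¬ p ∣ v * e),
      (nsq p (v * e) : ℝ) * LL (4 * (p : ℝ) ^ l) X v / ((v : ℝ) * e) ^ 2 := ⟨_, rfl⟩
  have hMMw : ∀ P P' : ℝ, MM l N X K Q κ P P' =
      ∑ p ∈ (Icc 1 N).filter (fun p : ℕ => p.Prime ∧ p ≠ 2 ∧ P < (p : ℝ) ∧ (p : ℝ) ≤ P'), w p := by
    intro P P'
    rw [hw]
    unfold MM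
    rfl
  have hw0 : ∀ p : ℕ, p.Prime → 0 ≤ w p := by
    intro p hp
    rw [hw]
    have hp0 : (0 : ℝ) < p := by exact_mod_cast hp.pos
    refine Finset.sum_nonneg fun e _ => mul_nonneg (hκ e).1 (Finset.sum_nonneg fun v hv => ?_)
    rw [Finset.mem_filter, Finset.mem_Icc] at hv
    have := (h4 (4 * (p : ℝ) ^ l) X (by positivity) hXp v hv.1.1).1.1
    positivity
  -- crude bound
  have hwc : ∀ p ∈ Icc 1 N, p.Prime → w p ≤ 32 * C₁ * (X ^ s * √X) := by
    intro p hpN hp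
    have hp0 : (0 : ℝ) < p := by exact_mod_cast hp.pos
    have h5 : ∀ e ∈ Icc 1 Q, κ e * ∑ v ∈ (Icc 1 (4 * N ^ l)).filter
      (fun v : ℕ => K * (v : ℝ) ^ 2 ≤ 4 * (p : ℝ) ^ l ∧ ¬ p ∣ v * e),
      (nsq p (v * e) : ℝ) * LL (4 * (p : ℝ) ^ l) X v / ((v : ℝ) * e) ^ 2 ≤
      4 * C₁ * X ^ s * (4 * √X) * (1 / (e : ℝ) ^ 2) := by
      intro e he
      rw [Finset.mem_Icc] at he
      have he0 : (0 : ℝ) < e := by exact_mod_cast he.1
      have h6 : ∑ v ∈ (Icc 1 (4 * N ^ l)).filter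
        (fun v : ℕ => K * (v : ℝ) ^ 2 ≤ 4 * (p : ℝ) ^ l ∧ ¬ p ∣ v * e),
        (nsq p (v * e) : ℝ) * LL (4 * (p : ℝ) ^ l) X v / ((v : ℝ) * e) ^ 2 ≤
        ∑ v ∈ Icc 1 (4 * N ^ l), 4 * C₁ * X ^ s * (1 / (e : ℝ) ^ 2) *
          (LL (4 * (p : ℝ) ^ l) X v / (v : ℝ) ^ 2) := by
        refine le_trans (Finset.sum_le_sum (g := fun v : ℕ => 4 * C₁ * X ^ s * (1 / (e : ℝ) ^ 2) *
          (LL (4 * (p : ℝ) ^ l) X v / (v : ℝ) ^ 2)) fun v hv => ?_) ?_
        · rw [Finset.mem_filter, Finset.mem_Icc] at hv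
          obtain ⟨⟨hv1, hv2⟩, hvK, hvp⟩ := hv
          have hv0 : (0 : ℝ) < v := by exact_mod_cast hv1
          have hLL := (h4 (4 * (p : ℝ) ^ l) X (by positivity) hXp v hv1).1.1
          have h7 := hns p (v * e) (Nat.mul_pos hv1 he.1) ((Nat.Prime.coprime_iff_not_dvd hp).2 hvp)
          push_cast at h7
          have h8 : (v : ℝ) * e ≤ 4 * X ^ (L + 1) := by
            have h9 : (v : ℝ) ≤ 4 * X ^ L := by
              have h10 : (v : ℝ) ≤ 4 * (N : ℝ) ^ l := by exact_mod_cast hv2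
              have h11 : (N : ℝ) ^ l ≤ X ^ L := by
                have h12 : (N : ℝ) ≤ X := by
                  have := hXm θ 1 (by linarith)
                  rw [Real.rpow_one] at this
                  linarith
                rw [hL, Real.rpow_natCast]
                gcongr
              linarith
            have h10 : (e : ℝ) ≤ X ^ (1 : ℝ) :=
              (le_trans (by exact_mod_cast he.2) hQX).trans (hXm δ 1 (by linarith))
            calc (v : ℝ) * e ≤ (4 * X ^ L) * X ^ (1 : ℝ) := by gcongr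
              _ = 4 * X ^ (L + 1) := by rw [mul_assoc, hXa]
          have h9 : ((v : ℝ) * e) ^ (s / (L + 1)) ≤ 4 * X ^ s := by
            have hs1 : s / (L + 1) ≤ 1 := by
              rw [div_le_one (by linarith), hs]
              nlinarith
            calc ((v : ℝ) * e) ^ (s / (L + 1)) ≤ (4 * X ^ (L + 1)) ^ (s / (L + 1)) :=
                  Real.rpow_le_rpow (by positivity) h8 (by positivity)
              _ = 4 ^ (s / (L + 1)) * X ^ s := by
                  rw [Real.mul_rpow (by norm_num) (by positivity), ← Real.rpow_mul hXp.le]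
                  congr 2
                  field_simp
              _ ≤ 4 ^ (1 : ℝ) * X ^ s := by
                  gcongr
                  norm_num
              _ = _ := by norm_num
          have h10 : (nsq p (v * e) : ℝ) ≤ 4 * C₁ * X ^ s := by
            calc (nsq p (v * e) : ℝ) ≤ C₁ * ((v : ℝ) * e) ^ (s / (L + 1)) := h7
              _ ≤ C₁ * (4 * X ^ s) := by gcongr
              _ = _ := by ring
          calc (nsq p (v * e) : ℝ) * LL (4 * (p : ℝ) ^ l) X v / ((v : ℝ) * e) ^ 2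
              = nsq p (v * e) * ((1 / (e : ℝ) ^ 2) * (LL (4 * (p : ℝ) ^ l) X v / (v : ℝ) ^ 2)) := by
                field_simp
            _ ≤ (4 * C₁ * X ^ s) * ((1 / (e : ℝ) ^ 2) * (LL (4 * (p : ℝ) ^ l) X v / (v : ℝ) ^ 2)) :=
                mul_le_mul_of_nonneg_right h10 (by positivity)
            _ = _ := by ring
        · refine Finset.sum_le_sum_of_subset_of_nonneg (Finset.filter_subset _ _) fun v hv _ => ?_
          rw [Finset.mem_Icc] at hv
          have hLL := (h4 (4 * (p : ℝ) ^ l) X (by positivity) hXp v hv.1).1.1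
          positivity
      rw [← Finset.mul_sum] at h6
      have h7 := LL_sum h3 h4 (show 0 < 4 * (p : ℝ) ^ l by positivity) hXp (4 * N ^ l)
      have h8 : 4 * C₁ * X ^ s * (1 / (e : ℝ) ^ 2) *
          ∑ i ∈ Icc 1 (4 * N ^ l), LL (4 * (p : ℝ) ^ l) X i / (i : ℝ) ^ 2 ≤
          4 * C₁ * X ^ s * (1 / (e : ℝ) ^ 2) * (4 * √X) :=
        mul_le_mul_of_nonneg_left h7 (by positivity)
      have h9 := h6.trans h8
      have h10 : 0 ≤ ∑ v ∈ (Icc 1 (4 * N ^ l)).filter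
        (fun v : ℕ => K * (v : ℝ) ^ 2 ≤ 4 * (p : ℝ) ^ l ∧ ¬ p ∣ v * e),
        (nsq p (v * e) : ℝ) * LL (4 * (p : ℝ) ^ l) X v / ((v : ℝ) * e) ^ 2 := by
        refine Finset.sum_nonneg fun v hv => ?_
        rw [Finset.mem_filter, Finset.mem_Icc] at hv
        have := (h4 (4 * (p : ℝ) ^ l) X (by positivity) hXp v hv.1.1).1.1
        positivity
      calc _ ≤ 1 * _ := mul_le_mul_of_nonneg_right (hκ e).2 h10
        _ ≤ _ := by rw [one_mul]; linarith
    rw [hw]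
    refine (Finset.sum_le_sum h5).trans ?_
    rw [← Finset.mul_sum]
    have h6 := inv_sq Q
    calc _ ≤ 4 * C₁ * X ^ s * (4 * √X) * 2 := mul_le_mul_of_nonneg_left h6 (by positivity)
      _ = _ := by ring
  -- decomposition
  obtain ⟨J, hJ⟩ : ∃ J, J = ⌈T⌉₊ + 1 := ⟨_, rfl⟩
  obtain ⟨G, hG⟩ : ∃ G, G = (range J).filter (fun j => Z / 2 ≤ T / 2 ^ (j + 1)) := ⟨_, rfl⟩
  obtain ⟨F, hF⟩ : ∃ F : ℝ → ℝ → Finset ℕ, F = fun (P P' : ℝ) =>
    (Icc 1 N).filter (fun p : ℕ => p.Prime ∧ p ≠ 2 ∧ P < (p : ℝ) ∧ (p : ℝ) ≤ P') := ⟨_, rfl⟩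
  have hcov : F 0 T ⊆ F 0 Z ∪ G.biUnion (fun j => F (T / 2 ^ (j + 1)) (2 * (T / 2 ^ (j + 1)))) := by
    intro p hp
    rw [hF, Finset.mem_filter, Finset.mem_Icc] at hp
    obtain ⟨⟨hp1, hpN⟩, hpp, hp2, hp0, hpT⟩ := hp
    rw [Finset.mem_union]
    by_cases hpZ : (p : ℝ) ≤ Z
    · left
      rw [hF, Finset.mem_filter, Finset.mem_Icc]
      exact ⟨⟨hp1, hpN⟩, hpp, hp2, hp0, hpZ⟩
    · right
      push Not at hpZ
      obtain ⟨n, hn1, hn2⟩ := exists_nat_pow_near (show 1 ≤ T / p by rwa [le_div_iff₀ hp0, one_mul])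
        (one_lt_two)
      rw [le_div_iff₀ hp0] at hn1
      rw [div_lt_iff₀ hp0] at hn2
      rw [Finset.mem_biUnion]
      refine ⟨n, ?_, ?_⟩
      · rw [hG, Finset.mem_filter, Finset.mem_range, hJ]
        constructor
        · have h5 : (n : ℝ) < 2 ^ n := by exact_mod_cast Nat.lt_two_pow_self
          have h6 : (2 : ℝ) ^ n ≤ T := by
            have h7 : (1 : ℝ) ≤ p := by exact_mod_cast hp1
            have h8 : (0 : ℝ) < 2 ^ n := by positivity
            nlinarith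
          have h7 : (n : ℝ) < ⌈T⌉₊ := by linarith [Nat.le_ceil T]
          have h8 : n < ⌈T⌉₊ := by exact_mod_cast h7
          omega
        · rw [pow_succ, le_div_iff₀ (by positivity)]
          have h9 : Z * 2 ^ n ≤ p * 2 ^ n := mul_le_mul_of_nonneg_right hpZ.le (by positivity)
          linarith
      · rw [hF, Finset.mem_filter, Finset.mem_Icc]
        refine ⟨⟨hp1, hpN⟩, hpp, hp2, ?_, ?_⟩
        · rw [div_lt_iff₀ (by positivity)]
          linarith
        · rw [pow_succ, ← mul_div_assoc, le_div_iff₀ (by positivity)]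
          linarith
  have hFp : ∀ P P' : ℝ, ∀ p ∈ F P P', p.Prime := by
    intro P P' p hp
    rw [hF, Finset.mem_filter] at hp
    exact hp.2.1
  have hsum : ∑ p ∈ F 0 T, w p ≤ ∑ p ∈ F 0 Z, w p +
      ∑ j ∈ G, ∑ p ∈ F (T / 2 ^ (j + 1)) (2 * (T / 2 ^ (j + 1))), w p := by
    have h5 : ∑ p ∈ F 0 T, w p ≤ ∑ p ∈ F 0 Z ∪ G.biUnion
        (fun j => F (T / 2 ^ (j + 1)) (2 * (T / 2 ^ (j + 1)))), w p := by
      refine Finset.sum_le_sum_of_subset_of_nonneg hcov fun p hp _ => ?_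
      rw [Finset.mem_union, Finset.mem_biUnion] at hp
      rcases hp with hp | ⟨j, _, hp⟩
      · exact hw0 p (hFp _ _ p hp)
      · exact hw0 p (hFp _ _ p hp)
    have h6 : ∑ p ∈ F 0 Z ∪ G.biUnion
        (fun j => F (T / 2 ^ (j + 1)) (2 * (T / 2 ^ (j + 1)))), w p ≤
        ∑ p ∈ F 0 Z, w p + ∑ p ∈ G.biUnion
        (fun j => F (T / 2 ^ (j + 1)) (2 * (T / 2 ^ (j + 1)))), w p := by
      rw [← Finset.sum_union_inter]
      have : 0 ≤ ∑ p ∈ F 0 Z ∩ G.biUnion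
        (fun j => F (T / 2 ^ (j + 1)) (2 * (T / 2 ^ (j + 1)))), w p :=
        Finset.sum_nonneg fun p hp => hw0 p (hFp _ _ p (Finset.mem_inter.1 hp).1)
      linarith
    have h7 : ∑ p ∈ G.biUnion (fun j => F (T / 2 ^ (j + 1)) (2 * (T / 2 ^ (j + 1)))), w p ≤
        ∑ j ∈ G, ∑ p ∈ F (T / 2 ^ (j + 1)) (2 * (T / 2 ^ (j + 1))), w p := by
      clear h5 h6 hcov hG
      induction G using Finset.induction_on with
      | empty => simp
      | insert j G hj ih =>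
        rw [Finset.biUnion_insert, Finset.sum_insert hj]
        have h8 : ∑ p ∈ F (T / 2 ^ (j + 1)) (2 * (T / 2 ^ (j + 1))) ∪
          G.biUnion (fun j => F (T / 2 ^ (j + 1)) (2 * (T / 2 ^ (j + 1)))), w p ≤
          ∑ p ∈ F (T / 2 ^ (j + 1)) (2 * (T / 2 ^ (j + 1))), w p +
          ∑ p ∈ G.biUnion (fun j => F (T / 2 ^ (j + 1)) (2 * (T / 2 ^ (j + 1)))), w p := by
          rw [← Finset.sum_union_inter]
          have : 0 ≤ ∑ p ∈ F (T / 2 ^ (j + 1)) (2 * (T / 2 ^ (j + 1))) ∩ G.biUnion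
            (fun j => F (T / 2 ^ (j + 1)) (2 * (T / 2 ^ (j + 1)))), w p :=
            Finset.sum_nonneg fun p hp => hw0 p (hFp _ _ p (Finset.mem_inter.1 hp).1)
          linarith
        linarith
    linarith
  have hsmall : ∑ p ∈ F 0 Z, w p ≤ σ * (√X * X ^ θ / Real.log X) := by
    have h5 : ∑ p ∈ F 0 Z, w p ≤ ((F 0 Z).card : ℝ) * (32 * C₁ * (X ^ s * √X)) := by
      rw [← nsmul_eq_mul]
      refine Finset.sum_le_card_nsmul _ _ _ fun p hp => ?_
      rw [hF, Finset.mem_filter] at hp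
      exact hwc p hp.1 hp.2.1
    have h6 : ((F 0 Z).card : ℝ) ≤ Z := by
      have h7 : F 0 Z ⊆ Icc 1 ⌊Z⌋₊ := by
        intro p hp
        rw [hF, Finset.mem_filter, Finset.mem_Icc] at hp
        exact Finset.mem_Icc.2 ⟨hp.1.1, Nat.le_floor hp.2.2.2.2⟩
      have h8 := Finset.card_le_card h7
      rw [Nat.card_Icc, Nat.add_sub_cancel] at h8
      exact le_trans (by exact_mod_cast h8) (Nat.floor_le hZ0.le)
    have hlog : Real.log X ≤ X ^ s / s := Real.log_le_rpow_div hXp.le hs0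
    refine h5.trans ?_
    rw [← mul_div_assoc, le_div_iff₀ hlogX]
    calc ((F 0 Z).card : ℝ) * (32 * C₁ * (X ^ s * √X)) * Real.log X
        ≤ Z * (32 * C₁ * (X ^ s * √X)) * (X ^ s / s) := by gcongr
      _ = 32 * C₁ / s * √X * (X ^ (θ * (1 - δ / 2)) * X ^ s * X ^ s) := by rw [hZ]; ring
      _ = 32 * C₁ / s * √X * X ^ (θ - 2 * s) := by
          rw [hXa, hXa]
          congr 2
          rw [hs]
          ring
      _ ≤ (σ * X ^ (2 * s)) * √X * X ^ (θ - 2 * s) := by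
          have h7 : 32 * C₁ / s ≤ σ * X ^ (2 * s) := by
            rw [div_le_iff₀ (by positivity)] at hXG
            rw [div_le_iff₀ hs0]
            linarith
          gcongr
      _ = σ * (√X * (X ^ (2 * s) * X ^ (θ - 2 * s))) := by ring
      _ = _ := by
          rw [hXa]
          congr 3
          ring
  have hlarge : ∑ j ∈ G, ∑ p ∈ F (T / 2 ^ (j + 1)) (2 * (T / 2 ^ (j + 1))), w p ≤
      C' * (√X * T / Real.log X) := by
    have h5 : ∀ j ∈ G, ∑ p ∈ F (T / 2 ^ (j + 1)) (2 * (T / 2 ^ (j + 1))), w p ≤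
        C' * (√X * T / Real.log X) * (1 / 2 ^ (j + 1)) := by
      intro j hj
      rw [hG, Finset.mem_filter] at hj
      have h6 : 2 * (T / 2 ^ (j + 1)) ≤ X ^ θ := by
        refine le_trans ?_ hTX
        rw [pow_succ, ← mul_div_assoc, div_le_iff₀ (by positivity)]
        have : (1 : ℝ) ≤ 2 ^ j := one_le_pow₀ (by norm_num)
        nlinarith
      have h7 := hbl (T / 2 ^ (j + 1)) hj.2 h6
      rw [hMMw] at h7
      rw [hF]
      refine h7.trans (le_of_eq ?_)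
      ring
    refine (Finset.sum_le_sum h5).trans ?_
    rw [← Finset.mul_sum]
    have h6 : ∑ j ∈ G, (1 : ℝ) / 2 ^ (j + 1) ≤ 1 := by
      have h7 : ∀ n : ℕ, ∑ j ∈ range n, (1 : ℝ) / 2 ^ (j + 1) = 1 - 1 / 2 ^ n := by
        intro n
        induction n with
        | zero => simp
        | succ n ih =>
          rw [Finset.sum_range_succ, ih, pow_succ]
          field_simp
          ring
      calc ∑ j ∈ G, (1 : ℝ) / 2 ^ (j + 1) ≤ ∑ j ∈ range J, (1 : ℝ) / 2 ^ (j + 1) := by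
            rw [hG]
            exact Finset.sum_le_sum_of_subset_of_nonneg (Finset.filter_subset _ _)
              fun j _ _ => by positivity
        _ = 1 - 1 / 2 ^ J := h7 J
        _ ≤ 1 := by
            have : (0 : ℝ) < 1 / 2 ^ J := by positivity
            linarith
    calc _ ≤ C' * (√X * T / Real.log X) * 1 := mul_le_mul_of_nonneg_left h6 (by positivity)
      _ = _ := mul_one _
  rw [hMMw]
  have h5 : ∑ p ∈ F 0 T, w p ≤ (1 + C') * σ * (√X * X ^ θ / Real.log X) := by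
    have h6 : C' * (√X * T / Real.log X) = C' * σ * (√X * X ^ θ / Real.log X) := by
      rw [hT]
      ring
    rw [h6] at hlarge
    linarith
  rw [hF] at h5
  exact h5

end Pool.Agent.T2h80.CL
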