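import Pool.Agent.T2h80.CL.Stm

/-!
Auxiliary bounds used in U1, VA, BU.
-/

set_option autoImplicit false
set_option linter.all false

namespace Pool.Agent.T2h80.CL

open Finset

/-- the sum of `LL / v²` -/
lemma LL_sum (h4 : S_WA) (h5 : S_WL) {a X : ℝ} (ha : 0 < a) (hX : 0 < X) (M : ℕ) :
    ∑ v ∈ Icc 1 M, LL a X v / (v : ℝ) ^ 2 ≤ 4 * √X := by
  have hsa : 0 < √a := Real.sqrt_pos.2 ha
  have h1 := h4 (√a) (X / √a) hsa (by positivity) M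
  have h2 : √a * (X / √a) = X := by field_simp
  rw [h2] at h1
  refine le_trans (Finset.sum_le_sum fun v hv => ?_) h1
  have hv1 := (Finset.mem_Icc.1 hv).1
  have hv0 : (0 : ℝ) < v := by exact_mod_cast hv1
  obtain ⟨⟨h6, h7, h8⟩, _⟩ := h5 a X ha hX v hv1
  refine le_min ?_ ?_
  · gcongr
  · rw [div_le_iff₀ (by positivity)]
    calc LL a X v ≤ X * (v : ℝ) ^ 2 / √a := h8
      _ = _ := by ring

/-- an upper bound for `BB` -/
lemma BB_le (h1 : S_CNT) (h2 : S_NS) (h5 : S_WL) {ε : ℝ} (hε : 0 < ε) : ∃ C : ℝ, 0 < C ∧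
    ∀ l p f v : ℕ, ∀ X : ℝ, Odd l → p.Prime → p ≠ 2 → 1 ≤ f → 1 ≤ v → 0 < X →
      (BB l p f v X : ℝ) ≤ C * (f : ℝ) ^ ε * (3 * (LL (4 * (p : ℝ) ^ l) X v / (f : ℝ) ^ 2) + 4) := by
  obtain ⟨C, hC, hn⟩ := h2.2.2 ε hε
  refine ⟨C, hC, fun l p f v X hl hp hp2 hf hv hX => ?_⟩
  have hp0 : (0 : ℝ) < p := by exact_mod_cast hp.pos
  have hp1 : (1 : ℝ) ≤ p := by exact_mod_cast hp.one_lt.le
  have hf0 : (0 : ℝ) < f := by exact_mod_cast hf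
  have hLL := (h5 (4 * (p : ℝ) ^ l) X (by positivity) hX v hv).1.1
  have hnn : 0 ≤ 3 * (LL (4 * (p : ℝ) ^ l) X v / (f : ℝ) ^ 2) + 4 := by positivity
  obtain ⟨h3, h4⟩ := h1 l p f v X hl hp hp2 hf hv hX.le
  by_cases hpf : p ∣ f
  · rw [h3 hpf]
    push_cast
    positivity
  · have h6 := (abs_le.1 (h4 hpf)).2
    have h7 : (nsq p f : ℝ) ≤ C * (f : ℝ) ^ ε := hn p f hf ((Nat.Prime.coprime_iff_not_dvd hp).2 hpf)
    have h8 : 2 * LL (4 * (p : ℝ) ^ l) X v / (p * (f : ℝ) ^ 2) ≤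
        2 * (LL (4 * (p : ℝ) ^ l) X v / (f : ℝ) ^ 2) := by
      rw [← mul_div_assoc]
      apply div_le_div_of_nonneg_left (by positivity) (by positivity)
      have : 0 < (f : ℝ) ^ 2 := by positivity
      nlinarith
    have hn0 : (0 : ℝ) ≤ nsq p f := Nat.cast_nonneg _
    calc (BB l p f v X : ℝ) ≤ nsq p f * LL (4 * (p : ℝ) ^ l) X v / (f : ℝ) ^ 2 +
          nsq p f * (4 + 2 * LL (4 * (p : ℝ) ^ l) X v / (p * (f : ℝ) ^ 2)) := by linarith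
      _ ≤ nsq p f * LL (4 * (p : ℝ) ^ l) X v / (f : ℝ) ^ 2 +
          nsq p f * (4 + 2 * (LL (4 * (p : ℝ) ^ l) X v / (f : ℝ) ^ 2)) := by gcongr
      _ = nsq p f * (3 * (LL (4 * (p : ℝ) ^ l) X v / (f : ℝ) ^ 2) + 4) := by ring
      _ ≤ _ := by gcongr

end Pool.Agent.T2h80.CL
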