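import Pool.Agent.T2h80.CL.V

set_option autoImplicit false

namespace Pool.Agent.T2h80.CL

open Finset Filter Topology

/-- the Euler product -/
theorem euler_sum (w : ℕ) : ∑ d ∈ (primorial w).divisors,
    (ArithmeticFunction.moebius d : ℝ) * (1 / (d : ℝ) ^ 2) =
    ∏ p ∈ (range (w + 1)).filter Nat.Prime, (1 - 1 / (p : ℝ) ^ 2) := by
  have hsq : Squarefree (primorial w) := by
    unfold primorial
    apply Finset.squarefree_prod_of_pairwise_isCoprime
    · intro a ha b hb hab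
      rw [mem_coe, mem_filter] at ha hb
      exact Nat.coprime_iff_isRelPrime.mp ((Nat.coprime_primes ha.2 hb.2).mpr hab)
    · intro a ha
      exact (mem_filter.mp ha).2.prime.squarefree
  have hpf : (primorial w).primeFactors = (range (w + 1)).filter Nat.Prime := by
    unfold primorial
    exact Nat.primeFactors_prod (fun p hp => (mem_filter.mp hp).2)
  let f : ArithmeticFunction ℝ := ⟨fun n => 1 / (n : ℝ) ^ 2, by simp⟩
  have hf : f.IsMultiplicative := by
    refine ⟨?_, ?_⟩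
    · change (1 : ℝ) / ((1 : ℕ) : ℝ) ^ 2 = 1
      simp
    · intro m n _
      change (1 : ℝ) / ((m * n : ℕ) : ℝ) ^ 2 = 1 / (m : ℝ) ^ 2 * (1 / (n : ℝ) ^ 2)
      push_cast
      rw [mul_pow, one_div, one_div, one_div, mul_inv]
  have := ArithmeticFunction.IsMultiplicative.prodPrimeFactors_one_sub_of_squarefree f hf hsq
  rw [← hpf]
  exact this.symm

theorem euler_tendsto : Tendsto (fun w : ℕ => ∏ p ∈ (range (w + 1)).filter Nat.Prime,
    (1 - 1 / (p : ℝ) ^ 2)) atTop (𝓝 (6 / Real.pi ^ 2)) := by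
  have h := riemannZeta_eulerProduct (s := 2) (by norm_num)
  rw [riemannZeta_two] at h
  have h2 : Tendsto (fun w : ℕ => (∏ p ∈ Nat.primesBelow (w + 1), (1 - (p : ℂ) ^ (-2 : ℂ))⁻¹)⁻¹)
      atTop (𝓝 ((Real.pi : ℂ) ^ 2 / 6)⁻¹) := by
    apply Tendsto.inv₀
    · exact h.comp (tendsto_add_atTop_nat 1)
    · have h0 := Real.pi_pos
      have h1 : (Real.pi : ℂ) ≠ 0 := by exact_mod_cast h0.ne'
      exact div_ne_zero (pow_ne_zero 2 h1) (by norm_num)
  have h3 : ∀ w : ℕ, (∏ p ∈ Nat.primesBelow (w + 1), (1 - (p : ℂ) ^ (-2 : ℂ))⁻¹)⁻¹ =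
      ((∏ p ∈ (range (w + 1)).filter Nat.Prime, (1 - 1 / (p : ℝ) ^ 2) : ℝ) : ℂ) := by
    intro w
    rw [← prod_inv_distrib]
    push_cast
    apply prod_congr rfl
    intro p hp
    rw [inv_inv]
    congr 1
    rw [Complex.cpow_neg, one_div]
    norm_num
  simp_rw [h3] at h2
  have h4 : ((Real.pi : ℂ) ^ 2 / 6)⁻¹ = ((6 / Real.pi ^ 2 : ℝ) : ℂ) := by
    push_cast
    rw [inv_div]
  rw [h4] at h2
  have := (Complex.continuous_re.tendsto _).comp h2
  simpa only [Function.comp_def, Complex.ofReal_re] using this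

theorem tail_le (w Q : ℕ) (hw : 1 ≤ w) :
    ∑ q ∈ Ioc w Q, (1 : ℝ) / (q : ℝ) ^ 2 ≤ 1 / w := by
  rcases le_or_gt w Q with h | h
  · have : ∀ Q : ℕ, w ≤ Q → ∑ q ∈ Ioc w Q, (1 : ℝ) / (q : ℝ) ^ 2 ≤ 1 / w - 1 / Q := by
      intro Q hQ
      induction Q, hQ using Nat.le_induction with
      | base => simp
      | succ Q hQ ih =>
        rw [Finset.sum_Ioc_succ_top (by omega)]
        have hQ0 : (0 : ℝ) < Q := by exact_mod_cast (by omega : 0 < Q)
        have : (1 : ℝ) / ((Q + 1 : ℕ) : ℝ) ^ 2 ≤ 1 / Q - 1 / ((Q + 1 : ℕ) : ℝ) := by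
          push_cast
          rw [div_sub_div _ _ hQ0.ne' (by positivity), div_le_div_iff₀ (by positivity) (by positivity)]
          nlinarith
        linarith
    have h1 := this Q h
    have : (0 : ℝ) ≤ 1 / Q := by positivity
    linarith
  · rw [Ioc_eq_empty (by omega), sum_empty]; positivity

end Pool.Agent.T2h80.CL
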