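import Pool.Agent.T2h80.CL.Id0

set_option autoImplicit false

namespace Pool.Agent.T2h80.CL

open NumberField Finset Pool.Agent.T2h80.TL
open scoped nonZeroDivisors

variable {K : Type} [Field K] [NumberField K]

instance finite_PI (l N : ℕ) : Finite (PI l N K) := by
  have h : {I : Ideal (𝓞 K) | Ideal.absNorm I ≤ N}.Finite := Ideal.finite_setOfPred_absNorm_le N
  have : Finite {I : Ideal (𝓞 K) // Ideal.absNorm I ≤ N} := h
  apply Finite.of_injective (fun P : PI l N K =>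
    (⟨P.1, P.2.2.1⟩ : {I : Ideal (𝓞 K) // Ideal.absNorm I ≤ N}))
  intro P P' h
  exact Subtype.ext (congrArg (fun z : {I : Ideal (𝓞 K) // Ideal.absNorm I ≤ N} => z.1) h)

theorem unit_mem (hK : Module.finrank ℚ K = 2) (hD3 : discr K ≤ -3) {α : K}
    (hα : α ^ 2 = ((discr K : ℤ) : K)) (u : (𝓞 K)ˣ) : ∃ q : ℤ × ℤ,
    q ∈ (Icc (-2 : ℤ) 2) ×ˢ (Icc (-1 : ℤ) 1) ∧ 2 * ((u : 𝓞 K) : K) = (q.1 : K) + q.2 * α ∧
      4 = q.1 ^ 2 - discr K * q.2 ^ 2 := by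
  have hD : discr K < 0 := by omega
  obtain ⟨t, k', h2, h3⟩ := rep' hK hα (u : 𝓞 K)
  have h4 : Algebra.norm ℤ (u : 𝓞 K) = 1 := by
    have h5 : IsUnit (Algebra.norm ℤ (u : 𝓞 K)) := u.isUnit.map _
    have h6 := norm_nonneg' hK hD (u : 𝓞 K)
    rcases Int.isUnit_iff.mp h5 with h | h
    · exact h
    · rw [h] at h6; norm_num at h6
  rw [h4, mul_one] at h3
  exact ⟨(t, k'), unit_rep hD3 h3, h2, h3⟩

theorem t_IDF : S_IDF := by
  classical
  intro K _ _ hK hD3 l N hl hl3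
  have hD : discr K < 0 := by omega
  obtain ⟨α, hα, hr⟩ := rep hK
  -- the ideal of a solution
  have hex : ∀ g : {g : ℕ × ℕ // g ∈ TT l N ∧ ∃ y : ℕ, 1 ≤ y ∧
      (g.2 : ℤ) ^ 2 - 4 * (g.1 : ℤ) ^ l = discr K * (y : ℤ) ^ 2},
      ∃ (I : PI l N K) (β : 𝓞 K) (y : ℕ), Ideal.absNorm I.1 = g.1.1 ∧ I.1 ^ l = Ideal.span {β} ∧
        2 * (β : K) = (g.1.2 : ℤ) + (y : ℤ) * α := by
    rintro ⟨⟨p, x⟩, hg, y, hy1, hy⟩
    rw [TT, mem_filter, mem_product, mem_range, mem_range] at hg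
    obtain ⟨⟨hpN, -⟩, hp, hp2, hx1, hx2, hpx⟩ := hg
    obtain ⟨I, β, h1, h2, h3⟩ := ideal_of_sol hK hD hα (by omega) hp hpx hy
    refine ⟨⟨I, ?_, ?_, ?_⟩, β, y, h1, h2, h3⟩
    · rw [h1]; exact hp
    · rw [h1]; simp only at hpN; omega
    · exact ⟨β, by rw [h2, Ideal.submodule_span_eq]⟩
  choose I β y hI1 hI2 hI3 using hex
  -- a generator of each ideal
  have hgen : ∀ P : PI l N K, ∃ γ : 𝓞 K, P.1 ^ l = Ideal.span {γ} := by
    intro P
    obtain ⟨γ, hγ⟩ := P.2.2.2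
    exact ⟨γ, by rw [hγ, Ideal.submodule_span_eq]⟩
  choose γ hγ using hgen
  have hunit : ∀ g, ∃ u : (𝓞 K)ˣ, γ (I g) * u = β g := by
    intro g
    have h1 : Associated (γ (I g)) (β g) := by
      rw [← Ideal.span_singleton_eq_span_singleton, ← hγ, ← hI2]
    exact h1
  choose u hu using hunit
  have hq := fun g => unit_mem hK hD3 hα (u g)
  choose q hq1 hq2 hq3 using hq
  let F : {g : ℕ × ℕ // g ∈ TT l N ∧ ∃ y : ℕ, 1 ≤ y ∧
      (g.2 : ℤ) ^ 2 - 4 * (g.1 : ℤ) ^ l = discr K * (y : ℤ) ^ 2} →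
      (((Icc (-2 : ℤ) 2) ×ˢ (Icc (-1 : ℤ) 1) : Finset (ℤ × ℤ)) : Type) × PI l N K :=
    fun g => (⟨q g, hq1 g⟩, I g)
  have hF : Function.Injective F := by
    intro g g' h
    have h1 : q g = q g' := congrArg (fun z => z.1.1) h
    have h2 : I g = I g' := congrArg (fun z => z.2) h
    have h3 : (u g : 𝓞 K) = u g' := by
      apply RingOfIntegers.coe_injective
      have : (2 : K) * ((u g : 𝓞 K) : K) = 2 * ((u g' : 𝓞 K) : K) := by rw [hq2, hq2, h1]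
      exact mul_left_cancel₀ two_ne_zero this
    have h4 : β g = β g' := by rw [← hu g, ← hu g', h2, h3]
    have h5 := hI3 g
    rw [h4, hI3 g'] at h5
    obtain ⟨h6, -⟩ := indep hD hα h5
    apply Subtype.ext
    apply Prod.ext
    · rw [← hI1 g, ← hI1 g', h2]
    · exact_mod_cast h6.symm
  have h1 := Nat.card_le_card_of_injective F hF
  rw [Nat.card_prod] at h1
  have h2 : Nat.card (((Icc (-2 : ℤ) 2) ×ˢ (Icc (-1 : ℤ) 1) : Finset (ℤ × ℤ)) : Type) = 15 := by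
    rw [Nat.card_eq_fintype_card, Fintype.card_coe]
    decide
  rw [h2] at h1
  exact h1

end Pool.Agent.T2h80.CL
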