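import Pool.Agent.T2h80.CL.Stm
import Pool.Agent.T2h80.TL.Tor

set_option autoImplicit false

/-! The correspondence between prime ideals and solutions. -/

namespace Pool.Agent.T2h80.CL

open NumberField Finset Pool.Agent.T2h80.TL
open scoped nonZeroDivisors

variable {K : Type} [Field K] [NumberField K]

theorem isInt_of_quad {b : K} {x c : ℤ} (h : b ^ 2 - (x : K) * b + c = 0) : IsIntegral ℤ b := by
  refine ⟨Polynomial.X ^ 2 + (Polynomial.C (-x) * Polynomial.X + Polynomial.C c), ?_, ?_⟩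
  · apply Polynomial.monic_X_pow_add
    refine (Polynomial.degree_linear_le).trans_lt ?_
    norm_num
  · simp only [Polynomial.eval₂_add, Polynomial.eval₂_mul, Polynomial.eval₂_pow,
      Polynomial.eval₂_X, Polynomial.eval₂_C]
    simp only [algebraMap_int_eq, eq_intCast, Int.cast_neg]
    linear_combination h

theorem alpha_cases {α α' : K} (h : α ^ 2 = ((discr K : ℤ) : K)) (h' : α' ^ 2 = ((discr K : ℤ) : K)) :
    α' = α ∨ α' = -α := by
  have : (α' - α) * (α' + α) = 0 := by linear_combination h' - h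
  rcases mul_eq_zero.mp this with h | h
  · left; linear_combination h
  · right; linear_combination h

/-- the norm of an element given by a pair -/
theorem norm_of_pair (hK : Module.finrank ℚ K = 2) (hD : discr K < 0) {α : K}
    (hα : α ^ 2 = ((discr K : ℤ) : K)) {β : 𝓞 K} {x y : ℤ} (h : 2 * (β : K) = x + y * α) :
    4 * Algebra.norm ℤ β = x ^ 2 - discr K * y ^ 2 := by
  obtain ⟨α', hα', hr⟩ := rep hK
  obtain ⟨t, k, h1, h2⟩ := hr β
  have hfin : ∀ k' : ℤ, k' ^ 2 = k ^ 2 → (t : K) + k' * α = (x : K) + y * α →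
      4 * Algebra.norm ℤ β = x ^ 2 - discr K * y ^ 2 := by
    intro k' hk' he
    obtain ⟨e1, e2⟩ := indep hD hα he
    rw [h2, ← hk', e1, e2]
  rcases alpha_cases hα hα' with h' | h'
  · apply hfin k rfl
    rw [← h, h1, h']
  · apply hfin (-k) (by ring)
    rw [← h, h1, h']; push_cast; ring

/-- every integer is given by a pair (with a given square root) -/
theorem rep' (hK : Module.finrank ℚ K = 2) {α : K} (hα : α ^ 2 = ((discr K : ℤ) : K)) (γ : 𝓞 K) :
    ∃ t k : ℤ, 2 * (γ : K) = t + k * α ∧ 4 * Algebra.norm ℤ γ = t ^ 2 - discr K * k ^ 2 := by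
  obtain ⟨α', hα', hr⟩ := rep hK
  obtain ⟨t, k, h1, h2⟩ := hr γ
  rcases alpha_cases hα hα' with h' | h'
  · exact ⟨t, k, by rw [h1, h'], h2⟩
  · refine ⟨t, -k, by rw [h1, h']; push_cast; ring, by rw [h2]; ring⟩

/-- **A.** the ideal attached to a solution of `x² - 4 p ^ l = D y²` -/
theorem ideal_of_sol (hK : Module.finrank ℚ K = 2) (hD : discr K < 0) {α : K}
    (hα : α ^ 2 = ((discr K : ℤ) : K)) {l p x y : ℕ} (hl : 1 ≤ l) (hp : p.Prime)
    (hpx : ¬ p ∣ x) (h : (x : ℤ) ^ 2 - 4 * (p : ℤ) ^ l = discr K * (y : ℤ) ^ 2) :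
    ∃ (I : Ideal (𝓞 K)) (β : 𝓞 K), Ideal.absNorm I = p ∧ I ^ l = Ideal.span {β} ∧
      2 * (β : K) = (x : ℤ) + (y : ℤ) * α := by
  have hK2 : (x : K) ^ 2 - 4 * (p : K) ^ l = α ^ 2 * (y : K) ^ 2 := by
    rw [hα]
    exact_mod_cast congrArg (fun z : ℤ => (z : K)) h
  have hβi : IsIntegral ℤ (((x : K) + y * α) / 2) := by
    apply isInt_of_quad (x := x) (c := (p : ℤ) ^ l)
    push_cast
    linear_combination - hK2 / 4
  let β : 𝓞 K := ⟨((x : K) + y * α) / 2, hβi⟩
  have hβ : (β : K) = ((x : K) + y * α) / 2 := rfl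
  set β' : 𝓞 K := (x : 𝓞 K) - β with hβ'
  have hprod : β * β' = ((p : ℕ) : 𝓞 K) ^ l := by
    apply RingOfIntegers.coe_injective
    rw [hβ']
    push_cast
    change (β : K) * ((x : K) - (β : K)) = (p : K) ^ l
    rw [hβ]
    linear_combination hK2 / 4
  have hcp : IsCoprime β β' := by
    have h1 : IsCoprime (x : ℤ) ((p : ℤ) ^ l) := by
      apply IsCoprime.pow_right
      rw [Nat.isCoprime_iff_coprime]
      exact ((Nat.Prime.coprime_iff_not_dvd hp).mpr hpx).symm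
    obtain ⟨u, v, huv⟩ := h1
    refine ⟨(u : 𝓞 K) + v * β', u, ?_⟩
    have e : ((u * x + v * (p : ℤ) ^ l : ℤ) : 𝓞 K) = ((1 : ℤ) : 𝓞 K) := by rw [huv]
    push_cast at e
    have e2 : β + β' = x := by rw [hβ']; ring
    linear_combination e + (u : 𝓞 K) * e2 + (v : 𝓞 K) * hprod
  have hmul : Ideal.span {β} * Ideal.span {β'} = (Ideal.span {((p : ℕ) : 𝓞 K)}) ^ l := by
    rw [Ideal.span_singleton_mul_span_singleton, hprod, Ideal.span_singleton_pow]
  have hcpI : IsCoprime (Ideal.span {β}) (Ideal.span {β'}) :=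
    (Ideal.isCoprime_span_singleton_iff β β').mpr hcp
  let _ : GCDMonoid (Ideal (𝓞 K)) := UniqueFactorizationMonoid.toGCDMonoid _
  obtain ⟨I, hI⟩ := exists_eq_pow_of_mul_eq_pow_of_coprime hcpI hmul
  have h2β : 2 * (β : K) = (x : ℤ) + (y : ℤ) * α := by
    rw [hβ]; push_cast; ring
  refine ⟨I, β, ?_, hI.symm, h2β⟩
  have hnorm : Algebra.norm ℤ β = (p : ℤ) ^ l := by
    have h1 := norm_of_pair hK hD hα h2β
    linarith
  have h3 : (Ideal.absNorm I) ^ l = p ^ l := by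
    rw [← map_pow, ← hI, Ideal.absNorm_span_singleton, hnorm]
    simp
  exact Nat.pow_left_injective (by omega) h3

theorem prime_of_norm {P : Ideal (𝓞 K)} (h : (Ideal.absNorm P).Prime) : P.IsPrime :=
  Ideal.isPrime_of_irreducible_absNorm h

theorem ne_bot_of_prime {P : Ideal (𝓞 K)} (h : (Ideal.absNorm P).Prime) : P ≠ ⊥ := by
  rintro rfl
  rw [Ideal.absNorm_bot] at h
  exact Nat.not_prime_zero h

/-- prime ideals with the same power -/
theorem eq_of_dvd_pow {P P' : Ideal (𝓞 K)} (h : (Ideal.absNorm P).Prime)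
    (h' : (Ideal.absNorm P').Prime) {l : ℕ} (hd : P ∣ P' ^ l) : P = P' := by
  have hP := prime_of_norm h
  have hP' := prime_of_norm h'
  have h1 : Prime P := Ideal.prime_of_isPrime (ne_bot_of_prime h) hP
  have h2 : P ∣ P' := h1.dvd_of_dvd_pow hd
  have h3 : P' ≤ P := Ideal.le_of_dvd h2
  have h4 : P'.IsMaximal := hP'.isMaximal (ne_bot_of_prime h')
  exact (h4.eq_of_le hP.ne_top h3).symm

/-- the generator of the norm -/
theorem norm_gen {P : Ideal (𝓞 K)} (hK : Module.finrank ℚ K = 2) (hD : discr K < 0) {l : ℕ}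
    {β : 𝓞 K} (h : P ^ l = Ideal.span {β}) : Algebra.norm ℤ β = (Ideal.absNorm P : ℤ) ^ l := by
  have h1 : Ideal.absNorm (P ^ l) = (Algebra.norm ℤ β).natAbs := by
    rw [h, Ideal.absNorm_span_singleton]
  rw [map_pow] at h1
  have h2 := norm_nonneg' hK hD β
  have h3 : ((Algebra.norm ℤ β).natAbs : ℤ) = Algebra.norm ℤ β := Int.natAbs_of_nonneg h2
  rw [← h3, ← h1]
  push_cast
  rfl

theorem four_p_not_sq {p : ℕ} (hp : p.Prime) (s : ℤ) : 4 * (p : ℤ) ≠ s ^ 2 := by
  intro h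
  have h1 : (2 : ℤ) ∣ s := by
    have : (2 : ℤ) ∣ s ^ 2 := ⟨2 * p, by linarith⟩
    exact Int.prime_two.dvd_of_dvd_pow this
  obtain ⟨r, rfl⟩ := h1
  have h2 : (p : ℤ) = r ^ 2 := by linarith
  have h3 : p = r.natAbs ^ 2 := by
    have : ((r.natAbs ^ 2 : ℕ) : ℤ) = r ^ 2 := by push_cast; exact sq_abs r
    exact_mod_cast h2.trans this.symm
  rw [h3] at hp
  exact Nat.Prime.not_prime_pow le_rfl hp

/-- if `P² = (p)` then `4 p = s² - D r²` with `r ≠ 0` and `p ∣ s` -/
theorem of_sq (hK : Module.finrank ℚ K = 2) (hD : discr K < 0) {α : K}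
    (hα : α ^ 2 = ((discr K : ℤ) : K)) {P : Ideal (𝓞 K)} {p : ℕ} (hp : p.Prime)
    (hP : Ideal.absNorm P = p) {l : ℕ} (hl : Odd l) (hpr : (P ^ l).IsPrincipal)
    (hsq : P ^ 2 = Ideal.span {((p : ℕ) : 𝓞 K)}) :
    ∃ s r : ℤ, 4 * (p : ℤ) = s ^ 2 - discr K * r ^ 2 ∧ r ≠ 0 ∧ (p : ℤ) ∣ s := by
  have hpK : ((p : ℕ) : 𝓞 K) ≠ 0 := by exact_mod_cast hp.ne_zero
  obtain ⟨m, hm⟩ := hl
  obtain ⟨γ, hγ⟩ := hpr
  rw [Ideal.submodule_span_eq] at hγ
  have h1 : P ^ l = P * Ideal.span {((p : ℕ) : 𝓞 K) ^ m} := by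
    rw [hm, pow_succ, pow_mul, hsq, Ideal.span_singleton_pow, mul_comm]
  have h2 : γ ∈ Ideal.span {((p : ℕ) : 𝓞 K) ^ m} := by
    have : γ ∈ P ^ l := by rw [hγ]; exact Ideal.mem_span_singleton_self γ
    rw [h1] at this
    exact Ideal.mul_le_right this
  obtain ⟨δ, hδ⟩ := Ideal.mem_span_singleton'.mp h2
  have h3 : P = Ideal.span {δ} := by
    have h4 : P * Ideal.span {((p : ℕ) : 𝓞 K) ^ m} =
        Ideal.span {δ} * Ideal.span {((p : ℕ) : 𝓞 K) ^ m} := by
      rw [← h1, hγ, Ideal.span_singleton_mul_span_singleton, hδ]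
    have h5 : Ideal.span {((p : ℕ) : 𝓞 K) ^ m} ≠ ⊥ := by
      rw [Ne, Ideal.span_singleton_eq_bot]
      exact pow_ne_zero _ hpK
    exact mul_right_cancel₀ h5 h4
  have h4 : Algebra.norm ℤ δ = (p : ℤ) := by
    have := norm_gen (l := 1) (β := δ) (P := P) hK hD (by rw [pow_one]; exact h3)
    rw [this, hP, pow_one]
  obtain ⟨s, r, h5, h6⟩ := rep' hK hα δ
  rw [h4] at h6
  refine ⟨s, r, h6, ?_, ?_⟩
  · rintro rfl
    apply four_p_not_sq hp s
    rw [h6]; ring
  · -- δ² ∈ (p), δ² = s δ - p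
    have h7 : δ ^ 2 = (s : 𝓞 K) * δ - (p : ℕ) := by
      apply RingOfIntegers.coe_injective
      push_cast
      have hs : ((s : 𝓞 K) : K) = (s : K) := map_intCast (algebraMap (𝓞 K) K) s
      have e : (4 * (p : ℤ) : K) = s ^ 2 - ((discr K : ℤ) : K) * r ^ 2 := by exact_mod_cast h6
      rw [← hα] at e
      have e2 : (2 * (δ : K)) ^ 2 = 2 * s * (2 * (δ : K)) - 4 * p := by
        rw [h5]
        push_cast at e
        linear_combination e
      linear_combination e2 / 4 - (δ : K) * hs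
    have h8 : δ ^ 2 ∈ Ideal.span {((p : ℕ) : 𝓞 K)} := by
      rw [← hsq, h3, Ideal.span_singleton_pow]
      exact Ideal.mem_span_singleton_self _
    have h9 : (s : 𝓞 K) * δ ∈ Ideal.span {((p : ℕ) : 𝓞 K)} := by
      have : (s : 𝓞 K) * δ = δ ^ 2 + (p : ℕ) := by rw [h7]; ring
      rw [this]
      exact Ideal.add_mem _ h8 (Ideal.mem_span_singleton_self _)
    rw [← hsq, h3, Ideal.span_singleton_pow, Ideal.mem_span_singleton] at h9
    obtain ⟨c, hc⟩ := h9
    have hδ0 : δ ≠ 0 := by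
      rintro rfl
      rw [Algebra.norm_zero] at h4
      have := hp.ne_zero
      apply this
      exact_mod_cast h4.symm
    have h10 : (s : 𝓞 K) = δ * c := by
      apply mul_right_cancel₀ hδ0
      rw [hc]; ring
    have h11 : (s : 𝓞 K) ∈ P := by
      rw [h3, h10]
      exact Ideal.mul_mem_right _ _ (Ideal.mem_span_singleton_self _)
    have h12 : Ideal.absNorm P ∣ Ideal.absNorm (Ideal.span {(s : 𝓞 K)}) := by
      apply Ideal.absNorm_dvd_absNorm_of_le
      rw [Ideal.span_singleton_le_iff_mem]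
      exact h11
    rw [hP, Ideal.absNorm_span_singleton] at h12
    have h13 : Algebra.norm ℤ (s : 𝓞 K) = s ^ 2 := by
      have := Algebra.norm_algebraMap (R := ℤ) (S := 𝓞 K) s
      rw [RingOfIntegers.rank, hK] at this
      simpa using this
    rw [h13, Int.natAbs_pow] at h12
    have h14 : p ∣ s.natAbs := hp.dvd_of_dvd_pow h12
    exact Int.natCast_dvd.mpr h14

end Pool.Agent.T2h80.CL
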