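import Pool.Agent.T2h80.CL.Stm

set_option autoImplicit false

/-!
# Square roots modulo `e` in `ZMod e`
-/

namespace Pool.Agent.T2h80.CL

open Finset

lemma nsq_zmod (a e : ℕ) [NeZero e] :
    nsq a e = ((univ : Finset (ZMod e)).filter (fun c => c ^ 2 = (a : ZMod e))).card := by
  unfold nsq
  refine Finset.card_bij (fun c _ => (c : ZMod e)) ?_ ?_ ?_
  · intro c hc
    rw [mem_filter] at hc ⊢
    refine ⟨mem_univ _, ?_⟩
    have := (ZMod.natCast_eq_natCast_iff _ _ _).mpr hc.2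
    exact_mod_cast this
  · intro c hc d hd h
    rw [mem_filter, mem_range] at hc hd
    have h' := (ZMod.natCast_eq_natCast_iff _ _ _).mp h
    exact Nat.ModEq.eq_of_lt_of_lt h' hc.1 hd.1
  · intro c hc
    rw [mem_filter] at hc
    refine ⟨c.val, ?_, ZMod.natCast_zmod_val c⟩
    rw [mem_filter, mem_range]
    refine ⟨ZMod.val_lt c, ?_⟩
    rw [← ZMod.natCast_eq_natCast_iff]
    push_cast
    rw [ZMod.natCast_zmod_val]
    exact hc.2

lemma nsq_pow (l p e : ℕ) [NeZero e] (hl : Odd l) (hp : p.Coprime e) :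
    nsq (p ^ l) e = nsq p e := by
  obtain ⟨j, rfl⟩ := hl
  rw [nsq_zmod, nsq_zmod]
  symm
  obtain ⟨u, hu⟩ := (ZMod.isUnit_iff_coprime p e).mpr hp
  refine Finset.card_bij (fun c _ => (u : ZMod e) ^ j * c) ?_ ?_ ?_
  · intro c hc
    rw [mem_filter] at hc ⊢
    refine ⟨mem_univ _, ?_⟩
    push_cast
    rw [mul_pow, hc.2, ← hu]
    ring
  · intro c hc d hd h
    exact (u ^ j).isUnit.mul_left_cancel (by simpa using h)
  · intro c hc
    rw [mem_filter] at hc
    refine ⟨((u ^ j)⁻¹ : (ZMod e)ˣ) * c, ?_, ?_⟩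
    · rw [mem_filter]
      refine ⟨mem_univ _, ?_⟩
      have h2 := hc.2
      push_cast at h2
      rw [← hu] at h2 ⊢
      rw [mul_pow, h2]
      have : ((u ^ j)⁻¹ : (ZMod e)ˣ) ^ 2 * u ^ (2 * j + 1) = u := by
        have e1 : u ^ (2 * j + 1) = (u ^ j) ^ 2 * u := by
          rw [pow_succ, mul_comm 2 j, pow_mul]
        rw [e1, ← mul_assoc, ← mul_pow, inv_mul_cancel, one_pow, one_mul]
      have h3 := congrArg (fun w : (ZMod e)ˣ => (w : ZMod e)) this
      simpa using h3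
    · have := Units.mul_inv_cancel_left (u ^ j) c
      simpa using this

end Pool.Agent.T2h80.CL
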