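import Pool.Agent.T2h80.CL.QM
import Pool.Agent.H398R2.BA3
import Pool.Agent.H732R2.MT_B3

set_option autoImplicit false

/-!
# Task PR, part 1: decomposition over characters
-/

namespace Pool.Agent.T2h80.CL.PRm

open Finset Pool.Agent.H410R2 Pool.Agent.H398R2.BV Pool.Agent.T2h80.CL.QMm

/-- the weights -/
noncomputable def uu (e n : ℕ) : ℝ :=
  if n.Coprime e then ArithmeticFunction.vonMangoldt n * (nsq n e : ℝ) else 0

lemma uu_nonneg (e n : ℕ) : 0 ≤ uu e n := by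
  unfold uu
  split_ifs
  · exact mul_nonneg ArithmeticFunction.vonMangoldt_nonneg (Nat.cast_nonneg _)
  · exact le_rfl

/-- the log weighted sum -/
noncomputable def TH (e : ℕ) (x : ℝ) : ℝ := ∑ n ∈ Icc 1 ⌊x⌋₊, uu e n * Real.log (x / n)

/-- sum of `|psiLog|` over the primitive quadratic characters mod `f` -/
noncomputable def QQ (x : ℝ) (f : ℕ) : ℝ := ∑ ψ ∈ quadr f, ‖psiLog x f ψ‖

lemma QQ_nonneg (x : ℝ) (f : ℕ) : 0 ≤ QQ x f := Finset.sum_nonneg fun _ _ => norm_nonneg _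

lemma TH_eq (h : S_NS) (e : ℕ) [NeZero e] [DecidableEq (DirichletCharacter ℂ e)] (x : ℝ) :
    ((TH e x : ℝ) : ℂ) =
      ∑ χ ∈ (univ : Finset (DirichletCharacter ℂ e)).filter (fun χ => χ ^ 2 = 1),
        psiLog x e χ := by
  unfold TH psiLog
  rw [Finset.sum_comm]
  push_cast
  refine Finset.sum_congr rfl fun n _ => ?_
  by_cases hc : n.Coprime e
  · have h1 := h.1 n e hc
    unfold uu
    rw [if_pos hc]
    push_cast
    rw [h1, ← Finset.sum_mul, ← Finset.mul_sum]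
    congr!
  · have h1 : ∀ χ : DirichletCharacter ℂ e, χ (n : ZMod e) = 0 := fun χ =>
      MulChar.map_nonunit _ (fun hu => hc ((ZMod.isUnit_iff_coprime n _).mp hu))
    unfold uu
    rw [if_neg hc]
    simp [h1]

lemma one_case (x : ℝ) (hx : 1 ≤ x) (e : ℕ) (he : 1 ≤ e) :
    ‖psiLog x e 1 - ((psiLog1 x : ℝ) : ℂ)‖ ≤ e.primeFactors.card * Real.log x ^ 2 := by
  have e1 : psiLog x e 1 - ((psiLog1 x : ℝ) : ℂ) =
      -((∑ n ∈ (Icc 1 ⌊x⌋₊).filter (fun n => ¬ n.Coprime e),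
      ArithmeticFunction.vonMangoldt n * Real.log (x / n) : ℝ) : ℂ) := by
    unfold psiLog psiLog1
    rw [Finset.sum_filter]
    push_cast
    rw [← Finset.sum_sub_distrib, ← Finset.sum_neg_distrib]
    refine Finset.sum_congr rfl fun n _ => ?_
    by_cases hc : n.Coprime e
    · have h1 : (1 : DirichletCharacter ℂ e) (n : ZMod e) = 1 :=
        MulChar.one_apply ((ZMod.isUnit_iff_coprime n _).mpr hc)
      rw [h1, if_neg (not_not.mpr hc)]
      push_cast
      ring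
    · have h1 : (1 : DirichletCharacter ℂ e) (n : ZMod e) = 0 :=
        MulChar.map_nonunit _ (fun hu => hc ((ZMod.isUnit_iff_coprime n _).mp hu))
      rw [h1, if_pos hc]
      push_cast
      ring
  rw [e1, norm_neg, Complex.norm_real, Real.norm_of_nonneg]
  · exact sum_nc x hx e he
  · refine Finset.sum_nonneg fun n hn => ?_
    exact mul_nonneg ArithmeticFunction.vonMangoldt_nonneg
      (log_div_bounds x n hx (mem_filter.mp hn).1).1

lemma nontriv (h : S_NS) (x : ℝ) (hx : 1 ≤ x) (e : ℕ) [NeZero e]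
    [DecidableEq (DirichletCharacter ℂ e)] :
    ∑ χ ∈ ((univ : Finset (DirichletCharacter ℂ e)).filter (fun χ => χ ^ 2 = 1)).erase 1,
      ‖psiLog x e χ‖ ≤ ∑ f ∈ e.divisors.filter (fun f => f ≠ 1), QQ x f +
        2 * (e.divisors.card : ℝ) * (e.primeFactors.card * Real.log x ^ 2) := by
  have he : 1 ≤ e := Nat.one_le_iff_ne_zero.mpr (NeZero.ne e)
  set R : ℝ := e.primeFactors.card * Real.log x ^ 2 with hR
  have hR0 : 0 ≤ R := by positivity
  set T := ((univ : Finset (DirichletCharacter ℂ e)).filter (fun χ => χ ^ 2 = 1)).erase 1 with hT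
  have hTm : ∀ χ ∈ T, χ ^ 2 = 1 ∧ χ ≠ 1 := by
    intro χ hχ
    rw [hT, mem_erase, mem_filter] at hχ
    exact ⟨hχ.2.2, hχ.1⟩
  have hTc : (T.card : ℝ) ≤ 2 * (e.divisors.card : ℝ) := by
    have h1 := card_sq_one h e
    have h2 : T.card ≤ 2 * e.divisors.card := (Finset.card_le_card (Finset.erase_subset _ _)).trans h1
    exact_mod_cast h2
  have hJ : ∀ χ ∈ T, χ.conductor ∈ e.divisors.filter (fun f => f ≠ 1) := by
    intro χ hχ
    rw [mem_filter, Nat.mem_divisors]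
    refine ⟨⟨χ.conductor_dvd_level, NeZero.ne e⟩, ?_⟩
    intro h
    exact (hTm χ hχ).2 (DirichletCharacter.eq_one_iff_conductor_eq_one.mpr h)
  have h1 : ∑ χ ∈ T, max (‖psiLog x e χ‖ - R) 0 ≤
      ∑ f ∈ e.divisors.filter (fun f => f ≠ 1), QQ x f := by
    rw [← Finset.sum_fiberwise_of_maps_to hJ]
    refine Finset.sum_le_sum fun f hf => ?_
    have hfm : f ∣ e := by
      rw [mem_filter, Nat.mem_divisors] at hf
      exact hf.1.1
    have hf0 : f ≠ 0 := by
      rintro rfl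
      exact NeZero.ne e (zero_dvd_iff.mp hfm)
    have h2 : (T.filter (fun χ => χ.conductor = f)) ⊆
        (quadr f).image (DirichletCharacter.changeLevel hfm) := by
      intro χ hχ
      rw [mem_filter] at hχ
      obtain ⟨hχT, hc⟩ := hχ
      subst hc
      rw [mem_image]
      refine ⟨χ.primitiveCharacter, ?_, χ.changeLevel_primitiveCharacter⟩
      rw [mem_quadr hf0]
      refine ⟨χ.primitiveCharacter_isPrimitive, ?_⟩
      apply DirichletCharacter.changeLevel_injective hfm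
      rw [map_pow, map_one]
      have := χ.changeLevel_primitiveCharacter
      rw [this]
      exact (hTm χ hχT).1
    calc _ ≤ ∑ χ ∈ (quadr f).image (DirichletCharacter.changeLevel hfm),
          max (‖psiLog x e χ‖ - R) 0 :=
          Finset.sum_le_sum_of_subset_of_nonneg h2 fun χ _ _ => le_max_right _ _
      _ = ∑ ψ ∈ quadr f, max (‖psiLog x e (DirichletCharacter.changeLevel hfm ψ)‖ - R) 0 := by
          rw [Finset.sum_image]
          intro x _ y _ hxy
          exact DirichletCharacter.changeLevel_injective hfm hxy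
      _ ≤ QQ x f := by
          unfold QQ
          refine Finset.sum_le_sum fun ψ _ => ?_
          apply max_le _ (norm_nonneg _)
          have := TL_changeLevel x hx e f he hfm ψ
          have e2 : TL x e (DirichletCharacter.changeLevel hfm ψ)
            (fun n => ArithmeticFunction.vonMangoldt n) =
            psiLog x e (DirichletCharacter.changeLevel hfm ψ) := rfl
          rw [e2] at this
          linarith
  calc ∑ χ ∈ T, ‖psiLog x e χ‖ ≤ ∑ χ ∈ T, (max (‖psiLog x e χ‖ - R) 0 + R) := by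
        refine Finset.sum_le_sum fun χ _ => ?_
        have := le_max_left (‖psiLog x e χ‖ - R) 0
        linarith
    _ = ∑ χ ∈ T, max (‖psiLog x e χ‖ - R) 0 + (T.card : ℝ) * R := by
        rw [Finset.sum_add_distrib, Finset.sum_const, nsmul_eq_mul]
    _ ≤ _ := add_le_add h1 (mul_le_mul_of_nonneg_right hTc hR0)

lemma per_e (h : S_NS) (x : ℝ) (hx : 1 ≤ x) (e : ℕ) (he : 1 ≤ e) :
    |TH e x - psiLog1 x| ≤ ∑ f ∈ e.divisors.filter (fun f => f ≠ 1), QQ x f +
        3 * (e.divisors.card : ℝ) * (e.primeFactors.card * Real.log x ^ 2) := by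
  classical
  have : NeZero e := ⟨by omega⟩
  have h1 := one_case x hx e he
  have h2 := nontriv h x hx e
  have h3 : ((TH e x - psiLog1 x : ℝ) : ℂ) = (psiLog x e 1 - ((psiLog1 x : ℝ) : ℂ)) +
      ∑ χ ∈ ((univ : Finset (DirichletCharacter ℂ e)).filter (fun χ => χ ^ 2 = 1)).erase 1,
      psiLog x e χ := by
    push_cast
    rw [TH_eq h e x]
    have h4 : (1 : DirichletCharacter ℂ e) ∈
      (univ : Finset (DirichletCharacter ℂ e)).filter (fun χ => χ ^ 2 = 1) := by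
      rw [mem_filter]; exact ⟨mem_univ _, one_pow 2⟩
    rw [← Finset.add_sum_erase _ _ h4]
    ring
  have h5 : |TH e x - psiLog1 x| = ‖((TH e x - psiLog1 x : ℝ) : ℂ)‖ := by
    rw [Complex.norm_real, Real.norm_eq_abs]
  rw [h5, h3]
  refine (norm_add_le _ _).trans ?_
  have h6 := (norm_sum_le (((univ : Finset (DirichletCharacter ℂ e)).filter
    (fun χ => χ ^ 2 = 1)).erase 1) (fun χ => psiLog x e χ)).trans h2
  have h7 : (1 : ℝ) ≤ (e.divisors.card : ℝ) := by
    have : 0 < e.divisors.card := Finset.card_pos.mpr ⟨1, by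
      rw [Nat.mem_divisors]; exact ⟨one_dvd _, by omega⟩⟩
    exact_mod_cast this
  have h8 : 0 ≤ (e.primeFactors.card : ℝ) * Real.log x ^ 2 := by positivity
  nlinarith

lemma inner_div (E f : ℕ) (hf : 1 ≤ f) :
    ∑ e ∈ (Icc 1 E).filter (fun e => f ∣ e), (1 : ℝ) / e ≤ (1 / (f : ℝ)) * (1 + Real.log E) := by
  classical
  have hf0 : (0 : ℝ) < f := by exact_mod_cast hf
  have h1 : (Icc 1 E).filter (fun e => f ∣ e) ⊆ (Icc 1 E).image (fun m => f * m) := by
    intro e he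
    rw [mem_filter, mem_Icc] at he
    obtain ⟨m, rfl⟩ := he.2
    rw [mem_image]
    refine ⟨m, ?_, rfl⟩
    rw [mem_Icc]
    have hm : 1 ≤ m := by
      rcases Nat.eq_zero_or_pos m with h | h
      · subst h; simp at he
      · exact h
    exact ⟨hm, (Nat.le_mul_of_pos_left m hf).trans he.1.2⟩
  calc _ ≤ ∑ e ∈ (Icc 1 E).image (fun m => f * m), (1 : ℝ) / e :=
        Finset.sum_le_sum_of_subset_of_nonneg h1 fun _ _ _ => by positivity
    _ = ∑ m ∈ Icc 1 E, (1 : ℝ) / ((f * m : ℕ) : ℝ) := by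
        rw [Finset.sum_image]
        intro x _ y _ hxy
        exact Nat.eq_of_mul_eq_mul_left hf hxy
    _ = (1 / (f : ℝ)) * ∑ m ∈ Icc 1 E, (1 : ℝ) / m := by
        rw [Finset.mul_sum]
        refine Finset.sum_congr rfl fun m _ => ?_
        push_cast
        rw [one_div_mul_one_div]
    _ ≤ _ := mul_le_mul_of_nonneg_left (harm_le E) (by positivity)

lemma inter (E : ℕ) (S : ℕ → ℝ) (hS : ∀ f, 0 ≤ S f) :
    ∑ e ∈ Icc 1 E, (1 / (e : ℝ)) * ∑ f ∈ e.divisors.filter (fun f => f ≠ 1), S f ≤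
      (1 + Real.log E) * ∑ f ∈ Icc 2 E, (1 / (f : ℝ)) * S f := by
  have h1 : ∑ e ∈ Icc 1 E, (1 / (e : ℝ)) * ∑ f ∈ e.divisors.filter (fun f => f ≠ 1), S f ≤
      ∑ e ∈ Icc 1 E, ∑ f ∈ Icc 2 E, if f ∣ e then (1 / (e : ℝ)) * S f else 0 := by
    refine Finset.sum_le_sum fun e he => ?_
    rw [mem_Icc] at he
    rw [Finset.mul_sum, ← Finset.sum_filter]
    apply Finset.sum_le_sum_of_subset_of_nonneg
    · intro f hf
      rw [mem_filter, Nat.mem_divisors] at hf
      rw [mem_filter, mem_Icc]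
      have h5 : 0 < f := Nat.pos_of_dvd_of_pos hf.1.1 (by omega)
      have h6 : f ≤ e := Nat.le_of_dvd (by omega) hf.1.1
      have h7 := hf.2
      exact ⟨⟨by omega, by omega⟩, hf.1.1⟩
    · intro f _ _
      exact mul_nonneg (by positivity) (hS f)
  refine h1.trans ?_
  rw [Finset.sum_comm, Finset.mul_sum]
  refine Finset.sum_le_sum fun f hf => ?_
  rw [mem_Icc] at hf
  rw [← Finset.sum_filter, ← Finset.sum_mul]
  have h2 := inner_div E f (by omega)
  calc _ ≤ ((1 / (f : ℝ)) * (1 + Real.log E)) * S f := mul_le_mul_of_nonneg_right h2 (hS f)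
    _ = _ := by ring

/-- the error for a family of weights -/
lemma total (h : S_NS) (x : ℝ) (hx : 1 ≤ x) (E : ℕ) (c : ℕ → ℝ)
    (hc : ∀ e ∈ Icc 1 E, 0 ≤ c e ∧ c e ≤ 1 / e) :
    |∑ e ∈ Icc 1 E, c e * TH e x - (∑ e ∈ Icc 1 E, c e) * psiLog1 x| ≤
      (1 + Real.log E) * (∑ f ∈ Icc 2 E, (1 / (f : ℝ)) * QQ x f) +
        6 * (1 + Real.log E) ^ 3 * Real.log x ^ 2 := by
  rcases Nat.eq_zero_or_pos E with hE | hE
  · subst hE
    simp
    positivity
  have hlogE : 0 ≤ Real.log E := Real.log_nonneg (by exact_mod_cast hE)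
  rw [Finset.sum_mul, ← Finset.sum_sub_distrib]
  refine (Finset.abs_sum_le_sum_abs _ _).trans ?_
  calc _ ≤ ∑ e ∈ Icc 1 E, ((1 / (e : ℝ)) * ∑ f ∈ e.divisors.filter (fun f => f ≠ 1), QQ x f +
        (6 * (1 + Real.log E) * Real.log x ^ 2) * ((1 / (e : ℝ)) * (e.divisors.card : ℝ))) := by
        refine Finset.sum_le_sum fun e he => ?_
        obtain ⟨h0, h1⟩ := hc e he
        rw [mem_Icc] at he
        have h2 := per_e h x hx e he.1
        have h3 := omega_le_log e he.1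
        have h4 : Real.log e ≤ Real.log E := Real.log_le_log (by exact_mod_cast he.1)
          (by exact_mod_cast he.2)
        have h5 : 3 * (e.divisors.card : ℝ) * (e.primeFactors.card * Real.log x ^ 2) ≤
            (6 * (1 + Real.log E) * Real.log x ^ 2) * (e.divisors.card : ℝ) := by
          have h6 : (e.primeFactors.card : ℝ) ≤ 2 * (1 + Real.log E) := by linarith
          have h7 : (e.primeFactors.card : ℝ) * Real.log x ^ 2 ≤
              2 * (1 + Real.log E) * Real.log x ^ 2 :=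
            mul_le_mul_of_nonneg_right h6 (by positivity)
          calc 3 * (e.divisors.card : ℝ) * (e.primeFactors.card * Real.log x ^ 2) ≤
              3 * (e.divisors.card : ℝ) * (2 * (1 + Real.log E) * Real.log x ^ 2) :=
                mul_le_mul_of_nonneg_left h7 (by positivity)
            _ = _ := by ring
        have h8 : 0 ≤ ∑ f ∈ e.divisors.filter (fun f => f ≠ 1), QQ x f +
            (6 * (1 + Real.log E) * Real.log x ^ 2) * (e.divisors.card : ℝ) := by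
          have : 0 ≤ ∑ f ∈ e.divisors.filter (fun f => f ≠ 1), QQ x f :=
            Finset.sum_nonneg fun f _ => QQ_nonneg x f
          positivity
        rw [← mul_sub, abs_mul, abs_of_nonneg h0]
        calc c e * |TH e x - psiLog1 x| ≤ c e * (∑ f ∈ e.divisors.filter (fun f => f ≠ 1), QQ x f +
              (6 * (1 + Real.log E) * Real.log x ^ 2) * (e.divisors.card : ℝ)) :=
              mul_le_mul_of_nonneg_left (by linarith) h0
          _ ≤ (1 / (e : ℝ)) * (∑ f ∈ e.divisors.filter (fun f => f ≠ 1), QQ x f +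
              (6 * (1 + Real.log E) * Real.log x ^ 2) * (e.divisors.card : ℝ)) :=
              mul_le_mul_of_nonneg_right h1 h8
          _ = _ := by ring
    _ = ∑ e ∈ Icc 1 E, (1 / (e : ℝ)) * ∑ f ∈ e.divisors.filter (fun f => f ≠ 1), QQ x f +
        (6 * (1 + Real.log E) * Real.log x ^ 2) *
          ∑ e ∈ Icc 1 E, (1 / (e : ℝ)) * (e.divisors.card : ℝ) := by
        rw [Finset.sum_add_distrib, Finset.mul_sum (Icc 1 E) _
          (6 * (1 + Real.log E) * Real.log x ^ 2)]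
    _ ≤ (1 + Real.log E) * (∑ f ∈ Icc 2 E, (1 / (f : ℝ)) * QQ x f) +
        (6 * (1 + Real.log E) * Real.log x ^ 2) * (1 + Real.log E) ^ 2 := by
        apply add_le_add (inter E (QQ x) (QQ_nonneg x))
        exact mul_le_mul_of_nonneg_left (sum_tau E) (by positivity)
    _ = _ := by ring

/-- unsmoothing -/
lemma unsmooth (u : ℕ → ℝ) (hu : ∀ n, 0 ≤ u n) {x η : ℝ} (hx : 0 < x) (hη : 0 < η) :
    η * ∑ n ∈ Icc 1 ⌊x⌋₊, u n ≤ ∑ n ∈ Icc 1 ⌊x * Real.exp η⌋₊, u n * Real.log (x * Real.exp η / n) -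
      ∑ n ∈ Icc 1 ⌊x⌋₊, u n * Real.log (x / n) ∧
    ∑ n ∈ Icc 1 ⌊x * Real.exp η⌋₊, u n * Real.log (x * Real.exp η / n) -
      ∑ n ∈ Icc 1 ⌊x⌋₊, u n * Real.log (x / n) ≤
      η * ∑ n ∈ Icc 1 ⌊x * Real.exp η⌋₊, u n := by
  set y := x * Real.exp η with hy
  have hexp : 1 ≤ Real.exp η := Real.one_le_exp hη.le
  have hxy : x ≤ y := by rw [hy]; nlinarith
  have hy0 : 0 < y := by positivity
  have hsub : (Icc 1 ⌊x⌋₊) ⊆ (Icc 1 ⌊y⌋₊) := Icc_subset_Icc le_rfl (Nat.floor_le_floor hxy)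
  have hlogy : Real.log y = Real.log x + η := by
    rw [hy, Real.log_mul hx.ne' (Real.exp_pos _).ne', Real.log_exp]
  have hdecL : ∑ n ∈ Icc 1 ⌊y⌋₊, u n * Real.log (y / n) = ∑ n ∈ (Icc 1 ⌊x⌋₊),
      u n * Real.log (y / n) + ∑ n ∈ (Icc 1 ⌊y⌋₊) \ (Icc 1 ⌊x⌋₊), u n * Real.log (y / n) := by
    rw [add_comm, sum_sdiff hsub]
  have hdecP : ∑ n ∈ Icc 1 ⌊y⌋₊, u n = ∑ n ∈ (Icc 1 ⌊x⌋₊), u n +
      ∑ n ∈ (Icc 1 ⌊y⌋₊) \ (Icc 1 ⌊x⌋₊), u n := by
    rw [add_comm, sum_sdiff hsub]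
  have hmain : ∑ n ∈ (Icc 1 ⌊x⌋₊), u n * Real.log (y / n) =
      ∑ n ∈ Icc 1 ⌊x⌋₊, u n * Real.log (x / n) + η * ∑ n ∈ Icc 1 ⌊x⌋₊, u n := by
    rw [mul_sum, ← sum_add_distrib]
    refine sum_congr rfl fun n hn => ?_
    have hn1 : 1 ≤ n := (mem_Icc.1 hn).1
    have hn0 : (n : ℝ) ≠ 0 := by positivity
    rw [Real.log_div hy0.ne' hn0, Real.log_div hx.ne' hn0, hlogy]
    ring
  have hrem : ∀ n ∈ (Icc 1 ⌊y⌋₊) \ (Icc 1 ⌊x⌋₊), 0 ≤ Real.log (y / n) ∧ Real.log (y / n) ≤ η := by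
    intro n hn
    rw [mem_sdiff, mem_Icc, mem_Icc] at hn
    obtain ⟨⟨h1, h2⟩, h4⟩ := hn
    have hn0 : (0 : ℝ) < n := by exact_mod_cast h1
    have h5 : ⌊x⌋₊ < n := by
      by_contra hcon
      exact h4 ⟨h1, not_lt.1 hcon⟩
    have h6 : x < n := (Nat.floor_lt hx.le).1 h5
    have h7 : (n : ℝ) ≤ y := (Nat.le_floor_iff hy0.le).1 h2
    constructor
    · exact Real.log_nonneg ((one_le_div hn0).2 h7)
    · rw [Real.log_div hy0.ne' hn0.ne', hlogy]
      have := Real.log_le_log hx h6.le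
      linarith
  have hremsum0 : 0 ≤ ∑ n ∈ (Icc 1 ⌊y⌋₊) \ (Icc 1 ⌊x⌋₊), u n * Real.log (y / n) :=
    sum_nonneg fun n hn => mul_nonneg (hu n) (hrem n hn).1
  have hremsum1 : ∑ n ∈ (Icc 1 ⌊y⌋₊) \ (Icc 1 ⌊x⌋₊), u n * Real.log (y / n) ≤
      η * ∑ n ∈ (Icc 1 ⌊y⌋₊) \ (Icc 1 ⌊x⌋₊), u n := by
    rw [mul_sum]
    refine sum_le_sum fun n hn => ?_
    rw [mul_comm η]
    exact mul_le_mul_of_nonneg_left (hrem n hn).2 (hu n)
  rw [hdecL, hmain, hdecP]
  constructor
  · linarith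
  · rw [mul_add]
    linarith

end Pool.Agent.T2h80.CL.PRm
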