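import Pool.Agent.T2h80.CL.NS
import Pool.Agent.H38R2.CG.PV

set_option autoImplicit false

/-!
# Task QM, part 1: duality and the product of two primitive characters
-/

namespace Pool.Agent.T2h80.CL.QMm

open Finset

lemma duality {ι : Type*} (I : Finset ℕ) (Ψ : Finset ι) (a : ℕ → ℂ) (g : ι → ℕ → ℂ)
    (w F : ι → ℝ) (W M : ℝ) (hw : ∀ i ∈ Ψ, 0 ≤ w i) (hW : ∀ i ∈ Ψ, w i ≤ W)
    (hF : ∀ i ∈ Ψ, 0 ≤ F i) (hM : 0 ≤ M) (hW0 : 0 ≤ W)
    (hg : ∀ i ∈ Ψ, ∀ n ∈ I, ‖g i n‖ ≤ 1)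
    (hoff : ∀ i ∈ Ψ, ∀ j ∈ Ψ, i ≠ j →
      ‖∑ n ∈ I, star (g i n) * g j n‖ ≤ M * (√(F i) * √(F j))) :
    ∑ i ∈ Ψ, w i * ‖∑ n ∈ I, a n * g i n‖ ^ 2 ≤
      (∑ n ∈ I, ‖a n‖ ^ 2) * (W * I.card + M * ∑ i ∈ Ψ, w i * F i) := by
  classical
  set T : ι → ℂ := fun i => ∑ n ∈ I, a n * g i n with hT
  set S : ℝ := ∑ i ∈ Ψ, w i * ‖T i‖ ^ 2 with hS
  set h : ℕ → ℂ := fun n => ∑ i ∈ Ψ, (w i : ℂ) * star (T i) * g i n with hh
  set A : ℝ := ∑ n ∈ I, ‖a n‖ ^ 2 with hA
  set WF : ℝ := ∑ i ∈ Ψ, w i * F i with hWF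
  have hS0 : 0 ≤ S := Finset.sum_nonneg fun i hi => mul_nonneg (hw i hi) (by positivity)
  have hA0 : 0 ≤ A := Finset.sum_nonneg fun i hi => by positivity
  have hWF0 : 0 ≤ WF := Finset.sum_nonneg fun i hi => mul_nonneg (hw i hi) (hF i hi)
  have e1 : (S : ℂ) = ∑ n ∈ I, a n * h n := by
    rw [hS]
    push_cast
    have : ∀ i ∈ Ψ, (w i : ℂ) * ((‖T i‖ : ℝ) : ℂ) ^ 2 =
        ∑ n ∈ I, (w i : ℂ) * star (T i) * (a n * g i n) := by
      intro i _
      rw [← Finset.mul_sum]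
      have h1 : star (T i) * T i = ((‖T i‖ : ℝ) : ℂ) ^ 2 := by
        have := Complex.conj_mul' (T i)
        simpa using this
      rw [← h1, mul_assoc]
    rw [Finset.sum_congr rfl this, Finset.sum_comm]
    refine Finset.sum_congr rfl fun n _ => ?_
    rw [hh]
    simp only [Finset.mul_sum]
    refine Finset.sum_congr rfl fun i _ => ?_
    ring
  have e2 : S ≤ ∑ n ∈ I, ‖a n‖ * ‖h n‖ := by
    have h1 : ‖(S : ℂ)‖ = S := by
      rw [Complex.norm_real, Real.norm_of_nonneg hS0]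
    rw [← h1, e1]
    refine (norm_sum_le _ _).trans (le_of_eq ?_)
    exact Finset.sum_congr rfl fun n _ => norm_mul _ _
  have e3 : S ^ 2 ≤ A * ∑ n ∈ I, ‖h n‖ ^ 2 := by
    have h1 : S ^ 2 ≤ (∑ n ∈ I, ‖a n‖ * ‖h n‖) ^ 2 := pow_le_pow_left₀ hS0 e2 2
    exact h1.trans (Finset.sum_mul_sq_le_sq_mul_sq _ _ _)
  have e4 : ((∑ n ∈ I, ‖h n‖ ^ 2 : ℝ) : ℂ) = ∑ i ∈ Ψ, ∑ j ∈ Ψ,
      ((w i : ℂ) * T i) * ((w j : ℂ) * star (T j)) * ∑ n ∈ I, star (g i n) * g j n := by
    push_cast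
    have : ∀ n ∈ I, ((‖h n‖ : ℝ) : ℂ) ^ 2 = ∑ i ∈ Ψ, ∑ j ∈ Ψ,
        ((w i : ℂ) * T i) * ((w j : ℂ) * star (T j)) * (star (g i n) * g j n) := by
      intro n _
      have h1 : star (h n) * h n = ((‖h n‖ : ℝ) : ℂ) ^ 2 := by
        have := Complex.conj_mul' (h n)
        simpa using this
      rw [← h1, hh]
      simp only [star_sum, Finset.sum_mul_sum]
      refine Finset.sum_congr rfl fun i _ => Finset.sum_congr rfl fun j _ => ?_
      simp only [star_mul', Complex.star_def, Complex.conj_ofReal, Complex.conj_conj]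
      ring
    rw [Finset.sum_congr rfl this, Finset.sum_comm]
    refine Finset.sum_congr rfl fun i _ => ?_
    rw [Finset.sum_comm]
    refine Finset.sum_congr rfl fun j _ => ?_
    exact (Finset.mul_sum _ _ _).symm
  have e5 : ∑ n ∈ I, ‖h n‖ ^ 2 ≤ ∑ i ∈ Ψ, ∑ j ∈ Ψ,
      (w i * ‖T i‖) * (w j * ‖T j‖) * ((if i = j then (I.card : ℝ) else 0) +
        M * (√(F i) * √(F j))) := by
    have h0 : 0 ≤ ∑ n ∈ I, ‖h n‖ ^ 2 := Finset.sum_nonneg fun i hi => by positivity
    have h1 : ‖((∑ n ∈ I, ‖h n‖ ^ 2 : ℝ) : ℂ)‖ = ∑ n ∈ I, ‖h n‖ ^ 2 := by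
      rw [Complex.norm_real, Real.norm_of_nonneg h0]
    rw [← h1, e4]
    refine (norm_sum_le _ _).trans (Finset.sum_le_sum fun i hi => ?_)
    refine (norm_sum_le _ _).trans (Finset.sum_le_sum fun j hj => ?_)
    rw [norm_mul, norm_mul, norm_mul, norm_mul, norm_star, Complex.norm_real, Complex.norm_real,
      Real.norm_of_nonneg (hw i hi), Real.norm_of_nonneg (hw j hj)]
    apply mul_le_mul_of_nonneg_left _ (mul_nonneg (mul_nonneg (hw i hi) (norm_nonneg _))
      (mul_nonneg (hw j hj) (norm_nonneg _)))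
    have hMF : 0 ≤ M * (√(F i) * √(F j)) := by positivity
    by_cases hij : i = j
    · subst hij
      rw [if_pos rfl]
      have : ‖∑ n ∈ I, star (g i n) * g i n‖ ≤ I.card := by
        refine (norm_sum_le _ _).trans ?_
        calc ∑ n ∈ I, ‖star (g i n) * g i n‖ ≤ ∑ n ∈ I, (1 : ℝ) := by
              refine Finset.sum_le_sum fun n hn => ?_
              rw [norm_mul, norm_star]
              exact mul_le_one₀ (hg i hi n hn) (norm_nonneg _) (hg i hi n hn)
          _ = I.card := by simp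
      linarith
    · rw [if_neg hij, zero_add]
      exact hoff i hi j hj hij
  have e6 : ∑ i ∈ Ψ, ∑ j ∈ Ψ,
      (w i * ‖T i‖) * (w j * ‖T j‖) * ((if i = j then (I.card : ℝ) else 0) +
        M * (√(F i) * √(F j))) =
      (∑ i ∈ Ψ, (w i * ‖T i‖) ^ 2 * I.card) + M * (∑ i ∈ Ψ, w i * ‖T i‖ * √(F i)) ^ 2 := by
    have h1 : ∀ i ∈ Ψ, ∑ j ∈ Ψ,
      (w i * ‖T i‖) * (w j * ‖T j‖) * ((if i = j then (I.card : ℝ) else 0) +
        M * (√(F i) * √(F j))) = (w i * ‖T i‖) ^ 2 * I.card +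
          M * ((w i * ‖T i‖ * √(F i)) * ∑ j ∈ Ψ, w j * ‖T j‖ * √(F j)) := by
      intro i hi
      have h2 : ∀ j ∈ Ψ, (w i * ‖T i‖) * (w j * ‖T j‖) * ((if i = j then (I.card : ℝ) else 0) +
        M * (√(F i) * √(F j))) = (if i = j then (w i * ‖T i‖) * (w j * ‖T j‖) * (I.card : ℝ) else 0)
          + M * ((w i * ‖T i‖ * √(F i)) * (w j * ‖T j‖ * √(F j))) := by
        intro j _
        split_ifs <;> ring
      rw [Finset.sum_congr rfl h2, Finset.sum_add_distrib, Finset.sum_ite_eq, if_pos hi,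
        ← Finset.mul_sum, ← Finset.mul_sum]
      ring
    rw [Finset.sum_congr rfl h1, Finset.sum_add_distrib, ← Finset.mul_sum, pow_two, ← Finset.sum_mul]
    congr 2
    rw [Finset.sum_mul]
  have e7 : ∑ i ∈ Ψ, (w i * ‖T i‖) ^ 2 * I.card ≤ S * (W * I.card) := by
    rw [hS, Finset.sum_mul]
    refine Finset.sum_le_sum fun i hi => ?_
    have h1 : (w i * ‖T i‖) ^ 2 * (I.card : ℝ) = (w i * ‖T i‖ ^ 2) * (w i * I.card) := by ring
    rw [h1]
    apply mul_le_mul_of_nonneg_left _ (mul_nonneg (hw i hi) (by positivity))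
    exact mul_le_mul_of_nonneg_right (hW i hi) (Nat.cast_nonneg _)
  have e8 : (∑ i ∈ Ψ, w i * ‖T i‖ * √(F i)) ^ 2 ≤ S * WF := by
    have h1 : ∀ i ∈ Ψ, w i * ‖T i‖ * √(F i) = (√(w i) * ‖T i‖) * (√(w i) * √(F i)) := by
      intro i hi
      have := Real.mul_self_sqrt (hw i hi)
      calc w i * ‖T i‖ * √(F i) = (√(w i) * √(w i)) * ‖T i‖ * √(F i) := by rw [this]
        _ = _ := by ring
    rw [Finset.sum_congr rfl h1]
    refine (Finset.sum_mul_sq_le_sq_mul_sq _ _ _).trans (le_of_eq ?_)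
    congr 1
    · refine Finset.sum_congr rfl fun i hi => ?_
      rw [mul_pow, Real.sq_sqrt (hw i hi)]
    · refine Finset.sum_congr rfl fun i hi => ?_
      rw [mul_pow, Real.sq_sqrt (hw i hi), Real.sq_sqrt (hF i hi)]
  have e9 : S ^ 2 ≤ A * (S * (W * I.card + M * WF)) := by
    refine e3.trans (mul_le_mul_of_nonneg_left ?_ hA0)
    rw [e6] at e5
    have := mul_le_mul_of_nonneg_left e8 hM
    nlinarith
  rcases hS0.eq_or_lt with h1 | h1
  · rw [← h1]
    have : 0 ≤ W * I.card + M * WF := by positivity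
    positivity
  · have h2 : S * S ≤ S * (A * (W * I.card + M * WF)) := by nlinarith
    exact le_of_mul_le_mul_left h2 h1

lemma changeLevel_nat {n m : ℕ} [NeZero m] (χ : DirichletCharacter ℂ n) (h : n ∣ m) (k : ℕ)
    (hk : k.Coprime m) : DirichletCharacter.changeLevel h χ (k : ZMod m) = χ (k : ZMod n) := by
  have hc : IsCoprime (k : ℤ) (m : ℤ) := Nat.isCoprime_iff_coprime.mpr hk
  have := DirichletCharacter.changeLevel_eq_cast_of_dvd' χ h hc
  simpa using this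

/-- the product of two different primitive characters -/
lemma prod_char {f f' : ℕ} (hf : 2 ≤ f) (hf' : 2 ≤ f') (ψ : DirichletCharacter ℂ f)
    (ψ' : DirichletCharacter ℂ f') (hp : ψ.IsPrimitive) (hp' : ψ'.IsPrimitive)
    (hne : (⟨f, ψ⟩ : Σ f, DirichletCharacter ℂ f) ≠ ⟨f', ψ'⟩) (N : ℕ) :
    ‖∑ n ∈ Icc 1 N, star (ψ (n : ZMod f)) * ψ' (n : ZMod f')‖ ≤
      4 * √((f : ℝ) * f') * (1 + Real.log (f * f')) := by
  have : NeZero (f * f') := ⟨by positivity⟩
  have : NeZero f := ⟨by positivity⟩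
  have : NeZero f' := ⟨by positivity⟩
  set χ : DirichletCharacter ℂ (f * f') :=
    (DirichletCharacter.changeLevel (dvd_mul_right f f') ψ)⁻¹ *
      DirichletCharacter.changeLevel (dvd_mul_left f' f) ψ' with hχ
  have hχ1 : χ ≠ 1 := by
    intro h
    have h1 : DirichletCharacter.changeLevel (dvd_mul_right f f') ψ =
        DirichletCharacter.changeLevel (dvd_mul_left f' f) ψ' := by
      rw [hχ, inv_mul_eq_one] at h
      exact h
    have h2 : f = f' := by
      have := congrArg DirichletCharacter.conductor h1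
      rw [DirichletCharacter.conductor_changeLevel, DirichletCharacter.conductor_changeLevel] at this
      rw [DirichletCharacter.isPrimitive_def] at hp hp'
      rw [← hp, ← hp', this]
    subst h2
    have h3 : ψ = ψ' := DirichletCharacter.changeLevel_injective _ h1
    exact hne (by rw [h3])
  have e1 : ∀ n ∈ Icc 1 N, star (ψ (n : ZMod f)) * ψ' (n : ZMod f') =
      χ (n : ZMod (f * f')) := by
    intro n _
    by_cases hc : n.Coprime (f * f')
    · have h1 : DirichletCharacter.changeLevel (dvd_mul_right f f') ψ (n : ZMod (f * f')) =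
        ψ (n : ZMod f) := changeLevel_nat _ _ _ hc
      have h2 : DirichletCharacter.changeLevel (dvd_mul_left f' f) ψ' (n : ZMod (f * f')) =
        ψ' (n : ZMod f') := changeLevel_nat _ _ _ hc
      rw [hχ, MulChar.mul_apply, ← MulChar.star_apply', h1, h2]
    · have h1 : χ (n : ZMod (f * f')) = 0 := by
        apply MulChar.map_nonunit
        rwa [ZMod.isUnit_iff_coprime]
      rw [h1]
      rw [Nat.coprime_mul_iff_right, not_and_or] at hc
      rcases hc with hc | hc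
      · have : ψ (n : ZMod f) = 0 := by
          apply MulChar.map_nonunit
          rwa [ZMod.isUnit_iff_coprime]
        rw [this]; simp
      · have : ψ' (n : ZMod f') = 0 := by
          apply MulChar.map_nonunit
          rwa [ZMod.isUnit_iff_coprime]
        rw [this]; simp
  rw [Finset.sum_congr rfl e1]
  have := Pool.Agent.H38R2.CG.PVh.sum_le (f * f') χ (by nlinarith) hχ1 N
  push_cast at this
  exact this

end Pool.Agent.T2h80.CL.QMm
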