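import Pool.Agent.H410R2.Iface

set_option autoImplicit false

/-!
# Prime ideals of small norm in the `l`-torsion of the class group: statements of the tasks
-/

namespace Pool.Agent.T2h80.CL

open Finset Pool.Agent.H410R2 NumberField

/-! ## Quadratic characters and square roots -/

/-- the number of square roots of `a` modulo `e` -/
def nsq (a e : ℕ) : ℕ := ((range e).filter (fun c => c ^ 2 ≡ a [MOD e])).card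

/-- the sum of `nsq p e log p` over the primes `p ≤ t` which do not divide `e` -/
noncomputable def thS (t : ℝ) (e : ℕ) : ℝ :=
  ∑ p ∈ (Icc 1 ⌊t⌋₊).filter (fun p => p.Prime ∧ ¬ p ∣ e), (nsq p e : ℝ) * Real.log p

open Classical in
/-- the primitive quadratic characters modulo `f` -/
noncomputable def quadr (f : ℕ) : Finset (DirichletCharacter ℂ f) :=
  if hf : f = 0 then ∅ else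
    have : NeZero f := ⟨hf⟩
    (univ : Finset (DirichletCharacter ℂ f)).filter (fun ψ => ψ.IsPrimitive ∧ ψ ^ 2 = 1)

open Classical in
/-- **NS.** -/
def S_NS : Prop :=
  (∀ (a e : ℕ) [NeZero e], a.Coprime e → (nsq a e : ℂ) =
    ∑ χ ∈ (univ : Finset (DirichletCharacter ℂ e)).filter (fun χ => χ ^ 2 = 1), χ (a : ZMod e)) ∧
  (∀ a e : ℕ, 1 ≤ e → a.Coprime e → nsq a e ≤ 2 * e.divisors.card) ∧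
  (∀ ε : ℝ, 0 < ε → ∃ C : ℝ, 0 < C ∧ ∀ a e : ℕ, 1 ≤ e → a.Coprime e →
    (nsq a e : ℝ) ≤ C * (e : ℝ) ^ ε)

/-- **QM.** -/
def S_QM : Prop := ∀ δ : ℝ, 0 < δ → ∀ k : ℕ, ∃ t₀ : ℝ, ∀ t : ℝ, t₀ ≤ t → ∀ E : ℕ,
  (E : ℝ) ≤ t ^ (1 - δ) →
    ∑ f ∈ Icc 2 E, (1 / (f : ℝ)) * ∑ ψ ∈ quadr f, ‖psiLog t f ψ‖ ≤ t / (Real.log t) ^ k

/-- **PR.** (from NS, QM) -/
def S_PR : Prop := ∀ δ : ℝ, 0 < δ → ∀ ε : ℝ, 0 < ε → ∀ k : ℕ, ∃ t₀ : ℝ, ∀ t : ℝ, t₀ ≤ t →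
  ∀ E : ℕ, (E : ℝ) ≤ t ^ (1 - δ) → ∀ c : ℕ → ℝ, (∀ e ∈ Icc 1 E, 0 ≤ c e ∧ c e ≤ 1 / e) →
    |∑ e ∈ Icc 1 E, c e * thS t e - t * ∑ e ∈ Icc 1 E, c e| ≤
      ε * t * ∑ e ∈ Icc 1 E, c e + t / (Real.log t) ^ k

/-! ## Discriminants -/

/-- `e² ∣ x² - 4 p ^ l` and the quotient is `0` or `1` modulo `4` -/
def EE (l p e x : ℕ) : Prop :=
  ∃ z : ℤ, (x : ℤ) ^ 2 - 4 * (p : ℤ) ^ l = (e : ℤ) ^ 2 * z ∧ (z % 4 = 0 ∨ z % 4 = 1)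

open Classical in
/-- **LOC.** -/
def S_LOC : Prop := ∀ l p e : ℕ, Odd l → p.Prime → p ≠ 2 → 1 ≤ e → ¬ p ∣ e →
  (∀ x : ℕ, EE l p e (x + e ^ 2) ↔ EE l p e x) ∧
  ((range (e ^ 2)).filter (fun x => EE l p e x)).card = nsq p e

/-- fundamental discriminants -/
def FDp (D : ℤ) : Prop := (D % 4 = 1 ∧ D ≠ 1 ∧ Squarefree D) ∨
  (∃ m : ℤ, D = 4 * m ∧ (m % 4 = 2 ∨ m % 4 = 3) ∧ Squarefree m)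

/-- **FD.** -/
def S_FD : Prop := ∀ l p x : ℕ, x ^ 2 < 4 * p ^ l → ∃ (D : ℤ) (y : ℕ), D < 0 ∧ FDp D ∧ 1 ≤ y ∧
  (x : ℤ) ^ 2 - 4 * (p : ℤ) ^ l = D * (y : ℤ) ^ 2 ∧
  (∀ e : ℕ, 1 ≤ e → (EE l p e x ↔ e ∣ y)) ∧
  (∀ (D' : ℤ) (y' : ℕ), FDp D' → 1 ≤ y' →
    (x : ℤ) ^ 2 - 4 * (p : ℤ) ^ l = D' * (y' : ℤ) ^ 2 → D' = D ∧ y' = y)

/-- the admissible pairs `(p, x)` -/
def TT (l N : ℕ) : Finset (ℕ × ℕ) :=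
  ((range (N + 1)) ×ˢ (range (4 * N ^ l + 1))).filter
    (fun g => g.1.Prime ∧ g.1 ≠ 2 ∧ 1 ≤ g.2 ∧ g.2 ^ 2 < 4 * g.1 ^ l ∧ ¬ g.1 ∣ g.2)

open Classical in
/-- the pairs `(p, x)` with `x² - 4 p ^ l = D y²`, `D` fundamental, `|D| < X` -/
noncomputable def RS (l N : ℕ) (X : ℝ) : Finset (ℕ × ℕ) := (TT l N).filter (fun g =>
  ∃ (D : ℤ) (y : ℕ), FDp D ∧ 1 ≤ y ∧ (g.2 : ℤ) ^ 2 - 4 * (g.1 : ℤ) ^ l = D * (y : ℤ) ^ 2 ∧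
    -(D : ℝ) < X)

open Classical in
/-- the triples `((p, x), v)` with `K v² ≤ 4 p ^ l`, `e v ∣ y`, `4 p ^ l - x² < X v²` -/
noncomputable def VV (l N : ℕ) (X K : ℝ) (e : ℕ) : ℕ :=
  (((TT l N) ×ˢ (Icc 1 (4 * N ^ l))).filter (fun h => K * (h.2 : ℝ) ^ 2 ≤ 4 * (h.1.1 : ℝ) ^ l ∧
    EE l h.1.1 (h.2 * e) h.1.2 ∧
    4 * (h.1.1 : ℝ) ^ l - (h.1.2 : ℝ) ^ 2 < X * (h.2 : ℝ) ^ 2)).card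

/-- **SV.** (from FD) the sieve inequality -/
def S_SV : Prop := ∀ l : ℕ, 1 ≤ l → ∀ ε : ℝ, 0 < ε → ∃ C : ℝ, 0 < C ∧ ∀ N w Q : ℕ, 1 ≤ N →
  ∀ X K K' : ℝ, 1 ≤ X → 1 ≤ K → K ≤ K' → X ≤ K' * (Q : ℝ) ^ 2 →
    |((RS l N X).card : ℝ) -
      ∑ d ∈ (primorial w).divisors, (ArithmeticFunction.moebius d : ℝ) * (VV l N X K d : ℝ)| ≤
    ∑ q ∈ (Ioc w Q).filter Nat.Prime, (VV l N X K q : ℝ) +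
      C * (N : ℝ) ^ ε * ((RS l N K').card : ℝ)

/-! ## Ideals -/

/-- the negative fundamental discriminants with `|D| < X` -/
noncomputable def nF (X : ℕ) : Finset ℤ := open Classical in
  (Finset.Ioo (-(X : ℤ)) (0 : ℤ)).filter (fun D : ℤ => FDp D)

/-- the prime ideals `P` of prime norm `≤ N` with `P ^ l` principal -/
abbrev PI (l N : ℕ) (K : Type) [Field K] [NumberField K] : Type :=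
  {P : Ideal (𝓞 K) // (Ideal.absNorm P).Prime ∧ Ideal.absNorm P ≤ N ∧ (P ^ l).IsPrincipal}

/-- **IDE.** for `D ≤ -5`: the prime ideals of odd norm prime to the discriminant -/
def S_IDE : Prop := ∀ (K : Type) [Field K] [NumberField K], Module.finrank ℚ K = 2 →
  discr K ≤ -5 → ∀ l N : ℕ, Odd l → 3 ≤ l →
    Nat.card {P : Ideal (𝓞 K) // (Ideal.absNorm P).Prime ∧ Ideal.absNorm P ≤ N ∧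
      (P ^ l).IsPrincipal ∧ Ideal.absNorm P ≠ 2 ∧ ¬ ((Ideal.absNorm P : ℤ) ∣ discr K)} =
    2 * Nat.card {g : ℕ × ℕ // g ∈ TT l N ∧ ∃ y : ℕ, 1 ≤ y ∧
      (g.2 : ℤ) ^ 2 - 4 * (g.1 : ℤ) ^ l = discr K * (y : ℤ) ^ 2}

/-- **IDF.** upper bound for every negative discriminant -/
def S_IDF : Prop := ∀ (K : Type) [Field K] [NumberField K], Module.finrank ℚ K = 2 →
  discr K ≤ -3 → ∀ l N : ℕ, Odd l → 3 ≤ l →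
    Nat.card {g : ℕ × ℕ // g ∈ TT l N ∧ ∃ y : ℕ, 1 ≤ y ∧
      (g.2 : ℤ) ^ 2 - 4 * (g.1 : ℤ) ^ l = discr K * (y : ℤ) ^ 2} ≤ 15 * Nat.card (PI l N K)

/-- **IDR.** the prime ideals of norm `2` or of norm dividing the discriminant -/
def S_IDR : Prop := ∀ (K : Type) [Field K] [NumberField K], Module.finrank ℚ K = 2 →
  discr K ≤ -3 → ∀ l : ℕ, Odd l → 3 ≤ l → ∀ P : Ideal (𝓞 K), (Ideal.absNorm P).Prime →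
    (P ^ l).IsPrincipal → (Ideal.absNorm P = 2 ∨ (Ideal.absNorm P : ℤ) ∣ discr K) →
    (Ideal.absNorm P = 2 ∧ - discr K ≤ 2 ^ (l + 2)) ∨
      ((Ideal.absNorm P : ℤ) ∣ discr K ∧ - discr K ≤ 4 * Ideal.absNorm P)

/-- **ID.** (from IDE, IDF, IDR, FD) -/
def S_ID : Prop := ∀ l : ℕ, Odd l → 3 ≤ l → ∃ C : ℝ, 0 < C ∧ ∀ N X : ℕ, 1 ≤ N →
  ∀ (K : ℤ → Type) [∀ D, Field (K D)] [∀ D, NumberField (K D)],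
  (∀ D : ℤ, D < 0 → FDp D → Module.finrank ℚ (K D) = 2 ∧ discr (K D) = D) →
  |∑ D ∈ nF X, (Nat.card (PI l N (K D)) : ℝ) - 2 * ((RS l N X).card : ℝ)| ≤ C * N

/-! ## Counting -/

open Classical in
/-- the number of `x` for given `p` -/
noncomputable def BB (l p f v : ℕ) (X : ℝ) : ℕ :=
  ((range (4 * p ^ l + 1)).filter (fun x => 1 ≤ x ∧ x ^ 2 < 4 * p ^ l ∧ ¬ p ∣ x ∧ EE l p f x ∧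
    4 * (p : ℝ) ^ l - (x : ℝ) ^ 2 < X * (v : ℝ) ^ 2)).card

/-- the length of the interval -/
noncomputable def LL (a X : ℝ) (v : ℕ) : ℝ := √a - √(a - X * (v : ℝ) ^ 2)

/-- **CNT.** (from LOC) -/
def S_CNT : Prop := ∀ l p f v : ℕ, ∀ X : ℝ, Odd l → p.Prime → p ≠ 2 → 1 ≤ f → 1 ≤ v → 0 ≤ X →
  (p ∣ f → BB l p f v X = 0) ∧
  (¬ p ∣ f → |(BB l p f v X : ℝ) - nsq p f * LL (4 * (p : ℝ) ^ l) X v / (f : ℝ) ^ 2| ≤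
    nsq p f * (4 + 2 * LL (4 * (p : ℝ) ^ l) X v / (p * (f : ℝ) ^ 2)))

/-- **WA.** -/
def S_WA : Prop := ∀ a b : ℝ, 0 < a → 0 < b → ∀ M : ℕ,
  ∑ v ∈ Icc 1 M, min (a / (v : ℝ) ^ 2) b ≤ 4 * √(a * b)

/-- **WL.** -/
def S_WL : Prop := ∀ a X : ℝ, 0 < a → 0 < X → ∀ v : ℕ, 1 ≤ v →
  (0 ≤ LL a X v ∧ LL a X v ≤ √a ∧ LL a X v ≤ X * (v : ℝ) ^ 2 / √a) ∧
  (∀ a' : ℝ, a ≤ a' → |LL a' X v - LL a X v| ≤ 2 * √(a' - a))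

/-- **WC.** -/
def S_WC : Prop := ∀ ε : ℝ, 0 < ε → ∃ c : ℝ, 0 < c ∧ ∀ a X K : ℝ, 0 < a → 0 < X → 0 < K →
  X ≤ c * a → K ≤ c * X →
    |∑ v ∈ Icc 1 ⌊√(a / K)⌋₊, LL a X v / (v : ℝ) ^ 2 - Real.pi / 2 * √X| ≤ ε * √X

/-- **U1.** (from CNT, NS, FD, WA, WL) -/
def S_U1 : Prop := ∀ l : ℕ, Odd l → ∀ ε : ℝ, 0 < ε → ∃ C : ℝ, 0 < C ∧ ∀ N : ℕ, 1 ≤ N →
  ∀ K₁ K₂ : ℝ, 1 ≤ K₁ → K₁ ≤ K₂ →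
    ((RS l N K₂ \ RS l N K₁).card : ℝ) ≤
      C * (N : ℝ) ^ ε * ((N : ℝ) * √K₂ + (N : ℝ) ^ (1 + (l : ℝ) / 2) / √K₁)

/-- **U2.** (from IDF, FD) -/
def S_U2 : Prop := ∀ l : ℕ, Odd l → 5 ≤ l → ∀ ε : ℝ, 0 < ε → ∃ C : ℝ, 0 < C ∧
  ∀ (K : ℤ → Type) [∀ D, Field (K D)] [∀ D, NumberField (K D)],
  (∀ D : ℤ, D < 0 → FDp D → Module.finrank ℚ (K D) = 2 ∧ discr (K D) = D) →
  ∀ N : ℕ, 1 ≤ N → ∀ κ : ℝ, 1 ≤ κ →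
    ((RS l N κ).card : ℝ) ≤ C * (N : ℝ) ^ ε * ((N : ℝ) + √κ) *
      κ ^ (1 - 3 / (2 * ((l : ℝ) + 1)) + ε)

/-- **U.** (from U1, U2) -/
def S_U : Prop := ∀ l : ℕ, Odd l → 5 ≤ l → ∀ θ : ℝ, 1 / (l : ℝ) < θ → θ < 1 / ((l : ℝ) - 2) →
  ∀ δ : ℝ, 0 < δ → ∃ δ' : ℝ, 0 < δ' ∧
  ∀ (K : ℤ → Type) [∀ D, Field (K D)] [∀ D, NumberField (K D)],
  (∀ D : ℤ, D < 0 → FDp D → Module.finrank ℚ (K D) = 2 ∧ discr (K D) = D) →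
  ∃ X₀ : ℝ, ∀ X : ℝ, X₀ ≤ X → ∀ N : ℕ, (N : ℝ) ≤ X ^ θ →
    ((RS l N (X ^ (1 - δ))).card : ℝ) ≤ X ^ (1 / 2 + θ - δ')

/-! ## The main term -/

/-- the parameters -/
def Par (l : ℕ) (θ δ : ℝ) : Prop := Odd l ∧ 5 ≤ l ∧ 1 / (l : ℝ) < θ ∧ 0 < δ ∧
  ((l : ℝ) - 2) * θ / 2 + 4 * δ ≤ 1 / 2

open Classical in
/-- the main sum over the primes in `(P, P']` -/
noncomputable def MM (l N : ℕ) (X K : ℝ) (Q : ℕ) (κ : ℕ → ℝ) (P P' : ℝ) : ℝ :=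
  ∑ p ∈ (Icc 1 N).filter (fun p : ℕ => p.Prime ∧ p ≠ 2 ∧ P < (p : ℝ) ∧ (p : ℝ) ≤ P'),
    ∑ e ∈ Icc 1 Q, κ e * ∑ v ∈ (Icc 1 (4 * N ^ l)).filter
      (fun v : ℕ => K * (v : ℝ) ^ 2 ≤ 4 * (p : ℝ) ^ l ∧ ¬ p ∣ v * e),
      (nsq p (v * e) : ℝ) * LL (4 * (p : ℝ) ^ l) X v / ((v : ℝ) * e) ^ 2

/-- **VA.** (from CNT, NS, WA, WL) -/
def S_VA : Prop := ∀ (l : ℕ) (θ δ : ℝ), Par l θ δ → ∀ ε : ℝ, 0 < ε → ∃ X₀ : ℝ, ∀ X : ℝ, X₀ ≤ X →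
  ∀ κ : ℕ → ℝ, (∀ e, 0 ≤ κ e ∧ κ e ≤ 1) →
    |∑ e ∈ Icc 1 ⌊X ^ δ⌋₊, κ e * (VV l ⌊X ^ θ⌋₊ X (X ^ (1 - 2 * δ)) e : ℝ) -
      MM l ⌊X ^ θ⌋₊ X (X ^ (1 - 2 * δ)) ⌊X ^ δ⌋₊ κ 0 ⌊X ^ θ⌋₊| ≤ ε * (√X * X ^ θ / Real.log X)

/-- **BA.** (from PR, WA, WL, WC) one block -/
def S_BA : Prop := ∀ (l : ℕ) (θ δ : ℝ), Par l θ δ → ∀ ε : ℝ, 0 < ε → ∃ η : ℝ, 0 < η ∧ η ≤ 1 ∧
  ∀ σ : ℝ, 0 < σ → ∃ X₀ : ℝ, ∀ X : ℝ, X₀ ≤ X →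
  ∀ κ : ℕ → ℝ, (∀ e, 0 ≤ κ e ∧ κ e ≤ 1) → ∀ P : ℝ, σ * X ^ θ ≤ P → (1 + η) * P ≤ X ^ θ →
    |MM l ⌊X ^ θ⌋₊ X (X ^ (1 - 2 * δ)) ⌊X ^ δ⌋₊ κ P ((1 + η) * P) -
      Real.pi / 2 * (∑ e ∈ Icc 1 ⌊X ^ δ⌋₊, κ e / (e : ℝ) ^ 2) *
        (√X * (η * P) / Real.log (X ^ θ))| ≤ ε * (√X * (η * P) / Real.log X)

/-- **BU.** (from PR, NS, WA, WL) the small primes -/
def S_BU : Prop := ∀ (l : ℕ) (θ δ : ℝ), Par l θ δ → ∃ C : ℝ, 0 < C ∧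
  ∀ σ : ℝ, 0 < σ → σ ≤ 1 → ∃ X₀ : ℝ, ∀ X : ℝ, X₀ ≤ X →
  ∀ κ : ℕ → ℝ, (∀ e, 0 ≤ κ e ∧ κ e ≤ 1) →
    MM l ⌊X ^ θ⌋₊ X (X ^ (1 - 2 * δ)) ⌊X ^ δ⌋₊ κ 0 (σ * X ^ θ) ≤
      C * σ * (√X * X ^ θ / Real.log X)

/-- **V.** (from VA, BA, BU) -/
def S_V : Prop := ∀ (l : ℕ) (θ δ : ℝ), Par l θ δ → ∀ ε : ℝ, 0 < ε → ∃ X₀ : ℝ, ∀ X : ℝ, X₀ ≤ X →
  ∀ κ : ℕ → ℝ, (∀ e, 0 ≤ κ e ∧ κ e ≤ 1) →
    |∑ e ∈ Icc 1 ⌊X ^ δ⌋₊, κ e * (VV l ⌊X ^ θ⌋₊ X (X ^ (1 - 2 * δ)) e : ℝ) -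
      Real.pi / (2 * θ) * (∑ e ∈ Icc 1 ⌊X ^ δ⌋₊, κ e / (e : ℝ) ^ 2) *
        (√X * X ^ θ / Real.log X)| ≤ ε * (√X * X ^ θ / Real.log X)

open Classical in
/-- **FIN.** (from V, U, SV, ID) -/
def S_FIN : Prop := ∀ l : ℕ, Odd l → 5 ≤ l → ∀ θ : ℝ, 1 / (l : ℝ) < θ → θ < 1 / ((l : ℝ) - 2) →
  ∀ (K : ℤ → Type) [∀ D, Field (K D)] [∀ D, NumberField (K D)],
  (∀ D : ℤ, D < 0 → FDp D → Module.finrank ℚ (K D) = 2 ∧ discr (K D) = D) →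
  Filter.Tendsto (fun X : ℕ => (∑ D ∈ nF X, (Nat.card (PI l ⌊(X : ℝ) ^ θ⌋₊ (K D)) : ℝ)) /
    (√(X : ℝ) * (X : ℝ) ^ θ / Real.log X)) Filter.atTop (nhds (6 / (Real.pi * θ)))

end Pool.Agent.T2h80.CL
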