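import Pool.Agent.T2h80.CL.Stm
import Pool.Agent.T2h80.TL.Tor

/-!
U2: the small discriminants, by the average of the torsion of the class groups.
-/

set_option autoImplicit false
set_option linter.all false

namespace Pool.Agent.T2h80.CL

open Finset NumberField

namespace U2h

open Pool.Agent.T2h80.TL

/-- the number of prime ideals of one field -/
lemma PI_card (ε : ℝ) (hε : 0 < ε) : ∃ C : ℝ, 0 < C ∧ ∀ (l N : ℕ), 1 ≤ N →
    ∀ (K : Type) [Field K] [NumberField K], Module.finrank ℚ K = 2 → discr K < 0 →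
    (Nat.card (PI l N K) : ℝ) ≤ C * (N : ℝ) ^ ε * ((N : ℝ) / √|(discr K : ℝ)| + 1) *
      (Nat.card {c : ClassGroup (𝓞 K) // c ^ l = 1} : ℝ) := by
  refine ⟨33 * (320 + 2 * (1 / ε) + 1), by positivity, fun l N hN K _ _ hK hD => ?_⟩
  classical
  obtain ⟨h, hh⟩ : ∃ h, h = Nat.card {c : ClassGroup (𝓞 K) // c ^ l = 1} := ⟨_, rfl⟩
  rw [← hh]
  have hD0 : (0 : ℝ) < |(discr K : ℝ)| := by
    rw [abs_pos]
    exact_mod_cast hD.ne
  obtain ⟨s, hs⟩ : ∃ s, s = √|(discr K : ℝ)| := ⟨_, rfl⟩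
  have hs0 : 0 < s := by rw [hs]; exact Real.sqrt_pos.2 hD0
  have hs2 : s ^ 2 = -(discr K : ℝ) := by
    rw [hs, Real.sq_sqrt hD0.le, abs_of_neg (by exact_mod_cast hD)]
  rw [← hs]
  have hfin : Set.Finite {P : Ideal (𝓞 K) | (Ideal.absNorm P).Prime ∧ Ideal.absNorm P ≤ N ∧
      (P ^ l).IsPrincipal} :=
    (Ideal.finite_setOf_absNorm_le N).subset fun P hP => hP.2.1
  obtain ⟨U, hU⟩ : ∃ U, U = hfin.toFinset := ⟨_, rfl⟩
  have hUm : ∀ P, P ∈ U ↔ (Ideal.absNorm P).Prime ∧ Ideal.absNorm P ≤ N ∧ (P ^ l).IsPrincipal := by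
    intro P
    rw [hU, Set.Finite.mem_toFinset]
    rfl
  have hcard : Nat.card (PI l N K) = U.card := Nat.subtype_card U hUm
  obtain ⟨m, hm⟩ : ∃ m, m = Nat.log 16 N := ⟨_, rfl⟩
  have hcov : U ⊆ (range (m + 1)).biUnion (fun j => U.filter (fun P =>
      16 ^ j < Ideal.absNorm P ∧ Ideal.absNorm P ≤ 16 * 16 ^ j)) := by
    intro P hP
    have hP' := (hUm P).1 hP
    have h2 := hP'.1.two_le
    rw [Finset.mem_biUnion]
    refine ⟨Nat.log 16 (Ideal.absNorm P - 1), ?_, ?_⟩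
    · rw [Finset.mem_range, hm, Nat.lt_succ_iff]
      exact Nat.log_mono_right (by omega)
    · rw [Finset.mem_filter]
      have h3 := Nat.pow_log_le_self 16 (show Ideal.absNorm P - 1 ≠ 0 by omega)
      have h4 := Nat.lt_pow_succ_log_self (show 1 < 16 by norm_num) (Ideal.absNorm P - 1)
      rw [pow_succ] at h4
      exact ⟨hP, by omega, by omega⟩
  have hblock : ∀ j ∈ range (m + 1), ((U.filter (fun P =>
      16 ^ j < Ideal.absNorm P ∧ Ideal.absNorm P ≤ 16 * 16 ^ j)).card : ℝ) ≤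
      33 * h * (64 / s * 16 ^ j + 1) := by
    intro j _
    obtain ⟨k, hk⟩ : ∃ k : ℕ, k = ⌊32 * (16 : ℝ) ^ j / s⌋₊ := ⟨_, rfl⟩
    have hk1 : (k : ℝ) ≤ 32 * (16 : ℝ) ^ j / s := by rw [hk]; exact Nat.floor_le (by positivity)
    have hk2 : 32 * (16 : ℝ) ^ j / s < k + 1 := by rw [hk]; exact Nat.lt_floor_add_one _
    have h1 := field_small (l := l) (A := 16 ^ j) hK hD (U.filter (fun P =>
      16 ^ j < Ideal.absNorm P ∧ Ideal.absNorm P ≤ 16 * 16 ^ j)) (by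
        intro P hP
        rw [Finset.mem_filter, hUm] at hP
        obtain ⟨⟨h3, h4, h5⟩, h6, h7⟩ := hP
        obtain ⟨β, hβ⟩ := h5.principal
        exact ⟨h3.squarefree, h6, h7, β, hβ⟩) k (by
        rw [div_lt_iff₀ hs0] at hk2
        have h3 : (32 * (16 : ℝ) ^ j) ^ 2 < -(discr K : ℝ) * (k + 1) ^ 2 := by
          rw [← hs2]
          have h4 : (32 * (16 : ℝ) ^ j) ^ 2 < ((k + 1) * s) ^ 2 :=
            pow_lt_pow_left₀ hk2 (by positivity) (by norm_num)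
          calc _ < _ := h4
            _ = _ := by ring
        push_cast
        exact_mod_cast h3)
    have h2 : ((U.filter (fun P =>
      16 ^ j < Ideal.absNorm P ∧ Ideal.absNorm P ≤ 16 * 16 ^ j)).card : ℝ) ≤
      (h : ℝ) * ((2 * k + 1) * 33) := by
      rw [hh]
      exact_mod_cast h1
    refine h2.trans ?_
    have h3 : (2 : ℝ) * k + 1 ≤ 64 / s * 16 ^ j + 1 := by
      have : 64 / s * (16 : ℝ) ^ j = 2 * (32 * (16 : ℝ) ^ j / s) := by ring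
      rw [this]
      linarith
    have h4 : (0 : ℝ) ≤ h := Nat.cast_nonneg _
    nlinarith [mul_le_mul_of_nonneg_left h3 h4]
  have hNR : (1 : ℝ) ≤ N := by exact_mod_cast hN
  have hN0 : (0 : ℝ) < N := by linarith
  have h16 : (16 : ℝ) ^ m ≤ N := by
    rw [hm]
    exact_mod_cast Nat.pow_log_le_self 16 (by omega)
  have hmN : (m : ℝ) ≤ 2 * Real.log N := by
    have h1 : (m : ℝ) * Real.log 16 ≤ Real.log N := by
      rw [← Real.log_pow]
      exact Real.log_le_log (by positivity) h16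
    have h2 : (1 : ℝ) / 2 ≤ Real.log 16 := by
      have h3 : Real.log 2 ≤ Real.log 16 := Real.log_le_log (by norm_num) (by norm_num)
      have := Real.log_two_gt_d9
      linarith
    have h3 : (0 : ℝ) ≤ m := Nat.cast_nonneg _
    nlinarith
  have hlog : Real.log N ≤ (N : ℝ) ^ ε / ε := Real.log_le_rpow_div hN0.le hε
  have hNe : 1 ≤ (N : ℝ) ^ ε := Real.one_le_rpow hNR hε.le
  have hU1 : (U.card : ℝ) ≤ ∑ j ∈ range (m + 1), 33 * h * (64 / s * 16 ^ j + 1) := by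
    have h1 := (Finset.card_le_card hcov).trans Finset.card_biUnion_le
    have h2 : (U.card : ℝ) ≤ ∑ j ∈ range (m + 1), ((U.filter (fun P =>
      16 ^ j < Ideal.absNorm P ∧ Ideal.absNorm P ≤ 16 * 16 ^ j)).card : ℝ) := by
      exact_mod_cast h1
    exact h2.trans (Finset.sum_le_sum hblock)
  rw [hcard]
  refine hU1.trans ?_
  rw [← Finset.mul_sum, Finset.sum_add_distrib, ← Finset.mul_sum, Finset.sum_const, Finset.card_range,
    nsmul_eq_mul, mul_one]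
  have h1 : ∑ j ∈ range (m + 1), (16 : ℝ) ^ j ≤ 5 * N := by
    have := geom_le' (show (5 : ℝ) / 4 ≤ 16 by norm_num) m
    linarith
  have h2 : 64 / s * ∑ j ∈ range (m + 1), (16 : ℝ) ^ j ≤ 320 * (N / s) := by
    calc 64 / s * ∑ j ∈ range (m + 1), (16 : ℝ) ^ j ≤ 64 / s * (5 * N) :=
          mul_le_mul_of_nonneg_left h1 (by positivity)
      _ = _ := by ring
  have h3 : ((m + 1 : ℕ) : ℝ) ≤ (2 * (1 / ε) + 1) * (N : ℝ) ^ ε := by
    push_cast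
    have h4 : (N : ℝ) ^ ε / ε = 1 / ε * (N : ℝ) ^ ε := by ring
    rw [h4] at hlog
    linarith
  have hNs : 0 < (N : ℝ) / s := by positivity
  have h4 : 64 / s * ∑ j ∈ range (m + 1), (16 : ℝ) ^ j + ((m + 1 : ℕ) : ℝ) ≤
      (320 + 2 * (1 / ε) + 1) * ((N : ℝ) ^ ε * (N / s + 1)) := by
    have h5 : 320 * (N / s) ≤ 320 * ((N : ℝ) ^ ε * (N / s)) := by nlinarith
    have h6 : 0 < (1 / ε) := by positivity
    have h7 : 0 < (N : ℝ) ^ ε * (N / s) := by positivity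
    have h8 : 0 < (N : ℝ) ^ ε := by positivity
    have h9 : 0 < (1 / ε) * ((N : ℝ) ^ ε * (N / s)) := by positivity
    nlinarith
  have h5 : (0 : ℝ) ≤ h := Nat.cast_nonneg _
  calc 33 * (h : ℝ) * (64 / s * ∑ j ∈ range (m + 1), (16 : ℝ) ^ j + ((m + 1 : ℕ) : ℝ))
      ≤ 33 * (h : ℝ) * ((320 + 2 * (1 / ε) + 1) * ((N : ℝ) ^ ε * (N / s + 1))) :=
        mul_le_mul_of_nonneg_left h4 (by positivity)
    _ = _ := by ring

end U2h

open U2h in
theorem t_U2 (h1 : S_IDF) (h2 : S_FD) : S_U2 := by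
  classical
  intro l hl hl5 ε hε
  obtain ⟨C, hC, hPI⟩ := PI_card ε hε
  obtain ⟨C', hC', htor⟩ := Pool.Agent.T2h80.TL.tor_div l (by omega) ε hε
  refine ⟨15 * C * C', by positivity, fun K _ _ hK N hN κ hκ => ?_⟩
  have hNR : (1 : ℝ) ≤ N := by exact_mod_cast hN
  obtain ⟨S, hS⟩ : ∃ S, S = (Finset.Ioo (-(⌈κ⌉ : ℤ)) (0 : ℤ)).filter
    (fun D : ℤ => FDp D ∧ -(D : ℝ) < κ) := ⟨_, rfl⟩
  have hSm : ∀ D, D ∈ S ↔ D < 0 ∧ FDp D ∧ -(D : ℝ) < κ := by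
    intro D
    rw [hS, Finset.mem_filter, Finset.mem_Ioo]
    constructor
    · rintro ⟨⟨_, h3⟩, h4⟩
      exact ⟨h3, h4⟩
    · rintro ⟨h3, h4, h5⟩
      refine ⟨⟨?_, h3⟩, h4, h5⟩
      have h6 : -(D : ℝ) < (⌈κ⌉ : ℝ) := lt_of_lt_of_le h5 (Int.le_ceil κ)
      have h7 : -D < ⌈κ⌉ := by exact_mod_cast h6
      omega
  have hcov : RS l N κ ⊆ S.biUnion (fun D => (TT l N).filter (fun g => ∃ y : ℕ, 1 ≤ y ∧
      (g.2 : ℤ) ^ 2 - 4 * (g.1 : ℤ) ^ l = discr (K D) * (y : ℤ) ^ 2)) := by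
    intro g hg
    unfold RS at hg
    rw [Finset.mem_filter] at hg
    obtain ⟨hgT, D, y, hF, hy, he, hlt⟩ := hg
    have hgT' := hgT
    unfold TT at hgT'
    rw [Finset.mem_filter] at hgT'
    have hx : (g.2 : ℤ) ^ 2 < 4 * (g.1 : ℤ) ^ l := by exact_mod_cast hgT'.2.2.2.2.1
    have hD0 : D < 0 := by
      by_contra hc
      push Not at hc
      have := mul_nonneg hc (sq_nonneg (y : ℤ))
      linarith
    rw [Finset.mem_biUnion]
    refine ⟨D, (hSm D).2 ⟨hD0, hF, hlt⟩, ?_⟩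
    rw [Finset.mem_filter, (hK D hD0 hF).2]
    exact ⟨hgT, y, hy, he⟩
  have hone : ∀ D ∈ S, (((TT l N).filter (fun g => ∃ y : ℕ, 1 ≤ y ∧
      (g.2 : ℤ) ^ 2 - 4 * (g.1 : ℤ) ^ l = discr (K D) * (y : ℤ) ^ 2)).card : ℝ) ≤
      15 * C * ((N : ℝ) ^ ε * (N + √κ)) *
        ((Nat.card {c : ClassGroup (𝓞 (K D)) // c ^ l = 1} : ℝ) / √|(D : ℝ)|) := by
    intro D hD
    obtain ⟨hD0, hF, hlt⟩ := (hSm D).1 hD
    obtain ⟨hK1, hK2⟩ := hK D hD0 hF
    have hD3 : discr (K D) ≤ -3 := by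
      rw [hK2]
      rcases hF with ⟨h3, _⟩ | ⟨m, h3, h4, _⟩ <;> omega
    have h3 := h1 (K D) hK1 hD3 l N hl (by omega)
    rw [Nat.subtype_card ((TT l N).filter (fun g => ∃ y : ℕ, 1 ≤ y ∧
      (g.2 : ℤ) ^ 2 - 4 * (g.1 : ℤ) ^ l = discr (K D) * (y : ℤ) ^ 2))
      (fun x => by rw [Finset.mem_filter])] at h3
    have h4 : (((TT l N).filter (fun g => ∃ y : ℕ, 1 ≤ y ∧
      (g.2 : ℤ) ^ 2 - 4 * (g.1 : ℤ) ^ l = discr (K D) * (y : ℤ) ^ 2)).card : ℝ) ≤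
      15 * (Nat.card (PI l N (K D)) : ℝ) := by exact_mod_cast h3
    have h5 := hPI l N hN (K D) hK1 (by omega)
    have hab : (0 : ℝ) < |(D : ℝ)| := by
      rw [abs_pos]
      exact_mod_cast hD0.ne
    rw [hK2] at h5
    have hsD : 0 < √|(D : ℝ)| := Real.sqrt_pos.2 hab
    have hsk : √|(D : ℝ)| ≤ √κ := by
      apply Real.sqrt_le_sqrt
      rw [abs_of_neg (by exact_mod_cast hD0)]
      exact hlt.le
    obtain ⟨h, hh⟩ : ∃ h : ℝ, h = (Nat.card {c : ClassGroup (𝓞 (K D)) // c ^ l = 1} : ℝ) := ⟨_, rfl⟩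
    have hh0 : 0 ≤ h := by rw [hh]; positivity
    rw [← hh] at h5 ⊢
    have h6 : (N : ℝ) / √|(D : ℝ)| + 1 ≤ (N + √κ) / √|(D : ℝ)| := by
      rw [add_div]
      have : 1 ≤ √κ / √|(D : ℝ)| := by rwa [one_le_div hsD]
      linarith
    calc _ ≤ 15 * (Nat.card (PI l N (K D)) : ℝ) := h4
      _ ≤ 15 * (C * (N : ℝ) ^ ε * ((N : ℝ) / √|(D : ℝ)| + 1) * h) := by linarith
      _ ≤ 15 * (C * (N : ℝ) ^ ε * ((N + √κ) / √|(D : ℝ)|) * h) := by gcongr
      _ = _ := by ring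
  have hcard : ((RS l N κ).card : ℝ) ≤ ∑ D ∈ S, (((TT l N).filter (fun g => ∃ y : ℕ, 1 ≤ y ∧
      (g.2 : ℤ) ^ 2 - 4 * (g.1 : ℤ) ^ l = discr (K D) * (y : ℤ) ^ 2)).card : ℝ) := by
    exact_mod_cast (Finset.card_le_card hcov).trans Finset.card_biUnion_le
  refine hcard.trans ((Finset.sum_le_sum hone).trans ?_)
  rw [← Finset.mul_sum]
  have h3 := htor κ hκ S K (by
    intro D hD
    obtain ⟨hD0, hF, hlt⟩ := (hSm D).1 hD
    obtain ⟨hK1, hK2⟩ := hK D hD0 hF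
    refine ⟨?_, hK1, hK2⟩
    rw [abs_of_neg (by exact_mod_cast hD0)]
    exact hlt.le)
  calc _ ≤ 15 * C * ((N : ℝ) ^ ε * (N + √κ)) * (C' * κ ^ (1 - 3 / (2 * ((l : ℝ) + 1)) + ε)) :=
        mul_le_mul_of_nonneg_left h3 (by positivity)
    _ = _ := by ring

end Pool.Agent.T2h80.CL
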