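import Pool.Agent.T2h80.CL.Asm
import Pool.Agent.T2h80.CL.BU
import Pool.Agent.T2h80.CL.U2

set_option autoImplicit false

namespace Pool.Agent.T2h80.CL

theorem top : S_FIN := asm0 (t_U2 t_IDF t_FD) (t_BU (t_PR t_NS (t_QM t_NS)) t_NS t_WA t_WL)

end Pool.Agent.T2h80.CL
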