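import Pool.Agent.T2h80.CL.Stm

set_option autoImplicit false

namespace Pool.Agent.T2h80.CL

open Finset

theorem LL_nonneg (a X : ℝ) (hX : 0 ≤ X) (v : ℕ) : 0 ≤ LL a X v := by
  rw [LL, sub_nonneg]
  apply Real.sqrt_le_sqrt
  have : 0 ≤ X * (v : ℝ) ^ 2 := by positivity
  linarith

theorem MM_nonneg (l N : ℕ) (X K : ℝ) (hX : 0 ≤ X) (Q : ℕ) (κ : ℕ → ℝ) (hκ : ∀ e, 0 ≤ κ e)
    (P P' : ℝ) : 0 ≤ MM l N X K Q κ P P' := by
  unfold MM
  apply sum_nonneg
  intro p hp
  apply sum_nonneg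
  intro e he
  apply mul_nonneg (hκ e)
  apply sum_nonneg
  intro v hv
  apply div_nonneg _ (by positivity)
  exact mul_nonneg (Nat.cast_nonneg _) (LL_nonneg _ _ hX _)

theorem MM_add (l N : ℕ) (X K : ℝ) (Q : ℕ) (κ : ℕ → ℝ) {P P' P'' : ℝ} (h1 : P ≤ P')
    (h2 : P' ≤ P'') : MM l N X K Q κ P P'' = MM l N X K Q κ P P' + MM l N X K Q κ P' P'' := by
  classical
  unfold MM
  rw [← sum_union]
  · apply sum_congr _ (fun _ _ => rfl)
    ext p
    simp only [mem_union, mem_filter]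
    constructor
    · rintro ⟨h, hp, h2', h3, h4⟩
      by_cases hc : (p : ℝ) ≤ P'
      · exact Or.inl ⟨h, hp, h2', h3, hc⟩
      · exact Or.inr ⟨h, hp, h2', not_le.mp hc, h4⟩
    · rintro (⟨h, hp, h2', h3, h4⟩ | ⟨h, hp, h2', h3, h4⟩)
      · exact ⟨h, hp, h2', h3, h4.trans h2⟩
      · exact ⟨h, hp, h2', h1.trans_lt h3, h4⟩
  · rw [disjoint_left]
    intro p hp hp'
    rw [mem_filter] at hp hp'
    exact absurd hp.2.2.2.2 (not_le.mpr hp'.2.2.2.1)

theorem MM_top (l N : ℕ) (X K : ℝ) (Q : ℕ) (κ : ℕ → ℝ) {P P' P'' : ℝ} (h1 : (N : ℝ) ≤ P')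
    (h2 : (N : ℝ) ≤ P'') : MM l N X K Q κ P P' = MM l N X K Q κ P P'' := by
  unfold MM
  apply sum_congr _ (fun _ _ => rfl)
  ext p
  simp only [mem_filter, mem_Icc]
  constructor
  · rintro ⟨h, hp, h2', h3, h4⟩
    refine ⟨h, hp, h2', h3, le_trans ?_ h2⟩
    exact_mod_cast h.2
  · rintro ⟨h, hp, h2', h3, h4⟩
    refine ⟨h, hp, h2', h3, le_trans ?_ h1⟩
    exact_mod_cast h.2

theorem sum_inv_sq_le (κ : ℕ → ℝ) (hκ : ∀ e, 0 ≤ κ e ∧ κ e ≤ 1) (Q : ℕ) :
    0 ≤ ∑ e ∈ Icc 1 Q, κ e / (e : ℝ) ^ 2 ∧ ∑ e ∈ Icc 1 Q, κ e / (e : ℝ) ^ 2 ≤ 2 := by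
  constructor
  · exact sum_nonneg fun e _ => div_nonneg (hκ e).1 (by positivity)
  · have h1 : ∀ Q : ℕ, 1 ≤ Q → ∑ e ∈ Icc 1 Q, (1 : ℝ) / (e : ℝ) ^ 2 ≤ 2 - 1 / Q := by
      intro Q hQ
      induction Q, hQ using Nat.le_induction with
      | base => norm_num
      | succ Q hQ ih =>
        rw [Finset.sum_Icc_succ_top (by omega)]
        have hQ0 : (0 : ℝ) < Q := by exact_mod_cast hQ
        have : (1 : ℝ) / ((Q + 1 : ℕ) : ℝ) ^ 2 ≤ 1 / Q - 1 / ((Q + 1 : ℕ) : ℝ) := by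
          push_cast
          rw [div_sub_div _ _ hQ0.ne' (by positivity), div_le_div_iff₀ (by positivity) (by positivity)]
          nlinarith
        linarith
    rcases Nat.eq_zero_or_pos Q with rfl | hQ
    · simp
    · calc ∑ e ∈ Icc 1 Q, κ e / (e : ℝ) ^ 2 ≤ ∑ e ∈ Icc 1 Q, (1 : ℝ) / (e : ℝ) ^ 2 := by
            apply sum_le_sum
            intro e he
            apply div_le_div_of_nonneg_right (hκ e).2 (by positivity)
        _ ≤ 2 - 1 / Q := h1 Q hQ
        _ ≤ 2 := by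
          have : (0 : ℝ) ≤ 1 / Q := by positivity
          linarith

theorem t_V (h1 : S_VA) (h2 : S_BA) (h3 : S_BU) : S_V := by
  intro l θ δ hpar ε hε
  have hθ : 0 < θ := by
    obtain ⟨ho, hl, hθ, -⟩ := hpar
    have : (0 : ℝ) < 1 / (l : ℝ) := by
      have : (5 : ℝ) ≤ l := by exact_mod_cast hl
      positivity
    linarith
  obtain ⟨C, hC, hBU⟩ := h3 l θ δ hpar
  obtain ⟨η, hη, hη1, hBA⟩ := h2 l θ δ hpar (ε / 8) (by positivity)
  set σ₀ : ℝ := min 1 (min (ε / (8 * C)) (ε * θ / (8 * Real.pi))) with hσ₀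
  have hσ₀0 : 0 < σ₀ := by
    have := Real.pi_pos
    rw [hσ₀]
    apply lt_min one_pos
    apply lt_min <;> positivity
  set r : ℝ := 1 / (1 + η) with hr
  have hr0 : 0 < r := by positivity
  have hr1 : r < 1 := by rw [hr, div_lt_one (by positivity)]; linarith
  obtain ⟨J, hJ⟩ := exists_pow_lt_of_lt_one hσ₀0 hr1
  have hrJ : 0 < r ^ J := pow_pos hr0 J
  have hrJ1 : r ^ J ≤ 1 := pow_le_one₀ hr0.le hr1.le
  obtain ⟨X₁, hX₁⟩ := h1 l θ δ hpar (ε / 8) (by positivity)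
  obtain ⟨X₂, hX₂⟩ := hBA (r ^ J) hrJ
  obtain ⟨X₃, hX₃⟩ := hBU (r ^ J) hrJ hrJ1
  refine ⟨max (max X₁ X₂) (max X₃ 3), ?_⟩
  intro X hX κ hκ
  have hXa : X₁ ≤ X := (le_max_left _ _).trans ((le_max_left _ _).trans hX)
  have hXb : X₂ ≤ X := (le_max_right _ _).trans ((le_max_left _ _).trans hX)
  have hXc : X₃ ≤ X := (le_max_left _ _).trans ((le_max_right _ _).trans hX)
  have hX3 : 3 ≤ X := (le_max_right _ _).trans ((le_max_right _ _).trans hX)
  have hX0 : 0 < X := by linarith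
  have hlog : 0 < Real.log X := Real.log_pos (by linarith)
  set T : ℝ := X ^ θ with hT
  have hT0 : 0 < T := Real.rpow_pos_of_pos hX0 θ
  set K := X ^ (1 - 2 * δ) with hK
  set Q := ⌊X ^ δ⌋₊ with hQ
  set N := ⌊T⌋₊ with hN
  set S : ℝ := ∑ e ∈ Icc 1 Q, κ e / (e : ℝ) ^ 2 with hS
  have hNT : (N : ℝ) ≤ T := Nat.floor_le hT0.le
  obtain ⟨hS0, hS2⟩ := sum_inv_sq_le κ hκ Q
  have hlogT : Real.log T = θ * Real.log X := by rw [hT, Real.log_rpow hX0]
  have e1 := hX₁ X hXa κ hκ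
  rw [← hT, ← hK, ← hQ, ← hN] at e1
  have e3 := hX₃ X hXc κ hκ
  rw [← hT, ← hK, ← hQ, ← hN] at e3
  have e3' := MM_nonneg l N X K hX0.le Q κ (fun e => (hκ e).1) 0 (r ^ J * T)
  -- the blocks
  have key : ∀ j : ℕ, j ≤ J → |MM l N X K Q κ (r ^ j * T) T -
      Real.pi / 2 * S * (√X * ((1 - r ^ j) * T) / (θ * Real.log X))| ≤
      ε / 8 * (√X * ((1 - r ^ j) * T) / Real.log X) := by
    intro j
    induction j with
    | zero =>
      intro _
      have : MM l N X K Q κ (r ^ 0 * T) T = 0 := by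
        unfold MM
        rw [pow_zero, one_mul]
        apply sum_eq_zero
        intro p hp
        rw [mem_filter] at hp
        exact absurd hp.2.2.2.2 (not_le.mpr hp.2.2.2.1)
      rw [this]; simp
    | succ j ih =>
      intro hj
      have ih' := ih (by omega)
      have hb := hX₂ X hXb κ hκ (r ^ (j + 1) * T) (by
        rw [← hT]
        apply mul_le_mul_of_nonneg_right _ hT0.le
        exact pow_le_pow_of_le_one hr0.le hr1.le hj) (by
        rw [← hT]
        have : (1 + η) * (r ^ (j + 1) * T) = r ^ j * T := by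
          rw [pow_succ, hr]; field_simp
        rw [this]
        have := pow_le_one₀ hr0.le hr1.le (n := j)
        nlinarith)
      rw [← hT, ← hK, ← hQ, ← hN] at hb
      have e : (1 + η) * (r ^ (j + 1) * T) = r ^ j * T := by
        rw [pow_succ, hr]; field_simp
      have e' : η * (r ^ (j + 1) * T) = (r ^ j - r ^ (j + 1)) * T := by
        have : η * (r ^ (j + 1) * T) = (1 + η) * (r ^ (j + 1) * T) - r ^ (j + 1) * T := by ring
        rw [this, e]; ring
      rw [e, e', hlogT] at hb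
      have hjj : r ^ (j + 1) * T ≤ r ^ j * T :=
        mul_le_mul_of_nonneg_right (pow_le_pow_of_le_one hr0.le hr1.le (Nat.le_succ j)) hT0.le
      have hj1 : r ^ j * T ≤ T := by
        have := pow_le_one₀ hr0.le hr1.le (n := j)
        nlinarith
      rw [MM_add l N X K Q κ hjj hj1]
      have := abs_add_le (MM l N X K Q κ (r ^ (j + 1) * T) (r ^ j * T) -
        Real.pi / 2 * S * (√X * ((r ^ j - r ^ (j + 1)) * T) / (θ * Real.log X)))
        (MM l N X K Q κ (r ^ j * T) T -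
          Real.pi / 2 * S * (√X * ((1 - r ^ j) * T) / (θ * Real.log X)))
      have e2 : MM l N X K Q κ (r ^ (j + 1) * T) (r ^ j * T) -
        Real.pi / 2 * S * (√X * ((r ^ j - r ^ (j + 1)) * T) / (θ * Real.log X)) +
        (MM l N X K Q κ (r ^ j * T) T -
          Real.pi / 2 * S * (√X * ((1 - r ^ j) * T) / (θ * Real.log X))) =
        MM l N X K Q κ (r ^ (j + 1) * T) (r ^ j * T) + MM l N X K Q κ (r ^ j * T) T -
          Real.pi / 2 * S * (√X * ((1 - r ^ (j + 1)) * T) / (θ * Real.log X)) := by ring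
      rw [e2] at this
      refine this.trans ((add_le_add hb ih').trans (le_of_eq ?_))
      ring
  have hkey := key J le_rfl
  have hadd : MM l N X K Q κ 0 N = MM l N X K Q κ 0 (r ^ J * T) + MM l N X K Q κ (r ^ J * T) T := by
    rw [MM_top l N X K Q κ le_rfl hNT]
    apply MM_add
    · positivity
    · nlinarith
  set Y : ℝ := √X * T / Real.log X with hY
  have hY0 : 0 < Y := by positivity
  have hσC : C * r ^ J ≤ ε / 8 := by
    have : σ₀ ≤ ε / (8 * C) := (min_le_right _ _).trans (min_le_left _ _)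
    calc C * r ^ J ≤ C * (ε / (8 * C)) := by gcongr; linarith
      _ = ε / 8 := by field_simp
  have hσπ : Real.pi / (2 * θ) * 2 * r ^ J ≤ ε / 8 := by
    have : σ₀ ≤ ε * θ / (8 * Real.pi) := (min_le_right _ _).trans (min_le_right _ _)
    have hpi := Real.pi_pos
    calc Real.pi / (2 * θ) * 2 * r ^ J ≤ Real.pi / (2 * θ) * 2 * (ε * θ / (8 * Real.pi)) := by
          gcongr; linarith
      _ = ε / 8 := by field_simp
  have f1 : MM l N X K Q κ 0 (r ^ J * T) ≤ ε / 8 * Y := by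
    refine e3.trans ?_
    have : C * r ^ J * (√X * T / Real.log X) ≤ ε / 8 * Y := by
      rw [← hY]; exact mul_le_mul_of_nonneg_right hσC hY0.le
    exact this
  have f2 : ε / 8 * (√X * ((1 - r ^ J) * T) / Real.log X) ≤ ε / 8 * Y := by
    apply mul_le_mul_of_nonneg_left _ (by positivity)
    rw [hY]
    have : (1 - r ^ J) * T ≤ T := by nlinarith
    gcongr
  have f3 : Real.pi / 2 * S * (√X * ((1 - r ^ J) * T) / (θ * Real.log X)) =
      Real.pi / (2 * θ) * S * Y - Real.pi / (2 * θ) * S * r ^ J * Y := by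
    rw [hY]; field_simp
  have f4 : 0 ≤ Real.pi / (2 * θ) * S * r ^ J * Y := by
    have hpi := Real.pi_pos
    positivity
  have f5 : Real.pi / (2 * θ) * S * r ^ J * Y ≤ ε / 8 * Y := by
    apply mul_le_mul_of_nonneg_right _ hY0.le
    refine le_trans ?_ hσπ
    have hpi := Real.pi_pos
    gcongr
  rw [abs_le] at e1 hkey ⊢
  rw [hadd] at e1
  rw [f3] at hkey
  constructor <;> nlinarith [e1.1, e1.2, hkey.1, hkey.2]

end Pool.Agent.T2h80.CL
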